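import Pool.Agent.Helper55.RR.Defs

/-!
# A1. A universal oracle function

Define an inductive type `OCode` of codes (zero, succ, left, right, oracle, pair, comp, prec, rfind),
`eval : OCode → (ℕ → ℕ) → (ℕ →. ℕ)` by the clauses of `Nat.RecursiveIn`.
`Nat.RecursiveIn {X} f ↔ ∃ c, eval c X = f` by induction.
Finite use: `v ∈ eval c X n → ∃ m, ∀ Y, (∀ i < m, Y i = X i) → v ∈ eval c Y n` by induction on `c`
(for `prec` induction on the recursion argument, for `rfind` use `Nat.mem_rfind`).
`U e n s := v + 1` if `s = cd X m` for some `X m`, and `v ∈ eval c X n` for all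
`X m` with `cd X m = s` (`c` the code with number `e`); and `0` otherwise.
-/

set_option autoImplicit false

namespace Pool.Agent.RR

open Classical

/-- codes of initial segments determine the segments -/
theorem cd_inj {X Y : ℕ → ℕ} {m m' : ℕ} (h : cd X m = cd Y m') : m = m' ∧ ∀ i < m, X i = Y i := by
  induction m generalizing m' with
  | zero =>
    cases m' with
    | zero => exact ⟨rfl, fun i hi => absurd hi (Nat.not_lt_zero i)⟩
    | succ m' => exact absurd h (by simp [cd])
  | succ m ih =>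
    cases m' with
    | zero => exact absurd h (by simp [cd])
    | succ m' =>
      simp only [cd, Nat.succ_inj, Nat.pair_eq_pair] at h
      obtain ⟨h1, h2⟩ := ih h.2
      subst h1
      refine ⟨rfl, fun i hi => ?_⟩
      rcases Nat.lt_succ_iff_lt_or_eq.mp hi with h3 | h3
      · exact h2 i h3
      · rw [h3]; exact h.1

theorem cd_congr {X Y : ℕ → ℕ} {m : ℕ} (h : ∀ i < m, X i = Y i) : cd X m = cd Y m := by
  induction m with
  | zero => rfl
  | succ m ih =>
    simp only [cd]
    rw [ih (fun i hi => h i (Nat.lt_succ_of_lt hi)), h m (Nat.lt_succ_self m)]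

/-- codes of oracle programs -/
inductive OCode : Type
  | zero : OCode
  | succ : OCode
  | left : OCode
  | right : OCode
  | oracle : OCode
  | pair : OCode → OCode → OCode
  | comp : OCode → OCode → OCode
  | prec : OCode → OCode → OCode
  | rfind : OCode → OCode
  deriving Countable

/-- evaluation of oracle programs -/
noncomputable def OCode.eval : OCode → (ℕ → ℕ) → (ℕ →. ℕ)
  | .zero, _ => fun _ => 0
  | .succ, _ => Nat.succ
  | .left, _ => fun n => (Nat.unpair n).1
  | .right, _ => fun n => (Nat.unpair n).2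
  | .oracle, X => fun n => Part.some (X n)
  | .pair f h, X => fun n => (Nat.pair <$> f.eval X n <*> h.eval X n)
  | .comp f h, X => fun n => h.eval X n >>= f.eval X
  | .prec f h, X => fun p =>
      let (a, n) := Nat.unpair p
      n.rec (f.eval X a) fun y IH => do
        let i ← IH
        h.eval X (Nat.pair a (Nat.pair y i))
  | .rfind f, X => fun a => Nat.rfind fun n => (fun m => m = 0) <$> f.eval X (Nat.pair a n)

theorem OCode.recursiveIn (c : OCode) (X : ℕ → ℕ) :
    Nat.RecursiveIn {fun n => Part.some (X n)} (c.eval X) := by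
  induction c with
  | zero => exact .zero
  | succ => exact .succ
  | left => exact .left
  | right => exact .right
  | oracle => exact .oracle _ rfl
  | pair f h hf hh => exact .pair hf hh
  | comp f h hf hh => exact .comp hf hh
  | prec f h hf hh => exact .prec hf hh
  | rfind f hf => exact .rfind hf

theorem OCode.exists_code {X : ℕ → ℕ} {f : ℕ →. ℕ}
    (hf : Nat.RecursiveIn {fun n => Part.some (X n)} f) : ∃ c : OCode, c.eval X = f := by
  induction hf with
  | zero => exact ⟨.zero, rfl⟩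
  | succ => exact ⟨.succ, rfl⟩
  | left => exact ⟨.left, rfl⟩
  | right => exact ⟨.right, rfl⟩
  | oracle g hg => exact ⟨.oracle, hg.symm⟩
  | pair _ _ ihf ihh =>
    obtain ⟨c, rfl⟩ := ihf
    obtain ⟨d, rfl⟩ := ihh
    exact ⟨.pair c d, rfl⟩
  | comp _ _ ihf ihh =>
    obtain ⟨c, rfl⟩ := ihf
    obtain ⟨d, rfl⟩ := ihh
    exact ⟨.comp c d, rfl⟩
  | prec _ _ ihf ihh =>
    obtain ⟨c, rfl⟩ := ihf
    obtain ⟨d, rfl⟩ := ihh
    exact ⟨.prec c d, rfl⟩
  | rfind _ ihf =>
    obtain ⟨c, rfl⟩ := ihf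
    exact ⟨.rfind c, rfl⟩

/-- one step of the recursion -/
noncomputable def OCode.precAux (f h : OCode) (X : ℕ → ℕ) (a : ℕ) : ℕ → Part ℕ
  | 0 => f.eval X a
  | y + 1 => (OCode.precAux f h X a y).bind fun i => h.eval X (Nat.pair a (Nat.pair y i))

theorem OCode.eval_prec (f h : OCode) (X : ℕ → ℕ) (p : ℕ) :
    (OCode.prec f h).eval X p = OCode.precAux f h X p.unpair.1 p.unpair.2 := by
  change (Nat.rec (f.eval X p.unpair.1) (fun y IH => IH.bind fun i =>
    h.eval X (Nat.pair p.unpair.1 (Nat.pair y i))) p.unpair.2 : Part ℕ) = _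
  induction p.unpair.2 with
  | zero => rfl
  | succ y ih =>
    simp only [OCode.precAux]
    rw [← ih]

theorem OCode.use (c : OCode) (X : ℕ → ℕ) : ∀ n v, v ∈ c.eval X n →
    ∃ m, ∀ Y : ℕ → ℕ, (∀ i < m, Y i = X i) → v ∈ c.eval Y n := by
  induction c with
  | zero => exact fun n v h => ⟨0, fun Y _ => h⟩
  | succ => exact fun n v h => ⟨0, fun Y _ => h⟩
  | left => exact fun n v h => ⟨0, fun Y _ => h⟩
  | right => exact fun n v h => ⟨0, fun Y _ => h⟩
  | oracle =>
    intro n v h
    refine ⟨n + 1, fun Y hY => ?_⟩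
    change v ∈ Part.some (Y n)
    rw [hY n (Nat.lt_succ_self n)]
    exact h
  | pair f h hf hh =>
    intro n v hv
    simp only [OCode.eval, Seq.seq, Part.map_eq_map, Part.bind_map, Part.mem_bind_iff,
      Part.mem_map_iff] at hv
    obtain ⟨a, ha, b, hb, hab⟩ := hv
    obtain ⟨m1, h1⟩ := hf n a ha
    obtain ⟨m2, h2⟩ := hh n b hb
    refine ⟨max m1 m2, fun Y hY => ?_⟩
    simp only [OCode.eval, Seq.seq, Part.map_eq_map, Part.bind_map, Part.mem_bind_iff,
      Part.mem_map_iff]
    exact ⟨a, h1 Y (fun i hi => hY i (lt_of_lt_of_le hi (le_max_left _ _))), b,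
      h2 Y (fun i hi => hY i (lt_of_lt_of_le hi (le_max_right _ _))), hab⟩
  | comp f h hf hh =>
    intro n v hv
    change v ∈ (h.eval X n).bind (f.eval X) at hv
    rw [Part.mem_bind_iff] at hv
    obtain ⟨a, ha, hb⟩ := hv
    obtain ⟨m1, h1⟩ := hh n a ha
    obtain ⟨m2, h2⟩ := hf a v hb
    refine ⟨max m1 m2, fun Y hY => ?_⟩
    change v ∈ (h.eval Y n).bind (f.eval Y)
    rw [Part.mem_bind_iff]
    exact ⟨a, h1 Y (fun i hi => hY i (lt_of_lt_of_le hi (le_max_left _ _))),
      h2 Y (fun i hi => hY i (lt_of_lt_of_le hi (le_max_right _ _)))⟩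
  | prec f h hf hh =>
    intro n v hv
    rw [OCode.eval_prec] at hv
    suffices hsuf : ∃ m, ∀ Y : ℕ → ℕ, (∀ i < m, Y i = X i) →
        v ∈ OCode.precAux f h Y n.unpair.1 n.unpair.2 by
      obtain ⟨m, hm⟩ := hsuf
      exact ⟨m, fun Y hY => by rw [OCode.eval_prec]; exact hm Y hY⟩
    generalize n.unpair.1 = a at hv ⊢
    generalize n.unpair.2 = k at hv ⊢
    induction k generalizing v with
    | zero => exact hf a v hv
    | succ y ih =>
      simp only [OCode.precAux, Part.mem_bind_iff] at hv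
      obtain ⟨i, hi, hv⟩ := hv
      obtain ⟨m1, h1⟩ := ih i hi
      obtain ⟨m2, h2⟩ := hh _ v hv
      refine ⟨max m1 m2, fun Y hY => ?_⟩
      simp only [OCode.precAux, Part.mem_bind_iff]
      exact ⟨i, h1 Y (fun i hi => hY i (lt_of_lt_of_le hi (le_max_left _ _))),
        h2 Y (fun i hi => hY i (lt_of_lt_of_le hi (le_max_right _ _)))⟩
  | rfind f hf =>
    intro n v hv
    change v ∈ Nat.rfind fun k => (fun m => decide (m = 0)) <$> f.eval X (Nat.pair n k) at hv
    rw [Nat.mem_rfind] at hv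
    obtain ⟨h1, h2⟩ := hv
    have h3 : ∀ k ≤ v, ∃ w ∈ f.eval X (Nat.pair n k), decide (w = 0) = decide (k = v) := by
      intro k hk
      rcases Nat.lt_or_ge k v with h | h
      · have h4 := h2 h
        rw [Part.map_eq_map, Part.mem_map_iff] at h4
        obtain ⟨w, hw, hw'⟩ := h4
        refine ⟨w, hw, ?_⟩
        rw [hw']
        simp [Nat.ne_of_lt h]
      · have hkv : k = v := le_antisymm hk h
        rw [Part.map_eq_map, Part.mem_map_iff] at h1
        obtain ⟨w, hw, hw'⟩ := h1
        refine ⟨w, hkv ▸ hw, ?_⟩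
        rw [hw']
        simp [hkv]
    have h4 : ∀ k, ∃ m, k ≤ v → ∃ w, decide (w = 0) = decide (k = v) ∧
        ∀ Y : ℕ → ℕ, (∀ i < m, Y i = X i) → w ∈ f.eval Y (Nat.pair n k) := by
      intro k
      by_cases hk : k ≤ v
      · obtain ⟨w, hw, hw'⟩ := h3 k hk
        obtain ⟨m, hm⟩ := hf _ w hw
        exact ⟨m, fun _ => ⟨w, hw', hm⟩⟩
      · exact ⟨0, fun h => absurd h hk⟩
    choose M hM using h4
    refine ⟨(Finset.range (v + 1)).sup M, fun Y hY => ?_⟩
    have h5 : ∀ k ≤ v, ∃ w ∈ f.eval Y (Nat.pair n k), decide (w = 0) = decide (k = v) := by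
      intro k hk
      obtain ⟨w, hw, hw'⟩ := hM k hk
      refine ⟨w, hw' Y (fun i hi => hY i (lt_of_lt_of_le hi ?_)), hw⟩
      exact Finset.le_sup (f := M) (Finset.mem_range.mpr (Nat.lt_succ_of_le hk))
    change v ∈ Nat.rfind fun k => (fun m => decide (m = 0)) <$> f.eval Y (Nat.pair n k)
    rw [Nat.mem_rfind]
    constructor
    · obtain ⟨w, hw, hw'⟩ := h5 v le_rfl
      rw [Part.map_eq_map, Part.mem_map_iff]
      exact ⟨w, hw, by rw [hw']; simp⟩
    · intro k hk
      obtain ⟨w, hw, hw'⟩ := h5 k hk.le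
      rw [Part.map_eq_map, Part.mem_map_iff]
      exact ⟨w, hw, by rw [hw']; simp [Nat.ne_of_lt hk]⟩

/-- the universal function attached to an enumeration of the codes -/
noncomputable def UU (dec : ℕ → OCode) (e n s : ℕ) : ℕ :=
  if h : ∃ v, (∃ X m, cd X m = s) ∧ ∀ X m, cd X m = s → v ∈ (dec e).eval X n then h.choose + 1
  else 0

theorem UU_eq (dec : ℕ → OCode) (e n : ℕ) (X : ℕ → ℕ) (m v : ℕ) :
    UU dec e n (cd X m) = v + 1 ↔
      ∀ Y : ℕ → ℕ, (∀ i < m, Y i = X i) → v ∈ (dec e).eval Y n := by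
  unfold UU
  constructor
  · intro h Y hY
    by_cases h0 : ∃ v, (∃ X' m', cd X' m' = cd X m) ∧
        ∀ X' m', cd X' m' = cd X m → v ∈ (dec e).eval X' n
    · rw [dif_pos h0] at h
      have h1 : h0.choose = v := Nat.succ_injective h
      have h2 := h0.choose_spec.2 Y m (cd_congr hY)
      rwa [h1] at h2
    · rw [dif_neg h0] at h
      exact absurd h (by simp)
  · intro h
    have h0 : ∃ v, (∃ X' m', cd X' m' = cd X m) ∧
        ∀ X' m', cd X' m' = cd X m → v ∈ (dec e).eval X' n := by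
      refine ⟨v, ⟨X, m, rfl⟩, fun X' m' hX' => ?_⟩
      obtain ⟨h1, h2⟩ := cd_inj hX'
      exact h X' (fun i hi => h2 i (h1 ▸ hi))
    rw [dif_pos h0]
    have h1 := h0.choose_spec.2 X m rfl
    rw [Part.mem_unique h1 (h X (fun _ _ => rfl))]

theorem exists_universal : ∃ U : ℕ → ℕ → ℕ → ℕ, Universal U := by
  have : Nonempty OCode := ⟨.zero⟩
  obtain ⟨dec, hdec⟩ := exists_surjective_nat OCode
  have key : ∀ (X : ℕ → ℕ) (e n v : ℕ),
      v ∈ (dec e).eval X n ↔ ∃ m, UU dec e n (cd X m) = v + 1 := by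
    intro X e n v
    constructor
    · intro h
      obtain ⟨m, hm⟩ := (dec e).use X n v h
      exact ⟨m, (UU_eq dec e n X m v).mpr hm⟩
    · rintro ⟨m, hm⟩
      exact (UU_eq dec e n X m v).mp hm X (fun _ _ => rfl)
  refine ⟨UU dec, ?_, ?_⟩
  · intro X f
    constructor
    · intro hf
      obtain ⟨c, rfl⟩ := OCode.exists_code hf
      obtain ⟨e, rfl⟩ := hdec c
      exact ⟨e, key X e⟩
    · rintro ⟨e, he⟩
      have h1 : (dec e).eval X = f := by
        funext n
        apply Part.ext
        intro v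
        rw [key X e n v, he n v]
      rw [← h1]
      exact (dec e).recursiveIn X
  · intro e n X m m' hmm h
    obtain ⟨v, hv⟩ := Nat.exists_eq_succ_of_ne_zero h
    rw [hv]
    rw [UU_eq] at hv
    exact (UU_eq dec e n X m' v).mpr (fun Y hY => hv Y (fun i hi => hY i (lt_of_lt_of_le hi hmm)))

theorem U_universal : Universal U := by
  unfold U
  rw [dif_pos exists_universal]
  exact exists_universal.choose_spec

end Pool.Agent.RR
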