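import Pool.Agent.Helper55.RR.Defs

/-!
# A2. Basic facts on `Red` and `Cone`

All from the constructors of `Nat.RecursiveIn` and Mathlib lemmas (`Nat.RecursiveIn.subst`,
`Nat.Partrec.recursiveIn`, ...).
-/

set_option autoImplicit false

namespace Pool.Agent.RR

open Classical

@[simp] theorem lft_join (X Y : ℕ → ℕ) : lft (join X Y) = X := by
  funext n
  unfold lft join
  rw [if_pos (by omega)]
  congr 1
  omega

@[simp] theorem rgt_join (X Y : ℕ → ℕ) : rgt (join X Y) = Y := by
  funext n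
  unfold rgt join
  rw [if_neg (by omega)]
  congr 1
  omega

@[simp] theorem join_lft_rgt (X : ℕ → ℕ) : join (lft X) (rgt X) = X := by
  funext n
  unfold join
  by_cases h : n % 2 = 0
  · rw [if_pos h]
    exact congrArg X (by omega : 2 * (n / 2) = n)
  · rw [if_neg h]
    exact congrArg X (by omega : 2 * (n / 2) + 1 = n)

theorem Red.refl (X : ℕ → ℕ) : Red X X :=
  Nat.RecursiveIn.oracle _ rfl

theorem Red.trans {X Y Z : ℕ → ℕ} (h1 : Red X Y) (h2 : Red Y Z) : Red X Z := by
  refine Nat.RecursiveIn.subst h1 ?_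
  rintro g rfl
  exact h2

/-- total recursive functions are reducible to everything -/
theorem red_of_partrec {f : ℕ → ℕ} (hf : Nat.Partrec (fun n => Part.some (f n))) (X : ℕ → ℕ) :
    Red f X := hf.recursiveIn

/-- primitive recursive functions are reducible to everything -/
theorem red_of_primrec {f : ℕ → ℕ} (hf : Primrec f) (X : ℕ → ℕ) : Red f X :=
  red_of_partrec (Nat.Partrec.of_primrec (Primrec.nat_iff.mp hf)) X

theorem red_const (a : ℕ) (X : ℕ → ℕ) : Red (fun _ => a) X :=
  red_of_primrec (Primrec.const a) X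

theorem red_comp {X Y Z : ℕ → ℕ} (h : Red X Z) (h' : Red Y Z) : Red (fun n => X (Y n)) Z := by
  refine Nat.RecursiveIn.of_eq (Nat.RecursiveIn.comp h h') ?_
  intro n
  exact Part.bind_some _ _

theorem red_pair {X Y Z : ℕ → ℕ} (h : Red X Z) (h' : Red Y Z) :
    Red (fun n => Nat.pair (X n) (Y n)) Z := by
  refine Nat.RecursiveIn.of_eq (Nat.RecursiveIn.pair h h') ?_
  intro n
  simp [Seq.seq]

theorem red_left (Z : ℕ → ℕ) : Red (fun n => n.unpair.1) Z := .left

theorem red_right (Z : ℕ → ℕ) : Red (fun n => n.unpair.2) Z := .right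

theorem red_lft (X : ℕ → ℕ) : Red (lft X) X :=
  red_comp (X := X) (Red.refl X) (red_of_primrec (Primrec.nat_mul.comp (Primrec.const 2) Primrec.id) X)

theorem red_rgt (X : ℕ → ℕ) : Red (rgt X) X :=
  red_comp (X := X) (Red.refl X) (red_of_primrec (Primrec.nat_add.comp
    (Primrec.nat_mul.comp (Primrec.const 2) Primrec.id) (Primrec.const 1)) X)

theorem join_red {X Y Z : ℕ → ℕ} (h : Red X Z) (h' : Red Y Z) : Red (join X Y) Z := by
  have hF : Primrec (fun k : ℕ => if k.unpair.1 % 2 = 0 then k.unpair.2.unpair.1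
      else k.unpair.2.unpair.2) := by
    refine Primrec.ite ?_ ?_ ?_
    · exact Primrec.eq.comp (Primrec.nat_mod.comp (Primrec.fst.comp Primrec.unpair)
        (Primrec.const 2)) (Primrec.const 0)
    · exact Primrec.fst.comp (Primrec.unpair.comp (Primrec.snd.comp Primrec.unpair))
    · exact Primrec.snd.comp (Primrec.unpair.comp (Primrec.snd.comp Primrec.unpair))
  have hhalf : Red (fun n => n / 2) Z :=
    red_of_primrec (Primrec.nat_div.comp Primrec.id (Primrec.const 2)) Z
  have h1 := red_comp (red_of_primrec hF Z)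
    (red_pair (red_of_primrec Primrec.id Z) (red_pair (red_comp h hhalf) (red_comp h' hhalf)))
  have h2 : join X Y = fun n => if (Nat.pair (id n) (Nat.pair (X (n / 2)) (Y (n / 2)))).unpair.1 % 2 = 0
      then (Nat.pair (id n) (Nat.pair (X (n / 2)) (Y (n / 2)))).unpair.2.unpair.1
      else (Nat.pair (id n) (Nat.pair (X (n / 2)) (Y (n / 2)))).unpair.2.unpair.2 := by
    funext n
    simp [join]
  rw [h2]
  exact h1

theorem red_join_left (X Y : ℕ → ℕ) : Red X (join X Y) := by
  have h := red_lft (join X Y)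
  rwa [lft_join] at h

theorem red_join_right (X Y : ℕ → ℕ) : Red Y (join X Y) := by
  have h := red_rgt (join X Y)
  rwa [rgt_join] at h

/-- the function coding the initial segments of `X` is reducible to `X` -/
theorem red_cd (X : ℕ → ℕ) : Red (cd X) X := by
  have hg : Red (fun k => Nat.succ (Nat.pair (X k.unpair.2.unpair.1) k.unpair.2.unpair.2)) X := by
    have h1 : Red (fun k => X k.unpair.2.unpair.1) X :=
      red_comp (Red.refl X) (red_comp (red_left X) (red_right X))
    exact red_comp (X := Nat.succ) (red_of_primrec Primrec.succ X)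
      (red_pair h1 (red_comp (red_right X) (red_right X)))
  have h2 := Nat.RecursiveIn.prec (red_const 0 X) hg
  have h3 : Red (fun n => Nat.pair 0 n) X := red_pair (red_const 0 X) (red_of_primrec Primrec.id X)
  refine Nat.RecursiveIn.of_eq (Nat.RecursiveIn.comp h2 h3) ?_
  intro n
  change (Part.some (Nat.pair 0 n)).bind _ = _
  rw [Part.bind_some]
  simp only [Nat.unpair_pair]
  induction n with
  | zero => rfl
  | succ n ih =>
    change Part.bind _ _ = _
    rw [ih, Part.bind_some]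
    rfl

/-- the search function -/
theorem red_mu {θ Z : ℕ → ℕ} (hθ : Red θ Z) :
    Nat.RecursiveIn {fun n => Part.some (Z n)}
      (fun n => Nat.rfind fun m => Part.some (decide (θ (Nat.pair n m) ≠ 0))) := by
  have h1 : Primrec (fun k : ℕ => if k = 0 then 1 else 0) :=
    Primrec.ite (Primrec.eq.comp Primrec.id (Primrec.const 0)) (Primrec.const 1) (Primrec.const 0)
  have h2 : Red (fun k => if θ k = 0 then 1 else 0) Z := red_comp (red_of_primrec h1 Z) hθ
  refine Nat.RecursiveIn.of_eq (Nat.RecursiveIn.rfind h2) ?_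
  intro n
  congr 1
  funext m
  rw [Part.map_eq_map, Part.map_some]
  congr 1
  by_cases h : θ (Nat.pair n m) = 0 <;> simp [h]

/-- unbounded search: if `∀ n, ∃ m, θ ⟨n, m⟩ ≠ 0` and `f n + 1 = θ ⟨n, m⟩` for the least such `m`,
then `f ≤ θ` -/
theorem red_search {θ f Z : ℕ → ℕ} (hθ : Red θ Z)
    (h : ∀ n, ∃ m, θ (Nat.pair n m) = f n + 1 ∧ ∀ m' < m, θ (Nat.pair n m') = 0) : Red f Z := by
  choose μ hμ1 hμ2 using h
  have h1 : Red μ Z := by
    refine Nat.RecursiveIn.of_eq (red_mu hθ) ?_
    intro n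
    rw [Part.eq_some_iff, Nat.mem_rfind]
    constructor
    · rw [Part.mem_some_iff, hμ1 n]
      simp
    · intro m hm
      rw [Part.mem_some_iff, hμ2 n m hm]
      simp
  have h2 : Red (fun n => Nat.pred (θ (Nat.pair (id n) (μ n)))) Z :=
    red_comp (X := Nat.pred) (red_of_primrec Primrec.pred Z)
      (red_comp hθ (red_pair (red_of_primrec Primrec.id Z) h1))
  have h3 : f = fun n => Nat.pred (θ (Nat.pair (id n) (μ n))) := by
    funext n
    rw [id, hμ1 n]
    rfl
  rw [h3]
  exact h2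

/-- the domain of the search is the domain of a partial recursive function in `Z` -/
theorem rec_search {θ Z : ℕ → ℕ} (hθ : Red θ Z) :
    ∃ f : ℕ →. ℕ, Nat.RecursiveIn {fun n => Part.some (Z n)} f ∧
      ∀ n, (f n).Dom ↔ ∃ m, θ (Nat.pair n m) ≠ 0 := by
  refine ⟨_, red_mu hθ, ?_⟩
  intro n
  rw [Nat.rfind_dom]
  constructor
  · rintro ⟨m, hm, -⟩
    refine ⟨m, ?_⟩
    rw [Part.mem_some_iff] at hm
    exact of_decide_eq_true hm.symm
  · rintro ⟨m, hm⟩
    refine ⟨m, ?_, fun _ => trivial⟩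
    rw [Part.mem_some_iff]
    simp [hm]

theorem Cone.mono {P Q : (ℕ → ℕ) → Prop} (h : Cone P) (hPQ : ∀ Y, P Y → Q Y) : Cone Q := by
  obtain ⟨F, hF⟩ := h
  exact ⟨F, fun Y hY => hPQ Y (hF Y hY)⟩

theorem Cone.of_forall {P : (ℕ → ℕ) → Prop} (h : ∀ Y, P Y) : Cone P :=
  ⟨fun _ => 0, fun Y _ => h Y⟩

theorem Cone.and {P Q : (ℕ → ℕ) → Prop} (h : Cone P) (h' : Cone Q) :
    Cone (fun Y => P Y ∧ Q Y) := by
  obtain ⟨F, hF⟩ := h
  obtain ⟨G, hG⟩ := h'
  exact ⟨join F G, fun Y hY => ⟨hF Y ((red_join_left F G).trans hY),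
    hG Y ((red_join_right F G).trans hY)⟩⟩

/-- countably many reals have an upper bound -/
theorem exists_upper (G : ℕ → ℕ → ℕ) : ∃ F : ℕ → ℕ, ∀ n, Red (G n) F := by
  refine ⟨fun k => G k.unpair.1 k.unpair.2, fun n => ?_⟩
  have h1 := red_comp (Red.refl (fun k => G k.unpair.1 k.unpair.2))
    (red_pair (red_const n _) (red_of_primrec Primrec.id (fun k => G k.unpair.1 k.unpair.2)))
  have h2 : G n = fun k => (fun k : ℕ => G k.unpair.1 k.unpair.2) (Nat.pair n (id k)) := by
    funext k
    simp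
  rw [h2]
  exact h1

theorem cone_forall {P : ℕ → (ℕ → ℕ) → Prop} (h : ∀ n, Cone (P n)) :
    Cone (fun Y => ∀ n, P n Y) := by
  choose G hG using h
  obtain ⟨F, hF⟩ := exists_upper G
  exact ⟨F, fun Y hY n => hG n Y ((hF n).trans hY)⟩

/-- cones are closed upwards: if `P` holds on a cone then on a cone of `Y` it holds for all `Y'`
above `Y` -/
theorem Cone.up {P : (ℕ → ℕ) → Prop} (h : Cone P) : Cone (fun Y => ∀ Y', Red Y Y' → P Y') := by
  obtain ⟨F, hF⟩ := h
  exact ⟨F, fun Y hY Y' hY' => hF Y' (hY.trans hY')⟩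

end Pool.Agent.RR
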