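import Pool.Agent.Helper55.RR.A1
import Pool.Agent.Helper55.RR.A2

/-!
# A3. Continuity lemma, open set lemma, jump

`cont`: let `F ⟨n, s⟩ = v + 1` if `s = cd Y m` for some `Y m` and `Φ Y n = v` for all `Y m` with
`cd Y m = s`; otherwise `0`.  If `F ≤ Y` and `Φ` is continuous at `Y` then `Φ Y` is found by search:
`θ ⟨n, m⟩ = F ⟨n, cd Y m⟩` is `≤ Y` (`red_comp`, `red_cd`, `red_pair`), apply `red_search`.

`sig`: `F ⟨n, s⟩ = 1` if (`s = cd Y m` for some `Y m` and `Y ∈ O n` for all `Y m` with `cd Y m = s`).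
For `F ≤ Y`: `Y ∈ O n ↔ ∃ m, F ⟨n, cd Y m⟩ ≠ 0` (openness); by `rec_search` and `U_universal` there is
an index `e` with `Y ∈ O n ↔ J Y ⟨e, n⟩ = 1`.

`red_J`: for every `X` (no cone needed): the partial function `⟨n, v⟩ ↦ 0` if `X n = v`, undefined
otherwise, is recursive in `X`, so there is `e` with `X n = v ↔ J X ⟨e, ⟨n, v⟩⟩ = 1`; then search.

`J_mono`: `O_{⟨a,k⟩}` = set of all `Y` such that there is `X` computed by the `a`-th functional on a
long enough initial segment, with `J X k = 1`; formally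
`{Y | ∃ X m M, (∀ i < m, U a i (cd Y M) = X i + 1) ∧ U k.1 k.2 (cd X m) ≠ 0}` is open; use `sig`.
-/

set_option autoImplicit false

namespace Pool.Agent.RR

open Classical

theorem isOpen_iff_agree (O : Set (ℕ → ℕ)) :
    IsOpen O ↔ ∀ Y ∈ O, ∃ m, ∀ Y' : ℕ → ℕ, (∀ i < m, Y' i = Y i) → Y' ∈ O := by
  constructor
  · intro hO Y hY
    rw [isOpen_pi_iff] at hO
    obtain ⟨I, u, hu, hsub⟩ := hO Y hY
    refine ⟨I.sup id + 1, fun Y' hY' => hsub ?_⟩
    intro i hi
    rw [hY' i (Nat.lt_succ_of_le (Finset.le_sup (f := id) hi))]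
    exact (hu i hi).2
  · intro h
    rw [isOpen_pi_iff]
    intro Y hY
    obtain ⟨m, hm⟩ := h Y hY
    refine ⟨Finset.range m, fun i => {Y i}, fun i _ => ⟨isOpen_discrete _, rfl⟩, ?_⟩
    intro Y' hY'
    exact hm Y' (fun i hi => hY' i (Finset.mem_coe.mpr (Finset.mem_range.mpr hi)))

theorem continuous_lft : Continuous lft :=
  continuous_pi fun n => continuous_apply (2 * n)

theorem continuous_rgt : Continuous rgt :=
  continuous_pi fun n => continuous_apply (2 * n + 1)

theorem continuous_join : Continuous (fun p : (ℕ → ℕ) × (ℕ → ℕ) => join p.1 p.2) := by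
  refine continuous_pi fun n => ?_
  by_cases h : n % 2 = 0
  · simp only [join, if_pos h]
    exact (continuous_apply (n / 2)).comp continuous_fst
  · simp only [join, if_neg h]
    exact (continuous_apply (n / 2)).comp continuous_snd

/-- every operator is computable relative to a cone at its points of continuity -/
theorem cont (Φ : (ℕ → ℕ) → ℕ → ℕ) :
    Cone fun Y => (∀ n, ∃ m, ∀ Y' : ℕ → ℕ, (∀ i < m, Y' i = Y i) → Φ Y' n = Φ Y n) →
      Red (Φ Y) Y := by
  let P : ℕ → ℕ → Prop := fun k v => (∃ Y m, cd Y m = k.unpair.2) ∧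
    ∀ Y m, cd Y m = k.unpair.2 → Φ Y k.unpair.1 = v
  let F : ℕ → ℕ := fun k => if h : ∃ v, P k v then h.choose + 1 else 0
  have hF : ∀ Y n m v, F (Nat.pair n (cd Y m)) = v + 1 ↔
      ∀ Y' : ℕ → ℕ, (∀ i < m, Y' i = Y i) → Φ Y' n = v := by
    intro Y n m v
    have hP : ∀ v, P (Nat.pair n (cd Y m)) v ↔
        ∀ Y' : ℕ → ℕ, (∀ i < m, Y' i = Y i) → Φ Y' n = v := by
      intro v
      simp only [P, Nat.unpair_pair]
      constructor
      · rintro ⟨-, h⟩ Y' hY'
        exact h Y' m (cd_congr hY')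
      · intro h
        refine ⟨⟨Y, m, rfl⟩, fun Y' m' hY' => ?_⟩
        obtain ⟨h1, h2⟩ := cd_inj hY'
        exact h Y' (fun i hi => h2 i (h1 ▸ hi))
    rw [← hP v]
    simp only [F]
    constructor
    · intro h
      by_cases h0 : ∃ v, P (Nat.pair n (cd Y m)) v
      · rw [dif_pos h0] at h
        rw [← Nat.succ_injective h]
        exact h0.choose_spec
      · rw [dif_neg h0] at h
        exact absurd h (by simp)
    · intro h
      have h0 : ∃ v, P (Nat.pair n (cd Y m)) v := ⟨v, h⟩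
      rw [dif_pos h0]
      have h1 := (hP _).mp h0.choose_spec Y (fun _ _ => rfl)
      have h2 := (hP _).mp h Y (fun _ _ => rfl)
      rw [← h1, h2]
  refine ⟨F, fun Y hY hc => ?_⟩
  have hθ : Red (fun k => F (Nat.pair k.unpair.1 (cd Y k.unpair.2))) Y :=
    red_comp hY (red_pair (red_left Y) (red_comp (red_cd Y) (red_right Y)))
  refine red_search hθ ?_
  intro n
  have hex : ∃ m, F (Nat.pair n (cd Y m)) ≠ 0 := by
    obtain ⟨m, hm⟩ := hc n
    refine ⟨m, ?_⟩
    rw [(hF Y n m (Φ Y n)).mpr hm]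
    exact Nat.succ_ne_zero _
  refine ⟨Nat.find hex, ?_, ?_⟩
  · simp only [Nat.unpair_pair]
    obtain ⟨v, hv⟩ := Nat.exists_eq_succ_of_ne_zero (Nat.find_spec hex)
    rw [hv]
    rw [(hF Y n _ v).mp hv Y (fun _ _ => rfl)]
  · intro m' hm'
    simp only [Nat.unpair_pair]
    by_contra hcon
    exact Nat.find_min hex hm' hcon

theorem J_eq_one_iff (X : ℕ → ℕ) (k : ℕ) :
    J X k = 1 ↔ ∃ m, U k.unpair.1 k.unpair.2 (cd X m) ≠ 0 := by
  unfold J
  by_cases h : ∃ m, U k.unpair.1 k.unpair.2 (cd X m) ≠ 0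
  · rw [if_pos h]; exact ⟨fun _ => h, fun _ => rfl⟩
  · rw [if_neg h]; exact ⟨fun h' => absurd h' (by norm_num), fun h' => absurd h' h⟩

theorem J_zero_or_one (X : ℕ → ℕ) (k : ℕ) : J X k = 0 ∨ J X k = 1 := by
  unfold J
  split_ifs
  · exact Or.inr rfl
  · exact Or.inl rfl

/-- the domain of a function recursive in `Y` is decided by the jump -/
theorem exists_index {Y : ℕ → ℕ} {f : ℕ →. ℕ}
    (hf : Nat.RecursiveIn {fun n => Part.some (Y n)} f) :
    ∃ e, ∀ n, (f n).Dom ↔ J Y (Nat.pair e n) = 1 := by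
  obtain ⟨e, he⟩ := (U_universal.1 Y f).mp hf
  refine ⟨e, fun n => ?_⟩
  rw [J_eq_one_iff]
  simp only [Nat.unpair_pair]
  rw [Part.dom_iff_mem]
  constructor
  · rintro ⟨v, hv⟩
    obtain ⟨m, hm⟩ := (he n v).mp hv
    exact ⟨m, by rw [hm]; exact Nat.succ_ne_zero _⟩
  · rintro ⟨m, hm⟩
    obtain ⟨v, hv⟩ := Nat.exists_eq_succ_of_ne_zero hm
    exact ⟨v, (he n v).mpr ⟨m, hv⟩⟩

/-- a `Σ₁` predicate is decided by the jump -/
theorem red_sigma {θ Y : ℕ → ℕ} (hθ : Red θ Y) :
    Red (fun n => if ∃ m, θ (Nat.pair n m) ≠ 0 then 1 else 0) (J Y) := by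
  obtain ⟨f, hf, hd⟩ := rec_search hθ
  obtain ⟨e, he⟩ := exists_index hf
  have h1 : Red (fun n => J Y (Nat.pair e (id n))) (J Y) :=
    red_comp (Red.refl _) (red_pair (red_const e _) (red_of_primrec Primrec.id _))
  have h2 : (fun n => if ∃ m, θ (Nat.pair n m) ≠ 0 then 1 else 0) =
      fun n => J Y (Nat.pair e (id n)) := by
    funext n
    rw [id]
    by_cases h : ∃ m, θ (Nat.pair n m) ≠ 0
    · rw [if_pos h]
      exact ((he n).mp ((hd n).mpr h)).symm
    · rw [if_neg h]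
      rcases J_zero_or_one Y (Nat.pair e n) with h3 | h3
      · exact h3.symm
      · exact absurd ((hd n).mp ((he n).mpr h3)) h
  rw [h2]
  exact h1

/-- membership in open sets is decided by the jump, relative to a cone -/
theorem sig (O : ℕ → Set (ℕ → ℕ)) (hO : ∀ n, IsOpen (O n)) :
    Cone fun Y => Red (fun n => if Y ∈ O n then 1 else 0) (J Y) := by
  let P : ℕ → Prop := fun k => (∃ Y m, cd Y m = k.unpair.2) ∧
    ∀ Y m, cd Y m = k.unpair.2 → Y ∈ O k.unpair.1
  let F : ℕ → ℕ := fun k => if P k then 1 else 0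
  have hP : ∀ Y n m, P (Nat.pair n (cd Y m)) ↔
      ∀ Y' : ℕ → ℕ, (∀ i < m, Y' i = Y i) → Y' ∈ O n := by
    intro Y n m
    simp only [P, Nat.unpair_pair]
    constructor
    · rintro ⟨-, h⟩ Y' hY'
      exact h Y' m (cd_congr hY')
    · intro h
      refine ⟨⟨Y, m, rfl⟩, fun Y' m' hY' => ?_⟩
      obtain ⟨h1, h2⟩ := cd_inj hY'
      exact h Y' (fun i hi => h2 i (h1 ▸ hi))
  refine ⟨F, fun Y hY => ?_⟩
  have hθ : Red (fun k => F (Nat.pair k.unpair.1 (cd Y k.unpair.2))) Y :=
    red_comp hY (red_pair (red_left Y) (red_comp (red_cd Y) (red_right Y)))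
  have h1 := red_sigma hθ
  have h2 : (fun n => if Y ∈ O n then 1 else 0) = fun n => if ∃ m,
      (fun k : ℕ => F (Nat.pair k.unpair.1 (cd Y k.unpair.2))) (Nat.pair n m) ≠ 0 then 1 else 0 := by
    funext n
    have h3 : Y ∈ O n ↔ ∃ m,
        (fun k : ℕ => F (Nat.pair k.unpair.1 (cd Y k.unpair.2))) (Nat.pair n m) ≠ 0 := by
      simp only [Nat.unpair_pair, F]
      constructor
      · intro h
        obtain ⟨m, hm⟩ := (isOpen_iff_agree (O n)).mp (hO n) Y h
        refine ⟨m, ?_⟩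
        rw [if_pos ((hP Y n m).mpr hm)]
        exact one_ne_zero
      · rintro ⟨m, hm⟩
        by_cases h : P (Nat.pair n (cd Y m))
        · exact (hP Y n m).mp h Y (fun _ _ => rfl)
        · rw [if_neg h] at hm
          exact absurd rfl hm
    by_cases h : Y ∈ O n
    · rw [if_pos h, if_pos (h3.mp h)]
    · rw [if_neg h, if_neg (fun h' => h (h3.mpr h'))]
  change Red (fun n => if Y ∈ O n then 1 else 0) (J Y)
  rw [h2]
  exact h1

theorem red_J (X : ℕ → ℕ) : Red X (J X) := by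
  -- the graph of `X`, as a decidable relation
  have hE : Primrec (fun k : ℕ => if k.unpair.1 = k.unpair.2 then 1 else 0) :=
    Primrec.ite (Primrec.eq.comp (Primrec.fst.comp Primrec.unpair)
      (Primrec.snd.comp Primrec.unpair)) (Primrec.const 1) (Primrec.const 0)
  -- `θ ⟨⟨n, v⟩, _⟩ = [X n = v]`
  have h1 : Red (fun k => X k.unpair.1.unpair.1) X :=
    red_comp (Red.refl X) (red_comp (red_left X) (red_left X))
  have h2 : Red (fun k => k.unpair.1.unpair.2) X := red_comp (red_right X) (red_left X)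
  have hθ := red_comp (red_of_primrec hE X) (red_pair h1 h2)
  have h3 := red_sigma hθ
  -- search
  have hT : Primrec (fun k : ℕ => if k.unpair.1 = 0 then 0 else k.unpair.2 + 1) :=
    Primrec.ite (Primrec.eq.comp (Primrec.fst.comp Primrec.unpair) (Primrec.const 0))
      (Primrec.const 0) (Primrec.succ.comp (Primrec.snd.comp Primrec.unpair))
  have h4 := red_comp (red_of_primrec hT (J X)) (red_pair h3 (red_right (J X)))
  refine red_search h4 ?_
  intro n
  refine ⟨X n, ?_, ?_⟩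
  · simp
  · intro m' hm'
    simp [Nat.ne_of_gt hm']

theorem J_mono : Cone fun Y => ∀ X, Red X Y → Red (J X) (J Y) := by
  let O : ℕ → Set (ℕ → ℕ) := fun q => {Y | ∃ (X : ℕ → ℕ) (m M : ℕ),
    (∀ i < m, U q.unpair.1 i (cd Y M) = X i + 1) ∧
      U q.unpair.2.unpair.1 q.unpair.2.unpair.2 (cd X m) ≠ 0}
  have hO : ∀ q, IsOpen (O q) := by
    intro q
    rw [isOpen_iff_agree]
    rintro Y ⟨X, m, M, h1, h2⟩
    refine ⟨M, fun Y' hY' => ⟨X, m, M, ?_, h2⟩⟩
    intro i hi
    rw [cd_congr hY']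
    exact h1 i hi
  refine (sig O hO).mono ?_
  intro Y hY X hX
  obtain ⟨a, ha⟩ := (U_universal.1 Y _).mp hX
  have ha' : ∀ n v, X n = v ↔ ∃ m, U a n (cd Y m) = v + 1 := by
    intro n v
    rw [← ha n v, Part.mem_some_iff]
    exact eq_comm
  have h1 : Red (fun k => (fun n => if Y ∈ O n then 1 else 0) (Nat.pair a (id k))) (J Y) :=
    red_comp hY (red_pair (red_const a _) (red_of_primrec Primrec.id _))
  have h2 : J X = fun k => (fun n => if Y ∈ O n then 1 else 0) (Nat.pair a (id k)) := by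
    funext k
    have h3 : J X k = 1 ↔ Y ∈ O (Nat.pair a k) := by
      rw [J_eq_one_iff]
      simp only [O, Set.mem_ofPred_eq, Nat.unpair_pair]
      constructor
      · rintro ⟨m, hm⟩
        -- a common stage for the first `m` values
        choose g hg using fun i => (ha' i (X i)).mp rfl
        refine ⟨X, m, (Finset.range m).sup g, ?_, hm⟩
        intro i hi
        have h4 : g i ≤ (Finset.range m).sup g := Finset.le_sup (Finset.mem_range.mpr hi)
        rw [U_universal.2 a i Y (g i) _ h4 (by rw [hg i]; exact Nat.succ_ne_zero _), hg i]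
      · rintro ⟨X', m, M, h4, h5⟩
        refine ⟨m, ?_⟩
        have h6 : cd X m = cd X' m := by
          refine cd_congr fun i hi => ?_
          exact (ha' i (X' i)).mpr ⟨M, h4 i hi⟩
        rw [h6]
        exact h5
    simp only [id]
    by_cases h : Y ∈ O (Nat.pair a k)
    · rw [if_pos h]; exact h3.mpr h
    · rw [if_neg h]
      rcases J_zero_or_one X k with h4 | h4
      · exact h4
      · exact absurd (h3.mp h4) h
  rw [h2]
  exact h1

/-- `J X k = 1` is an open condition on `X` -/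
theorem isOpen_J (k : ℕ) : IsOpen {X : ℕ → ℕ | J X k = 1} := by
  rw [isOpen_iff_agree]
  intro X hX
  rw [Set.mem_ofPred_eq, J_eq_one_iff] at hX
  obtain ⟨m, hm⟩ := hX
  refine ⟨m, fun X' hX' => ?_⟩
  rw [Set.mem_ofPred_eq, J_eq_one_iff]
  exact ⟨m, by rw [cd_congr hX']; exact hm⟩

end Pool.Agent.RR
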