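import Pool.Agent.Helper55.RR.A3

/-!
# A4. The low basis theorem, for closed sets, relative to a cone

Core form (bound coded in the right half of `X`): for a closed `P ⊆ ℕ^ℕ × ℕ^ℕ` put, for a finite set `D`
of questions,
`C_{X,D} = {f | (X, f) ∈ P, f ≤ rgt X pointwise, J (join X f) k ≠ 1 for all k ∈ D}`.
* `{X | C_{X,D} = ∅}` is open: if `X_i → X` and `f_i ∈ C_{X_i,D}`, then `rgt X_i` is bounded at each
  coordinate, so `f_i` has a convergent subsequence (compactness of `∏ [0, b n]`, which is sequentially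
  compact), and the limit is in `C_{X,D}` (`isOpen_J`, `continuous_join`).
* By `sig` the function `N : code of D ↦ [C_{X,D} = ∅]` is `≤ J X` on a cone.
* `D_0 = ∅`, `D_{k+1} = D_k ∪ {k}` if `C_{X, D_k ∪ {k}} ≠ ∅`, else `D_{k+1} = D_k`.  All `C_{X,D_k}` are
  nonempty compact, decreasing; take `f` in the intersection.  Then `J (join X f) k = 1` iff
  `k ∉ D_{k+1}`: (if `k ∉ D_{k+1}` then `C_{X,D_k ∪ {k}} = ∅`, but `f ∈ C_{X,D_k}`).
* So `J (join X f)` is obtained from `N` by a continuous operator; by `cont` (applied to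
  `join N (J X)`, which is in the cone) it is `≤ J X`.

General form: apply the core form to `P' = {(X', f) | (lft X', f) ∈ P}` and `X' = join X b`, and `J_mono`.
-/

set_option autoImplicit false

namespace Pool.Agent.RR

open Classical

/-- the projection of a closed set with a pointwise bound given by the right half is closed -/
theorem a4_closed_proj (Q : Set ((ℕ → ℕ) × (ℕ → ℕ))) (hQ : IsClosed Q)
    (hb : ∀ z ∈ Q, ∀ n, z.2 n ≤ rgt z.1 n) : IsClosed {X : ℕ → ℕ | ∃ f, (X, f) ∈ Q} := by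
  apply IsSeqClosed.isClosed
  intro u X hu hX
  choose f hf using hu
  have hpt : ∀ m : ℕ, ∀ᶠ i in Filter.atTop, u i m = X m := by
    intro m
    have h1 := (tendsto_pi_nhds.1 hX) m
    rw [nhds_discrete, Filter.tendsto_pure] at h1
    exact h1
  have hB : ∀ n : ℕ, ∃ B : ℕ, ∀ i, f i n ≤ B := by
    intro n
    obtain ⟨i0, hi0⟩ := Filter.eventually_atTop.1 (hpt (2 * n + 1))
    refine ⟨(Finset.range (i0 + 1)).sup (fun i => f i n) + X (2 * n + 1), fun i => ?_⟩
    rcases Nat.lt_or_ge i (i0 + 1) with hi | hi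
    · exact (Finset.le_sup (f := fun i => f i n) (Finset.mem_range.2 hi)).trans (Nat.le_add_right _ _)
    · have h1 := hb _ (hf i) n
      have h2 : rgt (u i, f i).1 n = X (2 * n + 1) := hi0 i (by omega)
      rw [h2] at h1
      exact le_trans h1 (Nat.le_add_left _ _)
  choose B hB using hB
  have hK : IsCompact (Set.pi Set.univ (fun n => Set.Iic (B n)) : Set (ℕ → ℕ)) :=
    isCompact_univ_pi (fun n => (Set.finite_Iic (B n)).isCompact)
  obtain ⟨a, -, φ, hφ, hlim⟩ := hK.isSeqCompact (x := f) (fun i n _ => hB n i)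
  refine ⟨a, ?_⟩
  have hlim2 : Filter.Tendsto (fun i => (u (φ i), f (φ i))) Filter.atTop (nhds (X, a)) :=
    Filter.Tendsto.prodMk_nhds (hX.comp hφ.tendsto_atTop) hlim
  exact hQ.mem_of_tendsto hlim2 (Filter.Eventually.of_forall (fun i => hf (φ i)))

/-- the set of solutions with negative answers in `D` -/
def a4_C (P : Set ((ℕ → ℕ) × (ℕ → ℕ))) (X : ℕ → ℕ) (D : Finset ℕ) : Set (ℕ → ℕ) :=
  {f | (X, f) ∈ P ∧ (∀ n, f n ≤ rgt X n) ∧ ∀ k ∈ D, J (join X f) k ≠ 1}

theorem a4_isClosed_le : IsClosed {z : (ℕ → ℕ) × (ℕ → ℕ) | ∀ n, z.2 n ≤ rgt z.1 n} := by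
  simp only [Set.ofPred_forall]
  refine isClosed_iInter (fun n => ?_)
  have h1 : Continuous (fun z : (ℕ → ℕ) × (ℕ → ℕ) => z.2 n) := (continuous_apply n).comp continuous_snd
  have h2 : Continuous (fun z : (ℕ → ℕ) × (ℕ → ℕ) => rgt z.1 n) :=
    (continuous_apply n).comp (continuous_rgt.comp continuous_fst)
  exact isClosed_le h1 h2

theorem a4_isClosed_J (k : ℕ) :
    IsClosed {z : (ℕ → ℕ) × (ℕ → ℕ) | J (join z.1 z.2) k ≠ 1} := by
  have h := (isOpen_J k).preimage continuous_join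
  have : {z : (ℕ → ℕ) × (ℕ → ℕ) | J (join z.1 z.2) k ≠ 1} =
      ((fun p : (ℕ → ℕ) × (ℕ → ℕ) => join p.1 p.2) ⁻¹' {X : ℕ → ℕ | J X k = 1})ᶜ := by
    ext z
    simp
  rw [this]
  exact h.isClosed_compl

theorem a4_isClosed_Q {P : Set ((ℕ → ℕ) × (ℕ → ℕ))} (hP : IsClosed P) (D : Finset ℕ) :
    IsClosed {z : (ℕ → ℕ) × (ℕ → ℕ) | z.2 ∈ a4_C P z.1 D} := by
  have h : {z : (ℕ → ℕ) × (ℕ → ℕ) | z.2 ∈ a4_C P z.1 D} =
      P ∩ {z | ∀ n, z.2 n ≤ rgt z.1 n} ∩ ⋂ k ∈ D, {z | J (join z.1 z.2) k ≠ 1} := by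
    ext z
    simp only [a4_C, Set.mem_ofPred_eq, Set.mem_inter_iff, Set.mem_iInter]
    tauto
  rw [h]
  exact (hP.inter a4_isClosed_le).inter
    (isClosed_biInter (fun k _ => a4_isClosed_J k))

theorem a4_isOpen_empty {P : Set ((ℕ → ℕ) × (ℕ → ℕ))} (hP : IsClosed P) (D : Finset ℕ) :
    IsOpen {X : ℕ → ℕ | a4_C P X D = ∅} := by
  have h := a4_closed_proj _ (a4_isClosed_Q hP D) (fun z hz => hz.2.1)
  have : {X : ℕ → ℕ | a4_C P X D = ∅} = {X : ℕ → ℕ | ∃ f, (X, f) ∈
      {z : (ℕ → ℕ) × (ℕ → ℕ) | z.2 ∈ a4_C P z.1 D}}ᶜ := by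
    ext X
    simp only [Set.mem_ofPred_eq, Set.mem_compl_iff, not_exists]
    exact Set.eq_empty_iff_forall_notMem
  rw [this]
  exact h.isOpen_compl

/-- the sets of questions chosen from the answers `N` -/
noncomputable def a4_D (N : ℕ → ℕ) : ℕ → Finset ℕ
  | 0 => ∅
  | k + 1 => if N (Encodable.encode (insert k (a4_D N k))) = 0 then insert k (a4_D N k)
      else a4_D N k

theorem a4_D_cont (N : ℕ → ℕ) (k : ℕ) :
    ∃ m, ∀ N' : ℕ → ℕ, (∀ i < m, N' i = N i) → a4_D N' k = a4_D N k := by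
  induction k with
  | zero => exact ⟨0, fun _ _ => rfl⟩
  | succ k ih =>
    obtain ⟨m, hm⟩ := ih
    refine ⟨max m (Encodable.encode (insert k (a4_D N k)) + 1), fun N' hN' => ?_⟩
    have h1 := hm N' (fun i hi => hN' i (lt_of_lt_of_le hi (le_max_left _ _)))
    have h2 := hN' (Encodable.encode (insert k (a4_D N k)))
      (lt_of_lt_of_le (Nat.lt_succ_self _) (le_max_right _ _))
    simp only [a4_D, h1, h2]

theorem a4_core (P : Set ((ℕ → ℕ) × (ℕ → ℕ))) (hP : IsClosed P) :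
    Cone fun X => (∃ f, (X, f) ∈ P ∧ ∀ n, f n ≤ rgt X n) →
      ∃ f, (X, f) ∈ P ∧ (∀ n, f n ≤ rgt X n) ∧ Red (J (join X f)) (J X) := by
  obtain ⟨F1, h1⟩ := sig (fun n => {X : ℕ → ℕ |
    a4_C P X ((Encodable.decode n : Option (Finset ℕ)).getD ∅) = ∅})
    (fun n => a4_isOpen_empty hP _)
  obtain ⟨F2, h2⟩ := cont (fun Y k => if k ∈ a4_D (lft Y) (k + 1) then 0 else 1)
  refine ⟨join F1 F2, fun X hX hne => ?_⟩
  have hF1 : Red F1 X := (red_join_left _ _).trans hX
  have hF2 : Red F2 X := (red_join_right _ _).trans hX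
  set N : ℕ → ℕ := fun n => if X ∈ {X : ℕ → ℕ |
    a4_C P X ((Encodable.decode n : Option (Finset ℕ)).getD ∅) = ∅} then 1 else 0 with hN
  have hNJ : Red N (J X) := h1 X hF1
  have hNe : ∀ D : Finset ℕ, N (Encodable.encode D) = 0 ↔ (a4_C P X D).Nonempty := by
    intro D
    simp only [hN, Encodable.encodek, Option.getD_some, Set.mem_ofPred_eq]
    rw [Set.nonempty_iff_ne_empty]
    by_cases h : a4_C P X D = ∅
    · simp [h]
    · simp [h]
  have hcomp : ∀ D, IsCompact (a4_C P X D) := by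
    intro D
    have hK : IsCompact (Set.pi Set.univ (fun n => Set.Iic (rgt X n)) : Set (ℕ → ℕ)) :=
      isCompact_univ_pi (fun n => (Set.finite_Iic (rgt X n)).isCompact)
    refine hK.of_isClosed_subset ?_ (fun f hf n _ => hf.2.1 n)
    exact (a4_isClosed_Q hP D).preimage (Continuous.prodMk_right X)
  have hDne : ∀ k, (a4_C P X (a4_D N k)).Nonempty := by
    intro k
    induction k with
    | zero =>
      obtain ⟨f, hf1, hf2⟩ := hne
      refine ⟨f, hf1, hf2, ?_⟩
      intro k hk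
      simp [a4_D] at hk
    | succ k ih =>
      simp only [a4_D]
      split_ifs with h
      · exact (hNe _).1 h
      · exact ih
  have hDmono : ∀ k, a4_D N k ⊆ a4_D N (k + 1) := by
    intro k
    simp only [a4_D]
    split_ifs
    · exact Finset.subset_insert _ _
    · exact Finset.Subset.refl _
  have hCanti : ∀ {D D' : Finset ℕ}, D ⊆ D' → a4_C P X D' ⊆ a4_C P X D :=
    fun hDD f hf => ⟨hf.1, hf.2.1, fun k hk => hf.2.2 k (hDD hk)⟩
  obtain ⟨f, hf⟩ := IsCompact.nonempty_iInter_of_sequence_nonempty_isCompact_isClosed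
    (fun k => a4_C P X (a4_D N k)) (fun k => hCanti (hDmono k)) hDne (hcomp _)
    (fun k => (hcomp _).isClosed)
  have hf' : ∀ k, f ∈ a4_C P X (a4_D N k) := fun k => Set.mem_iInter.1 hf k
  have hJ : J (join X f) = fun k => if k ∈ a4_D (lft (join N (J X))) (k + 1) then 0 else 1 := by
    funext k
    rw [lft_join]
    by_cases hk : k ∈ a4_D N (k + 1)
    · rw [if_pos hk]
      have := (hf' (k + 1)).2.2 k hk
      rcases J_zero_or_one (join X f) k with h | h
      · exact h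
      · exact absurd h this
    · rw [if_neg hk]
      by_contra hJk
      have hmem : f ∈ a4_C P X (insert k (a4_D N k)) := by
        refine ⟨(hf' 0).1, (hf' 0).2.1, ?_⟩
        intro j hj
        rcases Finset.mem_insert.1 hj with rfl | hj
        · exact hJk
        · exact (hf' k).2.2 j hj
      apply hk
      simp only [a4_D]
      rw [if_pos ((hNe _).2 ⟨f, hmem⟩)]
      exact Finset.mem_insert_self _ _
  refine ⟨f, (hf' 0).1, (hf' 0).2.1, ?_⟩
  rw [hJ]
  have hcone : Red F2 (join N (J X)) :=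
    hF2.trans ((red_J X).trans (red_join_right _ _))
  refine (h2 (join N (J X)) hcone ?_).trans (join_red hNJ (Red.refl _))
  intro k
  obtain ⟨m, hm⟩ := a4_D_cont (lft (join N (J X))) (k + 1)
  refine ⟨2 * m, fun Y' hY' => ?_⟩
  have : a4_D (lft Y') (k + 1) = a4_D (lft (join N (J X))) (k + 1) :=
    hm (lft Y') (fun i hi => hY' (2 * i) (by omega))
  simp only [this]

theorem low_basis (P : Set ((ℕ → ℕ) × (ℕ → ℕ))) (hP : IsClosed P) :
    Cone fun X => ∀ b : ℕ → ℕ, Red b X → (∃ f, (X, f) ∈ P ∧ ∀ n, f n ≤ b n) →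
      ∃ f, (X, f) ∈ P ∧ (∀ n, f n ≤ b n) ∧ Red (J (join X f)) (J X) := by
  obtain ⟨F1, h1⟩ := a4_core {z | (lft z.1, z.2) ∈ P}
    (hP.preimage ((continuous_lft.comp continuous_fst).prodMk continuous_snd))
  obtain ⟨F2, h2⟩ := J_mono
  refine ⟨join F1 F2, fun X hX b hb hne => ?_⟩
  have hF1 : Red F1 X := (red_join_left _ _).trans hX
  have hF2 : Red F2 X := (red_join_right _ _).trans hX
  have hX' : Red X (join X b) := red_join_left _ _
  obtain ⟨f, hf1, hf2, hf3⟩ := h1 (join X b) (hF1.trans hX') (by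
    obtain ⟨f, hf1, hf2⟩ := hne
    refine ⟨f, ?_, ?_⟩
    · show (lft (join X b), f) ∈ P
      rw [lft_join]
      exact hf1
    · rw [rgt_join]
      exact hf2)
  have hf1' : (lft (join X b), f) ∈ P := hf1
  rw [lft_join] at hf1'
  rw [rgt_join] at hf2
  refine ⟨f, hf1', hf2, ?_⟩
  have e1 : Red (J (join X f)) (J (join (join X b) f)) := by
    refine h2 _ (hF2.trans (hX'.trans (red_join_left _ _))) _ ?_
    exact join_red (hX'.trans (red_join_left _ _)) (red_join_right _ _)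
  have e2 : Red (J (join X b)) (J X) := h2 X hF2 _ (join_red (Red.refl _) hb)
  exact e1.trans (hf3.trans e2)

end Pool.Agent.RR
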