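import Pool.Agent.Helper55.RR.Defs

/-!
# B1. Cuts and their measure

Everything by induction on `Cut`.

`Cut.bad`: the leaves which pass through a bad child.  At a node `ν`, with children `y ∈ S`,
`|S| = K0 |ν|`: a bad leaf in the subtree of `y` has `y ∈ B ν` (total measure of those `y` at most
`|B ν| * wt (|ν|+1) = |B ν| * wt |ν| / K0 |ν| ≤ wt |ν| / (8 * 2^|ν|)`) or is bad for the subtree
(total at most `K0 |ν| * wt (|ν|+1) / (4 * 2^(|ν|+1)) = wt |ν| / (8 * 2^|ν|)`); the sum is
`wt |ν| / (4 * 2^|ν|)`.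
-/

set_option autoImplicit false

namespace Pool.Agent.RR

open Classical

theorem K0_pos (k l : ℕ) : 0 < K0 k l := by
  unfold K0; positivity

theorem wt_pos (k l : ℕ) : 0 < wt k l := by
  unfold wt
  refine Finset.prod_pos fun i _ => ?_
  have := K0_pos k i
  positivity

theorem wt_zero (k : ℕ) : wt k 0 = 1 := by
  unfold wt; simp

theorem wt_succ (k l : ℕ) : wt k (l + 1) = wt k l / K0 k l := by
  unfold wt; rw [Finset.prod_range_succ, mul_one_div]

theorem mu_nonneg (k : ℕ) (L : Finset (List ℕ × ℕ)) : 0 ≤ mu k L :=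
  Finset.sum_nonneg fun _ _ => (wt_pos _ _).le

theorem mu_mono (k : ℕ) {L L' : Finset (List ℕ × ℕ)} (h : L ⊆ L') : mu k L ≤ mu k L' :=
  Finset.sum_le_sum_of_subset_of_nonneg h fun _ _ _ => (wt_pos _ _).le

theorem mu_union_le (k : ℕ) (L L' : Finset (List ℕ × ℕ)) : mu k (L ∪ L') ≤ mu k L + mu k L' := by
  have h1 := Finset.sum_union_inter (s₁ := L) (s₂ := L')
    (f := fun p : List ℕ × ℕ => wt k p.1.length)
  have h2 := mu_nonneg k (L ∩ L')
  unfold mu at h2 ⊢
  linarith

theorem mu_union_disj (k : ℕ) {L L' : Finset (List ℕ × ℕ)} (h : Disjoint L L') :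
    mu k (L ∪ L') = mu k L + mu k L' :=
  Finset.sum_union h

theorem b1_mu_biUnion_le (k : ℕ) (S : Finset ℕ) (L : ℕ → Finset (List ℕ × ℕ)) :
    mu k (S.biUnion L) ≤ ∑ y ∈ S, mu k (L y) := by
  induction S using Finset.induction_on with
  | empty => simp [mu]
  | insert a S ha ih =>
    rw [Finset.biUnion_insert, Finset.sum_insert ha]
    exact (mu_union_le _ _ _).trans (by gcongr)

theorem b1_next_eq {ν a : List ℕ} {y y' : ℕ} (h : (ν ++ [y]) <+: a) (h' : (ν ++ [y']) <+: a) :
    y = y' := by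
  have h1 : (ν ++ [y]) <+: (ν ++ [y']) :=
    List.prefix_of_prefix_length_le h h' (by simp)
  have h2 := h1.eq_of_length (by simp)
  have h3 := (List.append_right_inj ν).mp h2
  simpa using h3

theorem Cut.nonempty {k : ℕ} {ν : List ℕ} {L : Finset (List ℕ × ℕ)} (h : Cut k ν L) :
    L.Nonempty := by
  induction h with
  | single ν j => exact Finset.singleton_nonempty _
  | node ν S L hS hL ih =>
    have hpos : 0 < S.card := hS ▸ K0_pos _ _
    obtain ⟨y, hy⟩ := Finset.card_pos.mp hpos
    obtain ⟨p, hp⟩ := ih y hy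
    exact ⟨p, Finset.mem_biUnion.mpr ⟨y, hy, hp⟩⟩

theorem Cut.pref {k : ℕ} {ν : List ℕ} {L : Finset (List ℕ × ℕ)} (h : Cut k ν L) :
    ∀ p ∈ L, ν <+: p.1 := by
  induction h with
  | single ν j =>
    intro p hp
    rw [Finset.mem_singleton] at hp
    rw [hp]
  | node ν S L hS hL ih =>
    intro p hp
    obtain ⟨y, hy, hpy⟩ := Finset.mem_biUnion.mp hp
    exact (List.prefix_append ν [y]).trans (ih y hy p hpy)

theorem Cut.mu_eq {k : ℕ} {ν : List ℕ} {L : Finset (List ℕ × ℕ)} (h : Cut k ν L) :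
    mu k L = wt k ν.length := by
  induction h with
  | single ν j => simp [mu]
  | node ν S L hS hL ih =>
    have hdisj : ∀ y ∈ S, ∀ y' ∈ S, y ≠ y' → Disjoint (L y) (L y') := by
      intro y hy y' hy' hne
      rw [Finset.disjoint_left]
      intro p hp hp'
      exact hne (b1_next_eq ((hL y hy).pref p hp) ((hL y' hy').pref p hp'))
    have h1 : mu k (S.biUnion L) = ∑ y ∈ S, mu k (L y) := by
      unfold mu
      exact Finset.sum_biUnion hdisj
    rw [h1, Finset.sum_congr rfl ih]
    simp only [List.length_append, List.length_singleton]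
    rw [Finset.sum_const, hS, wt_succ, nsmul_eq_mul]
    have : (K0 k ν.length : ℚ) ≠ 0 := by
      have := K0_pos k ν.length
      positivity
    field_simp

/-- the leaves are incomparable (also as labelled leaves) -/
theorem Cut.incomp {k : ℕ} {ν : List ℕ} {L : Finset (List ℕ × ℕ)} (h : Cut k ν L) :
    ∀ p ∈ L, ∀ q ∈ L, p.1 <+: q.1 → p = q := by
  induction h with
  | single ν j =>
    intro p hp q hq _
    rw [Finset.mem_singleton] at hp hq
    rw [hp, hq]
  | node ν S L hS hL ih =>
    intro p hp q hq hpq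
    obtain ⟨y, hy, hpy⟩ := Finset.mem_biUnion.mp hp
    obtain ⟨y', hy', hqy⟩ := Finset.mem_biUnion.mp hq
    have hyy : y = y' :=
      b1_next_eq (((hL y hy).pref p hpy).trans hpq) ((hL y' hy').pref q hqy)
    subst hyy
    exact ih y hy p hpy q hqy hpq

theorem Cut.graft {k : ℕ} {ν : List ℕ} {L L' : Finset (List ℕ × ℕ)} {p : List ℕ × ℕ}
    (h : Cut k ν L) (hp : p ∈ L) (h' : Cut k p.1 L') : Cut k ν (L.erase p ∪ L') := by
  induction h with
  | single ν j =>
    rw [Finset.mem_singleton] at hp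
    subst hp
    simpa using h'
  | node ν S L hS hL ih =>
    obtain ⟨y0, hy0, hpy0⟩ := Finset.mem_biUnion.mp hp
    have hnot : ∀ y ∈ S, y ≠ y0 → p ∉ L y := by
      intro y hy hne hpy
      exact hne (b1_next_eq ((hL y hy).pref p hpy) ((hL y0 hy0).pref p hpy0))
    have key : (S.biUnion L).erase p ∪ L' =
        S.biUnion (fun y => if y = y0 then (L y0).erase p ∪ L' else L y) := by
      ext q
      simp only [Finset.mem_union, Finset.mem_erase, Finset.mem_biUnion]
      constructor
      · rintro (⟨hne, y, hy, hq⟩ | hq)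
        · refine ⟨y, hy, ?_⟩
          by_cases hyy : y = y0
          · rw [if_pos hyy]
            rw [hyy] at hq
            exact Finset.mem_union_left _ (Finset.mem_erase.mpr ⟨hne, hq⟩)
          · rw [if_neg hyy]; exact hq
        · refine ⟨y0, hy0, ?_⟩
          rw [if_pos rfl]
          exact Finset.mem_union_right _ hq
      · rintro ⟨y, hy, hq⟩
        by_cases hyy : y = y0
        · rw [if_pos hyy] at hq
          rcases Finset.mem_union.mp hq with hq | hq
          · rw [Finset.mem_erase] at hq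
            exact Or.inl ⟨hq.1, y0, hy0, hq.2⟩
          · exact Or.inr hq
        · rw [if_neg hyy] at hq
          refine Or.inl ⟨?_, y, hy, hq⟩
          rintro rfl
          exact hnot y hy hyy hq
    rw [key]
    refine Cut.node ν S _ hS fun y hy => ?_
    by_cases hyy : y = y0
    · rw [if_pos hyy, hyy]
      exact ih y0 hy0 hpy0
    · rw [if_neg hyy]
      exact hL y hy

theorem Cut.bad {k : ℕ} {ν : List ℕ} {L : Finset (List ℕ × ℕ)} (h : Cut k ν L)
    (B : List ℕ → Finset ℕ)
    (hB : ∀ p ∈ L, ∀ ν', ν <+: ν' → ν' <+: p.1 →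
      (B ν').card * (8 * 2 ^ ν'.length) ≤ K0 k ν'.length) :
    mu k (L.filter (fun p => ∃ ν' y, ν <+: ν' ∧ (ν' ++ [y]) <+: p.1 ∧ y ∈ B ν')) ≤
      wt k ν.length / (4 * 2 ^ ν.length) := by
  induction h with
  | single ν j =>
    have : ({(ν, j)} : Finset (List ℕ × ℕ)).filter
        (fun p => ∃ ν' y, ν <+: ν' ∧ (ν' ++ [y]) <+: p.1 ∧ y ∈ B ν') = ∅ := by
      rw [Finset.filter_eq_empty_iff]
      rintro p hp ⟨ν', y, h1, h2, -⟩
      rw [Finset.mem_singleton] at hp
      subst hp
      have e1 := h1.length_le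
      have e2 := h2.length_le
      simp only [List.length_append, List.length_singleton] at e2
      omega
    rw [this]
    have h1 := wt_pos k ν.length
    have h2 : mu k ∅ = 0 := by simp [mu]
    rw [h2]
    positivity
  | node ν S L hS hL ih =>
    set l := ν.length with hl
    have hcut : Cut k ν (S.biUnion L) := Cut.node ν S L hS hL
    have hsub : (S.biUnion L).filter
        (fun p => ∃ ν' y, ν <+: ν' ∧ (ν' ++ [y]) <+: p.1 ∧ y ∈ B ν') ⊆
        ((S ∩ B ν).biUnion L) ∪ S.biUnion (fun y => (L y).filter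
          (fun p => ∃ ν' y', (ν ++ [y]) <+: ν' ∧ (ν' ++ [y']) <+: p.1 ∧ y' ∈ B ν')) := by
      intro p hp
      rw [Finset.mem_filter, Finset.mem_biUnion] at hp
      obtain ⟨⟨y, hy, hpy⟩, ν', y', h1, h2, h3⟩ := hp
      have hpre := (hL y hy).pref p hpy
      rw [Finset.mem_union, Finset.mem_biUnion, Finset.mem_biUnion]
      by_cases hlen : ν'.length = ν.length
      · have heq : ν = ν' := h1.eq_of_length hlen.symm
        subst heq
        have hyy : y = y' := b1_next_eq hpre h2
        subst hyy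
        exact Or.inl ⟨y, Finset.mem_inter.mpr ⟨hy, h3⟩, hpy⟩
      · refine Or.inr ⟨y, hy, Finset.mem_filter.mpr ⟨hpy, ν', y', ?_, h2, h3⟩⟩
        refine List.prefix_of_prefix_length_le hpre ((List.prefix_append ν' [y']).trans h2) ?_
        have := h1.length_le
        simp only [List.length_append, List.length_singleton]
        omega
    have hK := K0_pos k l
    have hKq : (0 : ℚ) < K0 k l := by exact_mod_cast hK
    have hw := wt_pos k l
    have hmu1 : mu k ((S ∩ B ν).biUnion L) ≤ wt k l / (8 * 2 ^ l) := by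
      have e1 := b1_mu_biUnion_le k (S ∩ B ν) L
      have e2 : ∑ y ∈ S ∩ B ν, mu k (L y) = ((S ∩ B ν).card : ℚ) * wt k (l + 1) := by
        rw [Finset.sum_congr rfl (g := fun _ => wt k (l + 1))]
        · rw [Finset.sum_const, nsmul_eq_mul]
        · intro y hy
          rw [(hL y (Finset.mem_inter.mp hy).1).mu_eq]
          simp [hl]
      obtain ⟨p, hp⟩ := hcut.nonempty
      have e3 := hB p hp ν List.prefix_rfl (hcut.pref p hp)
      have e4 : (S ∩ B ν).card ≤ (B ν).card := Finset.card_le_card Finset.inter_subset_right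
      have e5 : (S ∩ B ν).card * (8 * 2 ^ l) ≤ K0 k l :=
        (Nat.mul_le_mul_right _ e4).trans e3
      have e6 : ((S ∩ B ν).card : ℚ) * (8 * 2 ^ l) ≤ K0 k l := by exact_mod_cast e5
      rw [e2, wt_succ] at e1
      refine e1.trans ?_
      rw [mul_div_assoc', div_le_div_iff₀ hKq (by positivity)]
      calc ((S ∩ B ν).card : ℚ) * wt k l * (8 * 2 ^ l)
          = (((S ∩ B ν).card : ℚ) * (8 * 2 ^ l)) * wt k l := by ring
        _ ≤ (K0 k l) * wt k l := by gcongr
        _ = wt k l * K0 k l := by ring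
    have hmu2 : mu k (S.biUnion (fun y => (L y).filter
          (fun p => ∃ ν' y', (ν ++ [y]) <+: ν' ∧ (ν' ++ [y']) <+: p.1 ∧ y' ∈ B ν'))) ≤
        wt k l / (8 * 2 ^ l) := by
      refine (b1_mu_biUnion_le k S _).trans ?_
      have e1 : ∀ y ∈ S, mu k ((L y).filter
          (fun p => ∃ ν' y', (ν ++ [y]) <+: ν' ∧ (ν' ++ [y']) <+: p.1 ∧ y' ∈ B ν')) ≤
          wt k (l + 1) / (4 * 2 ^ (l + 1)) := by
        intro y hy
        have := ih y hy (fun p hp ν' h1 h2 => hB p (Finset.mem_biUnion.mpr ⟨y, hy, hp⟩) ν'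
          ((List.prefix_append ν [y]).trans h1) h2)
        simpa [hl] using this
      refine (Finset.sum_le_sum e1).trans (le_of_eq ?_)
      rw [Finset.sum_const, hS, nsmul_eq_mul, wt_succ]
      field_simp
      ring
    refine (mu_mono k hsub).trans ((mu_union_le k _ _).trans ?_)
    refine (add_le_add hmu1 hmu2).trans (le_of_eq ?_)
    field_simp
    ring

end Pool.Agent.RR
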