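import Pool.Agent.Helper55.RR.Defs

/-!
# B2. Bushy trees: monotonicity, finiteness, pruning

`prune`: induction on `Big`.  At an inner node `G'` with children set `S`, `|S| ≥ KK k j |G'|`, remove
for each `e ∈ N` those `x ∈ S` for which `G' ++ [x]` is `Big` for `e`; there are fewer than
`KK k (2e+1) |G'|` of them (otherwise `G'` would be `Big` for `e` by `Big.step`).  Since
`∑_{e ∈ N} KK k (2e+1) l ≤ (2^j - 1) * K0 k l` at least `K0 k l` children remain; choose exactly
`K0 k l` of them.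
-/

set_option autoImplicit false

namespace Pool.Agent.RR

open Classical

private theorem b2_lt_bd {G : List ℕ} {a : ℕ} (h : a ∈ G) : a < bd G := by
  induction G with
  | nil => simp at h
  | cons x G ih =>
    have hb : bd (x :: G) = max (x + 1) (bd G) := rfl
    rw [hb]
    rcases List.mem_cons.1 h with rfl | h
    · exact lt_of_lt_of_le (Nat.lt_succ_self a) (le_max_left _ _)
    · exact lt_of_lt_of_le (ih h) (le_max_right _ _)

theorem Big.mono {K : ℕ → ℕ} {A A' : List ℕ → Prop} {X X' : Set ℕ} {T T' : List ℕ → Prop}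
    {G : List ℕ} (h : Big K A X T G) (hX : X ⊆ X') (hT : ∀ G', T G' → T' G')
    (hA : ∀ G', G <+: G' → (∀ x ∈ G', x ∈ G ∨ x ∈ X) → A G' → A' G') : Big K A' X' T' G := by
  have key : ∀ G1, Big K A X T G1 → G <+: G1 → (∀ x ∈ G1, x ∈ G ∨ x ∈ X) →
      Big K A' X' T' G1 := by
    intro G1 h1
    induction h1 with
    | base G1 h => intro _ _; exact Big.base G1 (hT _ h)
    | step G1 S hS hXS hb hAS _ ih =>
      intro hp he
      have hp' : ∀ x, G <+: G1 ++ [x] := fun x => hp.trans (List.prefix_append _ _)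
      have he' : ∀ x ∈ S, ∀ y ∈ G1 ++ [x], y ∈ G ∨ y ∈ X := by
        intro x hx y hy
        rcases List.mem_append.1 hy with hy | hy
        · exact he y hy
        · rw [List.mem_singleton] at hy
          rw [hy]
          exact Or.inr (hXS x hx)
      exact Big.step G1 S hS (fun x hx => hX (hXS x hx)) hb
        (fun x hx => hA _ (hp' x) (he' x hx) (hAS x hx)) (fun x hx => ih x hx (hp' x) (he' x hx))
  exact key G h (List.prefix_refl G) (fun x hx => Or.inl hx)

theorem Big.finite {K : ℕ → ℕ} {A : List ℕ → Prop} {X : Set ℕ} {T : List ℕ → Prop}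
    {G : List ℕ} (h : Big K A X T G) : ∃ n, ∀ n', n ≤ n' → Big K A (X ∩ Set.Iio n') T G := by
  induction h with
  | base G h => exact ⟨0, fun n' _ => Big.base G h⟩
  | step G S hS hX hb hA _ ih =>
    have h1 : ∀ x, ∃ n, x ∈ S → ∀ n', n ≤ n' → Big K A (X ∩ Set.Iio n') T (G ++ [x]) := by
      intro x
      by_cases hx : x ∈ S
      · obtain ⟨n, hn⟩ := ih x hx
        exact ⟨n, fun _ => hn⟩
      · exact ⟨0, fun hx' => absurd hx' hx⟩
    choose n hn using h1
    refine ⟨S.sup n + S.sup id + 1, fun n' hn' => ?_⟩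
    refine Big.step G S hS (fun x hx => ⟨hX x hx, ?_⟩) hb hA (fun x hx => hn x hx n' ?_)
    · have : x ≤ S.sup id := Finset.le_sup (f := id) hx
      show x < n'
      omega
    · have : n x ≤ S.sup n := Finset.le_sup hx
      omega

private theorem b2_pow (j : ℕ) : ∑ i ∈ Finset.range j, 2 ^ i + 1 = 2 ^ j := by
  induction j with
  | zero => rfl
  | succ j ih =>
    rw [Finset.sum_range_succ, pow_succ]
    omega

private theorem b2_sum (j : ℕ) (N : Finset ℕ) (hN : ∀ e ∈ N, 2 * e + 1 < j) :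
    ∑ e ∈ N, 2 ^ (2 * e + 1) + 1 ≤ 2 ^ j := by
  rw [← b2_pow j]
  have h1 : ∑ e ∈ N, 2 ^ (2 * e + 1) = ∑ i ∈ N.image (fun e => 2 * e + 1), 2 ^ i := by
    rw [Finset.sum_image]
    intro a _ b _ hab
    simp only at hab
    omega
  rw [h1]
  have h2 : ∑ i ∈ N.image (fun e => 2 * e + 1), 2 ^ i ≤ ∑ i ∈ Finset.range j, 2 ^ i := by
    apply Finset.sum_le_sum_of_subset
    intro i hi
    obtain ⟨e, he, rfl⟩ := Finset.mem_image.1 hi
    exact Finset.mem_range.2 (hN e he)
  omega

theorem prune (k j : ℕ) (A A0 : List ℕ → Prop) (X Y : Set ℕ) (T : List ℕ → Prop)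
    (Tn : ℕ → List ℕ → Prop) (N : Finset ℕ) (hN : ∀ e ∈ N, 2 * e + 1 < j)
    (hA : ∀ G, A G → A0 G) (hXY : X ⊆ Y) (G : List ℕ) (hG : Big (KK k j) A X T G)
    (hlose : ∀ e ∈ N, ¬ Big (KK k (2 * e + 1)) A0 Y (Tn e) G) (hAG : A G) (lab : ℕ) :
    ∃ L : Finset (List ℕ × ℕ), Cut k G L ∧ (∀ q ∈ L, q.2 = lab) ∧
      (∀ q ∈ L, T q.1 ∧ A q.1 ∧ ∀ e ∈ N, ¬ Big (KK k (2 * e + 1)) A0 Y (Tn e) q.1) ∧
      (∀ q ∈ L, ∀ x ∈ q.1, x ∈ G ∨ x ∈ X) ∧
      (∀ q ∈ L, G.Pairwise (· < ·) → q.1.Pairwise (· < ·)) := by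
  induction hG with
  | base G h =>
    refine ⟨{(G, lab)}, Cut.single G lab, ?_, ?_, ?_, ?_⟩
    · intro q hq
      rw [Finset.mem_singleton] at hq
      rw [hq]
    · intro q hq
      rw [Finset.mem_singleton] at hq
      rw [hq]
      exact ⟨h, hAG, hlose⟩
    · intro q hq x hx
      rw [Finset.mem_singleton] at hq
      rw [hq] at hx
      exact Or.inl hx
    · intro q hq hp
      rw [Finset.mem_singleton] at hq
      rw [hq]
      exact hp
  | step G S hS hX hb hAS _ ih =>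
    set l := G.length with hl
    -- bad children
    set bad : ℕ → Finset ℕ := fun e =>
      S.filter (fun x => Big (KK k (2 * e + 1)) A0 Y (Tn e) (G ++ [x])) with hbad
    have hbadc : ∀ e ∈ N, (bad e).card ≤ 2 ^ (2 * e + 1) * K0 k l := by
      intro e he
      by_contra hlt
      push Not at hlt
      apply hlose e he
      refine Big.step G (bad e) hlt.le ?_ ?_ ?_ ?_
      · intro x hx
        exact hXY (hX x (Finset.mem_filter.1 hx).1)
      · intro x hx
        exact hb x (Finset.mem_filter.1 hx).1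
      · intro x hx
        exact hA _ (hAS x (Finset.mem_filter.1 hx).1)
      · intro x hx
        exact (Finset.mem_filter.1 hx).2
    have htot : (N.biUnion bad).card + K0 k l ≤ S.card := by
      have h1 : (N.biUnion bad).card ≤ (∑ e ∈ N, 2 ^ (2 * e + 1)) * K0 k l := by
        rw [Finset.sum_mul]
        exact Finset.card_biUnion_le.trans (Finset.sum_le_sum hbadc)
      have h2 := Nat.mul_le_mul_right (K0 k l) (b2_sum j N hN)
      have h3 : KK k j l = 2 ^ j * K0 k l := rfl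
      rw [h3] at hS
      rw [add_mul, one_mul] at h2
      omega
    have h4 : K0 k l ≤ (S \ N.biUnion bad).card := by
      have := Finset.le_card_sdiff (N.biUnion bad) S
      omega
    obtain ⟨S', hS'sub, hS'card⟩ := Finset.exists_subset_card_eq h4
    have hmem : ∀ x ∈ S', x ∈ S ∧ ∀ e ∈ N, ¬ Big (KK k (2 * e + 1)) A0 Y (Tn e) (G ++ [x]) := by
      intro x hx
      have h5 := Finset.mem_sdiff.1 (hS'sub hx)
      refine ⟨h5.1, fun e he hB => h5.2 ?_⟩
      exact Finset.mem_biUnion.2 ⟨e, he, Finset.mem_filter.2 ⟨h5.1, hB⟩⟩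
    have h6 : ∀ x, ∃ L : Finset (List ℕ × ℕ), x ∈ S' → Cut k (G ++ [x]) L ∧
        (∀ q ∈ L, q.2 = lab) ∧
        (∀ q ∈ L, T q.1 ∧ A q.1 ∧ ∀ e ∈ N, ¬ Big (KK k (2 * e + 1)) A0 Y (Tn e) q.1) ∧
        (∀ q ∈ L, ∀ y ∈ q.1, y ∈ G ++ [x] ∨ y ∈ X) ∧
        (∀ q ∈ L, (G ++ [x]).Pairwise (· < ·) → q.1.Pairwise (· < ·)) := by
      intro x
      by_cases hx : x ∈ S'
      · obtain ⟨L, hL⟩ := ih x (hmem x hx).1 (hmem x hx).2 (hAS x (hmem x hx).1)
        exact ⟨L, fun _ => hL⟩
      · exact ⟨∅, fun hx' => absurd hx' hx⟩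
    choose L hL using h6
    refine ⟨S'.biUnion L, Cut.node G S' L hS'card (fun y hy => (hL y hy).1), ?_, ?_, ?_, ?_⟩
    · intro q hq
      obtain ⟨x, hx, hq⟩ := Finset.mem_biUnion.1 hq
      exact (hL x hx).2.1 q hq
    · intro q hq
      obtain ⟨x, hx, hq⟩ := Finset.mem_biUnion.1 hq
      exact (hL x hx).2.2.1 q hq
    · intro q hq y hy
      obtain ⟨x, hx, hq⟩ := Finset.mem_biUnion.1 hq
      rcases (hL x hx).2.2.2.1 q hq y hy with h7 | h7
      · rcases List.mem_append.1 h7 with h7 | h7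
        · exact Or.inl h7
        · rw [List.mem_singleton] at h7
          rw [h7]
          exact Or.inr (hX x (hmem x hx).1)
      · exact Or.inr h7
    · intro q hq hp
      obtain ⟨x, hx, hq⟩ := Finset.mem_biUnion.1 hq
      refine (hL x hx).2.2.2.2 q hq ?_
      rw [List.pairwise_append]
      refine ⟨hp, List.pairwise_singleton _ _, ?_⟩
      intro a ha b hb'
      rw [List.mem_singleton] at hb'
      rw [hb']
      exact lt_of_lt_of_le (b2_lt_bd ha) (hb x (hmem x hx).1)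

end Pool.Agent.RR
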