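import Pool.Agent.Helper55.RR.Defs

/-!
# B3. Patterns, freeness, `Good`, `Force`
-/

set_option autoImplicit false

namespace Pool.Agent.RR

open Classical

theorem mem_prs {n : ℕ} {p : ℕ × ℕ} : p ∈ prs n ↔ p.1 < p.2 ∧ p.2 < n := by
  unfold prs
  rw [Finset.mem_filter, Finset.mem_product, Finset.mem_range, Finset.mem_range]
  constructor
  · rintro ⟨⟨_, h1⟩, h2⟩; exact ⟨h2, h1⟩
  · rintro ⟨h1, h2⟩; exact ⟨⟨h1.trans h2, h2⟩, h1⟩

theorem mem_patOf {c : Col} {x n : ℕ} {q : (ℕ × ℕ) × (ℕ × ℕ)} : q ∈ patOf c x n ↔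
    (q.1 ∈ prs n ∧ q.2 ∈ prs n) ∧ q.1 ≠ q.2 ∧ c q.1.1 q.1.2 x = c q.2.1 q.2.2 x := by
  unfold patOf
  rw [Finset.mem_filter, Finset.mem_product]

theorem mem_relOf {g : ℕ → ℕ} {h n : ℕ} {q : (ℕ × ℕ) × (ℕ × ℕ)} : q ∈ relOf g h n ↔
    (q.1 ∈ prs n ∧ q.2 ∈ prs n) ∧ g (Nat.pair h (Encodable.encode q)) ≠ 0 := by
  unfold relOf
  rw [Finset.mem_filter, Finset.mem_product]

theorem mem_restr {E : Pat} {n : ℕ} {q : (ℕ × ℕ) × (ℕ × ℕ)} : q ∈ restr E n ↔
    q ∈ E ∧ q.1 ∈ prs n ∧ q.2 ∈ prs n := by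
  unfold restr
  rw [Finset.mem_filter]

theorem prs_mono {m n : ℕ} (h : m ≤ n) {p : ℕ × ℕ} (hp : p ∈ prs m) : p ∈ prs n := by
  rw [mem_prs] at hp ⊢
  exact ⟨hp.1, hp.2.trans_le h⟩

/-- for `n ≤ x` and a `k`-bounded colouring the pattern of `x` below `n` is `k`-bounded: for a pair `s`
the pairs `t` with `c t x = c s x` give different triples of the same colour -/
theorem isPat_patOf {k : ℕ} {c : Col} (hc : KBdd k c) {x n : ℕ} (hx : n ≤ x) :
    IsPat k n (patOf c x n) := by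
  refine ⟨?_, ?_, ?_, ?_⟩
  · intro q hq
    rw [mem_patOf] at hq
    rw [Finset.mem_product]
    exact hq.1
  · intro q hq
    rw [mem_patOf] at hq ⊢
    exact ⟨⟨hq.1.2, hq.1.1⟩, Ne.symm hq.2.1, hq.2.2.symm⟩
  · intro q hq
    rw [mem_patOf] at hq
    exact hq.2.1
  · intro s
    have hinj : Function.Injective (fun q : (ℕ × ℕ) × (ℕ × ℕ) => ((q.2.1, q.2.2, x), q.1)) := by
      rintro ⟨⟨a, b⟩, ⟨a', b'⟩⟩ ⟨⟨a1, b1⟩, ⟨a1', b1'⟩⟩ h
      simp only [Prod.mk.injEq] at h ⊢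
      tauto
    let S : Finset (ℕ × ℕ × ℕ) :=
      ((patOf c x n).filter (fun q => q.1 = s)).image (fun q => (q.2.1, q.2.2, x))
    have hcard : ((patOf c x n).filter (fun q => q.1 = s)).card = S.card := by
      symm
      apply Finset.card_image_of_injOn
      intro q hq q' hq' h
      rw [Finset.mem_coe, Finset.mem_filter] at hq hq'
      apply hinj
      simp only [Prod.mk.injEq] at h ⊢
      exact ⟨h, hq.2.trans hq'.2.symm⟩
    rw [hcard]
    have hsub : (S : Set (ℕ × ℕ × ℕ)) ⊆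
        {t : ℕ × ℕ × ℕ | t.1 < t.2.1 ∧ t.2.1 < t.2.2 ∧ c t.1 t.2.1 t.2.2 = c s.1 s.2 x} := by
      intro t ht
      rw [Finset.mem_coe, Finset.mem_image] at ht
      obtain ⟨q, hq, rfl⟩ := ht
      rw [Finset.mem_filter, mem_patOf] at hq
      obtain ⟨⟨⟨h1, h2⟩, h3, h4⟩, h5⟩ := hq
      rw [mem_prs] at h2
      exact ⟨h2.1, h2.2.trans_le hx, by rw [← h5]; exact h4.symm⟩
    have := (Set.encard_le_encard hsub).trans (hc (c s.1 s.2 x))
    rw [Set.encard_coe_eq_coe_finsetCard] at this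
    exact_mod_cast this

theorem restr_patOf (c : Col) (x : ℕ) {m n : ℕ} (h : m ≤ n) :
    restr (patOf c x n) m = patOf c x m := by
  ext q
  rw [mem_restr, mem_patOf, mem_patOf]
  constructor
  · rintro ⟨⟨_, h1⟩, h2⟩; exact ⟨h2, h1⟩
  · rintro ⟨h1, h2⟩; exact ⟨⟨⟨prs_mono h h1.1, prs_mono h h1.2⟩, h2⟩, h1⟩

theorem IsPat.restr {k n : ℕ} {E : Pat} (h : IsPat k n E) (m : ℕ) :
    IsPat k m (restr E m) := by
  obtain ⟨h1, h2, h3, h4⟩ := h
  refine ⟨?_, ?_, ?_, ?_⟩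
  · intro q hq
    rw [mem_restr] at hq
    rw [Finset.mem_product]
    exact hq.2
  · intro q hq
    rw [mem_restr] at hq ⊢
    exact ⟨h2 q hq.1, hq.2.2, hq.2.1⟩
  · intro q hq
    rw [mem_restr] at hq
    exact h3 q hq.1
  · intro s
    refine le_trans (Finset.card_le_card ?_) (h4 s)
    intro q hq
    rw [Finset.mem_filter, mem_restr] at hq
    rw [Finset.mem_filter]
    exact ⟨hq.1.1, hq.2⟩

theorem restr_restr (E : Pat) {m n : ℕ} (h : m ≤ n) : restr (restr E n) m = restr E m := by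
  ext q
  rw [mem_restr, mem_restr, mem_restr]
  constructor
  · rintro ⟨⟨h1, _⟩, h2⟩; exact ⟨h1, h2⟩
  · rintro ⟨h1, h2⟩; exact ⟨⟨h1, prs_mono h h2.1, prs_mono h h2.2⟩, h2⟩

theorem restr_self {n : ℕ} {E : Pat} (h : E ⊆ (prs n) ×ˢ (prs n)) : restr E n = E := by
  ext q
  rw [mem_restr]
  exact ⟨fun h => h.1, fun hq => ⟨hq, Finset.mem_product.1 (h hq)⟩⟩

theorem restr_relOf (g : ℕ → ℕ) (h : ℕ) {m n : ℕ} (hmn : m ≤ n) :
    restr (relOf g h n) m = relOf g h m := by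
  ext q
  rw [mem_restr, mem_relOf, mem_relOf]
  constructor
  · rintro ⟨⟨_, h1⟩, h2⟩; exact ⟨h2, h1⟩
  · rintro ⟨h1, h2⟩; exact ⟨⟨⟨prs_mono hmn h1.1, prs_mono hmn h1.2⟩, h2⟩, h1⟩

/-- freeness only depends on the restriction of the pattern -/
theorem free_restr_iff {N n : ℕ} {E : Pat} (hE : E ⊆ (prs N) ×ˢ (prs N)) {G : List ℕ}
    (hG : ∀ x ∈ G, x < n) : Free (restr E n) G ↔ Free E G := by
  constructor
  · intro h q hq hmem
    refine h q ?_ hmem
    have h1 := Finset.mem_product.1 (hE hq)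
    rw [mem_prs, mem_prs] at h1
    rw [mem_restr, mem_prs, mem_prs]
    exact ⟨hq, ⟨h1.1.1, hG _ hmem.2.1⟩, ⟨h1.2.1, hG _ hmem.2.2.2⟩⟩
  · intro h q hq hmem
    rw [mem_restr] at hq
    exact h q hq.1 hmem

theorem freeR_iff (g : ℕ → ℕ) (h : ℕ) {n : ℕ} {G : List ℕ} (hG : ∀ x ∈ G, x < n) :
    FreeR g h G ↔ Free (relOf g h n) G := by
  constructor
  · intro hf; exact hf n
  · intro hf m q hq hmem
    rw [mem_relOf, mem_prs, mem_prs] at hq
    refine hf q ?_ hmem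
    rw [mem_relOf, mem_prs, mem_prs]
    exact ⟨⟨⟨hq.1.1.1, hG _ hmem.2.1⟩, ⟨hq.1.2.1, hG _ hmem.2.2.2⟩⟩, hq.2⟩

/-- all but finitely many `x` are fresh: a colour of a triple below `n` is used at most `k` times -/
theorem finite_not_fresh {k : ℕ} {c : Col} (hc : KBdd k c) (n : ℕ) :
    {x | ¬ Fresh c x n}.Finite := by
  -- the set of the colours of the triples below `n`
  have hfin : (⋃ t ∈ (Finset.range n ×ˢ (Finset.range n ×ˢ Finset.range n)),
      (fun s : ℕ × ℕ × ℕ => s.2.2) ''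
      {s : ℕ × ℕ × ℕ | s.1 < s.2.1 ∧ s.2.1 < s.2.2 ∧ c s.1 s.2.1 s.2.2 = c t.1 t.2.1 t.2.2}).Finite := by
    apply Set.Finite.biUnion (Finset.finite_toSet _)
    intro t _
    apply Set.Finite.image
    exact Set.finite_of_encard_le_coe (hc _)
  refine (hfin.union (Set.finite_Iio n)).subset ?_
  intro x hx
  have hx' : ¬ Fresh c x n := hx
  by_cases hxn : x < n
  · exact Or.inr hxn
  · left
    unfold Fresh at hx'
    push Not at hx'
    obtain ⟨a, b, hab, hbn, a', b', w', h1, h2, h3, h4⟩ := hx'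
    simp only [Set.mem_iUnion]
    have hbx : b < x := by omega
    refine ⟨(a', b', w'), ?_, (a, b, x), ⟨hab, hbx, h4⟩, rfl⟩
    rw [Finset.mem_product, Finset.mem_product]
    simp only [Finset.mem_range]
    omega

/-- one point extensions of rainbow sets -/
theorem good_append {c : Col} {G : List ℕ} {x n : ℕ} (hG : Good c G) (hn : ∀ y ∈ G, y < n)
    (hx : n ≤ x) (hf : Fresh c x n) (hfree : Free (patOf c x n) G) : Good c (G ++ [x]) := by
  intro a ha b hb w hw a' ha' b' hb' w' hw' hab hbw hab' hbw' heq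
  have hm : ∀ {y z}, y ∈ G ++ [x] → z ∈ G ++ [x] → y < z → y ∈ G := by
    intro y z hy hz hyz
    rw [List.mem_append, List.mem_singleton] at hy hz
    rcases hy with hy | rfl
    · exact hy
    · rcases hz with hz | rfl
      · have := hn z hz; omega
      · omega
  have haG := hm ha hb hab
  have hbG := hm hb hw hbw
  have haG' := hm ha' hb' hab'
  have hbG' := hm hb' hw' hbw'
  rw [List.mem_append, List.mem_singleton] at hw hw'
  rcases hw with hw | rfl <;> rcases hw' with hw' | rfl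
  · exact hG a haG b hbG w hw a' haG' b' hbG' w' hw' hab hbw hab' hbw' heq
  · exact absurd heq.symm (hf a' b' hab' (hn _ hbG') a b w hab hbw (hn _ hw))
  · exact absurd heq (hf a b hab (hn _ hbG) a' b' w' hab' hbw' (hn _ hw'))
  · by_contra hne
    refine hfree ((a, b), (a', b')) ?_ ⟨haG, hbG, haG', hbG'⟩
    rw [mem_patOf, mem_prs, mem_prs]
    refine ⟨⟨⟨hab, hn _ hbG⟩, ⟨hab', hn _ hbG'⟩⟩, ?_, heq⟩
    intro h
    apply hne
    rw [Prod.mk.injEq] at h
    exact ⟨h.1, h.2, rfl⟩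

theorem lt_bd {G : List ℕ} {x : ℕ} (h : x ∈ G) : x < bd G := by
  induction G with
  | nil => exact absurd h (List.not_mem_nil)
  | cons a G ih =>
    have hb : bd (a :: G) = max (a + 1) (bd G) := rfl
    rw [hb]
    rcases List.mem_cons.1 h with rfl | h
    · exact lt_of_lt_of_le (Nat.lt_succ_self _) (le_max_left _ _)
    · exact lt_of_lt_of_le (ih h) (le_max_right _ _)

theorem bd_le {G : List ℕ} {n : ℕ} (h : ∀ x ∈ G, x < n) : bd G ≤ n := by
  induction G with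
  | nil => exact Nat.zero_le _
  | cons a G ih =>
    have hb : bd (a :: G) = max (a + 1) (bd G) := rfl
    rw [hb]
    exact max_le (h a List.mem_cons_self) (ih fun x hx => h x (List.mem_cons_of_mem _ hx))

theorem exists_bd {G : List ℕ} {x : ℕ} (h : x < bd G) : ∃ y ∈ G, x ≤ y := by
  by_contra hcon
  push Not at hcon
  exact absurd (bd_le hcon) (by omega)

/-- if `G <+: G'` and `G'` is increasing, the new elements are `≥ bd G` -/
theorem mem_of_prefix_of_lt_bd {G G' : List ℕ} (h : G <+: G') (hG' : G'.Pairwise (· < ·)) {x : ℕ}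
    (hx : x ∈ G') (hlt : x < bd G) : x ∈ G := by
  obtain ⟨t, rfl⟩ := h
  rcases List.mem_append.1 hx with hx | hx
  · exact hx
  · obtain ⟨y, hy, hxy⟩ := exists_bd hlt
    have := (List.pairwise_append.1 hG').2.2 y hy x hx
    omega

theorem bd_mono_prefix {G G' : List ℕ} (h : G <+: G') : bd G ≤ bd G' :=
  bd_le fun _ hx => lt_bd (h.subset hx)

theorem Force.mono {Z : ℕ → ℕ} {e : ℕ} {G G' : List ℕ} (h : Force Z e G) (hp : G <+: G')
    (hG' : G'.Pairwise (· < ·)) : Force Z e G' := by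
  intro Y hY
  apply h
  intro i hi
  have hbd := bd_mono_prefix hp
  rw [hY i (by omega)]
  unfold join
  split_ifs with h2
  · rfl
  · unfold chi
    have hi2 : i / 2 < bd G := by omega
    by_cases h3 : i / 2 ∈ G
    · rw [if_pos h3, if_pos (hp.subset h3)]
    · rw [if_neg h3, if_neg (fun h4 => h3 (mem_of_prefix_of_lt_bd hp hG' h4 hi2))]

/-- prefixes of a given list are comparable -/
theorem prefix_total {A B C : List ℕ} (h : A <+: C) (h' : B <+: C) : A <+: B ∨ B <+: A :=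
  List.prefix_or_prefix_of_prefix h h'

end Pool.Agent.RR
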