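import Pool.Agent.Helper55.RR.B1
import Pool.Agent.Helper55.RR.B2
import Pool.Agent.Helper55.RR.B3

/-!
# B4. The YES step

Let `E'` be the pattern `patOf c x n` which occurs for infinitely many `x ∈ Res Z g s` with `n ≤ x`,
`Fresh c x n` (pigeonhole, finitely many patterns; `finite_not_fresh`).  `IsPat k n E'` and
`restr E' s.b = s.E`, so `Star` gives `p ∈ s.lv`, `p.2 < ns k s` with
`Big (KK k p.2) (AlE Z g s p.1 E') (Res Z g s ∩ Iio n) (T Z p.2) p.1`.
Apply `prune` with `A = AlE Z g s p.1 E'`, `A0 = Al0 Z g s p.1`, `X = Res ∩ Iio n`, `Y = Res`,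
`N = {q.2.2 : q ∈ rho, q.2.1 <+: p.1}`, `Tn e = T Z (2 e + 1)`, `lab = p.2 + 1`; get `L`.
New state: `⟨n, E', s.rho, s.lv.erase p ∪ L⟩`.  Its reservoir is
`{x ∈ Res s | n ≤ x, patOf c x n = E', Fresh c x n}`, infinite.

Invariants of the new state, for a new leaf `q ∈ L` (old leaves are easy; `E'` restricted to `s.b` is
`s.E` and old leaves have elements `< s.b`):
* a constraint `q' ∈ rho` with `q'.2.1 <+: q.1` has `q'.2.1 <+: p.1` (comparable by `prefix_total`; if
  `p.1 <+: q'.2.1` then `p.1 = q'.2.1` by `Inv.below`); so `freeR, neg, inj, losing` come from `A q.1`,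
  the invariants for `p` and `prune`;
* `size`: if `p.2 = 2 m` then `T Z p.2 q.1` says `m + 1 ≤ |q.1|`; if `p.2 = 2 e + 1` then
  `2 e + 1 ≤ 2 |p.1|` gives `e + 1 ≤ |p.1| ≤ |q.1|`;
* `below`: `q.1 <+: q'.2.1` implies `p.1 <+: q'.2.1`, so `p.1 = q'.2.1`, so `q.1 = p.1 = q'.2.1`;
* `dec`: `2 e + 1 < p.2 + 1`: either `2 e + 1 < p.2` (old invariant, `Force.mono`) or `2 e + 1 = p.2` and
  `T Z p.2 q.1` is `Force Z e q.1`;
* `losing`: `Big.mono` (`Al0` for the new state and leaf `q.1` implies `Al0` for the old state and leaf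
  `p.1`, `Res s' ⊆ Res s`).
-/

set_option autoImplicit false

namespace Pool.Agent.RR

open Classical

private theorem b4_fresh_mono {c : Col} {x m n : ℕ} (h : Fresh c x n) (hmn : m ≤ n) :
    Fresh c x m := by
  intro a b hab hbm a' b' w' h1 h2 h3
  exact h a b hab (by omega) a' b' w' h1 h2 (by omega)

private theorem b4_infinite {k : ℕ} {Z g : ℕ → ℕ} (hc : KBdd k (cc Z)) {s : St}
    (hinf : (Res Z g s).Infinite) (n : ℕ) :
    ∃ E' : Pat, {x | x ∈ Res Z g s ∧ n ≤ x ∧ Fresh (cc Z) x n ∧
      patOf (cc Z) x n = E'}.Infinite := by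
  by_contra hcon
  push Not at hcon
  apply hinf
  have hfin : ((⋃ E ∈ (((prs n) ×ˢ (prs n)).powerset : Finset Pat),
      {x | x ∈ Res Z g s ∧ n ≤ x ∧ Fresh (cc Z) x n ∧ patOf (cc Z) x n = E}) ∪
      ({x | ¬ Fresh (cc Z) x n} ∪ Set.Iio n)).Finite := by
    refine Set.Finite.union ?_ (Set.Finite.union (finite_not_fresh hc n) (Set.finite_Iio n))
    refine Set.Finite.biUnion (Finset.finite_toSet _) ?_
    intro E _
    exact hcon E
  refine hfin.subset ?_
  intro x hx
  by_cases h1 : Fresh (cc Z) x n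
  · by_cases h2 : n ≤ x
    · left
      simp only [Set.mem_iUnion]
      exact ⟨patOf (cc Z) x n, Finset.mem_powerset.2 (Finset.filter_subset _ _), hx, h2, h1, rfl⟩
    · right; right
      exact not_le.1 h2
  · right; left
    exact h1

theorem step_yes {k : ℕ} {Z g : ℕ → ℕ} (hc : KBdd k (cc Z)) {s : St} (hs : Valid k Z g s) {n : ℕ}
    (hn : Star k Z g s n) : ∃ s', Valid k Z g s' ∧ Nx k s n s' := by
  obtain ⟨hi, hinf⟩ := hs
  obtain ⟨hbn, hstar⟩ := hn
  obtain ⟨E', hE'⟩ := b4_infinite hc hinf n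
  obtain ⟨x0, hx0, hnx0, hfx0, hpx0⟩ := hE'.nonempty
  have hpat : IsPat k n E' := hpx0 ▸ isPat_patOf hc hnx0
  have hrestr : restr E' s.b = s.E := by
    rw [← hpx0, restr_patOf _ _ hbn]
    exact hx0.2.1
  have hnb := hstar E' hpat hrestr
  unfold NB at hnb
  push Not at hnb
  obtain ⟨p, hp, hpns, hbig⟩ := hnb
  -- freeness of old leaves
  have hfreeold : ∀ p' ∈ s.lv, Free E' p'.1 := by
    intro p' hp'
    rw [← free_restr_iff hpat.1 (hi.lt p' hp'), hrestr]
    exact hi.free p' hp'
  have hAG : AlE Z g s p.1 E' p.1 :=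
    ⟨⟨hi.good p hp, fun q hq hqp => hi.freeR p hp q hq hqp⟩, hfreeold p hp⟩
  obtain ⟨L, hcut, hlab, hprop, hmem, hinc⟩ := prune k p.2 (AlE Z g s p.1 E') (Al0 Z g s p.1)
    (Res Z g s ∩ Set.Iio n) (Res Z g s) (T Z p.2) (fun e => T Z (2 * e + 1))
    ((s.rho.filter (fun q => q.2.1 <+: p.1)).image (fun q => q.2.2))
    (by
      intro e he
      obtain ⟨q, hq, rfl⟩ := Finset.mem_image.1 he
      obtain ⟨hq1, hq2⟩ := Finset.mem_filter.1 hq
      exact hi.neg q hq1 p hp hq2)
    (fun G hG => hG.1) Set.inter_subset_left p.1 hbig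
    (by
      intro e he
      obtain ⟨q, hq, rfl⟩ := Finset.mem_image.1 he
      obtain ⟨hq1, hq2⟩ := Finset.mem_filter.1 hq
      exact hi.losing q hq1 p hp hq2)
    hAG (p.2 + 1)
  have hpre : ∀ q ∈ L, p.1 <+: q.1 := hcut.pref
  -- constraints below a new leaf are below the old leaf
  have hkey : ∀ p' ∈ L, ∀ q ∈ s.rho, q.2.1 <+: p'.1 → q.2.1 <+: p.1 := by
    intro p' hp' q hq hqp
    rcases prefix_total hqp (hpre p' hp') with h | h
    · exact h
    · have := hi.below q hq p hp h
      rw [this]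
  have hincL : ∀ q ∈ L, q.1.Pairwise (· < ·) := fun q hq => hinc q hq (hi.inc p hp)
  have hltL : ∀ q ∈ L, ∀ x ∈ q.1, x < n := by
    intro q hq x hx
    rcases hmem q hq x hx with h | h
    · exact lt_of_lt_of_le (hi.lt p hp x h) hbn
    · exact h.2
  let s' : St := ⟨n, E', s.rho, s.lv.erase p ∪ L⟩
  have hcases : ∀ p' ∈ s'.lv, p' ∈ s.lv ∨ p' ∈ L := by
    intro p' hp'
    rcases Finset.mem_union.1 hp' with h | h
    · exact Or.inl (Finset.mem_of_mem_erase h)
    · exact Or.inr h
  have hResSub : Res Z g s' ⊆ Res Z g s := by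
    intro x hx
    obtain ⟨h1, h2, h3, h4⟩ := hx
    refine ⟨le_trans hbn h1, ?_, b4_fresh_mono h3 hbn, h4⟩
    have : restr (patOf (cc Z) x n) s.b = restr E' s.b := by
      change patOf (cc Z) x n = E' at h2
      rw [h2]
    rw [restr_patOf _ _ hbn, hrestr] at this
    exact this
  have hResInf : (Res Z g s').Infinite := by
    refine hE'.mono ?_
    intro x hx
    obtain ⟨h1, h2, h3, h4⟩ := hx
    exact ⟨h2, h4, h3, h1.2.2.2⟩
  refine ⟨s', ⟨?_, hResInf⟩, ?_⟩
  · refine
    { cut := hi.cut.graft hp hcut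
      inc := ?_
      lt := ?_
      pat := hpat
      good := ?_
      free := ?_
      freeR := ?_
      patR := hi.patR
      size := ?_
      neg := ?_
      inj := ?_
      below := ?_
      len := hi.len
      dec := ?_
      losing := ?_ }
    · intro p' hp'
      rcases hcases p' hp' with h | h
      · exact hi.inc p' h
      · exact hincL p' h
    · intro p' hp' x hx
      rcases hcases p' hp' with h | h
      · exact lt_of_lt_of_le (hi.lt p' h x hx) hbn
      · exact hltL p' h x hx
    · intro p' hp'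
      rcases hcases p' hp' with h | h
      · exact hi.good p' h
      · exact (hprop p' h).2.1.1.1
    · intro p' hp'
      rcases hcases p' hp' with h | h
      · exact hfreeold p' h
      · exact (hprop p' h).2.1.2
    · intro p' hp' q hq hqp
      rcases hcases p' hp' with h | h
      · exact hi.freeR p' h q hq hqp
      · exact (hprop p' h).2.1.1.2 q hq (hkey p' h q hq hqp)
    · intro p' hp'
      rcases hcases p' hp' with h | h
      · exact hi.size p' h
      · have hT := (hprop p' h).1
        have hl := hlab p' h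
        have hsz := hi.size p hp
        have hlen := (hpre p' h).length_le
        unfold T at hT
        by_cases hpar : p.2 % 2 = 0
        · rw [if_pos hpar] at hT
          omega
        · omega
    · intro q hq p' hp' hqp
      rcases hcases p' hp' with h | h
      · exact hi.neg q hq p' h hqp
      · have h1 := hi.neg q hq p hp (hkey p' h q hq hqp)
        have hl := hlab p' h
        omega
    · intro p' hp' q hq q' hq' hqp hqp' he
      rcases hcases p' hp' with h | h
      · exact hi.inj p' h q hq q' hq' hqp hqp' he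
      · exact hi.inj p hp q hq q' hq' (hkey p' h q hq hqp) (hkey p' h q' hq' hqp') he
    · intro q hq p' hp' hpq
      rcases hcases p' hp' with h | h
      · exact hi.below q hq p' h hpq
      · have h1 := hi.below q hq p hp ((hpre p' h).trans hpq)
        have h2 : p'.1 <+: p.1 := by rw [h1]; exact hpq
        have h3 : p'.1 = p.1 :=
          h2.eq_of_length (le_antisymm h2.length_le (hpre p' h).length_le)
        rw [h3, h1]
    · intro p' hp' e he
      rcases hcases p' hp' with h | h
      · exact hi.dec p' h e he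
      · have hl := hlab p' h
        by_cases h2 : 2 * e + 1 < p.2
        · rcases hi.dec p hp e h2 with ⟨q, hq, hq1, hq2⟩ | hF
          · exact Or.inl ⟨q, hq, hq1.trans (hpre p' h), hq2⟩
          · exact Or.inr (hF.mono (hpre p' h) (hincL p' h))
        · right
          have h3 : p.2 = 2 * e + 1 := by omega
          have hT := (hprop p' h).1
          unfold T at hT
          rw [h3, if_neg (by omega)] at hT
          have h4 : (2 * e + 1) / 2 = e := by omega
          rwa [h4] at hT
    · intro q hq p' hp' hqp hB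
      rcases hcases p' hp' with h | h
      · exact hi.losing q hq p' h hqp
          (hB.mono hResSub (fun _ h => h) (fun G _ _ hG => hG))
      · refine (hprop p' h).2.2 q.2.2 ?_
          (hB.mono hResSub (fun _ h => h) (fun G _ _ hG => ⟨hG.1, fun q' hq' hqp' => ?_⟩))
        · exact Finset.mem_image.2 ⟨q, Finset.mem_filter.2 ⟨hq, hkey p' h q hq hqp⟩, rfl⟩
        · exact hG.2 q' hq' (hqp'.trans (hpre p' h))
  · refine ⟨⟨p, hp, hpns, L, hcut, hlab, rfl⟩, rfl, hbn, hpat.1, Or.inl rfl, ?_⟩
    intro p' hp'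
    rcases hcases p' hp' with h | h
    · exact ⟨hi.inc p' h, fun x hx => lt_of_lt_of_le (hi.lt p' h x hx) hbn⟩
    · exact ⟨hincL p' h, hltL p' h⟩

end Pool.Agent.RR
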