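import Pool.Agent.Helper55.RR.B5

/-!
# B6. The NO step

Let `h = sid s`.  For all `n ≥ s.b` (`Req`): `IsPat k n (relOf g h n)`, `restr (relOf g h n) s.b = s.E`,
`NB k Z g s n (relOf g h n)`.  So `relOf g h s.b = s.E` and `IsPat k n (relOf g h n)` for all `n`.
The set `I` of leaves with label `< ns k s` has measure `> 1/4` (`Nat.sInf_mem`; the set is nonempty since
`mu k s.lv = 1`), so by `bad_bound` each large `x ∈ Res` has a leaf `p ∈ I` such that
`good(p, x) : FreeR g h (p.1 ++ [x]) ∧ ∀ q ∈ rho, q.2.1 <+: p.1 → FreeR g q.1 (p.1 ++ [x])`;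
pigeonhole: a leaf `p ∈ I` with infinitely many such `x ∈ Res`.
* If `p.2 = 2 m`: contradiction.  Take `n' ≥ s.b` with at least `KK k p.2 |p.1|` good `x` below `n'`;
  then `Big (KK k p.2) (AlE Z g s p.1 (relOf g h n')) (Res ∩ Iio n') (T Z p.2) p.1` by one step: `Good` by
  `good_append` (`x ∈ Res`: `Fresh`, pattern `s.E`, `Inv.free`), `T`: `m + 1 ≤ |p.1| + 1` from `Inv.size`.
* If `p.2 = 2 e + 1`: `s' = ⟨s.b, s.E, insert (h, p.1, e) s.rho, s.lv.erase p ∪ {(p.1, p.2 + 1)}⟩`.
  All invariants are easy (`e + 1 ≤ |p.1|` from `Inv.size`).  `losing` for the new constraint: a `Big` tree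
  (`Big.finite`, `Big.mono`) would contradict `NB k Z g s n' (relOf g h n')`: `Al0 Z g s' p.1 G` implies
  `AlE Z g s p.1 (relOf g h n') G`.  `Res s' = {x ∈ Res s | FreeR g h (p.1 ++ [x])}` is infinite.
-/

set_option autoImplicit false

namespace Pool.Agent.RR

open Classical

theorem b6_quarter_lt_ns (k : ℕ) {s : St} (hcut : Cut k [] s.lv) :
    1 / 4 < mu k (s.lv.filter (fun p => p.2 < ns k s)) := by
  have hne : ({n | 1 / 4 < mu k (s.lv.filter (fun p => p.2 < n))} : Set ℕ).Nonempty := by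
    refine ⟨s.lv.sup (fun p => p.2) + 1, ?_⟩
    have : s.lv.filter (fun p => p.2 < s.lv.sup (fun p => p.2) + 1) = s.lv := by
      apply Finset.filter_true_of_mem
      intro p hp
      exact Nat.lt_succ_of_le (Finset.le_sup (f := fun p : List ℕ × ℕ => p.2) hp)
    show 1 / 4 < mu k (s.lv.filter (fun p => p.2 < s.lv.sup (fun p => p.2) + 1))
    rw [this, hcut.mu_eq]
    simp only [List.length_nil, wt_zero]
    norm_num
  exact Nat.sInf_mem hne

/-- the leaf given by the pigeonhole principle -/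
theorem b6_exists_good_leaf {k : ℕ} {Z g : ℕ → ℕ} {s : St} (hs : Valid k Z g s) (h : ℕ)
    (hpat : ∀ n, IsPat k n (relOf g h n)) (hE : relOf g h s.b = s.E) :
    ∃ p ∈ s.lv, p.2 < ns k s ∧ {x | x ∈ Res Z g s ∧ FreeR g h (p.1 ++ [x]) ∧
      ∀ q ∈ s.rho, q.2.1 <+: p.1 → FreeR g q.1 (p.1 ++ [x])}.Infinite := by
  obtain ⟨hI, hinf⟩ := hs
  obtain ⟨N, hN⟩ := bad_bound hI h hpat hE
  by_contra hcon
  push Not at hcon
  have hfin : (⋃ p ∈ s.lv.filter (fun p => p.2 < ns k s), {x | x ∈ Res Z g s ∧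
      FreeR g h (p.1 ++ [x]) ∧
      ∀ q ∈ s.rho, q.2.1 <+: p.1 → FreeR g q.1 (p.1 ++ [x])}).Finite := by
    apply Set.Finite.biUnion (Finset.finite_toSet _)
    intro p hp
    have hp' := Finset.mem_filter.1 (Finset.mem_coe.1 hp)
    exact hcon p hp'.1 hp'.2
  have hinf2 : (Res Z g s \ ↑(Finset.range N)).Infinite := hinf.sdiff (Finset.finite_toSet _)
  obtain ⟨x, hx, hx'⟩ := (hinf2.sdiff hfin).nonempty
  have hxR : x ∈ Res Z g s := hx.1
  have hNx : N ≤ x := by
    by_contra hlt
    exact hx.2 (by simpa using hlt)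
  have hb := hN x hxR hNx
  have hq := b6_quarter_lt_ns k hI.cut
  have hsub : s.lv.filter (fun p => p.2 < ns k s) ⊆
      s.lv.filter (fun p => ¬ (FreeR g h (p.1 ++ [x]) ∧
        ∀ q ∈ s.rho, q.2.1 <+: p.1 → FreeR g q.1 (p.1 ++ [x]))) := by
    intro p hp
    have hp' := Finset.mem_filter.1 hp
    refine Finset.mem_filter.2 ⟨hp'.1, fun hgood => ?_⟩
    apply hx'
    simp only [Set.mem_iUnion]
    exact ⟨p, hp, hxR, hgood.1, hgood.2⟩
  have := mu_mono k hsub
  linarith

theorem b6_T_even {Z : ℕ → ℕ} {m : ℕ} {G : List ℕ} : T Z (2 * m) G ↔ m + 1 ≤ G.length := by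
  unfold T
  rw [if_pos (by omega)]
  rw [show 2 * m / 2 = m by omega]

theorem b6_T_odd {Z : ℕ → ℕ} {e : ℕ} {G : List ℕ} : T Z (2 * e + 1) G ↔ Force Z e G := by
  unfold T
  rw [if_neg (by omega)]
  rw [show (2 * e + 1) / 2 = e by omega]

theorem b6_free_mono {E : Pat} {G G' : List ℕ} (h : Free E G') (hG : ∀ x ∈ G, x ∈ G') : Free E G :=
  fun q hq hq' => h q hq ⟨hG _ hq'.1, hG _ hq'.2.1, hG _ hq'.2.2.1, hG _ hq'.2.2.2⟩

theorem b6_freeR_mono {g : ℕ → ℕ} {h : ℕ} {G G' : List ℕ} (hf : FreeR g h G')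
    (hG : ∀ x ∈ G, x ∈ G') : FreeR g h G := fun n => b6_free_mono (hf n) hG

/-- one point extensions of leaves by elements of the reservoir are rainbow -/
theorem b6_good_ext {k : ℕ} {Z g : ℕ → ℕ} {s : St} (hI : Inv k Z g s) {p : List ℕ × ℕ}
    (hp : p ∈ s.lv) {x : ℕ} (hx : x ∈ Res Z g s) : Good (cc Z) (p.1 ++ [x]) := by
  refine good_append (hI.good p hp) (hI.lt p hp) hx.1 hx.2.2.1 ?_
  rw [hx.2.1]
  exact hI.free p hp

theorem step_no {k : ℕ} {Z g : ℕ → ℕ} (hc : KBdd k (cc Z)) (hg : Req k Z g) {s : St}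
    (hs : Valid k Z g s) (hn : ∀ n, ¬ Star k Z g s n) : ∃ s', Valid k Z g s' ∧ Nx k s s.b s' := by
  obtain ⟨hI, hinf⟩ := id hs
  have hreq : ∀ n, s.b ≤ n → IsPat k n (relOf g (sid s) n) ∧
      restr (relOf g (sid s) n) s.b = s.E ∧ NB k Z g s n (relOf g (sid s) n) :=
    fun n hbn => hg s n hbn hI.lt (hn n)
  have hrelE : relOf g (sid s) s.b = s.E := by
    have := (hreq s.b le_rfl).2.1
    rwa [restr_relOf g (sid s) le_rfl] at this
  have hpat : ∀ n, IsPat k n (relOf g (sid s) n) := by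
    intro n
    rcases le_total s.b n with hbn | hbn
    · exact (hreq n hbn).1
    · have := (hreq s.b le_rfl).1.restr n
      rwa [restr_relOf g (sid s) hbn] at this
  obtain ⟨p, hp, hpn, hpinf⟩ := b6_exists_good_leaf hs (sid s) hpat hrelE
  rcases Nat.even_or_odd' p.2 with ⟨m, hm | hm⟩
  · exfalso
    -- a contradiction: a tree of height one
    obtain ⟨S, hS, hScard⟩ := hpinf.exists_subset_card_eq (KK k p.2 p.1.length)
    set n' := max s.b (S.sup id + 1) with hn'
    have hSn : ∀ x ∈ S, x < n' := fun x hx =>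
      lt_of_lt_of_le (Nat.lt_succ_of_le (Finset.le_sup (f := id) hx)) (le_max_right _ _)
    refine (hreq n' (le_max_left _ _)).2.2 p hp hpn ?_
    have hA : ∀ x ∈ S, AlE Z g s p.1 (relOf g (sid s) n') (p.1 ++ [x]) := by
      intro x hx
      have hx' := hS hx
      exact ⟨⟨b6_good_ext hI hp hx'.1, hx'.2.2⟩, hx'.2.1 n'⟩
    refine Big.step p.1 S (le_of_eq hScard.symm) ?_ ?_ hA ?_
    · intro x hx
      exact ⟨(hS hx).1, hSn x hx⟩
    · intro x hx
      exact (bd_le (hI.lt p hp)).trans (hS hx).1.1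
    · intro x hx
      apply Big.base
      rw [hm, b6_T_even]
      have := hI.size p hp
      simp only [List.length_append, List.length_cons, List.length_nil]
      omega
  · have hFR : FreeR g (sid s) p.1 := by
      obtain ⟨x, hx⟩ := hpinf.nonempty
      exact b6_freeR_mono hx.2.1 (fun y hy => List.mem_append_left _ hy)
    have hincomp : ∀ q ∈ s.lv, p.1 <+: q.1 → q = p := fun q hq hpq =>
      (hI.cut.incomp p hp q hq hpq).symm
    have hincomp' : ∀ q ∈ s.lv, q.1 <+: p.1 → q = p := fun q hq hpq =>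
      hI.cut.incomp q hq p hp hpq
    set s' : St := ⟨s.b, s.E, insert (sid s, p.1, m) s.rho,
      s.lv.erase p ∪ {(p.1, p.2 + 1)}⟩ with hs'
    have hlv : ∀ q, q ∈ s'.lv ↔ (q ∈ s.lv ∧ q ≠ p) ∨ q = (p.1, p.2 + 1) := by
      intro q
      simp only [hs', Finset.mem_union, Finset.mem_erase, Finset.mem_singleton]
      tauto
    have hrho : ∀ q, q ∈ s'.rho ↔ q = (sid s, p.1, m) ∨ q ∈ s.rho := by
      intro q
      simp only [hs', Finset.mem_insert]
    have hRes : ∀ x, x ∈ Res Z g s' → x ∈ Res Z g s := by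
      rintro x ⟨h1, h2, h3, h4⟩
      exact ⟨h1, h2, h3, fun q hq => h4 q ((hrho q).2 (Or.inr hq))⟩
    have hRes' : ∀ x, x ∈ Res Z g s → FreeR g (sid s) (p.1 ++ [x]) → x ∈ Res Z g s' := by
      rintro x ⟨h1, h2, h3, h4⟩ h5
      refine ⟨h1, h2, h3, fun q hq => ?_⟩
      rcases (hrho q).1 hq with rfl | hq
      · exact h5
      · exact h4 q hq
    -- the leaf of `s` below a leaf of `s'`
    have hcover : ∀ q ∈ s'.lv, ∃ q0 ∈ s.lv, q0.1 = q.1 := by
      intro q hq
      rcases (hlv q).1 hq with ⟨h1, _⟩ | rfl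
      · exact ⟨q, h1, rfl⟩
      · exact ⟨p, hp, rfl⟩
    have hsize := hI.size p hp
    refine ⟨s', ⟨⟨?_, ?_, ?_, ?_, ?_, ?_, ?_, ?_, ?_, ?_, ?_, ?_, ?_, ?_, ?_⟩, ?_⟩, ?_⟩
    · -- cut
      exact hI.cut.graft hp (Cut.single p.1 (p.2 + 1))
    · -- inc
      intro q hq
      obtain ⟨q0, h0, h1⟩ := hcover q hq
      rw [← h1]
      exact hI.inc q0 h0
    · -- lt
      intro q hq
      obtain ⟨q0, h0, h1⟩ := hcover q hq
      rw [← h1]
      exact hI.lt q0 h0
    · exact hI.pat
    · -- good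
      intro q hq
      obtain ⟨q0, h0, h1⟩ := hcover q hq
      rw [← h1]
      exact hI.good q0 h0
    · -- free
      intro q hq
      obtain ⟨q0, h0, h1⟩ := hcover q hq
      rw [← h1]
      exact hI.free q0 h0
    · -- freeR
      intro q hq r hr hrq
      rcases (hlv q).1 hq with ⟨h1, h2⟩ | rfl
      · rcases (hrho r).1 hr with rfl | hr
        · exact absurd (hincomp q h1 hrq) h2
        · exact hI.freeR q h1 r hr hrq
      · rcases (hrho r).1 hr with rfl | hr
        · exact hFR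
        · exact hI.freeR p hp r hr hrq
    · -- patR
      intro r hr
      rcases (hrho r).1 hr with rfl | hr
      · exact hpat
      · exact hI.patR r hr
    · -- size
      intro q hq
      rcases (hlv q).1 hq with ⟨h1, h2⟩ | rfl
      · exact hI.size q h1
      · show p.2 + 1 ≤ 2 * p.1.length
        omega
    · -- neg
      intro r hr q hq hrq
      rcases (hlv q).1 hq with ⟨h1, h2⟩ | rfl
      · rcases (hrho r).1 hr with rfl | hr
        · exact absurd (hincomp q h1 hrq) h2
        · exact hI.neg r hr q h1 hrq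
      · rcases (hrho r).1 hr with rfl | hr
        · show 2 * m + 1 < p.2 + 1
          omega
        · have := hI.neg r hr p hp hrq
          show 2 * r.2.2 + 1 < p.2 + 1
          omega
    · -- inj
      intro q hq r hr r' hr' hrq hrq' he
      rcases (hlv q).1 hq with ⟨h1, h2⟩ | rfl
      · rcases (hrho r).1 hr with rfl | hr
        · exact absurd (hincomp q h1 hrq) h2
        · rcases (hrho r').1 hr' with rfl | hr'
          · exact absurd (hincomp q h1 hrq') h2
          · exact hI.inj q h1 r hr r' hr' hrq hrq' he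
      · rcases (hrho r).1 hr with rfl | hr
        · rcases (hrho r').1 hr' with rfl | hr'
          · rfl
          · have := hI.neg r' hr' p hp hrq'
            exfalso
            have he' : m = r'.2.2 := he
            omega
        · rcases (hrho r').1 hr' with rfl | hr'
          · have := hI.neg r hr p hp hrq
            exfalso
            have he' : r.2.2 = m := he
            omega
          · exact hI.inj p hp r hr r' hr' hrq hrq' he
    · -- below
      intro r hr q hq hqr
      obtain ⟨q0, h0, h1⟩ := hcover q hq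
      rw [← h1] at hqr ⊢
      rcases (hrho r).1 hr with rfl | hr
      · rw [hincomp' q0 h0 hqr]
      · exact hI.below r hr q0 h0 hqr
    · -- len
      intro r hr
      rcases (hrho r).1 hr with rfl | hr
      · show m + 1 ≤ p.1.length
        omega
      · exact hI.len r hr
    · -- dec
      intro q hq e he
      rcases (hlv q).1 hq with ⟨h1, h2⟩ | rfl
      · rcases hI.dec q h1 e he with ⟨r, hr, hr2⟩ | hF
        · exact Or.inl ⟨r, (hrho r).2 (Or.inr hr), hr2⟩
        · exact Or.inr hF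
      · have he' : 2 * e + 1 < p.2 + 1 := he
        rcases Nat.lt_or_ge (2 * e + 1) p.2 with hlt | hge
        · rcases hI.dec p hp e hlt with ⟨r, hr, hr2⟩ | hF
          · exact Or.inl ⟨r, (hrho r).2 (Or.inr hr), hr2⟩
          · exact Or.inr hF
        · have hem : e = m := by omega
          subst hem
          exact Or.inl ⟨_, (hrho _).2 (Or.inl rfl), List.prefix_rfl, rfl⟩
    · -- losing
      intro r hr q hq hrq hbig
      have key : ∀ q0 ∈ s.lv, q0.1 = q.1 → r ∈ s.rho → False := by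
        intro q0 h0 h1 hr0
        refine hI.losing r hr0 q0 h0 (by rw [h1]; exact hrq) ?_
        rw [h1]
        refine hbig.mono (fun x hx => hRes x hx) (fun _ h => h) ?_
        intro G' _ _ hA
        exact ⟨hA.1, fun q' hq' => hA.2 q' ((hrho q').2 (Or.inr hq'))⟩
      rcases (hlv q).1 hq with ⟨h1, h2⟩ | hqe
      · rcases (hrho r).1 hr with rfl | hr0
        · exact absurd (hincomp q h1 hrq) h2
        · exact key q h1 rfl hr0
      · rcases (hrho r).1 hr with hre | hr0
        · obtain ⟨n1, hn1⟩ := hbig.finite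
          have hb2 := hn1 (max s.b n1) (le_max_right _ _)
          refine (hreq (max s.b n1) (le_max_left _ _)).2.2 p hp hpn ?_
          have e1 : q.1 = p.1 := by rw [hqe]
          have e2 : 2 * r.2.2 + 1 = p.2 := by rw [hre, hm]
          rw [e1, e2] at hb2
          refine hb2.mono ?_ (fun _ h => h) ?_
          · intro x hx
            exact ⟨hRes x hx.1, hx.2⟩
          · intro G' _ _ hA
            refine ⟨⟨hA.1, fun q' hq' => hA.2 q' ((hrho q').2 (Or.inr hq'))⟩, ?_⟩
            exact hA.2 _ ((hrho _).2 (Or.inl rfl)) List.prefix_rfl _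
        · exact key p hp (by rw [hqe]) hr0
    · -- infinite reservoir
      refine hpinf.mono ?_
      intro x hx
      exact hRes' x hx.1 hx.2.1
    · -- Nx
      refine ⟨⟨p, hp, hpn, {(p.1, p.2 + 1)}, Cut.single _ _, ?_, rfl⟩, rfl, le_rfl, ?_, ?_, ?_⟩
      · intro q hq
        rw [Finset.mem_singleton.1 hq]
      · exact hI.pat.1
      · exact Or.inr ⟨p, hp, m, hm, rfl⟩
      · intro q hq
        obtain ⟨q0, h0, h1⟩ := hcover q hq
        rw [← h1]
        exact ⟨hI.inc q0 h0, hI.lt q0 h0⟩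

end Pool.Agent.RR
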