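import Pool.Agent.Helper55.RR.Defs

/-!
# B7. The initial state is valid; finiteness of the set of successors
-/

set_option autoImplicit false

namespace Pool.Agent.RR

open Classical

theorem prs_zero : prs 0 = ∅ := by
  unfold prs
  rfl

theorem relOf_zero (g : ℕ → ℕ) (h : ℕ) : relOf g h 0 = ∅ := by
  unfold relOf
  rw [prs_zero]
  rfl

theorem valid_init (k : ℕ) (Z g : ℕ → ℕ) : Valid k Z g St.init := by
  have hrho : ∀ q, ¬ q ∈ St.init.rho := fun q hq => absurd hq (Finset.notMem_empty q)
  have hE : ∀ q, ¬ q ∈ St.init.E := fun q hq => absurd hq (Finset.notMem_empty q)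
  have hlv : ∀ p ∈ St.init.lv, p = (([] : List ℕ), 0) := fun p hp => Finset.mem_singleton.1 hp
  refine ⟨⟨?_, ?_, ?_, ?_, ?_, ?_, ?_, ?_, ?_, ?_, ?_, ?_, ?_, ?_, ?_⟩, ?_⟩
  · exact Cut.single [] 0
  · intro p hp
    rw [hlv p hp]
    exact List.Pairwise.nil
  · intro p hp
    rw [hlv p hp]
    intro x hx
    exact absurd hx List.not_mem_nil
  · refine ⟨fun q hq => absurd hq (hE q), fun q hq => absurd hq (hE q),
      fun q hq => absurd hq (hE q), fun s => ?_⟩
    change (Finset.filter (fun q => q.1 = s) (∅ : Finset ((ℕ × ℕ) × (ℕ × ℕ)))).card ≤ k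
    rw [Finset.filter_empty]
    exact Nat.zero_le _
  · intro p hp
    rw [hlv p hp]
    intro a ha
    exact absurd ha List.not_mem_nil
  · intro p hp
    rw [hlv p hp]
    intro q hq
    exact absurd hq (hE q)
  · intro p _ q hq
    exact absurd hq (hrho q)
  · intro q hq
    exact absurd hq (hrho q)
  · intro p hp
    rw [hlv p hp]
    exact Nat.zero_le _
  · intro q hq
    exact absurd hq (hrho q)
  · intro p _ q hq
    exact absurd hq (hrho q)
  · intro q hq
    exact absurd hq (hrho q)
  · intro q hq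
    exact absurd hq (hrho q)
  · intro p hp e he
    rw [hlv p hp] at he
    exact absurd he (Nat.not_lt_zero _)
  · intro q hq
    exact absurd hq (hrho q)
  · have : Res Z g St.init = Set.univ := by
      ext x
      refine ⟨fun _ => Set.mem_univ x, fun _ => ⟨Nat.zero_le x, ?_, ?_, ?_⟩⟩
      · change patOf (cc Z) x 0 = ∅
        unfold patOf
        rw [prs_zero]
        rfl
      · intro a b _ hb
        exact absurd hb (Nat.not_lt_zero _)
      · intro q hq
        exact absurd hq (hrho q)
    rw [this]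
    exact Set.infinite_univ

/-- increasing lists below `n` form a finite set -/
theorem finite_inc (n : ℕ) : {l : List ℕ | l.Pairwise (· < ·) ∧ ∀ x ∈ l, x < n}.Finite := by
  refine ((Finset.finite_toSet (Finset.range n).powerset).image
    (fun S : Finset ℕ => S.sort (· ≤ ·))).subset ?_
  rintro l ⟨h1, h2⟩
  have hnd : l.Nodup := h1.imp (fun h => Nat.ne_of_lt h)
  refine ⟨l.toFinset, ?_, (List.toFinset_sort (· ≤ ·) hnd).2 (h1.imp Nat.le_of_lt)⟩
  rw [Finset.mem_coe, Finset.mem_powerset]
  intro x hx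
  rw [List.mem_toFinset] at hx
  exact Finset.mem_range.2 (h2 x hx)

/-- only finitely many states `s'` with `Nx k s n s'`: `s'.b = n`, `s'.E ⊆ (prs n) × (prs n)`,
`s'.rho` is one of finitely many sets, `s'.lv` is a set of pairs (increasing list below `n`, label at most
`1 + max label of s.lv`). -/
theorem finite_Nx (k : ℕ) (s : St) (n : ℕ) : {s' | Nx k s n s'}.Finite := by
  -- the four components
  let m := s.lv.sup (fun p => p.2) + 1
  have hLfin : ({l : List ℕ | l.Pairwise (· < ·) ∧ ∀ x ∈ l, x < n} ×ˢ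
      ((Finset.range (m + 1) : Finset ℕ) : Set ℕ)).Finite :=
    (finite_inc n).prod (Finset.finite_toSet _)
  let LL := hLfin.toFinset
  let R : Finset (Finset (ℕ × List ℕ × ℕ)) :=
    insert s.rho (s.lv.image (fun p => insert (sid s, p.1, (p.2 - 1) / 2) s.rho))
  let F : Finset (ℕ × Pat × Finset (ℕ × List ℕ × ℕ) × Finset (List ℕ × ℕ)) :=
    ({n} : Finset ℕ) ×ˢ ((prs n ×ˢ prs n).powerset ×ˢ (R ×ˢ LL.powerset))
  refine ((Finset.finite_toSet F).preimage (f := fun s' : St => (s'.b, s'.E, s'.rho, s'.lv))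
    ?_).subset ?_
  · rintro ⟨b, E, r, l⟩ _ ⟨b', E', r', l'⟩ _ h
    simp only [Prod.mk.injEq] at h
    obtain ⟨rfl, rfl, rfl, rfl⟩ := h
    rfl
  · intro s' hs'
    obtain ⟨⟨p, hp, _, L, _, hL, hlv⟩, hb, _, hE, hrho, hinc⟩ := hs'
    rw [Set.mem_preimage, Finset.mem_coe, Finset.mem_product, Finset.mem_product,
      Finset.mem_product]
    refine ⟨Finset.mem_singleton.2 hb, Finset.mem_powerset.2 hE, ?_, Finset.mem_powerset.2 ?_⟩
    · rcases hrho with h | ⟨p, hp, e, he, h⟩
      · change s'.rho ∈ R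
        rw [h]
        exact Finset.mem_insert_self _ _
      · refine Finset.mem_insert_of_mem (Finset.mem_image.2 ⟨p, hp, ?_⟩)
        rw [h, he, show (2 * e + 1 - 1) / 2 = e by omega]
    · intro q hq
      rw [Set.Finite.mem_toFinset]
      refine ⟨hinc q hq, ?_⟩
      rw [Finset.mem_coe, Finset.mem_range]
      have hsup : ∀ r ∈ s.lv, r.2 < m := fun r hr =>
        Nat.lt_succ_of_le (Finset.le_sup (f := fun p : List ℕ × ℕ => p.2) hr)
      rw [hlv, Finset.mem_union, Finset.mem_erase] at hq
      rcases hq with hq | hq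
      · exact (hsup q hq.2).trans (Nat.lt_succ_self _)
      · rw [hL q hq]
        exact Nat.succ_lt_succ (hsup p hp)

end Pool.Agent.RR
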