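import Pool.Agent.Helper55.RR.B2
import Pool.Agent.Helper55.RR.B3

/-!
# B8. Existence of `g`

1. (`nb_restr`) For a tidy state (`∀ p ∈ s.lv, ∀ x ∈ p.1, x < s.b`), `s.b ≤ n ≤ n'`,
`E' ⊆ (prs n') ×ˢ (prs n')`: `NB k Z g s n' E' → NB k Z g s n (restr E' n)` (`Big.mono` and
`free_restr_iff`: all nodes of trees in `Res ∩ Iio n` above `p.1` have elements `< n`).
2. König: if `¬ Star k Z g s n` for all `n ≥ s.b` there is a relation `R` on pairs with all restrictions
to `n ≥ s.b` in the finite nonempty set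
`𝒯_n = {E | IsPat k n E ∧ restr E s.b = s.E ∧ NB k Z g s n E}` (restriction maps `𝒯_{n+1} → 𝒯_n`; use
`nonempty_sections_of_finite_inverse_system` or choose recursively elements with extensions to all levels).
If `Star` holds somewhere it holds from there on (by 1.), let `n0` be maximal with `s.b ≤ n0`,
`¬ Star k Z g s n0` (if there is one) and take `R` from an element of `𝒯_{n0}`.
3. `NB`, `Star` for `s` depend on `g` only through the values `g ⟨h, ·⟩` with `h ∈ {q.1 : q ∈ s.rho}`, all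
`< sid s`; `sid` is injective.  So define `g ⟨h, ·⟩` by strong recursion on `h`: for `h = sid s` let
`g ⟨h, encode q⟩ = 1` iff `q ∈ R`, where `R` is the relation from 2. for the `g` already constructed below
`h` (extended by `0`); for `h` not of the form `sid s` put `0`.
-/

set_option autoImplicit false

namespace Pool.Agent.RR

open Classical

theorem lt_sid {s : St} {q : ℕ × List ℕ × ℕ} (hq : q ∈ s.rho) : q.1 < sid s := by
  have h1 : q.1 + 1 ≤ ∑ q ∈ s.rho, (q.1 + 1) :=
    Finset.single_le_sum (f := fun q : ℕ × List ℕ × ℕ => q.1 + 1) (fun _ _ => Nat.zero_le _) hq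
  have h2 : (∑ q ∈ s.rho, (q.1 + 1)) ≤ sid s := Nat.left_le_pair _ _
  omega

theorem sid_inj {s s' : St} (h : sid s = sid s') : s = s' :=
  Encodable.encode_injective (Nat.pair_eq_pair.1 h).2

namespace B8

/-- pairs of pairs -/
abbrev Q := (ℕ × ℕ) × (ℕ × ℕ)

/-- restriction of a relation to numbers below `n` -/
noncomputable def cut (R : Set Q) (n : ℕ) : Pat := ((prs n) ×ˢ (prs n)).filter (fun q => q ∈ R)

theorem prs_mono {m n : ℕ} (h : m ≤ n) : prs m ⊆ prs n := by
  intro p hp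
  rw [mem_prs] at hp ⊢
  exact ⟨hp.1, hp.2.trans_le h⟩

theorem mem_restr {E : Pat} {n : ℕ} {q : Q} : q ∈ restr E n ↔ q ∈ E ∧ q.1 ∈ prs n ∧ q.2 ∈ prs n := by
  unfold restr
  rw [Finset.mem_filter]

theorem mem_cut {R : Set Q} {n : ℕ} {q : Q} : q ∈ cut R n ↔ (q.1 ∈ prs n ∧ q.2 ∈ prs n) ∧ q ∈ R := by
  unfold cut
  rw [Finset.mem_filter, Finset.mem_product]

/-- compactness: an inverse system of finite patterns has a common extension -/
theorem exists_rel (b : ℕ) (P : ℕ → Pat → Prop) (hsub : ∀ n E, P n E → E ⊆ (prs n) ×ˢ (prs n))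
    (hP : ∀ m n E, b ≤ m → m ≤ n → P n E → P m (restr E m)) :
    ∃ R : Set Q, ∀ n, b ≤ n → (∃ E, P n E) → P n (cut R n) := by
  by_cases hall : ∀ n, b ≤ n → ∃ E, P n E
  · let α : ℕ → Type := fun i => {E : Pat // P (b + i) E}
    have hfin : ∀ i, Finite (α i) := by
      intro i
      apply Set.Finite.to_subtype (s := {E : Pat | P (b + i) E})
      apply Set.Finite.subset (Finset.finite_toSet ((prs (b + i)) ×ˢ (prs (b + i))).powerset)
      intro E hE
      rw [Finset.mem_coe, Finset.mem_powerset]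
      exact hsub _ _ hE
    have hne : ∀ i, Nonempty (α i) := by
      intro i
      obtain ⟨E, hE⟩ := hall (b + i) (by omega)
      exact ⟨⟨E, hE⟩⟩
    let π : {i j : ℕ} → (hij : i ≤ j) → α j → α i := fun {i j} hij E =>
      ⟨restr E.1 (b + i), hP _ _ _ (by omega) (by omega) E.2⟩
    have := hfin 0
    obtain ⟨f, hf⟩ := exists_seq_forall_proj_of_forall_finite (α := α) π
      (by
        intro i a
        apply Subtype.ext
        exact restr_self (hsub _ _ a.2))
      (by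
        intro i j k hij hjk a
        apply Subtype.ext
        exact restr_restr a.1 (by omega))
      (by
        intro i a
        have := hfin (i + 1)
        exact Set.toFinite _)
    have hf' : ∀ {i j : ℕ}, i ≤ j → restr (f j).1 (b + i) = (f i).1 := by
      intro i j hij
      exact congrArg Subtype.val (hf hij)
    refine ⟨{q | ∃ i, q ∈ (f i).1}, ?_⟩
    intro n hn _
    obtain ⟨i, rfl⟩ := Nat.exists_eq_add_of_le hn
    have : cut {q | ∃ i, q ∈ (f i).1} (b + i) = (f i).1 := by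
      ext q
      rw [mem_cut]
      constructor
      · rintro ⟨hq, j, hj⟩
        rcases le_total j i with h | h
        · rw [← hf' h, mem_restr] at hj
          exact hj.1
        · rw [← hf' h, mem_restr]
          exact ⟨hj, hq⟩
      · intro hq
        exact ⟨Finset.mem_product.1 (hsub _ _ (f i).2 hq), i, hq⟩
    rw [this]
    exact (f i).2
  · push Not at hall
    obtain ⟨n1, hn1, hn1'⟩ := hall
    by_cases hex : ∃ n, b ≤ n ∧ ∃ E, P n E
    · -- the largest good level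
      have hbd : ∀ n, b ≤ n → (∃ E, P n E) → n < n1 := by
        rintro n hn ⟨E, hE⟩
        by_contra hcon
        exact hn1' _ (hP n1 n E hn1 (by omega) hE)
      obtain ⟨n0, ⟨hn0, E0, hE0⟩, hmax⟩ : ∃ n0, (b ≤ n0 ∧ ∃ E, P n0 E) ∧
          ∀ n, b ≤ n → (∃ E, P n E) → n ≤ n0 := by
        have hb : BddAbove {n | b ≤ n ∧ ∃ E, P n E} := ⟨n1, fun n hn => (hbd n hn.1 hn.2).le⟩
        refine ⟨sSup {n | b ≤ n ∧ ∃ E, P n E}, Nat.sSup_mem hex hb, ?_⟩
        intro n hn hE
        exact le_csSup hb ⟨hn, hE⟩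
      refine ⟨(E0 : Set Q), ?_⟩
      intro n hn hE
      have h1 := hmax n hn hE
      have h2 : cut (E0 : Set Q) n = restr E0 n := by
        ext q
        rw [mem_cut, mem_restr]
        exact ⟨fun h => ⟨h.2, h.1⟩, fun h => ⟨h.2, h.1⟩⟩
      rw [h2]
      exact hP n n0 E0 hn h1 hE0
    · refine ⟨∅, fun n hn hE => ?_⟩
      exact absurd ⟨n, hn, hE⟩ hex

/-- only finitely many relations matter -/
theorem freeR_congr {g g' : ℕ → ℕ} {h : ℕ} (hg : ∀ n, relOf g h n = relOf g' h n) (G : List ℕ) :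
    FreeR g h G ↔ FreeR g' h G := by
  unfold FreeR
  simp only [hg]

theorem alE_congr {Z g g' : ℕ → ℕ} {s : St} (hg : ∀ q ∈ s.rho, ∀ n, relOf g q.1 n = relOf g' q.1 n)
    (xs : List ℕ) (E : Pat) : AlE Z g s xs E = AlE Z g' s xs E := by
  funext G
  unfold AlE Al0
  apply propext
  constructor
  · rintro ⟨⟨h1, h2⟩, h3⟩
    exact ⟨⟨h1, fun q hq hp => (freeR_congr (hg q hq) G).1 (h2 q hq hp)⟩, h3⟩
  · rintro ⟨⟨h1, h2⟩, h3⟩
    exact ⟨⟨h1, fun q hq hp => (freeR_congr (hg q hq) G).2 (h2 q hq hp)⟩, h3⟩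

theorem res_congr {Z g g' : ℕ → ℕ} {s : St}
    (hg : ∀ q ∈ s.rho, ∀ n, relOf g q.1 n = relOf g' q.1 n) : Res Z g s = Res Z g' s := by
  ext x
  unfold Res
  simp only [Set.mem_ofPred_eq]
  constructor
  · rintro ⟨h1, h2, h3, h4⟩
    exact ⟨h1, h2, h3, fun q hq => (freeR_congr (hg q hq) _).1 (h4 q hq)⟩
  · rintro ⟨h1, h2, h3, h4⟩
    exact ⟨h1, h2, h3, fun q hq => (freeR_congr (hg q hq) _).2 (h4 q hq)⟩

theorem nb_congr {k : ℕ} {Z g g' : ℕ → ℕ} {s : St}
    (hg : ∀ q ∈ s.rho, ∀ n, relOf g q.1 n = relOf g' q.1 n) (n : ℕ) (E : Pat) :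
    NB k Z g s n E ↔ NB k Z g' s n E := by
  unfold NB
  rw [res_congr hg]
  simp only [alE_congr hg]

theorem nb_restr {k : ℕ} {Z g : ℕ → ℕ} {s : St} (hs : ∀ p ∈ s.lv, ∀ x ∈ p.1, x < s.b) {n n' : ℕ}
    (hn : s.b ≤ n) (hnn : n ≤ n') {E : Pat} (hE : E ⊆ (prs n') ×ˢ (prs n'))
    (h : NB k Z g s n' E) : NB k Z g s n (restr E n) := by
  intro p hp hpn hbig
  apply h p hp hpn
  refine Big.mono hbig ?_ (fun _ h => h) ?_
  · exact Set.inter_subset_inter_right _ (Set.Iio_subset_Iio hnn)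
  · intro G' _ hG' hA
    refine ⟨hA.1, ?_⟩
    rw [← free_restr_iff hE (n := n)]
    · exact hA.2
    · intro x hx
      rcases hG' x hx with h1 | h1
      · exact (hs p hp x h1).trans_le hn
      · exact h1.2

/-- the function coding a family of relations -/
noncomputable def gOf (G : ℕ → Set Q) : ℕ → ℕ := fun m =>
  if ∃ q : Q, Encodable.encode q = m.unpair.2 ∧ q ∈ G m.unpair.1 then 1 else 0

theorem relOf_gOf (G : ℕ → Set Q) (h n : ℕ) : relOf (gOf G) h n = cut (G h) n := by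
  ext q
  unfold relOf
  rw [Finset.mem_filter, Finset.mem_product, mem_cut]
  refine and_congr Iff.rfl ?_
  unfold gOf
  rw [Nat.unpair_pair]
  constructor
  · intro h1
    have h2 : ∃ q' : Q, Encodable.encode q' = Encodable.encode q ∧ q' ∈ G h := by
      by_contra hcon
      apply h1
      rw [if_neg]
      exact hcon
    obtain ⟨q', hq', hG⟩ := h2
    rwa [← Encodable.encode_injective hq']
  · intro h1
    rw [if_pos ⟨q, rfl, h1⟩]
    exact one_ne_zero

theorem exists_rec {A : Type} (a0 : A) (Φ : ℕ → (ℕ → A) → A) :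
    ∃ G : ℕ → A, ∀ h, G h = Φ h (fun h' => if h' < h then G h' else a0) := by
  let F : (h : ℕ) → ((h' : ℕ) → h' < h → A) → A := fun h ih =>
    Φ h (fun h' => if hh : h' < h then ih h' hh else a0)
  refine ⟨WellFounded.fix (C := fun _ => A) Nat.lt_wfRel.wf F, ?_⟩
  intro h
  rw [WellFounded.fix_eq]
  show Φ h _ = Φ h _
  congr 1

end B8

open B8

theorem g_exists (k : ℕ) (Z : ℕ → ℕ) : ∃ g : ℕ → ℕ, (∀ n, g n ≤ 1) ∧ Req k Z g := by
  -- the condition on the relation of `s`
  let C : ℕ → (ℕ → Set Q) → Set Q → Prop := fun h G R =>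
    ∀ s : St, sid s = h → (∀ p ∈ s.lv, ∀ x ∈ p.1, x < s.b) → ∀ n, s.b ≤ n →
      (∃ E, IsPat k n E ∧ restr E s.b = s.E ∧ NB k Z (gOf G) s n E) →
      IsPat k n (cut R n) ∧ restr (cut R n) s.b = s.E ∧ NB k Z (gOf G) s n (cut R n)
  have hC : ∀ h G, ∃ R, C h G R := by
    intro h G
    by_cases hex : ∃ s : St, sid s = h ∧ ∀ p ∈ s.lv, ∀ x ∈ p.1, x < s.b
    · obtain ⟨s, rfl, hs⟩ := hex
      obtain ⟨R, hR⟩ := exists_rel s.b
        (fun n E => IsPat k n E ∧ restr E s.b = s.E ∧ NB k Z (gOf G) s n E)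
        (fun n E hE => hE.1.1)
        (by
          rintro m n E hm hmn ⟨h1, h2, h3⟩
          refine ⟨h1.restr m, ?_, nb_restr hs hm hmn h1.1 h3⟩
          rw [restr_restr E hm, h2])
      refine ⟨R, ?_⟩
      intro s' hs' _ n hn hE
      obtain rfl := sid_inj hs'
      exact hR n hn hE
    · refine ⟨∅, ?_⟩
      intro s hs hs' n hn _
      exact absurd ⟨s, hs, hs'⟩ hex
  choose Φ hΦ using hC
  obtain ⟨G, hG⟩ := exists_rec ∅ Φ
  refine ⟨gOf G, ?_, ?_⟩
  · intro n
    unfold gOf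
    split_ifs <;> omega
  · intro s n hn hs hstar
    set G' : ℕ → Set Q := fun h' => if h' < sid s then G h' else ∅ with hG'
    have hagree : ∀ q ∈ s.rho, ∀ n, relOf (gOf G) q.1 n = relOf (gOf G') q.1 n := by
      intro q hq m
      rw [relOf_gOf, relOf_gOf, hG']
      simp only [if_pos (lt_sid hq)]
    have h1 : ∃ E, IsPat k n E ∧ restr E s.b = s.E ∧ NB k Z (gOf G') s n E := by
      by_contra hcon
      apply hstar
      refine ⟨hn, fun E hE hE' hNB => hcon ⟨E, hE, hE', (nb_congr hagree n E).1 hNB⟩⟩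
    have h2 := hΦ (sid s) G' s rfl hs n hn h1
    rw [relOf_gOf, hG (sid s), nb_congr hagree]
    exact h2

end Pool.Agent.RR
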