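import Pool.Agent.Helper55.RR.B2
import Pool.Agent.Helper55.RR.B3

/-!
# B9. Topology: clopen and closed conditions on `(Z, g)`

All sets are in `(ℕ → ℕ) × (ℕ → ℕ)` with the product topology (`ℕ` discrete); a condition which depends on
finitely many values of `Z` and `g` is clopen.
* `FreeR g h G` is `Free (relOf g h (bd G)) G` (`freeR_iff`, `lt_bd`).
* `Force Z e G` depends only on `Z` below `bd G`.
* `Big … (Res ∩ Iio n) …  G`: induction on `n - bd G`: `Big G ↔ T G ∨ ∃ S ⊆ Finset.range n, K |G| ≤ |S| ∧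
  ∀ x ∈ S, x ∈ Res ∧ bd G ≤ x ∧ A (G ++ [x]) ∧ Big (G ++ [x])`, and `bd (G ++ [x]) = max (bd G) (x+1) > bd G`
  for `x ≥ bd G`; finite unions and intersections of clopen sets.
* `Big … Res …` is the union over `n` of the previous ones (`Big.finite`), so it is open.
* `Star`: for `IsPat k n E` the pattern `E` ranges over the finite powerset of `(prs n) ×ˢ (prs n)`.
-/

set_option autoImplicit false

namespace Pool.Agent.RR

open Classical

section clo

variable {X : Type*} [TopologicalSpace X]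

private theorem clo_const (P : Prop) : IsClopen {_z : X | P} := ⟨isClosed_const, isOpen_const⟩

private theorem clo_and {P Q : X → Prop} (hP : IsClopen {z | P z}) (hQ : IsClopen {z | Q z}) :
    IsClopen {z | P z ∧ Q z} := hP.inter hQ

private theorem clo_or {P Q : X → Prop} (hP : IsClopen {z | P z}) (hQ : IsClopen {z | Q z}) :
    IsClopen {z | P z ∨ Q z} := hP.union hQ

private theorem clo_not {P : X → Prop} (hP : IsClopen {z | P z}) :
    IsClopen {z | ¬ P z} := hP.compl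

private theorem clo_imp {P Q : X → Prop} (hP : IsClopen {z | P z}) (hQ : IsClopen {z | Q z}) :
    IsClopen {z | P z → Q z} := by
  have h := clo_or (clo_not hP) hQ
  have e : {z | P z → Q z} = {z | ¬ P z ∨ Q z} := by
    ext z; simp only [Set.mem_ofPred_eq]; tauto
  rw [e]; exact h

private theorem clo_impc {p : Prop} {Q : X → Prop} (hQ : p → IsClopen {z | Q z}) :
    IsClopen {z | p → Q z} := by
  by_cases hp : p
  · have e : {z | p → Q z} = {z | Q z} := by ext z; simp [hp]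
    rw [e]; exact hQ hp
  · have e : {z | p → Q z} = {_z : X | True} := by ext z; simp [hp]
    rw [e]; exact clo_const True

private theorem clo_andc {p : Prop} {Q : X → Prop} (hQ : p → IsClopen {z | Q z}) :
    IsClopen {z | p ∧ Q z} := by
  by_cases hp : p
  · have e : {z | p ∧ Q z} = {z | Q z} := by ext z; simp [hp]
    rw [e]; exact hQ hp
  · have e : {z | p ∧ Q z} = {_z : X | False} := by ext z; simp [hp]
    rw [e]; exact clo_const False

private theorem clo_ball {ι : Type*} (s : Finset ι) {P : ι → X → Prop}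
    (h : ∀ i ∈ s, IsClopen {z | P i z}) : IsClopen {z | ∀ i ∈ s, P i z} := by
  have e : {z | ∀ i ∈ s, P i z} = ⋂ i ∈ s, {z | P i z} := by ext z; simp
  rw [e]; exact isClopen_biInter_finset h

private theorem clo_bex {ι : Type*} (s : Finset ι) {P : ι → X → Prop}
    (h : ∀ i ∈ s, IsClopen {z | P i z}) : IsClopen {z | ∃ i ∈ s, P i z} := by
  have e : {z | ∃ i ∈ s, P i z} = ⋃ i ∈ s, {z | P i z} := by ext z; simp
  rw [e]; exact isClopen_biUnion_finset h

private theorem clo_ball_list {ι : Type*} (s : List ι) {P : ι → X → Prop}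
    (h : ∀ i ∈ s, IsClopen {z | P i z}) : IsClopen {z | ∀ i ∈ s, P i z} := by
  have := clo_ball s.toFinset (P := P) (fun i hi => h i (List.mem_toFinset.1 hi))
  have e : {z | ∀ i ∈ s, P i z} = {z | ∀ i ∈ s.toFinset, P i z} := by ext z; simp
  rw [e]; exact this

private theorem clo_fun {β : Type*} [TopologicalSpace β] [DiscreteTopology β] {f : X → β}
    (hf : Continuous f) (P : β → Prop) : IsClopen {z | P (f z)} :=
  (isClopen_discrete {b | P b}).preimage hf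

private theorem clo_lt (n : ℕ) {P : ℕ → X → Prop} (h : ∀ i < n, IsClopen {z | P i z}) :
    IsClopen {z | ∀ i < n, P i z} := by
  have := clo_ball (Finset.range n) (P := P) (fun i hi => h i (Finset.mem_range.1 hi))
  have e : {z | ∀ i < n, P i z} = {z | ∀ i ∈ Finset.range n, P i z} := by ext z; simp
  rw [e]; exact this

private theorem clo_congr {P Q : X → Prop} (h : ∀ z, P z ↔ Q z) (hQ : IsClopen {z | Q z}) :
    IsClopen {z | P z} := by
  have e : {z | P z} = {z | Q z} := by ext z; exact h z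
  rw [e]; exact hQ

end clo

private theorem cont_fst (i : ℕ) : Continuous fun z : (ℕ → ℕ) × (ℕ → ℕ) => z.1 i :=
  (continuous_apply i).comp continuous_fst

private theorem cont_snd (i : ℕ) : Continuous fun z : (ℕ → ℕ) × (ℕ → ℕ) => z.2 i :=
  (continuous_apply i).comp continuous_snd

/-- a condition depending on finitely many values is clopen -/
theorem isClopen_of_use (Q : (ℕ → ℕ) × (ℕ → ℕ) → Prop) (m : ℕ)
    (h : ∀ z z' : (ℕ → ℕ) × (ℕ → ℕ), (∀ i < m, z.1 i = z'.1 i) → (∀ i < m, z.2 i = z'.2 i) →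
      Q z → Q z') : IsClopen {z | Q z} := by
  have hopen : ∀ R : (ℕ → ℕ) × (ℕ → ℕ) → Prop,
      (∀ z z' : (ℕ → ℕ) × (ℕ → ℕ), (∀ i < m, z.1 i = z'.1 i) → (∀ i < m, z.2 i = z'.2 i) →
      R z → R z') → IsOpen {z | R z} := by
    intro R hR
    rw [isOpen_iff_mem_nhds]
    intro z hz
    have h1 : IsClopen {z' : (ℕ → ℕ) × (ℕ → ℕ) | ∀ i < m, z'.1 i = z.1 i ∧ z'.2 i = z.2 i} := by
      apply clo_lt
      intro i _
      exact clo_and (clo_fun (cont_fst i) (fun v => v = z.1 i))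
        (clo_fun (cont_snd i) (fun v => v = z.2 i))
    have h2 : {z' : (ℕ → ℕ) × (ℕ → ℕ) | ∀ i < m, z'.1 i = z.1 i ∧ z'.2 i = z.2 i} ∈ nhds z :=
      h1.isOpen.mem_nhds (by intro i _; exact ⟨rfl, rfl⟩)
    refine Filter.mem_of_superset h2 ?_
    intro z' hz'
    exact hR z z' (fun i hi => (hz' i hi).1.symm) (fun i hi => (hz' i hi).2.symm) hz
  refine ⟨?_, hopen Q h⟩
  rw [← isOpen_compl_iff]
  refine hopen (fun z => ¬ Q z) ?_
  intro z z' h1 h2 hz hz'
  exact hz (h z' z (fun i hi => (h1 i hi).symm) (fun i hi => (h2 i hi).symm) hz')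

private theorem cont_cc (a b w : ℕ) : Continuous fun z : (ℕ → ℕ) × (ℕ → ℕ) => cc z.1 a b w :=
  cont_fst _

private theorem clo_cceq (a b w a' b' w' : ℕ) :
    IsClopen {z : (ℕ → ℕ) × (ℕ → ℕ) | cc z.1 a b w = cc z.1 a' b' w'} :=
  clo_fun ((cont_cc a b w).prodMk (cont_cc a' b' w')) (fun p : ℕ × ℕ => p.1 = p.2)

private theorem clo_filter {X : Type*} [TopologicalSpace X] {ι : Type*} (A : Finset ι)
    {P : ι → X → Prop} [∀ z, DecidablePred (fun i => P i z)]
    (h : ∀ i ∈ A, IsClopen {z | P i z}) (E : Finset ι) :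
    IsClopen {z | A.filter (fun i => P i z) = E} := by
  have e : ∀ z, A.filter (fun i => P i z) = E ↔ (E ⊆ A ∧ ∀ i ∈ A, (P i z → i ∈ E) ∧ (i ∈ E → P i z)) := by
    intro z
    constructor
    · intro h
      subst h
      refine ⟨Finset.filter_subset _ _, fun i hi => ⟨fun hp => ?_, fun hp => ?_⟩⟩
      · exact Finset.mem_filter.2 ⟨hi, hp⟩
      · exact (Finset.mem_filter.1 hp).2
    · rintro ⟨h1, h2⟩
      ext i
      rw [Finset.mem_filter]
      constructor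
      · rintro ⟨hi, hp⟩
        exact (h2 i hi).1 hp
      · intro hi
        exact ⟨h1 hi, (h2 i (h1 hi)).2 hi⟩
  refine clo_congr e (clo_andc fun _ => clo_ball _ fun i hi => ?_)
  exact clo_and (clo_imp (h i hi) (clo_const _)) (clo_impc fun _ => h i hi)

private theorem clo_patOf (x n : ℕ) (E : Pat) :
    IsClopen {z : (ℕ → ℕ) × (ℕ → ℕ) | patOf (cc z.1) x n = E} := by
  refine clo_filter ((prs n) ×ˢ (prs n)) (P := fun q (z : (ℕ → ℕ) × (ℕ → ℕ)) =>
    q.1 ≠ q.2 ∧ cc z.1 q.1.1 q.1.2 x = cc z.1 q.2.1 q.2.2 x) ?_ E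
  intro q _
  exact clo_andc fun _ => clo_cceq _ _ _ _ _ _

private theorem clo_relOf (h n : ℕ) (E : Pat) :
    IsClopen {z : (ℕ → ℕ) × (ℕ → ℕ) | relOf z.2 h n = E} := by
  refine clo_filter ((prs n) ×ˢ (prs n)) (P := fun q (z : (ℕ → ℕ) × (ℕ → ℕ)) =>
    z.2 (Nat.pair h (Encodable.encode q)) ≠ 0) ?_ E
  intro q _
  exact clo_fun (cont_snd _) (fun v => v ≠ 0)

private theorem clo_fresh (x n : ℕ) :
    IsClopen {z : (ℕ → ℕ) × (ℕ → ℕ) | Fresh (cc z.1) x n} := by
  have e : ∀ z : (ℕ → ℕ) × (ℕ → ℕ), Fresh (cc z.1) x n ↔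
      ∀ a < n, ∀ b < n, a < b → ∀ a' < n, ∀ b' < n, ∀ w' < n, a' < b' → b' < w' →
        ¬ cc z.1 a b x = cc z.1 a' b' w' := by
    intro z
    constructor
    · intro h a _ b hb hab a' _ b' _ w' hw' h1 h2
      exact h a b hab hb a' b' w' h1 h2 hw'
    · intro h a b hab hb a' b' w' h1 h2 hw'
      exact h a (by omega) b hb hab a' (by omega) b' (by omega) w' hw' h1 h2
  refine clo_congr e ?_
  refine clo_lt _ fun a _ => clo_lt _ fun b _ => clo_impc fun _ => clo_lt _ fun a' _ =>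
    clo_lt _ fun b' _ => clo_lt _ fun w' _ => clo_impc fun _ => clo_impc fun _ => ?_
  exact clo_not (clo_cceq _ _ _ _ _ _)

private theorem clo_freeR (h : ℕ) (G : List ℕ) :
    IsClopen {z : (ℕ → ℕ) × (ℕ → ℕ) | FreeR z.2 h G} := by
  have e : ∀ z : (ℕ → ℕ) × (ℕ → ℕ), FreeR z.2 h G ↔
      ∀ q ∈ (prs (bd G)) ×ˢ (prs (bd G)), z.2 (Nat.pair h (Encodable.encode q)) ≠ 0 →
        ¬ (q.1.1 ∈ G ∧ q.1.2 ∈ G ∧ q.2.1 ∈ G ∧ q.2.2 ∈ G) := by
    intro z
    rw [freeR_iff z.2 h (n := bd G) (fun x hx => lt_bd hx)]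
    unfold Free relOf
    constructor
    · intro h q hq hz
      exact h q (Finset.mem_filter.2 ⟨hq, hz⟩)
    · intro h q hq
      exact h q (Finset.mem_filter.1 hq).1 (Finset.mem_filter.1 hq).2
  refine clo_congr e (clo_ball _ fun q _ => ?_)
  exact clo_imp (clo_fun (cont_snd _) (fun v => v ≠ 0)) (clo_const _)

theorem isClopen_Res (s : St) (x : ℕ) :
    IsClopen {z : (ℕ → ℕ) × (ℕ → ℕ) | x ∈ Res z.1 z.2 s} := by
  change IsClopen {z : (ℕ → ℕ) × (ℕ → ℕ) | s.b ≤ x ∧ patOf (cc z.1) x s.b = s.E ∧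
    Fresh (cc z.1) x s.b ∧ ∀ q ∈ s.rho, FreeR z.2 q.1 (q.2.1 ++ [x])}
  exact clo_andc fun _ => clo_and (clo_patOf _ _ _) (clo_and (clo_fresh _ _)
    (clo_ball _ fun q _ => clo_freeR _ _))

private theorem clo_force (e : ℕ) (G : List ℕ) :
    IsClopen {z : (ℕ → ℕ) × (ℕ → ℕ) | Force z.1 e G} := by
  refine isClopen_of_use (fun z => Force z.1 e G) (bd G) ?_
  intro z z' h1 _ hz Y hY
  refine hz Y ?_
  intro i hi
  rw [hY i hi]
  unfold join
  split_ifs with h2
  · exact (h1 (i / 2) (by omega)).symm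
  · rfl

theorem isClopen_T (j : ℕ) (G : List ℕ) :
    IsClopen {z : (ℕ → ℕ) × (ℕ → ℕ) | T z.1 j G} := by
  unfold T
  by_cases hj : j % 2 = 0
  · simp only [hj, if_true]
    exact clo_const _
  · simp only [hj, if_false]
    exact clo_force _ _

private theorem clo_good (G : List ℕ) :
    IsClopen {z : (ℕ → ℕ) × (ℕ → ℕ) | Good (cc z.1) G} := by
  unfold Good
  refine clo_ball_list _ fun a _ => clo_ball_list _ fun b _ => clo_ball_list _ fun w _ =>
    clo_ball_list _ fun a' _ => clo_ball_list _ fun b' _ => clo_ball_list _ fun w' _ =>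
    clo_impc fun _ => clo_impc fun _ => clo_impc fun _ => clo_impc fun _ => ?_
  exact clo_imp (clo_cceq _ _ _ _ _ _) (clo_const _)

theorem isClopen_Al0 (s : St) (xs G : List ℕ) :
    IsClopen {z : (ℕ → ℕ) × (ℕ → ℕ) | Al0 z.1 z.2 s xs G} := by
  unfold Al0
  exact clo_and (clo_good _) (clo_ball _ fun q _ => clo_impc fun _ => clo_freeR _ _)

private theorem bd_append (G : List ℕ) (x : ℕ) (hx : bd G ≤ x) : bd (G ++ [x]) = x + 1 := by
  apply le_antisymm
  · apply bd_le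
    intro y hy
    rw [List.mem_append, List.mem_singleton] at hy
    rcases hy with hy | rfl
    · have := lt_bd hy
      omega
    · omega
  · have := lt_bd (G := G ++ [x]) (x := x) (by simp)
    omega

private theorem big_iff (K : ℕ → ℕ) (A : List ℕ → Prop) (X : Set ℕ) (T : List ℕ → Prop) (n : ℕ)
    (G : List ℕ) : Big K A (X ∩ Set.Iio n) T G ↔
      (T G ∨ ∃ S ∈ (Finset.range n).powerset, K G.length ≤ S.card ∧ ∀ x ∈ S, bd G ≤ x ∧
        (x ∈ X ∧ A (G ++ [x]) ∧ Big K A (X ∩ Set.Iio n) T (G ++ [x]))) := by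
  constructor
  · intro h
    cases h with
    | base _ h => exact Or.inl h
    | step _ S hS hX hb hA h =>
      refine Or.inr ⟨S, ?_, hS, fun x hx => ⟨hb x hx, (hX x hx).1, hA x hx, h x hx⟩⟩
      rw [Finset.mem_powerset]
      intro x hx
      exact Finset.mem_range.2 (hX x hx).2
  · rintro (h | ⟨S, hSn, hS, h⟩)
    · exact Big.base G h
    · rw [Finset.mem_powerset] at hSn
      exact Big.step G S hS (fun x hx => ⟨(h x hx).2.1, Finset.mem_range.1 (hSn hx)⟩)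
        (fun x hx => (h x hx).1) (fun x hx => (h x hx).2.2.1) (fun x hx => (h x hx).2.2.2)

private theorem clo_big {Y : Type*} [TopologicalSpace Y] (K : ℕ → ℕ) (A : Y → List ℕ → Prop)
    (X : Y → Set ℕ) (T : Y → List ℕ → Prop) (hA : ∀ G, IsClopen {z | A z G})
    (hX : ∀ x, IsClopen {z | x ∈ X z}) (hT : ∀ G, IsClopen {z | T z G}) (n : ℕ) :
    ∀ (d : ℕ) (G : List ℕ), n - bd G ≤ d →
      IsClopen {z | Big K (A z) (X z ∩ Set.Iio n) (T z) G} := by
  intro d
  induction d with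
  | zero =>
    intro G hG
    refine clo_congr (fun z => big_iff K (A z) (X z) (T z) n G) ?_
    refine clo_or (hT G) (clo_bex _ fun S hS => clo_andc fun _ => ?_)
    refine clo_ball _ fun x hx => clo_andc fun hb => ?_
    rw [Finset.mem_powerset] at hS
    have := Finset.mem_range.1 (hS hx)
    omega
  | succ d ih =>
    intro G hG
    refine clo_congr (fun z => big_iff K (A z) (X z) (T z) n G) ?_
    refine clo_or (hT G) (clo_bex _ fun S hS => clo_andc fun _ => ?_)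
    refine clo_ball _ fun x hx => clo_andc fun hb => ?_
    rw [Finset.mem_powerset] at hS
    have h1 := Finset.mem_range.1 (hS hx)
    refine clo_and (hX x) (clo_and (hA _) (ih _ ?_))
    rw [bd_append G x hb]
    omega

theorem isClopen_Big0 (k j : ℕ) (s : St) (xs : List ℕ) (n : ℕ) (G : List ℕ) :
    IsClopen {z : (ℕ → ℕ) × (ℕ → ℕ) |
      Big (KK k j) (Al0 z.1 z.2 s xs) (Res z.1 z.2 s ∩ Set.Iio n) (T z.1 j) G} := by
  exact clo_big (Y := (ℕ → ℕ) × (ℕ → ℕ)) (KK k j) (fun z => Al0 z.1 z.2 s xs)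
    (fun z => Res z.1 z.2 s) (fun z => T z.1 j)
    (fun G => isClopen_Al0 s xs G) (fun x => isClopen_Res s x) (fun G => isClopen_T j G) n _ G
    le_rfl

theorem isClopen_NB (k : ℕ) (s : St) (n : ℕ) (E : Pat) :
    IsClopen {z : (ℕ → ℕ) × (ℕ → ℕ) | NB k z.1 z.2 s n E} := by
  unfold NB
  refine clo_ball _ fun p _ => clo_impc fun _ => clo_not ?_
  exact clo_big (Y := (ℕ → ℕ) × (ℕ → ℕ)) (KK k p.2) (fun z => AlE z.1 z.2 s p.1 E)
    (fun z => Res z.1 z.2 s)
    (fun z => T z.1 p.2) (fun G => clo_and (isClopen_Al0 s p.1 G) (clo_const _))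
    (fun x => isClopen_Res s x) (fun G => isClopen_T p.2 G) n _ _ le_rfl

theorem isClopen_Star (k : ℕ) (s : St) (n : ℕ) :
    IsClopen {z : (ℕ → ℕ) × (ℕ → ℕ) | Star k z.1 z.2 s n} := by
  have e : ∀ z : (ℕ → ℕ) × (ℕ → ℕ), Star k z.1 z.2 s n ↔
      (s.b ≤ n ∧ ∀ E ∈ ((prs n) ×ˢ (prs n)).powerset, IsPat k n E → restr E s.b = s.E →
        ¬ NB k z.1 z.2 s n E) := by
    intro z
    constructor
    · rintro ⟨h1, h2⟩
      exact ⟨h1, fun E _ => h2 E⟩
    · rintro ⟨h1, h2⟩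
      exact ⟨h1, fun E hE => h2 E (Finset.mem_powerset.2 hE.1) hE⟩
  refine clo_congr e (clo_andc fun _ => clo_ball _ fun E _ => clo_impc fun _ => clo_impc fun _ => ?_)
  exact clo_not (isClopen_NB k s n E)

private theorem clo_rel (h n : ℕ) (P : Pat → (ℕ → ℕ) × (ℕ → ℕ) → Prop)
    (hP : ∀ E, IsClopen {z | P E z}) :
    IsClopen {z : (ℕ → ℕ) × (ℕ → ℕ) | P (relOf z.2 h n) z} := by
  have e : ∀ z : (ℕ → ℕ) × (ℕ → ℕ), P (relOf z.2 h n) z ↔
      ∃ E ∈ ((prs n) ×ˢ (prs n)).powerset, relOf z.2 h n = E ∧ P E z := by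
    intro z
    constructor
    · intro hz
      exact ⟨_, Finset.mem_powerset.2 (Finset.filter_subset _ _), rfl, hz⟩
    · rintro ⟨E, _, rfl, hz⟩
      exact hz
  exact clo_congr e (clo_bex _ fun E _ => clo_and (clo_relOf _ _ _) (hP E))

theorem isClosed_Req (k : ℕ) : IsClosed {z : (ℕ → ℕ) × (ℕ → ℕ) | Req k z.1 z.2} := by
  have e : {z : (ℕ → ℕ) × (ℕ → ℕ) | Req k z.1 z.2} = ⋂ s : St, ⋂ n : ℕ,
      {z : (ℕ → ℕ) × (ℕ → ℕ) | s.b ≤ n → (∀ p ∈ s.lv, ∀ x ∈ p.1, x < s.b) →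
        ¬ Star k z.1 z.2 s n → (IsPat k n (relOf z.2 (sid s) n) ∧
          restr (relOf z.2 (sid s) n) s.b = s.E ∧ NB k z.1 z.2 s n (relOf z.2 (sid s) n))} := by
    ext z
    simp only [Set.mem_iInter, Set.mem_ofPred_eq]
    rfl
  rw [e]
  refine isClosed_iInter fun s => isClosed_iInter fun n => IsClopen.isClosed ?_
  refine clo_impc fun _ => clo_impc fun _ => clo_imp (clo_not (isClopen_Star k s n)) ?_
  exact clo_rel (sid s) n (fun E z => IsPat k n E ∧ restr E s.b = s.E ∧ NB k z.1 z.2 s n E)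
    (fun E => clo_andc fun _ => clo_andc fun _ => isClopen_NB k s n E)

private theorem open_big0 (k j : ℕ) (s : St) (xs : List ℕ) (G : List ℕ) :
    IsOpen {z : (ℕ → ℕ) × (ℕ → ℕ) |
      Big (KK k j) (Al0 z.1 z.2 s xs) (Res z.1 z.2 s) (T z.1 j) G} := by
  have e : {z : (ℕ → ℕ) × (ℕ → ℕ) |
      Big (KK k j) (Al0 z.1 z.2 s xs) (Res z.1 z.2 s) (T z.1 j) G} = ⋃ n : ℕ,
      {z : (ℕ → ℕ) × (ℕ → ℕ) |
      Big (KK k j) (Al0 z.1 z.2 s xs) (Res z.1 z.2 s ∩ Set.Iio n) (T z.1 j) G} := by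
    ext z
    simp only [Set.mem_iUnion, Set.mem_ofPred_eq]
    constructor
    · intro h
      obtain ⟨n, hn⟩ := h.finite
      exact ⟨n, hn n le_rfl⟩
    · rintro ⟨n, hn⟩
      exact hn.mono Set.inter_subset_left (fun _ h => h) (fun _ _ _ h => h)
  rw [e]
  exact isOpen_iUnion fun n => (isClopen_Big0 k j s xs n G).isOpen

theorem isClosed_Inv (k : ℕ) (s : St) : IsClosed {z : (ℕ → ℕ) × (ℕ → ℕ) | Inv k z.1 z.2 s} := by
  have e : {z : (ℕ → ℕ) × (ℕ → ℕ) | Inv k z.1 z.2 s} =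
      {_z | Cut k [] s.lv} ∩ ({_z | ∀ p ∈ s.lv, p.1.Pairwise (· < ·)} ∩
      ({_z | ∀ p ∈ s.lv, ∀ x ∈ p.1, x < s.b} ∩ ({_z | IsPat k s.b s.E} ∩
      ({z | ∀ p ∈ s.lv, Good (cc z.1) p.1} ∩ ({_z | ∀ p ∈ s.lv, Free s.E p.1} ∩
      ({z | ∀ p ∈ s.lv, ∀ q ∈ s.rho, q.2.1 <+: p.1 → FreeR z.2 q.1 p.1} ∩
      ((⋂ q ∈ s.rho, ⋂ n : ℕ, {z | IsPat k n (relOf z.2 q.1 n)}) ∩
      ({_z | ∀ p ∈ s.lv, p.2 ≤ 2 * p.1.length} ∩
      ({_z | ∀ q ∈ s.rho, ∀ p ∈ s.lv, q.2.1 <+: p.1 → 2 * q.2.2 + 1 < p.2} ∩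
      ({_z | ∀ p ∈ s.lv, ∀ q ∈ s.rho, ∀ q' ∈ s.rho, q.2.1 <+: p.1 → q'.2.1 <+: p.1 →
        q.2.2 = q'.2.2 → q = q'} ∩
      ({_z | ∀ q ∈ s.rho, ∀ p ∈ s.lv, p.1 <+: q.2.1 → p.1 = q.2.1} ∩
      ({_z | ∀ q ∈ s.rho, q.2.2 + 1 ≤ q.2.1.length} ∩
      ({z | ∀ p ∈ s.lv, ∀ e < p.2, 2 * e + 1 < p.2 →
        (∃ q ∈ s.rho, q.2.1 <+: p.1 ∧ q.2.2 = e) ∨ Force z.1 e p.1} ∩
      (⋂ q ∈ s.rho, ⋂ p ∈ s.lv, {z | q.2.1 <+: p.1 →
        ¬ Big (KK k (2 * q.2.2 + 1)) (Al0 z.1 z.2 s p.1) (Res z.1 z.2 s)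
          (T z.1 (2 * q.2.2 + 1)) p.1})))))))))))))) := by
    ext z
    simp only [Set.mem_inter_iff, Set.mem_iInter, Set.mem_ofPred_eq]
    constructor
    · intro h
      exact ⟨h.cut, h.inc, h.lt, h.pat, h.good, h.free, h.freeR, h.patR, h.size, h.neg, h.inj,
        h.below, h.len, fun p hp e _ he => h.dec p hp e he, h.losing⟩
    · rintro ⟨h1, h2, h3, h4, h5, h6, h7, h8, h9, h10, h11, h12, h13, h14, h15⟩
      exact ⟨h1, h2, h3, h4, h5, h6, h7, h8, h9, h10, h11, h12, h13,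
        fun p hp e he => h14 p hp e (by omega) he, h15⟩
  rw [e]
  refine isClosed_const.inter (isClosed_const.inter (isClosed_const.inter (isClosed_const.inter
    (IsClosed.inter ?_ (isClosed_const.inter (IsClosed.inter ?_ (IsClosed.inter ?_
    (isClosed_const.inter (isClosed_const.inter (isClosed_const.inter (isClosed_const.inter
    (isClosed_const.inter (IsClosed.inter ?_ ?_)))))))))))))
  · exact (clo_ball _ fun p _ => clo_good _).isClosed
  · exact (clo_ball _ fun p _ => clo_ball _ fun q _ => clo_impc fun _ => clo_freeR _ _).isClosed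
  · refine isClosed_biInter fun q _ => isClosed_iInter fun n => ?_
    exact (clo_rel q.1 n (fun E _ => IsPat k n E) (fun E => clo_const _)).isClosed
  · refine IsClopen.isClosed ?_
    refine clo_ball _ fun p _ => ?_
    refine clo_lt _ fun e _ => ?_
    refine clo_impc fun _ => ?_
    exact clo_or (clo_const _) (clo_force e p.1)
  · refine isClosed_biInter fun q _ => isClosed_biInter fun p _ => ?_
    by_cases hp : q.2.1 <+: p.1
    · simp only [hp, true_imp_iff]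
      exact (open_big0 k _ s p.1 p.1).isClosed_compl
    · simp only [hp, false_imp_iff]
      exact isClosed_const

theorem isOpen_ResGe (s : St) (m : ℕ) :
    IsOpen {z : (ℕ → ℕ) × (ℕ → ℕ) | ∃ x, m ≤ x ∧ x ∈ Res z.1 z.2 s} := by
  have e : {z : (ℕ → ℕ) × (ℕ → ℕ) | ∃ x, m ≤ x ∧ x ∈ Res z.1 z.2 s} =
      ⋃ x : ℕ, {z : (ℕ → ℕ) × (ℕ → ℕ) | m ≤ x ∧ x ∈ Res z.1 z.2 s} := by
    ext z; simp
  rw [e]
  exact isOpen_iUnion fun x => (clo_andc fun _ => isClopen_Res s x).isOpen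

end Pool.Agent.RR
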