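import Pool.Agent.Helper55.RR.A4
import Pool.Agent.Helper55.RR.B4
import Pool.Agent.Helper55.RR.B6
import Pool.Agent.Helper55.RR.B7
import Pool.Agent.Helper55.RR.B8
import Pool.Agent.Helper55.RR.B9

/-!
# B10. Existence of successors; a low `g`
-/

set_option autoImplicit false

namespace Pool.Agent.RR

open Classical

theorem step_exists {k : ℕ} {Z g : ℕ → ℕ} (hc : KBdd k (cc Z)) (hg : Req k Z g) {s : St}
    (hs : Valid k Z g s) : ∃ s', Valid k Z g s' ∧ Nx k s (Nf k Z g s) s' := by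
  by_cases h : ∃ n, Star k Z g s n
  · have h1 : Nf k Z g s = Nat.find h := by simp [Nf, h]
    rw [h1]
    exact step_yes hc hs (Nat.find_spec h)
  · have h1 : Nf k Z g s = s.b := by simp [Nf, h]
    rw [h1]
    exact step_no hc hg hs (fun n hn => h ⟨n, hn⟩)

theorem low_g (k : ℕ) : Cone fun Z => ∃ g, Req k Z g ∧ Red (J (join Z g)) (J Z) := by
  obtain ⟨F, hF⟩ := low_basis {z : (ℕ → ℕ) × (ℕ → ℕ) | Req k z.1 z.2} (isClosed_Req k)
  refine ⟨F, fun Z hZ => ?_⟩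
  obtain ⟨g, hg1, hg2⟩ := g_exists k Z
  obtain ⟨g', h1, -, h3⟩ := hF Z hZ (fun _ => 1) (red_const 1 Z) ⟨g, hg2, hg1⟩
  exact ⟨g', h1, h3⟩

end Pool.Agent.RR
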