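import Pool.Agent.Helper55.RR.Defs2
import Pool.Agent.Helper55.RR.A3
import Pool.Agent.Helper55.RR.B9

/-!
# B11. `nfc` and `resc` are below the jump

`resc`: directly from `sig` with the open sets `{Y | ∃ x ≥ m, x ∈ Res (lft Y) (rgt Y) s}`
(`isOpen_ResGe`, `continuous_lft`, `continuous_rgt`).
`nfc`: by `sig` the function `e : code s ↦ [∃ n, Star k (lft Y) (rgt Y) s n]` is `≤ J Y`; then `nfc k Y` is
the value of a continuous operator at `join Y e` (if `e s = 1` search the least `n` with `Star`; `Star` is
clopen), by `cont` it is `≤ join Y e ≤ J Y` (`red_J`).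
-/

set_option autoImplicit false

namespace Pool.Agent.RR

open Classical

theorem continuous_halves : Continuous (fun Y : ℕ → ℕ => (lft Y, rgt Y)) :=
  continuous_lft.prodMk continuous_rgt

theorem sig_fun (O : ℕ → Set (ℕ → ℕ)) (hO : ∀ n, IsOpen (O n)) :
    Cone fun Y => ∃ e : ℕ → ℕ, Red e (J Y) ∧ (∀ n, Y ∈ O n → e n = 1) ∧
      (∀ n, Y ∉ O n → e n = 0) :=
  (sig O hO).mono fun _ h => ⟨_, h, fun _ hn => if_pos hn, fun _ hn => if_neg hn⟩

theorem resc_red : Cone fun Y => Red (resc Y) (J Y) := by
  let O : ℕ → Set (ℕ → ℕ) := fun i => {Y | ∃ s : St, Encodable.decode i.unpair.1 = some s ∧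
    ∃ x, i.unpair.2 ≤ x ∧ x ∈ Res (lft Y) (rgt Y) s}
  have hO : ∀ i, IsOpen (O i) := by
    intro i
    cases h : (Encodable.decode i.unpair.1 : Option St) with
    | none =>
      have : O i = ∅ := by
        ext Y; simp [O, h]
      rw [this]
      exact isOpen_empty
    | some s =>
      have : O i = {Y | ∃ x, i.unpair.2 ≤ x ∧ x ∈ Res (lft Y) (rgt Y) s} := by
        ext Y
        constructor
        · rintro ⟨s', hs', hx⟩
          rw [h] at hs'
          cases hs'
          exact hx
        · intro hx
          exact ⟨s, h, hx⟩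
      rw [this]
      exact (isOpen_ResGe s i.unpair.2).preimage continuous_halves
  refine (sig_fun O hO).mono ?_
  rintro Y ⟨e, he, he1, he0⟩
  have : resc Y = e := by
    funext i
    unfold resc
    split
    · next s h =>
      by_cases hx : ∃ x, i.unpair.2 ≤ x ∧ x ∈ Res (lft Y) (rgt Y) s
      · rw [if_pos hx, he1 i ⟨s, h, hx⟩]
      · rw [if_neg hx, he0 i]
        rintro ⟨s', hs', hx'⟩
        rw [h] at hs'
        cases hs'
        exact hx hx'
    · next h =>
      rw [he0 i]
      rintro ⟨s', hs', hx'⟩
      rw [h] at hs'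
      cases hs'
  rw [this]
  exact he

/-- The least witness of `Star`, when `e` says that there is one. -/
noncomputable def nfOp (k : ℕ) (V : ℕ → ℕ) : ℕ → ℕ := fun i =>
  match (Encodable.decode i : Option St) with
  | some s => if rgt V i = 1 then Nf k (lft (lft V)) (rgt (lft V)) s else s.b
  | none => 0

theorem nfc_red (k : ℕ) : Cone fun Y => Red (nfc k Y) (J Y) := by
  let O : ℕ → Set (ℕ → ℕ) := fun i => {Y | ∃ s : St, Encodable.decode i = some s ∧
    ∃ n, Star k (lft Y) (rgt Y) s n}
  have hSt : ∀ s n, IsClopen {Y : ℕ → ℕ | Star k (lft Y) (rgt Y) s n} := fun s n =>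
    (isClopen_Star k s n).preimage continuous_halves
  have hOs : ∀ i (s : St), Encodable.decode i = some s → ∀ Y, Y ∈ O i ↔
      ∃ n, Star k (lft Y) (rgt Y) s n := by
    intro i s h Y
    constructor
    · rintro ⟨s', hs', hx⟩
      rw [h] at hs'
      cases hs'
      exact hx
    · intro hx
      exact ⟨s, h, hx⟩
  have hO : ∀ i, IsOpen (O i) := by
    intro i
    cases h : (Encodable.decode i : Option St) with
    | none =>
      have : O i = ∅ := by
        ext Y; simp [O, h]
      rw [this]
      exact isOpen_empty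
    | some s =>
      have : O i = ⋃ n, {Y | Star k (lft Y) (rgt Y) s n} := by
        ext Y; rw [hOs i s h]; simp
      rw [this]
      exact isOpen_iUnion fun n => (hSt s n).isOpen
  refine ((sig_fun O hO).and (cont (nfOp k)).up).mono ?_
  rintro Y ⟨⟨e, h1, e1, e0⟩, h2⟩
  have heq : nfOp k (join Y e) = nfc k Y := by
    funext i
    simp only [nfOp, nfc, rgt_join, lft_join]
    cases h : (Encodable.decode i : Option St) with
    | none => rfl
    | some s =>
      simp only
      by_cases hY : ∃ n, Star k (lft Y) (rgt Y) s n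
      · have : e i = 1 := by
          exact e1 i ((hOs i s h Y).2 hY)
        rw [if_pos this]
      · have : e i ≠ 1 := by
          rw [e0 i (fun hh => hY ((hOs i s h Y).1 hh))]
          exact zero_ne_one
        rw [if_neg this]
        unfold Nf
        rw [dif_neg hY]
  have hcont : ∀ n, ∃ m, ∀ Y' : ℕ → ℕ, (∀ i < m, Y' i = (join Y e) i) →
      nfOp k Y' n = nfOp k (join Y e) n := by
    intro i
    suffices hh : ∃ A : Set (ℕ → ℕ), IsOpen A ∧ join Y e ∈ A ∧
        ∀ V ∈ A, nfOp k V i = nfOp k (join Y e) i by
      obtain ⟨A, hA, hmem, hAeq⟩ := hh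
      obtain ⟨m, hm⟩ := (isOpen_iff_agree A).1 hA _ hmem
      exact ⟨m, fun Y' hY' => hAeq _ (hm Y' hY')⟩
    have hcoord : ∀ a : ℕ, IsOpen {V : ℕ → ℕ | rgt V i = a} := by
      intro a
      have : Continuous fun V : ℕ → ℕ => rgt V i := (continuous_apply i).comp continuous_rgt
      exact (isOpen_discrete ({a} : Set ℕ)).preimage this
    cases h : (Encodable.decode i : Option St) with
    | none =>
      refine ⟨Set.univ, isOpen_univ, trivial, ?_⟩
      intro V _
      simp only [nfOp, h]
    | some s =>
      by_cases hY : ∃ n, Star k (lft Y) (rgt Y) s n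
      · have he1 : e i = 1 := by
          exact e1 i ((hOs i s h Y).2 hY)
        refine ⟨({V : ℕ → ℕ | rgt V i = 1} ∩
          (lft ⁻¹' {Y | Star k (lft Y) (rgt Y) s (Nat.find hY)})) ∩
          ⋂ n ∈ Set.Iio (Nat.find hY), (lft ⁻¹' {Y | Star k (lft Y) (rgt Y) s n}ᶜ), ?_, ?_, ?_⟩
        · refine IsOpen.inter (IsOpen.inter (hcoord 1) ((hSt s _).isOpen.preimage continuous_lft)) ?_
          exact (Set.finite_Iio _).isOpen_biInter fun n _ =>
            (hSt s n).compl.isOpen.preimage continuous_lft
        · refine ⟨⟨?_, ?_⟩, ?_⟩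
          · change rgt (join Y e) i = 1
            rw [rgt_join]; exact he1
          · change Star k (lft (lft (join Y e))) (rgt (lft (join Y e))) s (Nat.find hY)
            rw [lft_join]; exact Nat.find_spec hY
          · simp only [Set.mem_iInter]
            intro n hn
            change ¬ Star k (lft (lft (join Y e))) (rgt (lft (join Y e))) s n
            rw [lft_join]; exact Nat.find_min hY hn
        · rintro V ⟨⟨hV1, hV2⟩, hV3⟩
          have hV1' : rgt V i = 1 := hV1
          have hV2' : Star k (lft (lft V)) (rgt (lft V)) s (Nat.find hY) := hV2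
          have hV3' : ∀ n < Nat.find hY, ¬ Star k (lft (lft V)) (rgt (lft V)) s n := by
            intro n hn
            simp only [Set.mem_iInter] at hV3
            exact hV3 n hn
          have hex : ∃ n, Star k (lft (lft V)) (rgt (lft V)) s n := ⟨_, hV2'⟩
          simp only [nfOp, h, rgt_join, lft_join]
          rw [if_pos hV1', if_pos he1]
          unfold Nf
          rw [dif_pos hex, dif_pos hY]
          exact (Nat.find_eq_iff hex).2 ⟨hV2', hV3'⟩
      · have he1 : e i ≠ 1 := by
          rw [e0 i (fun hh => hY ((hOs i s h Y).1 hh))]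
          exact zero_ne_one
        refine ⟨{V : ℕ → ℕ | rgt V i = e i}, hcoord _, ?_, ?_⟩
        · change rgt (join Y e) i = e i
          rw [rgt_join]
        · intro V hV
          have hV' : rgt V i = e i := hV
          simp only [nfOp, h, rgt_join, lft_join]
          rw [hV', if_neg he1, if_neg he1]
  have h3 := h2 (join Y e) (red_join_left _ _) hcont
  rw [heq] at h3
  exact h3.trans (join_red (red_J Y) h1)

end Pool.Agent.RR
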