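import Pool.Agent.Helper55.RR.B10
import Pool.Agent.Helper55.RR.B11

/-!
# B12. Existence of a run, low relative to `J Z`

Let `X = join (J Z) (join (join Z g) (join (nfc k (join Z g)) (resc (join Z g))))`; `X ≤ J Z` by
`nfc_red`, `resc_red` for `Y = join Z g` (`≥ Z`, so in the cone) and `J Y ≤ J Z`.
Closed set `P`: `(X, φ) ∈ P` iff, with `Y = lft (rgt X)`, `N = lft (rgt (rgt X))`, `R = rgt (rgt (rgt X))`:
`φ 0 = encode St.init` and for all `t` there are states `s, s'` with `φ t = encode s`,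
`φ (t+1) = encode s'`, `Inv k (lft Y) (rgt Y) s`, `∀ m, R ⟨encode s, m⟩ = 1`, `Nx k s (N (encode s)) s'`.
Closed: for fixed `t, s, s'` use `isClosed_Inv`, and that the other conditions are closed/clopen.
Bound: `b 0 = encode init`, `b (t+1)` = a bound for `b t` and all codes of `s'` with
`Nx k s (N (encode s)) s'`, `encode s ≤ b t` (`finite_Nx`): a continuous operator of `X`, so `b ≤ X` by
`cont`.  Nonempty: `step_exists` and dependent choice (all codes are `≤ b`).
`low_basis` gives `φ` with `J (join X φ) ≤ J X ≤ J (J Z)` (`J_mono` for `X ≤ J Z`; `J Z ≥ Z` is in the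
cone); `W = join X φ`.
-/

set_option autoImplicit false

namespace Pool.Agent.RR

open Classical

/-- a bound for the codes of the successors of the state coded by `i` with the new bound `n` -/
private theorem b12_exists_bd (k i n : ℕ) : ∃ B : ℕ, ∀ s s' : St, Encodable.encode s = i →
    Nx k s n s' → Encodable.encode s' ≤ B := by
  by_cases h : ∃ s : St, Encodable.encode s = i
  · obtain ⟨s, hs⟩ := h
    obtain ⟨B, hB⟩ := ((finite_Nx k s n).image (Encodable.encode (α := St))).bddAbove
    refine ⟨B, fun s1 s' h1 h2 => ?_⟩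
    have h3 : s1 = s := Encodable.encode_injective (h1.trans hs.symm)
    subst h3
    exact hB ⟨s', h2, rfl⟩
  · exact ⟨0, fun s s' h1 _ => absurd ⟨s, h1⟩ h⟩

private noncomputable def b12bd (k i n : ℕ) : ℕ := (b12_exists_bd k i n).choose

private theorem b12bd_spec (k n : ℕ) (s s' : St) (h : Nx k s n s') :
    Encodable.encode s' ≤ b12bd k (Encodable.encode s) n :=
  (b12_exists_bd k (Encodable.encode s) n).choose_spec s s' rfl h

/-- bound for the run, as an operator of `N` -/
private noncomputable def b12b (k : ℕ) (N : ℕ → ℕ) : ℕ → ℕ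
  | 0 => Encodable.encode St.init
  | t + 1 => max (b12b k N t) ((Finset.range (b12b k N t + 1)).sup (fun i => b12bd k i (N i)))

private noncomputable def b12N (X : ℕ → ℕ) : ℕ → ℕ := lft (rgt (rgt X))

private theorem b12N_apply (X : ℕ → ℕ) (i : ℕ) : b12N X i = X (2 * (2 * (2 * i) + 1) + 1) := rfl

private theorem b12_cont (k : ℕ) (X : ℕ → ℕ) (t : ℕ) : ∃ m, ∀ X' : ℕ → ℕ,
    (∀ i < m, X' i = X i) → b12b k (b12N X') t = b12b k (b12N X) t := by
  induction t with
  | zero => exact ⟨0, fun _ _ => rfl⟩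
  | succ t ih =>
    obtain ⟨m, hm⟩ := ih
    refine ⟨max m (8 * (b12b k (b12N X) t + 1)), fun X' hX' => ?_⟩
    have h1 := hm X' (fun i hi => hX' i (lt_of_lt_of_le hi (le_max_left _ _)))
    simp only [b12b, h1]
    congr 1
    refine Finset.sup_congr rfl ?_
    intro i hi
    have hi' := Finset.mem_range.1 hi
    have h2 : b12N X' i = b12N X i := by
      rw [b12N_apply, b12N_apply]
      apply hX'
      apply lt_of_lt_of_le _ (le_max_right _ _)
      omega
    rw [h2]

/-- the condition on two consecutive states -/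
private def b12Q (k : ℕ) (s s' : St) (X : ℕ → ℕ) : Prop :=
  Inv k (lft (lft (rgt X))) (rgt (lft (rgt X))) s ∧
    (∀ m, rgt (rgt (rgt X)) (Nat.pair (Encodable.encode s) m) = 1) ∧
    Nx k s (b12N X (Encodable.encode s)) s'

private theorem b12_closedQ (k : ℕ) (s s' : St) : IsClosed {X : ℕ → ℕ | b12Q k s s' X} := by
  have h1 : IsClosed {X : ℕ → ℕ | Inv k (lft (lft (rgt X))) (rgt (lft (rgt X))) s} := by
    have hc : Continuous (fun X : ℕ → ℕ => (lft (lft (rgt X)), rgt (lft (rgt X)))) :=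
      (continuous_lft.comp (continuous_lft.comp continuous_rgt)).prodMk
        (continuous_rgt.comp (continuous_lft.comp continuous_rgt))
    exact (isClosed_Inv k s).preimage hc
  have h2 : IsClosed {X : ℕ → ℕ | ∀ m, rgt (rgt (rgt X)) (Nat.pair (Encodable.encode s) m) = 1} := by
    rw [Set.setOf_forall]
    refine isClosed_iInter (fun m => ?_)
    have hc : Continuous (fun X : ℕ → ℕ => rgt (rgt (rgt X)) (Nat.pair (Encodable.encode s) m)) := by
      have h0 : Continuous (fun X : ℕ → ℕ => rgt (rgt (rgt X))) :=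
        continuous_rgt.comp (continuous_rgt.comp continuous_rgt)
      exact (continuous_apply (Nat.pair (Encodable.encode s) m)).comp h0
    exact isClosed_eq hc continuous_const
  have h3 : IsClosed {X : ℕ → ℕ | Nx k s (b12N X (Encodable.encode s)) s'} := by
    have hc : Continuous (fun X : ℕ → ℕ => b12N X (Encodable.encode s)) := by
      have h0 : Continuous (fun X : ℕ → ℕ => lft (rgt (rgt X))) :=
        continuous_lft.comp (continuous_rgt.comp continuous_rgt)
      exact (continuous_apply (Encodable.encode s)).comp h0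
    exact (isClosed_discrete {n : ℕ | Nx k s n s'}).preimage hc
  exact h1.inter (h2.inter h3)

/-- the closed set of codes of runs -/
private def b12P (k : ℕ) : Set ((ℕ → ℕ) × (ℕ → ℕ)) :=
  {z | z.2 0 = Encodable.encode St.init ∧ ∀ t, ∃ s s' : St, z.2 t = Encodable.encode s ∧
    z.2 (t + 1) = Encodable.encode s' ∧ b12Q k s s' z.1}

private theorem b12_closedP (k : ℕ) : IsClosed (b12P k) := by
  have h0 : IsClosed {z : (ℕ → ℕ) × (ℕ → ℕ) | z.2 0 = Encodable.encode St.init} :=
    isClosed_eq ((continuous_apply 0).comp continuous_snd) continuous_const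
  have h1 : ∀ t, IsClosed {z : (ℕ → ℕ) × (ℕ → ℕ) | ∃ s s' : St, z.2 t = Encodable.encode s ∧
      z.2 (t + 1) = Encodable.encode s' ∧ b12Q k s s' z.1} := by
    intro t
    rw [← isOpen_compl_iff, isOpen_iff_forall_mem_open]
    intro z hz
    have hc1 : Continuous (fun z : (ℕ → ℕ) × (ℕ → ℕ) => z.2 t) :=
      (continuous_apply t).comp continuous_snd
    have hc2 : Continuous (fun z : (ℕ → ℕ) × (ℕ → ℕ) => z.2 (t + 1)) :=
      (continuous_apply (t + 1)).comp continuous_snd
    have ho : IsOpen {z' : (ℕ → ℕ) × (ℕ → ℕ) | z'.2 t = z.2 t ∧ z'.2 (t + 1) = z.2 (t + 1)} :=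
      ((isOpen_discrete {z.2 t}).preimage hc1).inter ((isOpen_discrete {z.2 (t + 1)}).preimage hc2)
    by_cases h : ∃ s s' : St, z.2 t = Encodable.encode s ∧ z.2 (t + 1) = Encodable.encode s'
    · obtain ⟨s, s', hs, hs'⟩ := h
      have hQ : ¬ b12Q k s s' z.1 := fun hQ => hz ⟨s, s', hs, hs', hQ⟩
      refine ⟨{z' | z'.2 t = z.2 t ∧ z'.2 (t + 1) = z.2 (t + 1)} ∩ {z' | ¬ b12Q k s s' z'.1},
        ?_, ho.inter ?_, ⟨⟨rfl, rfl⟩, hQ⟩⟩
      · rintro z' ⟨⟨h1, h2⟩, h3⟩ ⟨u, u', hu, hu', hQ'⟩
        have e1 : u = s := Encodable.encode_injective (by rw [← hu, h1, hs])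
        have e2 : u' = s' := Encodable.encode_injective (by rw [← hu', h2, hs'])
        subst e1
        subst e2
        exact h3 hQ'
      · exact ((b12_closedQ k s s').preimage continuous_fst).isOpen_compl
    · refine ⟨{z' | z'.2 t = z.2 t ∧ z'.2 (t + 1) = z.2 (t + 1)}, ?_, ho, ⟨rfl, rfl⟩⟩
      rintro z' ⟨h1, h2⟩ ⟨u, u', hu, hu', -⟩
      exact h ⟨u, u', by rw [← h1, hu], by rw [← h2, hu']⟩
  have h2 : b12P k = {z : (ℕ → ℕ) × (ℕ → ℕ) | z.2 0 = Encodable.encode St.init} ∩
      ⋂ t, {z : (ℕ → ℕ) × (ℕ → ℕ) | ∃ s s' : St, z.2 t = Encodable.encode s ∧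
      z.2 (t + 1) = Encodable.encode s' ∧ b12Q k s s' z.1} := by
    ext z
    simp [b12P]
  rw [h2]
  exact h0.inter (isClosed_iInter h1)

private theorem b12_nfc (k : ℕ) (Z g : ℕ → ℕ) (s : St) :
    nfc k (join Z g) (Encodable.encode s) = Nf k Z g s := by
  simp [nfc]

private theorem b12_resc (Z g : ℕ → ℕ) (s : St) (m : ℕ) :
    resc (join Z g) (Nat.pair (Encodable.encode s) m) = 1 ↔ ∃ x, m ≤ x ∧ x ∈ Res Z g s := by
  simp [resc]

theorem run_exists (k : ℕ) : Cone fun Z => KBdd k (cc Z) → ∀ g, Req k Z g →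
    Red (J (join Z g)) (J Z) → ∃ f : ℕ → St, Run k Z g f ∧
      ∃ W : ℕ → ℕ, Red (J Z) W ∧ Red (runCode f) W ∧ Red (J W) (J (J Z)) := by
  obtain ⟨F1, hF1⟩ := nfc_red k
  obtain ⟨F2, hF2⟩ := resc_red
  obtain ⟨F3, hF3⟩ := low_basis (b12P k) (b12_closedP k)
  obtain ⟨F4, hF4⟩ := cont (fun X => b12b k (b12N X))
  obtain ⟨F5, hF5⟩ := J_mono
  refine ⟨join F1 (join F2 (join F3 (join F4 F5))), ?_⟩
  intro Z hZ hc g hg hJ
  have r1 : Red F1 Z := (red_join_left _ _).trans hZ
  have r2' : Red (join F2 (join F3 (join F4 F5))) Z := (red_join_right _ _).trans hZ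
  have r2 : Red F2 Z := (red_join_left _ _).trans r2'
  have r3' : Red (join F3 (join F4 F5)) Z := (red_join_right _ _).trans r2'
  have r3 : Red F3 Z := (red_join_left _ _).trans r3'
  have r4' : Red (join F4 F5) Z := (red_join_right _ _).trans r3'
  have r4 : Red F4 Z := (red_join_left _ _).trans r4'
  have r5 : Red F5 Z := (red_join_right _ _).trans r4'
  have hZY : Red Z (join Z g) := red_join_left Z g
  obtain ⟨X, hX⟩ : ∃ X, X = join (J Z) (join (join Z g)
    (join (nfc k (join Z g)) (resc (join Z g)))) := ⟨_, rfl⟩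
  have hXl : lft X = J Z := by rw [hX]; simp
  have hXY : lft (rgt X) = join Z g := by rw [hX]; simp
  have hXN : b12N X = nfc k (join Z g) := by rw [hX]; simp [b12N]
  have hXR : rgt (rgt (rgt X)) = resc (join Z g) := by rw [hX]; simp
  have hXJ : Red X (J Z) := by
    rw [hX]
    refine join_red (Red.refl _) (join_red ?_ (join_red ?_ ?_))
    · exact (red_J _).trans hJ
    · exact (hF1 _ (r1.trans hZY)).trans hJ
    · exact (hF2 _ (r2.trans hZY)).trans hJ
  have hYX : Red (join Z g) X := by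
    rw [← hXY]
    exact (red_lft _).trans (red_rgt _)
  have hZX : Red Z X := hZY.trans hYX
  have hbX : Red (b12b k (b12N X)) X := hF4 X (r4.trans hZX) (fun n => b12_cont k X n)
  -- a run exists
  have hrun : ∃ f, (X, f) ∈ b12P k ∧ ∀ n, f n ≤ b12b k (b12N X) n := by
    let F : ℕ → {s : St // Valid k Z g s} := fun t => Nat.rec ⟨St.init, valid_init k Z g⟩
      (fun _ s => ⟨(step_exists hc hg s.2).choose, (step_exists hc hg s.2).choose_spec.1⟩) t
    have hF0 : (F 0).1 = St.init := rfl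
    have hFs : ∀ t, Nx k (F t).1 (Nf k Z g (F t).1) (F (t + 1)).1 := fun t =>
      (step_exists hc hg (F t).2).choose_spec.2
    refine ⟨fun t => Encodable.encode (F t).1, ⟨rfl, fun t => ?_⟩, ?_⟩
    · refine ⟨(F t).1, (F (t + 1)).1, rfl, rfl, ?_, ?_, ?_⟩
      · change Inv k (lft (lft (rgt X))) (rgt (lft (rgt X))) (F t).1
        rw [hXY, lft_join, rgt_join]
        exact (F t).2.1
      · intro m
        change rgt (rgt (rgt X)) (Nat.pair (Encodable.encode (F t).1) m) = 1
        rw [hXR, b12_resc]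
        obtain ⟨x, hx1, hx2⟩ := (F t).2.2.exists_gt m
        exact ⟨x, hx2.le, hx1⟩
      · change Nx k (F t).1 (b12N X (Encodable.encode (F t).1)) (F (t + 1)).1
        rw [hXN, b12_nfc]
        exact hFs t
    · intro t
      induction t with
      | zero => exact le_of_eq rfl
      | succ t ih =>
        have h1 := b12bd_spec k _ _ _ (hFs t)
        rw [← b12_nfc, ← hXN] at h1
        refine h1.trans ?_
        refine le_trans ?_ (le_max_right _ _)
        exact Finset.le_sup (f := fun i => b12bd k i (b12N X i))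
          (Finset.mem_range.2 (Nat.lt_succ_of_le ih))
  obtain ⟨φ, hφP, -, hφJ⟩ := hF3 X (r3.trans hZX) _ hbX hrun
  obtain ⟨hφ0, hφs⟩ := hφP
  choose f f' hf hf' hQ using hφs
  have hff : ∀ t, f' t = f (t + 1) := fun t =>
    Encodable.encode_injective (by rw [← hf' t, ← hf (t + 1)])
  have hrc : runCode f = φ := by
    funext t
    exact (hf t).symm
  refine ⟨f, ⟨?_, ?_, ?_⟩, join X φ, ?_, ?_, ?_⟩
  · apply Encodable.encode_injective
    rw [← hf 0]
    exact hφ0
  · intro t
    obtain ⟨h1, h2, -⟩ := hQ t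
    change Inv k (lft (lft (rgt X))) (rgt (lft (rgt X))) (f t) at h1
    change ∀ m, rgt (rgt (rgt X)) (Nat.pair (Encodable.encode (f t)) m) = 1 at h2
    rw [hXY, lft_join, rgt_join] at h1
    rw [hXR] at h2
    refine ⟨h1, Set.infinite_of_forall_exists_gt (fun m => ?_)⟩
    obtain ⟨x, hx1, hx2⟩ := (b12_resc Z g (f t) (m + 1)).1 (h2 (m + 1))
    exact ⟨x, hx2, hx1⟩
  · intro t
    obtain ⟨-, -, h3⟩ := hQ t
    change Nx k (f t) (b12N X (Encodable.encode (f t))) (f' t) at h3
    rw [hXN, b12_nfc, hff] at h3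
    exact h3
  · rw [← hXl]
    exact (red_lft X).trans (red_join_left X φ)
  · rw [hrc]
    exact red_join_right X φ
  · exact hφJ.trans (hF5 (J Z) (r5.trans (red_J Z)) X hXJ)

end Pool.Agent.RR
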