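import Pool.Agent.Helper55.RR.B1
import Pool.Agent.Helper55.RR.B2
import Pool.Agent.Helper55.RR.B3

/-!
# B5. The badness bound

Let `Rel := {h} ∪ {q.1 : q ∈ rho}` and `x ∈ Res Z g s`, `x ≥ N`, where `N` bounds all maxima of pairs
`(a, x)` related (in `g`, at an index from `Rel`) to a pair `s1` with elements `< s.b`: by `hpat`,
`Inv.patR` a pair has at most `k` partners for each relation, so there are finitely many such `x`.

Let `p ∈ s.lv` be bad for `x`: for some `R ∈ {h} ∪ {q.1 : q ∈ rho, q.2.1 <+: p.1}` there is a conflict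
`(s1, s2) ∈ relOf g R n` with both pairs inside `p.1 ++ [x]`.
* not both pairs inside `p.1`: for `R = h` use `Inv.free`, `hE`, `Inv.lt`; for `R = q.1` use `Inv.freeR`;
* not exactly one inside `p.1`, by the choice of `N` (use symmetry of `IsPat`);
* so `s1 = (a, x)`, `s2 = (y, x)` with, by symmetry, `a < y` in `p.1`.  Let `ν' ++ [y] <+: p.1`; then
  `a ∈ ν'`.  If `R = q.1` then `y ∉ q.2.1` (otherwise `a, y ∈ q.2.1`, a conflict in `q.2.1 ++ [x]`,
  contradiction to `x ∈ Res`), so `q.2.1 <+: ν'`.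
So `y ∈ B ν' := {y < s.b | ∃ a ∈ ν', ((a,x),(y,x)) related at h or at some q.1, q ∈ rho, q.2.1 <+: ν'}`,
`|B ν'| ≤ |ν'| * k * (1 + #{q ∈ rho | q.2.1 <+: ν'})` and `#{q ∈ rho | q.2.1 <+: ν'} ≤ |ν'|` for
`ν' <+: p.1`, because `q ↦ q.2.2` is injective on them (`Inv.inj`) with values `< |q.2.1| ≤ |ν'|`
(`Inv.len`).  So `|B ν'| * 8 * 2^l ≤ 8 * 2^l * k * l * (l+1) ≤ K0 k l`.  Apply `Cut.bad` with `ν = []`.
-/

set_option autoImplicit false

namespace Pool.Agent.RR

open Classical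

theorem b5_mem_relOf {g : ℕ → ℕ} {R n : ℕ} {q : (ℕ × ℕ) × (ℕ × ℕ)} :
    q ∈ relOf g R n ↔ (q.1.1 < q.1.2 ∧ q.1.2 < n) ∧ (q.2.1 < q.2.2 ∧ q.2.2 < n) ∧
      g (Nat.pair R (Encodable.encode q)) ≠ 0 := by
  unfold relOf
  rw [Finset.mem_filter, Finset.mem_product, mem_prs, mem_prs, and_assoc]

/-- partners of a pair -/
theorem b5_partners {k : ℕ} {g : ℕ → ℕ} {R : ℕ} (hpat : ∀ n, IsPat k n (relOf g R n))
    (s1 : ℕ × ℕ) : {s2 | ∃ n, (s1, s2) ∈ relOf g R n}.Finite := by
  by_contra hinf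
  obtain ⟨T, hT, hTc⟩ := Set.Infinite.exists_subset_card_eq hinf (k + 1)
  have hTn : ∀ s2 ∈ T, ∃ n, (s1, s2) ∈ relOf g R n := fun s2 h2 => hT h2
  choose! n hn using hTn
  set N := T.sup n with hN
  have hmem : ∀ s2 ∈ T, (s1, s2) ∈ relOf g R N := by
    intro s2 h2
    have h3 := b5_mem_relOf.mp (hn s2 h2)
    have h4 : n s2 ≤ N := Finset.le_sup h2
    exact b5_mem_relOf.mpr ⟨⟨h3.1.1, by omega⟩, ⟨h3.2.1.1, by omega⟩, h3.2.2⟩
  have h1 := (hpat N).2.2.2 s1
  have h2 : T.card ≤ ((relOf g R N).filter (fun q => q.1 = s1)).card := by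
    refine Finset.card_le_card_of_injOn (fun s2 => (s1, s2)) ?_ ?_
    · intro s2 h2
      simp only [Finset.coe_filter, Set.mem_ofPred_eq, and_true]
      exact hmem s2 h2
    · intro a _ b _ hab
      exact (Prod.mk.inj hab).2
  omega

theorem b5_card {k : ℕ} {g : ℕ → ℕ} {R : ℕ} (hpat : ∀ n, IsPat k n (relOf g R n))
    (s1 : ℕ × ℕ) (b x : ℕ) :
    ((Finset.range b).filter (fun y => ∃ n, (s1, (y, x)) ∈ relOf g R n)).card ≤ k := by
  set S := (Finset.range b).filter (fun y => ∃ n, (s1, (y, x)) ∈ relOf g R n) with hS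
  have hSn : ∀ y ∈ S, ∃ n, (s1, (y, x)) ∈ relOf g R n := fun y hy =>
    (Finset.mem_filter.mp hy).2
  choose! n hn using hSn
  set N := S.sup n with hN
  have hmem : ∀ y ∈ S, (s1, (y, x)) ∈ relOf g R N := by
    intro s2 h2
    have h3 := b5_mem_relOf.mp (hn s2 h2)
    have h4 : n s2 ≤ N := Finset.le_sup h2
    exact b5_mem_relOf.mpr ⟨⟨h3.1.1, by omega⟩, ⟨h3.2.1.1, by omega⟩, h3.2.2⟩
  refine le_trans ?_ ((hpat N).2.2.2 s1)
  refine Finset.card_le_card_of_injOn (fun y => (s1, (y, x))) ?_ ?_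
  · intro s2 h2
    simp only [Finset.coe_filter, Set.mem_ofPred_eq, and_true]
    exact hmem s2 h2
  · intro a _ b _ hab
    exact (Prod.mk.inj (Prod.mk.inj hab).2).1

theorem bad_bound {k : ℕ} {Z g : ℕ → ℕ} {s : St} (hs : Inv k Z g s) (h : ℕ)
    (hpat : ∀ n, IsPat k n (relOf g h n)) (hE : relOf g h s.b = s.E) :
    ∃ N, ∀ x ∈ Res Z g s, N ≤ x →
      mu k (s.lv.filter (fun p => ¬ (FreeR g h (p.1 ++ [x]) ∧
        ∀ q ∈ s.rho, q.2.1 <+: p.1 → FreeR g q.1 (p.1 ++ [x])))) ≤ 1 / 4 := by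
  set Rel : Finset ℕ := insert h (s.rho.image (fun q => q.1)) with hRel
  have hRelpat : ∀ R ∈ Rel, ∀ n, IsPat k n (relOf g R n) := by
    intro R hR
    rw [hRel, Finset.mem_insert, Finset.mem_image] at hR
    rcases hR with rfl | ⟨q, hq, rfl⟩
    · exact hpat
    · exact hs.patR q hq
  -- the exceptional points
  have hfin : {x | ∃ R ∈ Rel, ∃ s1 ∈ prs s.b, ∃ a n, (s1, (a, x)) ∈ relOf g R n}.Finite := by
    have h1 : {x | ∃ R ∈ Rel, ∃ s1 ∈ prs s.b, ∃ a n, (s1, (a, x)) ∈ relOf g R n} ⊆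
        ⋃ R ∈ Rel, ⋃ s1 ∈ prs s.b, Prod.snd '' {s2 | ∃ n, (s1, s2) ∈ relOf g R n} := by
      rintro x ⟨R, hR, s1, hs1, a, n, hn⟩
      simp only [Set.mem_iUnion]
      exact ⟨R, hR, s1, hs1, (a, x), ⟨n, hn⟩, rfl⟩
    refine Set.Finite.subset ?_ h1
    refine Set.Finite.biUnion (Finset.finite_toSet _) fun R hR => ?_
    refine Set.Finite.biUnion (Finset.finite_toSet _) fun s1 _ => ?_
    exact (b5_partners (hRelpat R hR) s1).image _
  obtain ⟨N, hN⟩ := hfin.bddAbove
  refine ⟨N + 1, fun x hx hNx => ?_⟩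
  have hxN : ∀ R ∈ Rel, ∀ s1 ∈ prs s.b, ∀ a n, (s1, (a, x)) ∉ relOf g R n := by
    intro R hR s1 hs1 a n hn
    have : x ≤ N := hN ⟨R, hR, s1, hs1, a, n, hn⟩
    omega
  obtain ⟨hbx, -, -, hxfree⟩ := hx
  -- the bad children
  set B : List ℕ → Finset ℕ := fun ν => (Finset.range s.b).filter (fun y => ∃ a ∈ ν, ∃ R,
    (R = h ∨ ∃ q ∈ s.rho, q.2.1 <+: ν ∧ q.1 = R) ∧ ∃ n, ((a, x), (y, x)) ∈ relOf g R n) with hB
  have hcard : ∀ p ∈ s.lv, ∀ ν', ([] : List ℕ) <+: ν' → ν' <+: p.1 →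
      (B ν').card * (8 * 2 ^ ν'.length) ≤ K0 k ν'.length := by
    intro p hp ν' _ hν'
    set M := s.rho.filter (fun q => q.2.1 <+: ν') with hM
    have hMc : M.card ≤ ν'.length := by
      rw [← Finset.card_range ν'.length]
      refine Finset.card_le_card_of_injOn (fun q => q.2.2) ?_ ?_
      · intro q hq
        simp only [hM, Finset.coe_filter, Set.mem_ofPred_eq] at hq
        have h1 := hs.len q hq.1
        have h2 := hq.2.length_le
        simp only [Finset.coe_range, Set.mem_Iio]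
        omega
      · intro q hq q' hq' hqq
        simp only [hM, Finset.coe_filter, Set.mem_ofPred_eq] at hq hq'
        exact hs.inj p hp q hq.1 q' hq'.1 (hq.2.trans hν') (hq'.2.trans hν') hqq
    have hsub : B ν' ⊆ ν'.toFinset.biUnion (fun a => (insert h (M.image (fun q => q.1))).biUnion
        (fun R => (Finset.range s.b).filter (fun y => ∃ n, ((a, x), (y, x)) ∈ relOf g R n))) := by
      intro y hy
      simp only [hB, Finset.mem_filter] at hy
      obtain ⟨hyb, a, ha, R, hR, hn⟩ := hy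
      rw [Finset.mem_biUnion]
      refine ⟨a, by simpa using ha, ?_⟩
      rw [Finset.mem_biUnion]
      refine ⟨R, ?_, ?_⟩
      · rw [Finset.mem_insert, Finset.mem_image]
        rcases hR with hR | ⟨q, hq, hq2, hqR⟩
        · exact Or.inl hR
        · exact Or.inr ⟨q, by simp only [hM, Finset.mem_filter]; exact ⟨hq, hq2⟩, hqR⟩
      · rw [Finset.mem_filter]; exact ⟨hyb, hn⟩
    have hc1 : (B ν').card ≤ ν'.toFinset.card * ((insert h (M.image (fun q => q.1))).card * k) := by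
      refine (Finset.card_le_card hsub).trans ?_
      refine Finset.card_biUnion_le_card_mul _ _ _ fun a _ => ?_
      refine Finset.card_biUnion_le_card_mul _ _ _ fun R hR => ?_
      apply b5_card
      apply hRelpat
      rw [Finset.mem_insert, Finset.mem_image] at hR
      rw [hRel, Finset.mem_insert, Finset.mem_image]
      rcases hR with hR | ⟨q, hq, hqR⟩
      · exact Or.inl hR
      · exact Or.inr ⟨q, (Finset.mem_filter.mp hq).1, hqR⟩
    have hc2 : (insert h (M.image (fun q => q.1))).card ≤ ν'.length + 1 :=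
      (Finset.card_insert_le _ _).trans (Nat.succ_le_succ (Finset.card_image_le.trans hMc))
    have hc3 : ν'.toFinset.card ≤ ν'.length := List.toFinset_card_le _
    have hc4 : (B ν').card ≤ ν'.length * ((ν'.length + 1) * k) :=
      hc1.trans (Nat.mul_le_mul hc3 (Nat.mul_le_mul_right _ hc2))
    unfold K0
    have hc5 : ν'.length * ((ν'.length + 1) * k) ≤ (ν'.length + 1) ^ 2 * (k + 1) := by
      have e1 : ν'.length * ((ν'.length + 1) * k) ≤
          (ν'.length + 1) * ((ν'.length + 1) * (k + 1)) :=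
        Nat.mul_le_mul (Nat.le_succ _) (Nat.mul_le_mul_left _ (Nat.le_succ _))
      refine e1.trans (le_of_eq ?_)
      ring
    calc (B ν').card * (8 * 2 ^ ν'.length)
        ≤ ((ν'.length + 1) ^ 2 * (k + 1)) * (8 * 2 ^ ν'.length) :=
          Nat.mul_le_mul_right _ (hc4.trans hc5)
      _ = 8 * 2 ^ ν'.length * (ν'.length + 1) ^ 2 * (k + 1) := by ring
  have hbad := hs.cut.bad B hcard
  rw [List.length_nil, wt_zero, pow_zero, mul_one] at hbad
  refine (mu_mono k ?_).trans hbad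
  intro p hp
  rw [Finset.mem_filter] at hp ⊢
  obtain ⟨hplv, hpbad⟩ := hp
  refine ⟨hplv, ?_⟩
  have hlt := hs.lt p hplv
  have hinc := hs.inc p hplv
  -- a conflict
  obtain ⟨R, hR, n, q, hq, hq1, hq2, hq3, hq4⟩ : ∃ R, (R = h ∨ ∃ q ∈ s.rho, q.2.1 <+: p.1 ∧
      q.1 = R) ∧ ∃ n, ∃ q ∈ relOf g R n, q.1.1 ∈ p.1 ++ [x] ∧ q.1.2 ∈ p.1 ++ [x] ∧
      q.2.1 ∈ p.1 ++ [x] ∧ q.2.2 ∈ p.1 ++ [x] := by
    rw [not_and_or] at hpbad
    rcases hpbad with hb | hb
    · unfold FreeR Free at hb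
      push Not at hb
      obtain ⟨n, q, hq, hb⟩ := hb
      exact ⟨h, Or.inl rfl, n, q, hq, hb⟩
    · push Not at hb
      obtain ⟨r, hr, hrp, hb⟩ := hb
      unfold FreeR Free at hb
      push Not at hb
      obtain ⟨n, q, hq, hb⟩ := hb
      exact ⟨r.1, Or.inr ⟨r, hr, hrp, rfl⟩, n, q, hq, hb⟩
  have hRRel : R ∈ Rel := by
    rw [hRel, Finset.mem_insert, Finset.mem_image]
    rcases hR with hR | ⟨r, hr, -, hrR⟩
    · exact Or.inl hR
    · exact Or.inr ⟨r, hr, hrR⟩
  have hmemx : ∀ y ∈ p.1 ++ [x], y ∈ p.1 ∨ y = x := by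
    intro y hy
    rw [List.mem_append, List.mem_singleton] at hy
    exact hy
  have hqr := b5_mem_relOf.mp hq
  have hle : ∀ y ∈ p.1 ++ [x], y ≤ x := by
    intro y hy
    rcases hmemx y hy with h1 | h1
    · have := hlt y h1; omega
    · exact h1.le
  have ha1 : q.1.1 ∈ p.1 := by
    rcases hmemx _ hq1 with h1 | h1
    · exact h1
    · have := hle _ hq2; omega
  have ha2 : q.2.1 ∈ p.1 := by
    rcases hmemx _ hq3 with h1 | h1
    · exact h1
    · have := hle _ hq4; omega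
  have hsym := (hRelpat R hRRel n).2.1 q hq
  -- the main case
  have main : ∀ a y, a ∈ p.1 → y ∈ p.1 → a < y → ((a, x), (y, x)) ∈ relOf g R n →
      ∃ ν' y, ([] : List ℕ) <+: ν' ∧ (ν' ++ [y]) <+: p.1 ∧ y ∈ B ν' := by
    intro a y ha hy hay hrel
    obtain ⟨ν', rest, hsplit⟩ := List.append_of_mem hy
    have hpre : (ν' ++ [y]) <+: p.1 := ⟨rest, by rw [hsplit]; simp⟩
    have haν : a ∈ ν' := by
      rw [hsplit] at ha
      rw [List.mem_append, List.mem_cons] at ha
      rcases ha with ha | ha | ha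
      · exact ha
      · omega
      · exfalso
        rw [hsplit, List.pairwise_append] at hinc
        have := List.rel_of_pairwise_cons hinc.2.1 ha
        omega
    refine ⟨ν', y, List.nil_prefix, hpre, ?_⟩
    simp only [hB, Finset.mem_filter, Finset.mem_range]
    refine ⟨hlt y hy, a, haν, R, ?_, n, hrel⟩
    rcases hR with hR | ⟨r, hr, hrp, hrR⟩
    · exact Or.inl hR
    · refine Or.inr ⟨r, hr, ?_, hrR⟩
      have hno : ¬ ((ν' ++ [y]) <+: r.2.1) := by
        intro hcon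
        have hyr : y ∈ r.2.1 := hcon.subset (by simp)
        have har : a ∈ r.2.1 := hcon.subset (by simp [haν])
        have hf := hxfree r hr n
        rw [hrR] at hf
        exact hf _ hrel ⟨by simp [har], by simp, by simp [hyr], by simp⟩
      rcases prefix_total hrp hpre with h1 | h1
      · rcases List.prefix_concat_iff.mp h1 with h2 | h2
        · exact absurd (h2 ▸ List.prefix_rfl) hno
        · exact h2
      · exact absurd h1 hno
  rcases hmemx _ hq2 with hb1 | hb1 <;> rcases hmemx _ hq4 with hb2 | hb2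
  · -- both inside
    exfalso
    rcases hR with hR | ⟨r, hr, hrp, hrR⟩
    · have hqE : q ∈ s.E := by
        rw [← hE]
        rw [hR] at hqr
        exact b5_mem_relOf.mpr ⟨⟨hqr.1.1, hlt _ hb1⟩, ⟨hqr.2.1.1, hlt _ hb2⟩, hqr.2.2⟩
      exact hs.free p hplv q hqE ⟨ha1, hb1, ha2, hb2⟩
    · have hf := hs.freeR p hplv r hr hrp n
      rw [hrR] at hf
      exact hf q hq ⟨ha1, hb1, ha2, hb2⟩
  · exfalso
    refine hxN R hRRel q.1 (mem_prs.mpr ⟨hqr.1.1, hlt _ hb1⟩) q.2.1 n ?_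
    rw [← hb2]
    exact hq
  · exfalso
    refine hxN R hRRel q.2 (mem_prs.mpr ⟨hqr.2.1.1, hlt _ hb2⟩) q.1.1 n ?_
    rw [← hb1]
    exact hsym
  · have hne := (hRelpat R hRRel n).2.2.1 q hq
    have hne' : q.1.1 ≠ q.2.1 := by
      intro he
      apply hne
      exact Prod.ext he (by rw [hb1, hb2])
    rcases lt_or_gt_of_ne hne' with hlt' | hlt'
    · refine main q.1.1 q.2.1 ha1 ha2 hlt' ?_
      have : q = ((q.1.1, x), (q.2.1, x)) := by
        ext
        · rfl
        · exact hb1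
        · rfl
        · exact hb2
      rw [← this]; exact hq
    · refine main q.2.1 q.1.1 ha2 ha1 hlt' ?_
      have : (q.2, q.1) = ((q.2.1, x), (q.1.1, x)) := by
        ext
        · rfl
        · exact hb2
        · rfl
        · exact hb1
      rw [← this]; exact hsym

end Pool.Agent.RR
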