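import Pool.Agent.Helper55.RR.Defs2
import Pool.Agent.Helper55.RR.B1

/-!
# C1. Chains of states: cuts, projections, measures, progress

`Chain.progress` (via `WellFounded.cutExpand`, `Mathlib.Logic.Hydra`): suppose for some `n` the measure of
the leaves with label `< n` is `> 1/4` at all times; then `ns k (f t) ≤ n` for all `t` (`Nat.sInf_le`).
Put `M t = (f t).lv.val.map (fun p => n - p.2)`.  A step removes a leaf `p` with `p.2 < n` and adds the
leaves in `L` (disjoint from `lv.erase p`: a common leaf `q` has `p.1 <+: q.1`, so `p = q` by `Cut.incomp`)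
with values `n - (p.2 + 1) < n - p.2`.  So `CutExpand (· < ·) (M (t+1)) (M t)`: contradiction to
well-foundedness.
-/

set_option autoImplicit false

namespace Pool.Agent.RR

open Classical

theorem Chain.cut_all {k : ℕ} {f : ℕ → St} (h : Chain k f) (t : ℕ) : Cut k [] (f t).lv := by
  induction t with
  | zero => exact h.cut
  | succ t ih =>
    obtain ⟨p, hp, -, L, hL, -, heq⟩ := h.step t
    rw [heq]
    exact ih.graft hp hL

theorem c1_eq {k : ℕ} {f : ℕ → St} (h : Chain k f) {t : ℕ} {p q : List ℕ × ℕ} {xs : List ℕ}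
    (hp : p ∈ (f t).lv) (hq : q ∈ (f t).lv) (h1 : p.1 <+: xs) (h2 : q.1 <+: xs) : p = q := by
  rcases List.prefix_or_prefix_of_prefix h1 h2 with h3 | h3
  · exact (h.cut_all t).incomp p hp q hq h3
  · exact ((h.cut_all t).incomp q hq p hp h3).symm

/-- the one step version of all facts on prefixes and labels -/
theorem c1_step {k : ℕ} {f : ℕ → St} (h : Chain k f) (t : ℕ) {q : List ℕ × ℕ}
    (hq : q ∈ (f (t + 1)).lv) : ∃ p ∈ (f t).lv, p.1 <+: q.1 ∧ p.2 ≤ q.2 := by
  obtain ⟨p, hp, -, L, hL, hlab, heq⟩ := h.step t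
  rw [heq, Finset.mem_union, Finset.mem_erase] at hq
  rcases hq with ⟨-, hq⟩ | hq
  · exact ⟨q, hq, List.prefix_rfl, le_rfl⟩
  · exact ⟨p, hp, hL.pref q hq, by rw [hlab q hq]; exact Nat.le_succ _⟩

theorem c1_proj {k : ℕ} {f : ℕ → St} (h : Chain k f) {t t' : ℕ} (htt : t ≤ t') :
    ∀ p' ∈ (f t').lv, ∃ p ∈ (f t).lv, p.1 <+: p'.1 ∧ p.2 ≤ p'.2 := by
  induction t', htt using Nat.le_induction with
  | base => intro p' hp'; exact ⟨p', hp', List.prefix_rfl, le_rfl⟩
  | succ t' _ ih =>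
    intro p' hp'
    obtain ⟨q, hq, h1, h2⟩ := c1_step h t' hp'
    obtain ⟨p, hp, h3, h4⟩ := ih q hq
    exact ⟨p, hp, h3.trans h1, h4.trans h2⟩

/-- every leaf of a later stage extends a leaf of an earlier stage -/
theorem Chain.exists_proj {k : ℕ} {f : ℕ → St} (h : Chain k f) {t t' : ℕ} (htt : t ≤ t')
    {p' : List ℕ × ℕ} (hp' : p' ∈ (f t').lv) : ∃ p ∈ (f t).lv, p.1 <+: p'.1 := by
  obtain ⟨p, hp, h1, -⟩ := c1_proj h htt p' hp'
  exact ⟨p, hp, h1⟩

theorem Chain.exists_ext {k : ℕ} {f : ℕ → St} (h : Chain k f) {t t' : ℕ} (htt : t ≤ t')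
    {p : List ℕ × ℕ} (hp : p ∈ (f t).lv) : ∃ p' ∈ (f t').lv, p.1 <+: p'.1 := by
  induction t', htt using Nat.le_induction with
  | base => exact ⟨p, hp, List.prefix_rfl⟩
  | succ t' _ ih =>
    obtain ⟨q, hq, hpq⟩ := ih
    obtain ⟨r, hr, -, L, hL, hlab, heq⟩ := h.step t'
    by_cases hqr : q = r
    · obtain ⟨q', hq'⟩ := hL.nonempty
      refine ⟨q', ?_, hpq.trans ?_⟩
      · rw [heq]; exact Finset.mem_union_right _ hq'
      · rw [hqr]; exact hL.pref q' hq'
    · refine ⟨q, ?_, hpq⟩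
      rw [heq]
      exact Finset.mem_union_left _ (Finset.mem_erase.mpr ⟨hqr, hq⟩)

theorem Chain.label_le {k : ℕ} {f : ℕ → St} (h : Chain k f) {t t' : ℕ} (htt : t ≤ t')
    {p p' : List ℕ × ℕ} (hp : p ∈ (f t).lv) (hp' : p' ∈ (f t').lv) (hpp : p.1 <+: p'.1) :
    p.2 ≤ p'.2 := by
  obtain ⟨q, hq, h1, h2⟩ := c1_proj h htt p' hp'
  rw [c1_eq h hp hq hpp h1]
  exact h2

/-- `proj` is the leaf below -/
theorem Chain.proj_eq {k : ℕ} {f : ℕ → St} (h : Chain k f) {i : ℕ} {p : List ℕ × ℕ} {xs : List ℕ}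
    (hp : p ∈ (f i).lv) (hx : p.1 <+: xs) : proj f i xs = p := by
  have hex : ∃ q ∈ (f i).lv, q.1 <+: xs := ⟨p, hp, hx⟩
  unfold proj
  rw [dif_pos hex]
  exact c1_eq h hex.choose_spec.1 hp hex.choose_spec.2 hx

theorem c1_mu_step {k : ℕ} {f : ℕ → St} (h : Chain k f) (t : ℕ)
    {A : Finset (List ℕ × ℕ)} (hA : A ⊆ (f t).lv) :
    mu k ((f (t + 1)).lv.filter (fun p' => ∃ p ∈ A, p.1 <+: p'.1)) = mu k A := by
  obtain ⟨r, hr, -, L, hL, hlab, heq⟩ := h.step t
  by_cases hrA : r ∈ A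
  · have h1 : (f (t + 1)).lv.filter (fun p' => ∃ p ∈ A, p.1 <+: p'.1) = A.erase r ∪ L := by
      ext q
      rw [Finset.mem_filter, heq, Finset.mem_union, Finset.mem_union, Finset.mem_erase,
        Finset.mem_erase]
      constructor
      · rintro ⟨⟨hne, hq⟩ | hq, p, hp, hpq⟩
        · have : p = q := (h.cut_all t).incomp p (hA hp) q hq hpq
          exact Or.inl ⟨hne, this ▸ hp⟩
        · exact Or.inr hq
      · rintro (⟨hne, hq⟩ | hq)
        · exact ⟨Or.inl ⟨hne, hA hq⟩, q, hq, List.prefix_rfl⟩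
        · exact ⟨Or.inr hq, r, hrA, hL.pref q hq⟩
    have h2 : Disjoint (A.erase r) L := by
      rw [Finset.disjoint_left]
      intro q hq hqL
      rw [Finset.mem_erase] at hq
      exact hq.1 ((h.cut_all t).incomp r hr q (hA hq.2) (hL.pref q hqL)).symm
    rw [h1, mu_union_disj k h2, hL.mu_eq]
    exact Finset.sum_erase_add A (fun p : List ℕ × ℕ => wt k p.1.length) hrA
  · have h1 : (f (t + 1)).lv.filter (fun p' => ∃ p ∈ A, p.1 <+: p'.1) = A := by
      ext q
      rw [Finset.mem_filter, heq, Finset.mem_union, Finset.mem_erase]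
      constructor
      · rintro ⟨⟨hne, hq⟩ | hq, p, hp, hpq⟩
        · have : p = q := (h.cut_all t).incomp p (hA hp) q hq hpq
          exact this ▸ hp
        · have : p = r := c1_eq h (hA hp) hr hpq (hL.pref q hq)
          exact absurd (this ▸ hp) hrA
      · intro hq
        exact ⟨Or.inl ⟨fun he => hrA (he ▸ hq), hA hq⟩, q, hq, List.prefix_rfl⟩
    rw [h1]

theorem Chain.mu_ext {k : ℕ} {f : ℕ → St} (h : Chain k f) {t t' : ℕ} (htt : t ≤ t')
    {A : Finset (List ℕ × ℕ)} (hA : A ⊆ (f t).lv) :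
    mu k ((f t').lv.filter (fun p' => ∃ p ∈ A, p.1 <+: p'.1)) = mu k A := by
  induction t', htt using Nat.le_induction with
  | base =>
    have h1 : (f t).lv.filter (fun p' => ∃ p ∈ A, p.1 <+: p'.1) = A := by
      ext q
      rw [Finset.mem_filter]
      constructor
      · rintro ⟨hq, p, hp, hpq⟩
        have : p = q := (h.cut_all t).incomp p (hA hp) q hq hpq
        exact this ▸ hp
      · intro hq
        exact ⟨hA hq, q, hq, List.prefix_rfl⟩
    rw [h1]
  | succ t' htt ih =>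
    rw [← ih, ← c1_mu_step h t' (Finset.filter_subset _ _)]
    congr 1
    ext q
    rw [Finset.mem_filter, Finset.mem_filter]
    refine and_congr_right fun hq => ?_
    constructor
    · rintro ⟨p, hp, hpq⟩
      obtain ⟨r, hr, hrq, -⟩ := c1_step h t' hq
      obtain ⟨p0, hp0, hp0r⟩ := h.exists_proj htt hr
      have : p = p0 := c1_eq h (hA hp) hp0 hpq (hp0r.trans hrq)
      exact ⟨r, Finset.mem_filter.mpr ⟨hr, p, hp, this ▸ hp0r⟩, hrq⟩
    · rintro ⟨r, hr, hrq⟩
      rw [Finset.mem_filter] at hr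
      obtain ⟨-, p, hp, hpr⟩ := hr
      exact ⟨p, hp, hpr.trans hrq⟩

theorem Chain.progress {k : ℕ} {f : ℕ → St} (h : Chain k f) (n : ℕ) :
    ∃ t, mu k ((f t).lv.filter (fun p => p.2 < n)) ≤ 1 / 4 := by
  by_contra hcon
  push Not at hcon
  have hns : ∀ t, ns k (f t) ≤ n := fun t => Nat.sInf_le (hcon t)
  set M : ℕ → Multiset ℕ := fun t => (f t).lv.val.map (fun p => n - p.2) with hM
  have hstep : ∀ t, Relation.CutExpand (· < ·) (M (t + 1)) (M t) := by
    intro t
    obtain ⟨r, hr, hrn, L, hL, hlab, heq⟩ := h.step t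
    have hdis : Disjoint ((f t).lv.erase r) L := by
      rw [Finset.disjoint_left]
      intro q hq hqL
      rw [Finset.mem_erase] at hq
      exact hq.1 ((h.cut_all t).incomp r hr q hq.2 (hL.pref q hqL)).symm
    refine ⟨L.val.map (fun p => n - p.2), n - r.2, ?_, ?_⟩
    · intro a ha
      obtain ⟨q, hq, rfl⟩ := Multiset.mem_map.mp ha
      rw [hlab q hq]
      have := hns t
      omega
    · have h1 : (f (t + 1)).lv.val = ((f t).lv.erase r).val + L.val := by
        rw [heq, ← Finset.disjUnion_eq_union _ _ hdis]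
        rfl
      have h2 : (f t).lv.val = r ::ₘ ((f t).lv.erase r).val := by
        rw [Finset.erase_val]
        exact (Multiset.cons_erase hr).symm
      simp only [hM]
      rw [h1, h2, Multiset.map_add, Multiset.map_cons, ← Multiset.singleton_add]
      rw [Finset.erase_val]
      abel
  have hwf : WellFounded (Relation.CutExpand (fun a b : ℕ => a < b)) :=
    WellFounded.cutExpand wellFounded_lt
  have hinst : IsWellFounded (Multiset ℕ) (Relation.CutExpand (fun a b : ℕ => a < b)) := ⟨hwf⟩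
  obtain ⟨t, ht⟩ := WellFounded.not_rel_apply_succ
    (r := Relation.CutExpand (fun a b : ℕ => a < b)) M
  exact ht (hstep t)

end Pool.Agent.RR
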