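import Pool.Agent.Helper55.RR.A3
import Pool.Agent.Helper55.RR.C1

/-!
# C2. The sets `PP`

* `PP_mono`: a leaf `p'` of stage `t' ≥ t` which extends `p ∈ PP W f e t` is in `PP W f e t'`: for `i ≤ t`,
  `proj f i p'.1 = proj f i p.1` (`Chain.proj_eq`, `Chain.exists_proj`), and
  `cd (join W (hist f t p)) m` for `m ≤ t + 1` uses only values `hist f t p i` with `i ≤ t`.
* `J_iff_PP`: for a leaf sequence `r`, `hist f t (r t) i = leafCode r i` for `i ≤ t`; use the definition of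
  `J`.
* `PP_congr`: `PP W f e t` depends only on the values of `W` below `t + 1` and of `f i`, `i ≤ t`.
-/

set_option autoImplicit false

namespace Pool.Agent.RR

open Classical

private theorem cd_eq_of_agree' {X Y : ℕ → ℕ} {m : ℕ} (h : ∀ i < m, X i = Y i) :
    cd X m = cd Y m := by
  induction m with
  | zero => rfl
  | succ m ih =>
    simp only [cd]
    rw [ih fun i hi => h i (hi.trans (Nat.lt_succ_self m)), h m (Nat.lt_succ_self m)]

private theorem join_agree' {X X' Y Y' : ℕ → ℕ} {t : ℕ} (hX : ∀ i < t, X i = X' i)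
    (hY : ∀ i < t, Y i = Y' i) : ∀ i < t, join X Y i = join X' Y' i := by
  intro i hi
  unfold join
  have h2 : i / 2 < t := lt_of_le_of_lt (Nat.div_le_self i 2) hi
  split_ifs
  · exact hX _ h2
  · exact hY _ h2

theorem LeafSeq.pref {f : ℕ → St} {r : ℕ → List ℕ × ℕ} (hr : LeafSeq f r) {t t' : ℕ}
    (h : t ≤ t') : (r t).1 <+: (r t').1 := by
  induction t', h using Nat.le_induction with
  | base => exact List.prefix_refl _
  | succ n _ ih => exact ih.trans (hr.2 n)

theorem LeafSeq.proj {k : ℕ} {f : ℕ → St} (h : Chain k f) {r : ℕ → List ℕ × ℕ}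
    (hr : LeafSeq f r) {t t' : ℕ} (htt : t ≤ t') : proj f t (r t').1 = r t :=
  h.proj_eq (hr.1 t) (hr.pref htt)

private theorem proj_ext' {k : ℕ} {f : ℕ → St} (h : Chain k f) {i t : ℕ} (hit : i ≤ t)
    {p : List ℕ × ℕ} (hp : p ∈ (f t).lv) {xs : List ℕ} (hx : p.1 <+: xs) :
    Pool.Agent.RR.proj f i xs = Pool.Agent.RR.proj f i p.1 := by
  obtain ⟨q, hq, hqp⟩ := h.exists_proj hit hp
  rw [h.proj_eq hq hqp, h.proj_eq hq (hqp.trans hx)]

theorem PP_mono {k : ℕ} {f : ℕ → St} (h : Chain k f) (W : ℕ → ℕ) (e : ℕ) {t t' : ℕ}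
    (htt : t ≤ t') {p p' : List ℕ × ℕ} (hp : p ∈ PP W f e t) (hp' : p' ∈ (f t').lv)
    (hpp : p.1 <+: p'.1) : p' ∈ PP W f e t' := by
  obtain ⟨hp1, m, hm, hU⟩ := Finset.mem_filter.mp hp
  refine Finset.mem_filter.mpr ⟨hp', m, by omega, ?_⟩
  have h1 : cd (join W (hist f t' p')) m = cd (join W (hist f t p)) m := by
    refine cd_eq_of_agree' fun i hi => ?_
    refine join_agree' (t := t + 1) (fun _ _ => rfl) (fun j hj => ?_) i (by omega)
    have hjt : j ≤ t := by omega
    unfold hist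
    rw [if_pos hjt, if_pos (hjt.trans htt), proj_ext' h hjt hp1 hpp]
  rw [h1]
  exact hU

private theorem J_eq_one' (X : ℕ → ℕ) (e : ℕ) :
    J X e = 1 ↔ ∃ m, U e.unpair.1 e.unpair.2 (cd X m) ≠ 0 := by
  unfold J
  split_ifs with h
  · simp [h]
  · simp [h]

theorem J_iff_PP {k : ℕ} {f : ℕ → St} (h : Chain k f) (W : ℕ → ℕ) {r : ℕ → List ℕ × ℕ}
    (hr : LeafSeq f r) (e : ℕ) : J (join W (leafCode r)) e = 1 ↔ ∃ t, r t ∈ PP W f e t := by
  have key : ∀ t m, m ≤ t + 1 →
      cd (join W (hist f t (r t))) m = cd (join W (leafCode r)) m := by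
    intro t m hm
    refine cd_eq_of_agree' fun i hi => ?_
    refine join_agree' (t := t + 1) (fun _ _ => rfl) (fun j hj => ?_) i (by omega)
    have hjt : j ≤ t := by omega
    unfold hist leafCode
    rw [if_pos hjt, LeafSeq.proj h hr hjt]
  rw [J_eq_one']
  constructor
  · rintro ⟨m, hm⟩
    refine ⟨m, Finset.mem_filter.mpr ⟨hr.1 m, m, Nat.le_succ m, ?_⟩⟩
    rw [key m m (Nat.le_succ m)]
    exact hm
  · rintro ⟨t, ht⟩
    obtain ⟨-, m, hm, hU⟩ := Finset.mem_filter.mp ht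
    exact ⟨m, by rwa [key t m hm] at hU⟩

theorem PP_congr {W W' : ℕ → ℕ} {f f' : ℕ → St} {e t : ℕ} (hW : ∀ i < t + 1, W i = W' i)
    (hf : ∀ i ≤ t, f i = f' i) : PP W f e t = PP W' f' e t := by
  unfold PP
  rw [hf t le_rfl]
  refine Finset.filter_congr fun p _ => ?_
  have key : ∀ m ≤ t + 1, cd (join W (hist f t p)) m = cd (join W' (hist f' t p)) m := by
    intro m hm
    refine cd_eq_of_agree' fun i hi => ?_
    refine join_agree' (t := t + 1) hW (fun j hj => ?_) i (by omega)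
    have hjt : j ≤ t := by omega
    unfold hist
    rw [if_pos hjt, if_pos hjt]
    have : Pool.Agent.RR.proj f j p.1 = Pool.Agent.RR.proj f' j p.1 := by
      unfold Pool.Agent.RR.proj
      rw [hf j hjt]
    rw [this]
  constructor
  · rintro ⟨m, hm, hU⟩
    exact ⟨m, hm, by rwa [key m hm] at hU⟩
  · rintro ⟨m, hm, hU⟩
    exact ⟨m, hm, by rwa [key m hm]⟩

/-- a bounded sequence of rationals is almost constant from some point on -/
private theorem exists_stable (a : ℕ → ℚ) (h0 : 0 ≤ a 0) (ha1 : ∀ n, a n ≤ 1) {ε : ℚ}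
    (hε : 0 < ε) : ∃ t, ∀ t', t ≤ t' → a t' ≤ a t + ε := by
  by_contra hno
  push Not at hno
  choose s hs1 hs2 using hno
  have key : ∀ n : ℕ, ∃ t, (n : ℚ) * ε ≤ a t := by
    intro n
    induction n with
    | zero => exact ⟨0, by simpa using h0⟩
    | succ n ih =>
      obtain ⟨t, ht⟩ := ih
      refine ⟨s t, ?_⟩
      have := hs2 t
      push_cast
      linarith
  obtain ⟨n, hn⟩ := exists_nat_gt (1 / ε)
  obtain ⟨t, ht⟩ := key n
  have h1 := ha1 t
  rw [div_lt_iff₀ hε] at hn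
  linarith

private theorem mu_le_one' {k : ℕ} {f : ℕ → St} (h : Chain k f) (t : ℕ)
    {A : Finset (List ℕ × ℕ)} (hA : A ⊆ (f t).lv) : mu k A ≤ 1 := by
  refine (mu_mono k hA).trans ?_
  rw [(h.cut_all t).mu_eq, List.length_nil, wt_zero]

/-- the stages `tE`, `tO` have the defining property (bounded increasing sequences) -/
theorem tE_spec {k : ℕ} {f : ℕ → St} (h : Chain k f) (W : ℕ → ℕ) (e : ℕ) :
    ∀ t', tE k W f e ≤ t' → mu k (PP W f e t') ≤ mu k (PP W f e (tE k W f e)) + 1 / 2 ^ (e + 5) := by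
  have hne : {t | ∀ t', t ≤ t' →
      mu k (PP W f e t') ≤ mu k (PP W f e t) + 1 / 2 ^ (e + 5)}.Nonempty :=
    exists_stable (fun t => mu k (PP W f e t)) (mu_nonneg _ _)
      (fun t => mu_le_one' h t (Finset.filter_subset _ _)) (by positivity)
  exact Nat.sInf_mem hne

theorem tO_spec {k : ℕ} {f : ℕ → St} (h : Chain k f) (n : ℕ) :
    ∀ t', tO k f n ≤ t' → mu k (OO f n t') ≤ mu k (OO f n (tO k f n)) + 1 / 2 ^ (n + 5) := by
  have hne : {t | ∀ t', t ≤ t' →
      mu k (OO f n t') ≤ mu k (OO f n t) + 1 / 2 ^ (n + 5)}.Nonempty :=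
    exists_stable (fun t => mu k (OO f n t)) (mu_nonneg _ _)
      (fun t => mu_le_one' h t (Finset.filter_subset _ _)) (by positivity)
  exact Nat.sInf_mem hne

end Pool.Agent.RR
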