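import Pool.Agent.Helper55.RR.C2

/-!
# C3. `tE` and `tO` are below `J W`

`Y = join W (runCode f) ≤ W`, `Y ≥ W`.  Open sets: for `i = ⟨e, t⟩`,
`O i = {Y | ∃ t' ≥ t, mu (PP W f e t') > mu (PP W f e t) + 1/2^(e+5)}` where `W = lft Y` and `f j` is the state
with code `rgt Y j` (default `St.init` if it is not a code); open because `PP … t'` depends on finitely
many values (`PP_congr`).  By `sig`, `B : i ↦ [Y ∈ O i] ≤ J Y ≤ J W` (`J_mono`); `tE e` is the least `t` with
`B ⟨e, t⟩ = 0` (`sInf`, nonempty by `tE_spec`/boundedness), so `tE ≤ B` by search: `cont` applied to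
`join B (J W)`.  Same for `tO`.
-/

set_option autoImplicit false

namespace Pool.Agent.RR

open Classical

/-- the states coded in the right half -/
private noncomputable def c3f (Y : ℕ → ℕ) : ℕ → St := fun j =>
  (Encodable.decode (rgt Y j) : Option St).getD St.init

private theorem c3f_join (W : ℕ → ℕ) (f : ℕ → St) : c3f (join W (runCode f)) = f := by
  funext j
  unfold c3f
  rw [rgt_join]
  unfold runCode
  rw [Encodable.encodek]
  rfl

private theorem c3f_congr {Y Y' : ℕ → ℕ} {t : ℕ} (h : ∀ i < 2 * t + 2, Y' i = Y i) :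
    ∀ i ≤ t, c3f Y' i = c3f Y i := by
  intro i hi
  unfold c3f rgt
  rw [h (2 * i + 1) (by omega)]

private theorem c3l_congr {Y Y' : ℕ → ℕ} {t : ℕ} (h : ∀ i < 2 * t + 2, Y' i = Y i) :
    ∀ i < t + 1, lft Y' i = lft Y i := by
  intro i hi
  unfold lft
  rw [h (2 * i) (by omega)]

/-- a least witness is found by search -/
private theorem c3_least {A : ℕ → ℕ → Prop} {g Z : ℕ → ℕ}
    (hB : Red (fun i => if A i.unpair.1 i.unpair.2 then 1 else 0) Z)
    (h : ∀ e, ¬ A e (g e) ∧ ∀ t < g e, A e t) : Red g Z := by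
  have hp : Primrec (fun k : ℕ => if k.unpair.2 = 0 then k.unpair.1.unpair.2 + 1 else 0) :=
    Primrec.ite (Primrec.eq.comp (Primrec.snd.comp Primrec.unpair) (Primrec.const 0))
      (Primrec.succ.comp (Primrec.snd.comp (Primrec.unpair.comp (Primrec.fst.comp Primrec.unpair))))
      (Primrec.const 0)
  have h1 : Red (fun i => (fun k : ℕ => if k.unpair.2 = 0 then k.unpair.1.unpair.2 + 1 else 0)
      (Nat.pair (id i) (if A i.unpair.1 i.unpair.2 then 1 else 0))) Z :=
    red_comp (red_of_primrec hp Z) (red_pair (red_of_primrec Primrec.id Z) hB)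
  refine red_search h1 ?_
  intro e
  refine ⟨g e, ?_, ?_⟩
  · simp only [id, Nat.unpair_pair]
    rw [if_neg (h e).1, if_pos rfl]
  · intro m hm
    simp only [id, Nat.unpair_pair]
    rw [if_pos ((h e).2 m hm), if_neg one_ne_zero]

/-- the general form: `mu` of a set determined by finitely many values -/
private theorem c3_red (k : ℕ) (R : (ℕ → ℕ) → (ℕ → St) → ℕ → ℕ → Finset (List ℕ × ℕ))
    (hR : ∀ W W' f f' e t, (∀ i < t + 1, W i = W' i) → (∀ i ≤ t, f i = f' i) →
      R W f e t = R W' f' e t) (g : (ℕ → ℕ) → (ℕ → St) → ℕ → ℕ)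
    (hg : ∀ W f, Chain k f → ∀ e, (∀ t', g W f e ≤ t' →
      mu k (R W f e t') ≤ mu k (R W f e (g W f e)) + 1 / 2 ^ (e + 5)) ∧
      ∀ t < g W f e, ∃ t', t ≤ t' ∧ mu k (R W f e t) + 1 / 2 ^ (e + 5) < mu k (R W f e t')) :
    Cone fun W => ∀ f : ℕ → St, Chain k f → Red (runCode f) W → Red (g W f) (J W) := by
  let O : ℕ → Set (ℕ → ℕ) := fun i => {Y | ∃ t', i.unpair.2 ≤ t' ∧
    mu k (R (lft Y) (c3f Y) i.unpair.1 i.unpair.2) + 1 / 2 ^ (i.unpair.1 + 5) <
      mu k (R (lft Y) (c3f Y) i.unpair.1 t')}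
  have hO : ∀ i, IsOpen (O i) := by
    intro i
    rw [isOpen_iff_agree]
    rintro Y ⟨t', h1, h2⟩
    refine ⟨2 * t' + 2, fun Y' hY' => ⟨t', h1, ?_⟩⟩
    have e1 : R (lft Y') (c3f Y') i.unpair.1 t' = R (lft Y) (c3f Y) i.unpair.1 t' :=
      hR _ _ _ _ _ _ (c3l_congr hY') (c3f_congr hY')
    have e2 : R (lft Y') (c3f Y') i.unpair.1 i.unpair.2 = R (lft Y) (c3f Y) i.unpair.1 i.unpair.2 :=
      hR _ _ _ _ _ _ (fun j hj => c3l_congr hY' j (by omega))
        (fun j hj => c3f_congr hY' j (by omega))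
    rw [e1, e2]
    exact h2
  obtain ⟨F1, hF1⟩ := sig O hO
  obtain ⟨F2, hF2⟩ := J_mono
  refine ⟨join F1 F2, fun W hW f hf hrun => ?_⟩
  have hW1 : Red F1 W := (red_join_left F1 F2).trans hW
  have hW2 : Red F2 W := (red_join_right F1 F2).trans hW
  have hY : Red (join W (runCode f)) W := join_red (Red.refl W) hrun
  have hB := (hF1 (join W (runCode f)) (hW1.trans (red_join_left _ _))).trans
    (hF2 W hW2 _ hY)
  refine c3_least (A := fun e t => ∃ t', t ≤ t' ∧
    mu k (R W f e t) + 1 / 2 ^ (e + 5) < mu k (R W f e t')) ?_ ?_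
  · have e3 : (fun n => if join W (runCode f) ∈ O n then 1 else 0) = fun i : ℕ =>
        if (∃ t', i.unpair.2 ≤ t' ∧ mu k (R W f i.unpair.1 i.unpair.2) + 1 / 2 ^ (i.unpair.1 + 5) <
          mu k (R W f i.unpair.1 t')) then 1 else 0 := by
      funext i
      simp only [O, Set.mem_ofPred_eq, lft_join, c3f_join]
    rw [e3] at hB
    exact hB
  · intro e
    obtain ⟨h1, h2⟩ := hg W f hf e
    refine ⟨?_, h2⟩
    rintro ⟨t', h3, h4⟩
    exact absurd h4 (not_lt.2 (h1 t' h3))

theorem tE_red (k : ℕ) : Cone fun W => ∀ f : ℕ → St, Chain k f → Red (runCode f) W →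
    Red (tE k W f) (J W) := by
  refine c3_red k PP (fun W W' f f' e t h1 h2 => PP_congr h1 h2) (tE k) ?_
  intro W f hf e
  refine ⟨tE_spec hf W e, ?_⟩
  intro t ht
  have h := Nat.notMem_of_lt_sInf ht
  simp only [Set.mem_ofPred_eq] at h
  push Not at h
  exact h

theorem tO_red (k : ℕ) : Cone fun W => ∀ f : ℕ → St, Chain k f → Red (runCode f) W →
    Red (tO k f) (J W) := by
  refine c3_red k (fun _ f e t => OO f e t) ?_ (fun _ => tO k) ?_
  · intro W W' f f' e t _ h2
    unfold OO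
    rw [h2 t le_rfl]
  · intro W f hf e
    refine ⟨tO_spec hf e, ?_⟩
    intro t ht
    have h := Nat.notMem_of_lt_sInf ht
    simp only [Set.mem_ofPred_eq] at h
    push Not at h
    exact h

end Pool.Agent.RR
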