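import Pool.Agent.Helper55.RR.C2

/-!
# C4. There is a good leaf sequence

For `N : ℕ` let `Q_N` be the set of leaf sequences `r` such that for all `e < N` with `tE e ≤ N` and all
`t ≤ N`: `r t ∈ PP e t → r (tE e) ∈ PP e (tE e)`, and for all `n < N` with `tO n ≤ N`: `n ≤ (r (tO n)).2`.
`Q_N` is closed in the compact set `{r | ∀ t, r t ∈ (f t).lv}`, decreasing in `N`; so it is enough that
`Q_N` is nonempty.  Fix `N`, and `T ≥ N` with `mu {p ∈ (f T).lv | p.2 < N} ≤ 1/4` (`Chain.progress`; by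
`Chain.label_le` and `Chain.mu_ext` this measure is nonincreasing in `T`).  Bad leaves `p` of stage `T`:
* `e < N`, `tE e ≤ N`: `p ∈ PP e T` but `proj f (tE e) p.1 ∉ PP e (tE e)`: measure
  `mu (PP e T) - mu (PP e (tE e)) ≤ 2^{-e-5}` (`PP_mono`, `Chain.mu_ext`, `tE_spec`);
* `n < N`, `tO n ≤ N`: `(proj f (tO n) p.1).2 < n`: either `p.2 < n ≤ N` (all these together: `≤ 1/4`) or
  `p ∈ OO n T` and `proj f (tO n) p.1 ∉ OO n (tO n)`: `≤ 2^{-n-5}` (`tO_spec`).
Total `≤ 1/4 + 1/16 + 1/16 < 1 = mu (f T).lv`.  So there is a leaf `p` of stage `T` which is not bad; let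
`r t = proj f t p.1` for `t ≤ T` and extend by `Chain.exists_ext`.
(If `r t ∈ PP e t` for some `t ≤ N` then `r T ∈ PP e T` by `PP_mono`.)
-/

set_option autoImplicit false

namespace Pool.Agent.RR

open Classical

private theorem proj_spec' {k : ℕ} {f : ℕ → St} (h : Chain k f) {i j : ℕ} (hij : i ≤ j)
    {q : List ℕ × ℕ} (hq : q ∈ (f j).lv) :
    proj f i q.1 ∈ (f i).lv ∧ (proj f i q.1).1 <+: q.1 := by
  obtain ⟨p, hp, hpq⟩ := h.exists_proj hij hq
  rw [h.proj_eq hp hpq]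
  exact ⟨hp, hpq⟩

private theorem proj_proj' {k : ℕ} {f : ℕ → St} (h : Chain k f) {i j l : ℕ} (hij : i ≤ j)
    (hjl : j ≤ l) {q : List ℕ × ℕ} (hq : q ∈ (f l).lv) :
    proj f i (proj f j q.1).1 = proj f i q.1 := by
  obtain ⟨h1, h2⟩ := proj_spec' h hjl hq
  obtain ⟨h3, h4⟩ := proj_spec' h hij h1
  exact (h.proj_eq h3 (h4.trans h2)).symm

private theorem mu_biUnion_le' (k : ℕ) (B : ℕ → Finset (List ℕ × ℕ)) (N : ℕ)
    (hB : ∀ e < N, mu k (B e) ≤ 1 / 2 ^ (e + 5)) :
    mu k ((Finset.range N).biUnion B) ≤ 1 / 16 - 1 / 2 ^ (N + 4) := by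
  induction N with
  | zero =>
    simp [mu]
    norm_num
  | succ N ih =>
    have h1 := ih fun e he => hB e (he.trans (Nat.lt_succ_self N))
    have h2 := hB N (Nat.lt_succ_self N)
    have h3 : (Finset.range (N + 1)).biUnion B = (Finset.range N).biUnion B ∪ B N := by
      rw [Finset.range_add_one, Finset.biUnion_insert, Finset.union_comm]
    rw [h3]
    refine (mu_union_le k _ _).trans ?_
    have h4 : (1 : ℚ) / 2 ^ (N + 4) = 1 / 2 ^ (N + 5) + 1 / 2 ^ (N + 5) := by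
      rw [pow_succ 2 (N + 4)]
      field_simp
      norm_num
    have h5 : N + 1 + 4 = N + 5 := by omega
    rw [h5]
    linarith

/-- the condition on a leaf of stage `N` -/
private def CN (k : ℕ) (W : ℕ → ℕ) (f : ℕ → St) (N : ℕ) (q : List ℕ × ℕ) : Prop :=
  (∀ e < N, tE k W f e ≤ N → ∀ t ≤ N, proj f t q.1 ∈ PP W f e t →
    proj f (tE k W f e) q.1 ∈ PP W f e (tE k W f e)) ∧
  ∀ n < N, tO k f n ≤ N → n ≤ (proj f (tO k f n) q.1).2

private theorem CN_mono {k : ℕ} {W : ℕ → ℕ} {f : ℕ → St} (h : Chain k f) {i j : ℕ} (hij : i ≤ j)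
    {q : List ℕ × ℕ} (hq : q ∈ (f j).lv) (hc : CN k W f j q) : CN k W f i (proj f i q.1) := by
  constructor
  · intro e he hte t ht hP
    rw [proj_proj' h ht hij hq] at hP
    rw [proj_proj' h hte hij hq]
    exact hc.1 e (he.trans_le hij) (hte.trans hij) t (ht.trans hij) hP
  · intro n hn htn
    rw [proj_proj' h htn hij hq]
    exact hc.2 n (hn.trans_le hij) (htn.trans hij)

/-- leaves of stage `T` in `A'` which do not extend a leaf in `A` -/
private theorem mu_new {k : ℕ} {f : ℕ → St} (h : Chain k f) {t T : ℕ} (htT : t ≤ T)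
    {A A' : Finset (List ℕ × ℕ)} (hA : A ⊆ (f t).lv)
    (hAA : (f T).lv.filter (fun p' => ∃ p ∈ A, p.1 <+: p'.1) ⊆ A') {ε : ℚ}
    (hε : mu k A' ≤ mu k A + ε) :
    mu k (A' \ (f T).lv.filter (fun p' => ∃ p ∈ A, p.1 <+: p'.1)) ≤ ε := by
  have h1 := h.mu_ext htT hA
  have h2 : mu k A' = mu k (A' \ (f T).lv.filter (fun p' => ∃ p ∈ A, p.1 <+: p'.1)) +
      mu k ((f T).lv.filter (fun p' => ∃ p ∈ A, p.1 <+: p'.1)) := by
    rw [← mu_union_disj k Finset.sdiff_disjoint, Finset.sdiff_union_of_subset hAA]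
  linarith

private theorem exists_CN {k : ℕ} {f : ℕ → St} (h : Chain k f) (W : ℕ → ℕ) (N : ℕ) :
    ∃ q ∈ (f N).lv, CN k W f N q := by
  obtain ⟨T0, hT0⟩ := h.progress N
  let T := max N T0
  have hNT : N ≤ T := le_max_left _ _
  have hT0T : T0 ≤ T := le_max_right _ _
  -- small labels
  have hB3 : mu k ((f T).lv.filter (fun p => p.2 < N)) ≤ 1 / 4 := by
    refine le_trans ?_ hT0
    rw [← h.mu_ext hT0T (Finset.filter_subset (fun p => p.2 < N) (f T0).lv)]
    refine mu_mono k ?_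
    intro p hp
    obtain ⟨hp1, hp2⟩ := Finset.mem_filter.mp hp
    obtain ⟨h1, h2⟩ := proj_spec' h hT0T hp1
    have h3 := h.label_le hT0T h1 hp1 h2
    exact Finset.mem_filter.mpr ⟨hp1, proj f T0 p.1,
      Finset.mem_filter.mpr ⟨h1, h3.trans_lt hp2⟩, h2⟩
  let B1 : ℕ → Finset (List ℕ × ℕ) := fun e =>
    if tE k W f e ≤ N then PP W f e T \ (f T).lv.filter
      (fun p' => ∃ p ∈ PP W f e (tE k W f e), p.1 <+: p'.1) else ∅
  let B2 : ℕ → Finset (List ℕ × ℕ) := fun n =>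
    if tO k f n ≤ N then OO f n T \ (f T).lv.filter
      (fun p' => ∃ p ∈ OO f n (tO k f n), p.1 <+: p'.1) else ∅
  have hB1 : ∀ e < N, mu k (B1 e) ≤ 1 / 2 ^ (e + 5) := by
    intro e _
    by_cases hte : tE k W f e ≤ N
    · have e1 : B1 e = PP W f e T \ (f T).lv.filter
          (fun p' => ∃ p ∈ PP W f e (tE k W f e), p.1 <+: p'.1) := if_pos hte
      rw [e1]
      refine mu_new h (hte.trans hNT) (Finset.filter_subset _ _) ?_ (tE_spec h W e T (hte.trans hNT))
      intro p hp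
      obtain ⟨hp1, q, hq, hqp⟩ := Finset.mem_filter.mp hp
      exact PP_mono h W e (hte.trans hNT) hq hp1 hqp
    · have e1 : B1 e = ∅ := if_neg hte
      rw [e1]
      simp only [mu, Finset.sum_empty]
      positivity
  have hB2 : ∀ n < N, mu k (B2 n) ≤ 1 / 2 ^ (n + 5) := by
    intro n _
    by_cases htn : tO k f n ≤ N
    · have e1 : B2 n = OO f n T \ (f T).lv.filter
          (fun p' => ∃ p ∈ OO f n (tO k f n), p.1 <+: p'.1) := if_pos htn
      rw [e1]
      refine mu_new h (htn.trans hNT) (Finset.filter_subset _ _) ?_ (tO_spec h n T (htn.trans hNT))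
      intro p hp
      obtain ⟨hp1, q, hq, hqp⟩ := Finset.mem_filter.mp hp
      obtain ⟨hq1, hq2⟩ := Finset.mem_filter.mp hq
      exact Finset.mem_filter.mpr ⟨hp1, hq2.trans (h.label_le (htn.trans hNT) hq1 hp1 hqp)⟩
    · have e1 : B2 n = ∅ := if_neg htn
      rw [e1]
      simp only [mu, Finset.sum_empty]
      positivity
  -- a leaf which is not bad
  obtain ⟨p, hpT, hpB⟩ : ∃ p ∈ (f T).lv, p ∉ (f T).lv.filter (fun p => p.2 < N) ∪
      ((Finset.range N).biUnion B1 ∪ (Finset.range N).biUnion B2) := by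
    by_contra hno
    push Not at hno
    have hsub : (f T).lv ⊆ (f T).lv.filter (fun p => p.2 < N) ∪
      ((Finset.range N).biUnion B1 ∪ (Finset.range N).biUnion B2) := hno
    have h1 := mu_mono k hsub
    have h2 := mu_union_le k ((f T).lv.filter (fun p => p.2 < N))
      ((Finset.range N).biUnion B1 ∪ (Finset.range N).biUnion B2)
    have h3 := mu_union_le k ((Finset.range N).biUnion B1) ((Finset.range N).biUnion B2)
    have h4 := mu_biUnion_le' k B1 N hB1
    have h5 := mu_biUnion_le' k B2 N hB2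
    have h6 := (h.cut_all T).mu_eq
    rw [List.length_nil, wt_zero] at h6
    have h7 : (0 : ℚ) < 1 / 2 ^ (N + 4) := by positivity
    linarith
  rw [Finset.notMem_union, Finset.notMem_union] at hpB
  obtain ⟨hb3, hb1, hb2⟩ := hpB
  have hp2 : N ≤ p.2 := by
    by_contra hlt
    exact hb3 (Finset.mem_filter.mpr ⟨hpT, not_le.mp hlt⟩)
  obtain ⟨hq1, hq2⟩ := proj_spec' h hNT hpT
  refine ⟨proj f N p.1, hq1, ?_, ?_⟩
  · intro e he hte t ht hP
    rw [proj_proj' h ht hNT hpT] at hP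
    rw [proj_proj' h hte hNT hpT]
    have hPT : p ∈ PP W f e T :=
      PP_mono h W e (ht.trans hNT) hP hpT (proj_spec' h (ht.trans hNT) hpT).2
    have hnb : p ∉ B1 e := fun hb => hb1 (Finset.mem_biUnion.mpr ⟨e, Finset.mem_range.mpr he, hb⟩)
    have e1 : B1 e = PP W f e T \ (f T).lv.filter
          (fun p' => ∃ p ∈ PP W f e (tE k W f e), p.1 <+: p'.1) := if_pos hte
    rw [e1, Finset.mem_sdiff] at hnb
    push Not at hnb
    obtain ⟨-, q, hq, hqp⟩ := Finset.mem_filter.mp (hnb hPT)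
    rw [h.proj_eq (Finset.mem_filter.mp hq).1 hqp]
    exact hq
  · intro n hn htn
    rw [proj_proj' h htn hNT hpT]
    have hPT : p ∈ OO f n T := Finset.mem_filter.mpr ⟨hpT, hn.le.trans hp2⟩
    have hnb : p ∉ B2 n := fun hb => hb2 (Finset.mem_biUnion.mpr ⟨n, Finset.mem_range.mpr hn, hb⟩)
    have e1 : B2 n = OO f n T \ (f T).lv.filter
          (fun p' => ∃ p ∈ OO f n (tO k f n), p.1 <+: p'.1) := if_pos htn
    rw [e1, Finset.mem_sdiff] at hnb
    push Not at hnb
    obtain ⟨-, q, hq, hqp⟩ := Finset.mem_filter.mp (hnb hPT)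
    rw [h.proj_eq (Finset.mem_filter.mp hq).1 hqp]
    exact (Finset.mem_filter.mp hq).2

theorem exists_leafSeq {k : ℕ} {f : ℕ → St} (h : Chain k f) (W : ℕ → ℕ) :
    ∃ r : ℕ → List ℕ × ℕ, LeafSeq f r ∧
      (∀ e t, r t ∈ PP W f e t → r (tE k W f e) ∈ PP W f e (tE k W f e)) ∧
      ∀ n, n ≤ (r (tO k f n)).2 := by
  let α : ℕ → Type := fun N => {q : List ℕ × ℕ // q ∈ (f N).lv ∧ CN k W f N q}
  have hfin : ∀ N, Finite (α N) := fun N =>
    Finite.of_injective (fun q : α N => (⟨q.1, q.2.1⟩ : (f N).lv)) (by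
      intro a b hab
      exact Subtype.ext (congrArg (fun x : (f N).lv => x.1) hab))
  have hne : ∀ N, Nonempty (α N) := fun N => by
    obtain ⟨q, h1, h2⟩ := exists_CN h W N
    exact ⟨⟨q, h1, h2⟩⟩
  obtain ⟨s, hs⟩ := exists_seq_forall_proj_of_forall_finite (α := α)
    (fun {i j} hij q => ⟨proj f i q.1.1, (proj_spec' h hij q.2.1).1, CN_mono h hij q.2.1 q.2.2⟩)
    (fun i a => Subtype.ext (h.proj_eq a.2.1 (List.prefix_refl _)))
    (fun i j l hij hjl a => Subtype.ext (proj_proj' h hij hjl a.2.1))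
    (fun i a => Set.toFinite _)
  have hproj : ∀ i j, i ≤ j → proj f i (s j).1.1 = (s i).1 := fun i j hij =>
    congrArg Subtype.val (hs hij)
  refine ⟨fun t => (s t).1, ⟨fun t => (s t).2.1, fun t => ?_⟩, ?_, ?_⟩
  · have h1 := (proj_spec' h (Nat.le_succ t) (s (t + 1)).2.1).2
    rw [hproj t (t + 1) (Nat.le_succ t)] at h1
    exact h1
  · intro e t hP
    let N := max (e + 1) (max (tE k W f e) t)
    have h1 : e < N := lt_of_lt_of_le (Nat.lt_succ_self e) (le_max_left _ _)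
    have h2 : tE k W f e ≤ N := (le_max_left _ _).trans (le_max_right _ _)
    have h3 : t ≤ N := (le_max_right _ _).trans (le_max_right _ _)
    have h4 := (s N).2.2.1 e h1 h2 t h3
    rw [hproj _ _ h2, hproj _ _ h3] at h4
    exact h4 hP
  · intro n
    let N := max (n + 1) (tO k f n)
    have h1 : n < N := lt_of_lt_of_le (Nat.lt_succ_self n) (le_max_left _ _)
    have h2 : tO k f n ≤ N := le_max_right _ _
    have h4 := (s N).2.2.2 n h1 h2
    rw [hproj _ _ h2] at h4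
    exact h4

end Pool.Agent.RR
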