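import Pool.Agent.Helper55.RR.A4
import Pool.Agent.Helper55.RR.C3
import Pool.Agent.Helper55.RR.C4

/-!
# C5. The random leaf sequence

Let `X = join V (join (join W (runCode f)) (join (tE k W f) (tO k f))) ≤ V` (`tE_red`, `tO_red`,
`J W ≤ V`).  Closed set `P`: `(X, φ) ∈ P` iff (decoding `W, f, tE, tO` from `X`; `f j` = state with code
`runCode f j`) `φ` codes a leaf sequence `r` of `f` such that for all `e t`:
`r t ∈ PP W f e t → r (tE e) ∈ PP W f e (tE e)`, and for all `n`: `n ≤ (r (tO n)).2`.  Bound: the maximum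
`b t` of the codes of the elements of `(f t).lv` (`≤ X` by `cont`).  Nonempty: `exists_leafSeq`.
`low_basis` at `X`: `J (join X φ) ≤ J X ≤ J V`; `join V φ ≤ join X φ`, so `J (join V φ) ≤ J V` (`J_mono`).
`J (join W φ) e = 1 ↔ r (tE e) ∈ PP W f e (tE e)` (`J_iff_PP`): a continuous operator of
`join φ (join (join W (runCode f)) (tE k W f)) ≤ join φ (J W)`; use `cont`.
-/

set_option autoImplicit false

namespace Pool.Agent.RR

open Classical

namespace C5

/-- states coded by a function -/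
noncomputable def st (F : ℕ → ℕ) : ℕ → St := fun t =>
  ((Encodable.decode (F t) : Option St)).getD St.init

/-- leaves coded by a function -/
noncomputable def lf (φ : ℕ → ℕ) : ℕ → List ℕ × ℕ := fun t =>
  ((Encodable.decode (φ t) : Option (List ℕ × ℕ))).getD ([], 0)

theorem st_runCode (f : ℕ → St) : st (runCode f) = f := by
  funext t
  unfold st runCode
  rw [Encodable.encodek]
  rfl

theorem lf_encode {φ : ℕ → ℕ} {t : ℕ} {p : List ℕ × ℕ} (h : φ t = Encodable.encode p) :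
    lf φ t = p := by
  unfold lf
  rw [h, Encodable.encodek]
  rfl

/-- decoding of the oracle -/
def dW (X : ℕ → ℕ) : ℕ → ℕ := lft (lft (rgt X))
/-- decoding of the oracle -/
def dF (X : ℕ → ℕ) : ℕ → ℕ := rgt (lft (rgt X))
/-- decoding of the oracle -/
def dE (X : ℕ → ℕ) : ℕ → ℕ := lft (rgt (rgt X))
/-- decoding of the oracle -/
def dO (X : ℕ → ℕ) : ℕ → ℕ := rgt (rgt (rgt X))

theorem agree_dW {X X' : ℕ → ℕ} {N : ℕ} (h : ∀ i < 8 * N + 8, X' i = X i) {i : ℕ} (hi : i < N) :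
    dW X' i = dW X i := by
  unfold dW lft rgt
  exact h _ (by omega)

theorem agree_dF {X X' : ℕ → ℕ} {N : ℕ} (h : ∀ i < 8 * N + 8, X' i = X i) {i : ℕ} (hi : i < N) :
    dF X' i = dF X i := by
  unfold dF lft rgt
  exact h _ (by omega)

theorem agree_dE {X X' : ℕ → ℕ} {N : ℕ} (h : ∀ i < 8 * N + 8, X' i = X i) {i : ℕ} (hi : i < N) :
    dE X' i = dE X i := by
  unfold dE lft rgt
  exact h _ (by omega)

theorem agree_dO {X X' : ℕ → ℕ} {N : ℕ} (h : ∀ i < 8 * N + 8, X' i = X i) {i : ℕ} (hi : i < N) :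
    dO X' i = dO X i := by
  unfold dO rgt
  exact h _ (by omega)

theorem st_congr {F F' : ℕ → ℕ} {i : ℕ} (h : F' i = F i) : st F' i = st F i := by
  unfold st
  rw [h]

theorem lf_congr {F F' : ℕ → ℕ} {i : ℕ} (h : F' i = F i) : lf F' i = lf F i := by
  unfold lf
  rw [h]

theorem isClosed_of_local (Q : (ℕ → ℕ) × (ℕ → ℕ) → Prop)
    (h : ∀ z, ∃ N, ∀ z' : (ℕ → ℕ) × (ℕ → ℕ), (∀ i < 8 * N + 8, z'.1 i = z.1 i) →
      (∀ i < N, z'.2 i = z.2 i) → Q z' → Q z) : IsClosed {z | Q z} := by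
  rw [← isOpen_compl_iff, isOpen_iff_mem_nhds]
  intro z hz
  obtain ⟨N, hN⟩ := h z
  have h1 : ∀ i : ℕ, {z' : (ℕ → ℕ) × (ℕ → ℕ) | z'.1 i = z.1 i} ∈ nhds z := by
    intro i
    have hc : Continuous (fun z' : (ℕ → ℕ) × (ℕ → ℕ) => z'.1 i) :=
      (continuous_apply i).comp continuous_fst
    exact (isOpen_discrete ({z.1 i} : Set ℕ)).preimage hc |>.mem_nhds rfl
  have h2 : ∀ i : ℕ, {z' : (ℕ → ℕ) × (ℕ → ℕ) | z'.2 i = z.2 i} ∈ nhds z := by
    intro i
    have hc : Continuous (fun z' : (ℕ → ℕ) × (ℕ → ℕ) => z'.2 i) :=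
      (continuous_apply i).comp continuous_snd
    exact (isOpen_discrete ({z.2 i} : Set ℕ)).preimage hc |>.mem_nhds rfl
  have h3 : (⋂ i ∈ Set.Iio (8 * N + 8), {z' : (ℕ → ℕ) × (ℕ → ℕ) | z'.1 i = z.1 i}) ∈ nhds z :=
    (Filter.biInter_mem (Set.finite_Iio _)).2 fun i _ => h1 i
  have h4 : (⋂ i ∈ Set.Iio N, {z' : (ℕ → ℕ) × (ℕ → ℕ) | z'.2 i = z.2 i}) ∈ nhds z :=
    (Filter.biInter_mem (Set.finite_Iio _)).2 fun i _ => h2 i
  filter_upwards [h3, h4] with z' hz3 hz4 hQ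
  apply hz
  refine hN z' ?_ ?_ hQ
  · intro i hi
    exact Set.mem_iInter₂.1 hz3 i hi
  · intro i hi
    exact Set.mem_iInter₂.1 hz4 i hi

/-- the closed set of good leaf sequences -/
def P : Set ((ℕ → ℕ) × (ℕ → ℕ)) :=
  {z | (∀ t, ∃ p ∈ (st (dF z.1) t).lv, z.2 t = Encodable.encode p) ∧
    (∀ t, (lf z.2 t).1 <+: (lf z.2 (t + 1)).1) ∧
    (∀ e t, lf z.2 t ∈ PP (dW z.1) (st (dF z.1)) e t →
      lf z.2 (dE z.1 e) ∈ PP (dW z.1) (st (dF z.1)) e (dE z.1 e)) ∧
    ∀ n, n ≤ (lf z.2 (dO z.1 n)).2}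

theorem pp_agree {X X' : ℕ → ℕ} {N : ℕ} (h : ∀ i < 8 * N + 8, X' i = X i) {e t : ℕ}
    (ht : t + 1 ≤ N) : PP (dW X') (st (dF X')) e t = PP (dW X) (st (dF X)) e t := by
  apply PP_congr
  · intro i hi
    exact agree_dW h (by omega)
  · intro i hi
    exact st_congr (agree_dF h (by omega))

theorem isClosed_P : IsClosed P := by
  have h1 : ∀ t, IsClosed {z : (ℕ → ℕ) × (ℕ → ℕ) |
      ∃ p ∈ (st (dF z.1) t).lv, z.2 t = Encodable.encode p} := by
    intro t
    apply isClosed_of_local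
    rintro ⟨X, φ⟩
    refine ⟨t + 1, ?_⟩
    rintro ⟨X', φ'⟩ hX hφ ⟨p, hp, hpφ⟩
    refine ⟨p, ?_, ?_⟩
    · rw [← st_congr (agree_dF hX (Nat.lt_succ_self t))]
      exact hp
    · rw [← hφ t (Nat.lt_succ_self t)]
      exact hpφ
  have h2 : ∀ t, IsClosed {z : (ℕ → ℕ) × (ℕ → ℕ) | (lf z.2 t).1 <+: (lf z.2 (t + 1)).1} := by
    intro t
    apply isClosed_of_local
    rintro ⟨X, φ⟩
    refine ⟨t + 2, ?_⟩
    rintro ⟨X', φ'⟩ hX hφ h
    have h3 := lf_congr (hφ t (by omega))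
    have h4 := lf_congr (hφ (t + 1) (by omega))
    simp only at h3 h4 h ⊢
    rw [← h3, ← h4]
    exact h
  have h3 : ∀ e t, IsClosed {z : (ℕ → ℕ) × (ℕ → ℕ) |
      lf z.2 t ∈ PP (dW z.1) (st (dF z.1)) e t →
      lf z.2 (dE z.1 e) ∈ PP (dW z.1) (st (dF z.1)) e (dE z.1 e)} := by
    intro e t
    apply isClosed_of_local
    rintro ⟨X, φ⟩
    refine ⟨t + dE X e + e + 2, ?_⟩
    rintro ⟨X', φ'⟩ hX hφ h
    have h4 := lf_congr (hφ t (by omega))
    have h5 := lf_congr (hφ (dE X e) (by omega))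
    have h6 : dE X' e = dE X e := agree_dE hX (by omega)
    have h7 := pp_agree hX (e := e) (t := t) (by omega)
    have h8 := pp_agree hX (e := e) (t := dE X e) (by omega)
    simp only at h4 h5 h7 h8 h ⊢
    rw [h6, h4, h5, h7, h8] at h
    exact h
  have h4 : ∀ n, IsClosed {z : (ℕ → ℕ) × (ℕ → ℕ) | n ≤ (lf z.2 (dO z.1 n)).2} := by
    intro n
    apply isClosed_of_local
    rintro ⟨X, φ⟩
    refine ⟨n + dO X n + 2, ?_⟩
    rintro ⟨X', φ'⟩ hX hφ h
    have h5 := lf_congr (hφ (dO X n) (by omega))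
    have h6 : dO X' n = dO X n := agree_dO hX (by omega)
    simp only at h5 h ⊢
    rw [h6, h5] at h
    exact h
  have h5 : P = (⋂ t, {z : (ℕ → ℕ) × (ℕ → ℕ) |
      ∃ p ∈ (st (dF z.1) t).lv, z.2 t = Encodable.encode p}) ∩
      ((⋂ t, {z : (ℕ → ℕ) × (ℕ → ℕ) | (lf z.2 t).1 <+: (lf z.2 (t + 1)).1}) ∩
      ((⋂ e, ⋂ t, {z : (ℕ → ℕ) × (ℕ → ℕ) | lf z.2 t ∈ PP (dW z.1) (st (dF z.1)) e t →
        lf z.2 (dE z.1 e) ∈ PP (dW z.1) (st (dF z.1)) e (dE z.1 e)}) ∩
      (⋂ n, {z : (ℕ → ℕ) × (ℕ → ℕ) | n ≤ (lf z.2 (dO z.1 n)).2}))) := by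
    ext z
    simp only [P, Set.mem_inter_iff, Set.mem_iInter, Set.mem_ofPred_eq]
  rw [h5]
  exact (isClosed_iInter h1).inter ((isClosed_iInter h2).inter
    ((isClosed_iInter fun e => isClosed_iInter fun t => h3 e t).inter (isClosed_iInter h4)))

/-- the bound for the codes of leaves -/
noncomputable def bnd (X : ℕ → ℕ) : ℕ → ℕ := fun t =>
  (st (dF X) t).lv.sup fun p => Encodable.encode p

theorem bnd_local (X : ℕ → ℕ) (n : ℕ) :
    ∃ m, ∀ Y' : ℕ → ℕ, (∀ i < m, Y' i = X i) → bnd Y' n = bnd X n := by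
  refine ⟨8 * (n + 1) + 8, fun Y' hY => ?_⟩
  unfold bnd
  rw [st_congr (agree_dF hY (Nat.lt_succ_self n))]

/-- the operator which computes the jump of `join W φ` from
`join φ (join (join W (runCode f)) (tE k W f))` -/
noncomputable def psi (Y : ℕ → ℕ) : ℕ → ℕ := fun e =>
  if lf (lft Y) (rgt (rgt Y) e) ∈
      PP (lft (lft (rgt Y))) (st (rgt (lft (rgt Y)))) e (rgt (rgt Y) e) then 1 else 0

theorem psi_local (Y : ℕ → ℕ) (e : ℕ) :
    ∃ m, ∀ Y' : ℕ → ℕ, (∀ i < m, Y' i = Y i) → psi Y' e = psi Y e := by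
  refine ⟨8 * (e + rgt (rgt Y) e + 2) + 8, fun Y' hY => ?_⟩
  have h1 : rgt (rgt Y') e = rgt (rgt Y) e := by
    unfold rgt
    exact hY _ (by omega)
  have h2 : lf (lft Y') (rgt (rgt Y) e) = lf (lft Y) (rgt (rgt Y) e) := by
    apply lf_congr
    unfold lft
    exact hY _ (by omega)
  have h3 : PP (lft (lft (rgt Y'))) (st (rgt (lft (rgt Y')))) e (rgt (rgt Y) e) =
      PP (lft (lft (rgt Y))) (st (rgt (lft (rgt Y)))) e (rgt (rgt Y) e) := by
    apply PP_congr
    · intro i hi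
      show Y' (2 * (2 * (2 * i)) + 1) = Y (2 * (2 * (2 * i)) + 1)
      exact hY _ (by omega)
    · intro i hi
      apply st_congr
      show Y' (2 * (2 * (2 * i + 1)) + 1) = Y (2 * (2 * (2 * i + 1)) + 1)
      exact hY _ (by omega)
  unfold psi
  rw [h1, h2, h3]

end C5

open C5

theorem exists_random (k : ℕ) : Cone fun W => ∀ f : ℕ → St, Chain k f → Red (runCode f) W →
    ∀ V : ℕ → ℕ, Red (J W) V → ∃ r : ℕ → List ℕ × ℕ, LeafSeq f r ∧ (∀ n, ∃ t, n ≤ (r t).2) ∧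
      Red (J (join W (leafCode r))) (join (leafCode r) (J W)) ∧
      Red (J (join V (leafCode r))) (J V) := by
  have hcone := (((tE_red k).and (tO_red k)).and
    (((cont bnd).up.and (cont psi).up).and (J_mono.up.and (low_basis P isClosed_P).up)))
  refine hcone.mono ?_
  rintro W ⟨⟨hE, hO⟩, ⟨hb, hpsi⟩, hJ, hlow⟩ f hf hfW V hV
  -- the oracle
  have hWV : Red W V := (red_J W).trans hV
  set X : ℕ → ℕ := join V (join (join W (runCode f)) (join (tE k W f) (tO k f))) with hX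
  have hXV : Red X V := by
    refine join_red (Red.refl V) (join_red (join_red hWV (hfW.trans hWV)) (join_red ?_ ?_))
    · exact (hE f hf hfW).trans hV
    · exact (hO f hf hfW).trans hV
  have hVX : Red V X := red_join_left _ _
  have hWX : Red W X := hWV.trans hVX
  have dWX : dW X = W := by simp [dW, hX]
  have dFX : dF X = runCode f := by simp [dF, hX]
  have dEX : dE X = tE k W f := by simp [dE, hX]
  have dOX : dO X = tO k f := by simp [dO, hX]
  -- the closed set is not empty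
  obtain ⟨r0, hr0, hr1, hr2⟩ := exists_leafSeq hf W
  have hlf0 : lf (leafCode r0) = r0 := by
    funext t
    exact lf_encode rfl
  have hmem : (X, leafCode r0) ∈ P := by
    refine ⟨?_, ?_, ?_, ?_⟩
    · intro t
      refine ⟨r0 t, ?_, rfl⟩
      simp only [dFX, st_runCode]
      exact hr0.1 t
    · intro t
      simp only [hlf0]
      exact hr0.2 t
    · intro e t
      simp only [hlf0, dWX, dFX, dEX, st_runCode]
      exact hr1 e t
    · intro n
      simp only [hlf0, dOX]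
      exact hr2 n
  have hbX : Red (bnd X) X := hb X hWX (bnd_local X)
  have hbd0 : ∀ t, leafCode r0 t ≤ bnd X t := by
    intro t
    unfold bnd leafCode
    rw [dFX, st_runCode]
    exact Finset.le_sup (f := fun p : List ℕ × ℕ => Encodable.encode p) (hr0.1 t)
  obtain ⟨φ, hφP, -, hφJ⟩ := hlow X hWX (bnd X) hbX ⟨leafCode r0, hmem, hbd0⟩
  obtain ⟨h1, h2, h3, h4⟩ := hφP
  simp only [dWX, dFX, dEX, dOX, st_runCode] at h1 h2 h3 h4
  have hcode : leafCode (lf φ) = φ := by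
    funext t
    obtain ⟨p, -, hp⟩ := h1 t
    unfold leafCode
    rw [lf_encode hp, hp]
  have hleaf : LeafSeq f (lf φ) := by
    refine ⟨fun t => ?_, h2⟩
    obtain ⟨p, hp, hp'⟩ := h1 t
    rw [lf_encode hp']
    exact hp
  refine ⟨lf φ, hleaf, fun n => ⟨tO k f n, h4 n⟩, ?_, ?_⟩
  · -- the first jump
    rw [hcode]
    set Y0 : ℕ → ℕ := join φ (join (join W (runCode f)) (tE k W f)) with hY0
    have hWY : Red W Y0 :=
      ((red_join_left W (runCode f)).trans (red_join_left _ _)).trans (red_join_right _ _)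
    have h5 : Red (psi Y0) Y0 := hpsi Y0 hWY (psi_local Y0)
    have h6 : psi Y0 = J (join W φ) := by
      funext e
      have h7 := J_iff_PP hf W hleaf e
      rw [hcode] at h7
      have h8 : lf φ (tE k W f e) ∈ PP W f e (tE k W f e) ↔ J (join W φ) e = 1 := by
        rw [h7]
        exact ⟨fun h => ⟨_, h⟩, fun ⟨t, ht⟩ => h3 e t ht⟩
      unfold psi
      simp only [hY0, lft_join, rgt_join, st_runCode]
      rcases J_zero_or_one (join W φ) e with h9 | h9
      · rw [if_neg (by rw [h8, h9]; exact zero_ne_one), h9]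
      · rw [if_pos (h8.2 h9), h9]
    rw [h6] at h5
    refine h5.trans (join_red (red_join_left _ _) ?_)
    refine Red.trans ?_ (red_join_right φ (J W))
    exact join_red (join_red (red_J W) (hfW.trans (red_J W))) (hE f hf hfW)
  · rw [hcode]
    have h5 : Red (J (join V φ)) (J (join X φ)) := by
      apply hJ (join X φ) (hWX.trans (red_join_left _ _))
      exact join_red (hVX.trans (red_join_left _ _)) (red_join_right _ _)
    have h6 : Red (J X) (J V) := hJ V hWV X hXV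
    exact (h5.trans hφJ).trans h6

end Pool.Agent.RR
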