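import Pool.Agent.Helper55.RR.B3
import Pool.Agent.Helper55.RR.C2

/-!
# C6. The set built along a leaf sequence

Let `f` be a run and `r` a leaf sequence with unbounded labels.
* `(r t).2 ≤ 2 |(r t).1|` (`Inv.size`), so the lengths are unbounded; all `(r t).1` are increasing and form a
  chain of prefixes, so `HH r` is infinite.
* rainbow: six elements of `H` lie in one `(r t).1`, which is `Good`.
* decisions: let `2 e + 1 < (r t).2`.  If there is `q ∈ (f t).rho`, `q.2.1 <+: (r t).1`, `q.2.2 = e`, then for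
  `t' ≥ t` (`rho` grows: `Nx`) `Inv.losing` gives `¬ Force Z e (r t').1` (`Big.base`); if
  `J (join Z (HH r)) e = 1`, then by `isOpen_J` a finite part of `join Z (HH r)` suffices and for large `t'`
  `Force Z e (r t').1` holds (for `i < bd (r t').1`: `HH r i = chi (r t').1 i`, by
  `mem_of_prefix_of_lt_bd`).  If there is no such `q`, then `Inv.dec` gives `Force Z e (r t).1`, so
  `J (join Z (HH r)) e = 1`.
-/

set_option autoImplicit false

namespace Pool.Agent.RR

open Classical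

theorem Run.chain {k : ℕ} {Z g : ℕ → ℕ} {f : ℕ → St} (h : Run k Z g f) : Chain k f := by
  refine ⟨?_, fun t => (h.step t).1⟩
  rw [h.zero]
  exact Cut.single [] 0

private theorem HH_eq_one' (r : ℕ → List ℕ × ℕ) (x : ℕ) : HH r x = 1 ↔ ∃ t, x ∈ (r t).1 := by
  unfold HH
  split_ifs with h
  · simp [h]
  · simp [h]

private theorem mem_mono' {f : ℕ → St} {r : ℕ → List ℕ × ℕ} (hr : LeafSeq f r) {t t' : ℕ}
    (h : t ≤ t') {x : ℕ} (hx : x ∈ (r t).1) : x ∈ (r t').1 :=
  (hr.pref h).subset hx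

private theorem nodup_of_lt' {l : List ℕ} (h : l.Pairwise (· < ·)) : l.Nodup :=
  h.imp fun h => Nat.ne_of_lt h

private theorem long' {k : ℕ} {Z g : ℕ → ℕ} {f : ℕ → St} (h : Run k Z g f)
    {r : ℕ → List ℕ × ℕ} (hr : LeafSeq f r) (hn : ∀ n, ∃ t, n ≤ (r t).2) (n : ℕ) :
    ∃ t, n ≤ (r t).1.length := by
  obtain ⟨t, ht⟩ := hn (2 * n)
  have := (h.valid t).1.size (r t) (hr.1 t)
  exact ⟨t, by omega⟩

theorem HH_infinite {k : ℕ} {Z g : ℕ → ℕ} {f : ℕ → St} (h : Run k Z g f)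
    {r : ℕ → List ℕ × ℕ} (hr : LeafSeq f r) (hn : ∀ n, ∃ t, n ≤ (r t).2) :
    {x | HH r x = 1}.Infinite := by
  intro hfin
  obtain ⟨t, ht⟩ := long' h hr hn (hfin.toFinset.card + 1)
  have h1 : (r t).1.toFinset ⊆ hfin.toFinset := by
    intro x hx
    rw [Set.Finite.mem_toFinset]
    exact (HH_eq_one' r x).mpr ⟨t, List.mem_toFinset.mp hx⟩
  have h2 := Finset.card_le_card h1
  rw [List.toFinset_card_of_nodup (nodup_of_lt' ((h.valid t).1.inc (r t) (hr.1 t)))] at h2
  omega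

theorem HH_rainbow {k : ℕ} {Z g : ℕ → ℕ} {f : ℕ → St} (h : Run k Z g f)
    {r : ℕ → List ℕ × ℕ} (hr : LeafSeq f r) : Rainbow (cc Z) (HH r) := by
  intro a b w a' b' w' h1 h2 h3 h4 ha hb hw ha' hb' hw' hc
  obtain ⟨ta, ha⟩ := (HH_eq_one' r a).mp ha
  obtain ⟨tb, hb⟩ := (HH_eq_one' r b).mp hb
  obtain ⟨tw, hw⟩ := (HH_eq_one' r w).mp hw
  obtain ⟨ta', ha'⟩ := (HH_eq_one' r a').mp ha'
  obtain ⟨tb', hb'⟩ := (HH_eq_one' r b').mp hb'
  obtain ⟨tw', hw'⟩ := (HH_eq_one' r w').mp hw'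
  let t := ta + tb + tw + ta' + tb' + tw'
  exact (h.valid t).1.good (r t) (hr.1 t) a (mem_mono' hr (by omega) ha) b
    (mem_mono' hr (by omega) hb) w (mem_mono' hr (by omega) hw) a' (mem_mono' hr (by omega) ha')
    b' (mem_mono' hr (by omega) hb') w' (mem_mono' hr (by omega) hw') h1 h2 h3 h4 hc

private theorem HH_chi' {k : ℕ} {Z g : ℕ → ℕ} {f : ℕ → St} (h : Run k Z g f)
    {r : ℕ → List ℕ × ℕ} (hr : LeafSeq f r) (t : ℕ) {i : ℕ} (hi : i < bd (r t).1) :
    HH r i = chi (r t).1 i := by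
  have key : (∃ s, i ∈ (r s).1) ↔ i ∈ (r t).1 := by
    constructor
    · rintro ⟨s, hs⟩
      rcases le_total s t with hst | hst
      · exact mem_mono' hr hst hs
      · exact mem_of_prefix_of_lt_bd (hr.pref hst) ((h.valid s).1.inc (r s) (hr.1 s)) hs hi
    · exact fun h => ⟨t, h⟩
  unfold HH chi
  simp only [key]

private theorem join_HH' {k : ℕ} {Z g : ℕ → ℕ} {f : ℕ → St} (h : Run k Z g f)
    {r : ℕ → List ℕ × ℕ} (hr : LeafSeq f r) (t : ℕ) {i : ℕ} (hi : i < 2 * bd (r t).1) :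
    join Z (HH r) i = join Z (chi (r t).1) i := by
  unfold join
  split_ifs
  · rfl
  · exact HH_chi' h hr t (by omega)

private theorem rho_mono' {k : ℕ} {Z g : ℕ → ℕ} {f : ℕ → St} (h : Run k Z g f) {t t' : ℕ}
    (htt : t ≤ t') : (f t).rho ⊆ (f t').rho := by
  induction t', htt using Nat.le_induction with
  | base => exact Finset.Subset.refl _
  | succ n _ ih =>
    refine ih.trans ?_
    obtain ⟨-, -, -, -, h1, -⟩ := h.step n
    rcases h1 with h1 | ⟨p, -, e, -, h1⟩
    · rw [h1]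
    · rw [h1]
      exact Finset.subset_insert _ _

theorem HH_jump {k : ℕ} {Z g : ℕ → ℕ} {f : ℕ → St} (h : Run k Z g f)
    {r : ℕ → List ℕ × ℕ} (hr : LeafSeq f r) (hn : ∀ n, ∃ t, n ≤ (r t).2) (e t : ℕ)
    (ht : 2 * e + 1 < (r t).2) :
    J (join Z (HH r)) e = 1 ↔ ¬ ∃ q ∈ (f t).rho, q.2.1 <+: (r t).1 ∧ q.2.2 = e := by
  constructor
  · rintro hJ ⟨q, hq, hqr, rfl⟩
    obtain ⟨m, hm⟩ := (isOpen_iff_agree _).mp (isOpen_J q.2.2) (join Z (HH r)) hJ
    obtain ⟨s, hs⟩ := long' h hr hn m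
    let t' := t + s
    have htt' : t ≤ t' := Nat.le_add_right t s
    have hst' : s ≤ t' := Nat.le_add_left s t
    have hinc := (h.valid t').1.inc (r t') (hr.1 t')
    have hlen : m ≤ (r t').1.length := hs.trans (hr.pref hst').length_le
    have hbd : m ≤ bd (r t').1 := by
      refine hlen.trans ?_
      rw [← List.toFinset_card_of_nodup (nodup_of_lt' hinc)]
      refine (Finset.card_le_card (t := Finset.range (bd (r t').1)) ?_).trans_eq
        (Finset.card_range _)
      intro x hx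
      exact Finset.mem_range.mpr (lt_bd (List.mem_toFinset.mp hx))
    have hforce : Force Z q.2.2 (r t').1 := by
      intro Y hY
      refine hm Y fun i hi => ?_
      rw [hY i (by omega), join_HH' h hr t' (by omega)]
    have hlose := (h.valid t').1.losing q (rho_mono' h htt' hq) (r t') (hr.1 t')
      (hqr.trans (hr.pref htt'))
    refine hlose (Big.base _ ?_)
    unfold T
    have h1 : ¬ (2 * q.2.2 + 1) % 2 = 0 := by omega
    have h2 : (2 * q.2.2 + 1) / 2 = q.2.2 := by omega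
    rw [if_neg h1, h2]
    exact hforce
  · intro hno
    rcases (h.valid t).1.dec (r t) (hr.1 t) e ht with h1 | h1
    · exact absurd h1 hno
    · exact h1 _ fun i hi => join_HH' h hr t hi

end Pool.Agent.RR
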