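import Pool.Agent.Helper55.RR.A4
import Pool.Agent.Helper55.RR.C6

/-!
# C7. The first jump of `Z ⊕ H` is below `f ⊕ r`

By `HH_jump` the function `J (join Z (HH r))` is the value at `join (runCode f) (leafCode r)` of a continuous
operator (for `e` search the least `t` with `2 e + 1 < (r t).2` and look at `(f t).rho`), so `cont` gives
`J (join Z (HH r)) ≤ join (runCode f) (leafCode r)` if the latter is in the cone; here `W` is in the cone
and `join W (leafCode r)` is above it: apply `cont` to `Y = join W' (leafCode r)` with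
`W' = join W (runCode f)`.
-/

set_option autoImplicit false

namespace Pool.Agent.RR

open Classical

/-- the answer read off from the codes `F` of the run and `R` of the leaf sequence -/
noncomputable def jval (F R : ℕ → ℕ) (e : ℕ) : ℕ :=
  if h : ∃ t, 2 * e + 1 < ((Encodable.decode (R t) : Option (List ℕ × ℕ)).getD ([], 0)).2 then
    (if ∃ st : St, (Encodable.decode (F (Nat.find h)) : Option St) = some st ∧ ∃ q ∈ st.rho,
      q.2.1 <+: ((Encodable.decode (R (Nat.find h)) : Option (List ℕ × ℕ)).getD ([], 0)).1 ∧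
        q.2.2 = e then 0 else 1)
  else 0

theorem jval_agree {F R : ℕ → ℕ} {e t₀ : ℕ}
    (h : 2 * e + 1 < ((Encodable.decode (R t₀) : Option (List ℕ × ℕ)).getD ([], 0)).2) {F' R' : ℕ → ℕ}
    (hF : ∀ t ≤ t₀, F' t = F t) (hR : ∀ t ≤ t₀, R' t = R t) : jval F' R' e = jval F R e := by
  have hex : ∃ t, 2 * e + 1 < ((Encodable.decode (R t) : Option (List ℕ × ℕ)).getD ([], 0)).2 :=
    ⟨t₀, h⟩
  have hex' : ∃ t, 2 * e + 1 < ((Encodable.decode (R' t) : Option (List ℕ × ℕ)).getD ([], 0)).2 :=
    ⟨t₀, by rw [hR t₀ le_rfl]; exact h⟩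
  have h0 : Nat.find hex ≤ t₀ := Nat.find_min' hex h
  have h1 : Nat.find hex' = Nat.find hex := by
    rw [Nat.find_eq_iff]
    refine ⟨by rw [hR _ h0]; exact Nat.find_spec hex, fun n hn => ?_⟩
    rw [hR n (hn.le.trans h0)]
    exact Nat.find_min hex hn
  unfold jval
  rw [dif_pos hex, dif_pos hex', h1, hF _ h0, hR _ h0]

theorem HH_jump_red (k : ℕ) : Cone fun W => ∀ (Z g : ℕ → ℕ) (f : ℕ → St), Run k Z g f →
    Red (runCode f) W → ∀ r : ℕ → List ℕ × ℕ, LeafSeq f r → (∀ n, ∃ t, n ≤ (r t).2) →
      Red (J (join Z (HH r))) (join W (leafCode r)) := by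
  obtain ⟨F₀, hF₀⟩ := cont (fun Y => jval (rgt (lft Y)) (rgt Y))
  refine ⟨F₀, fun W hW Z g f hrun hf r hr hn => ?_⟩
  have hY := hF₀ (join (join W (runCode f)) (leafCode r))
    ((hW.trans (red_join_left _ _)).trans (red_join_left _ _))
  simp only [lft_join, rgt_join] at hY
  -- the value
  have hval : jval (runCode f) (leafCode r) = J (join Z (HH r)) := by
    funext e
    obtain ⟨t₁, ht₁⟩ := hn (2 * e + 2)
    have hex : ∃ t, 2 * e + 1 <
        ((Encodable.decode (leafCode r t) : Option (List ℕ × ℕ)).getD ([], 0)).2 := by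
      refine ⟨t₁, ?_⟩
      unfold leafCode
      rw [Encodable.encodek]
      exact ht₁
    unfold jval
    rw [dif_pos hex]
    have h1 := Nat.find_spec hex
    generalize Nat.find hex = t at h1
    unfold leafCode at h1 ⊢
    unfold runCode
    rw [Encodable.encodek] at h1 ⊢
    rw [Encodable.encodek]
    simp only [Option.getD_some] at h1 ⊢
    have h2 := HH_jump hrun hr hn e t h1
    by_cases h3 : ∃ q ∈ (f t).rho, q.2.1 <+: (r t).1 ∧ q.2.2 = e
    · rw [if_pos ⟨f t, rfl, h3⟩]
      rcases J_zero_or_one (join Z (HH r)) e with h4 | h4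
      · exact h4.symm
      · exact absurd h3 (h2.mp h4)
    · rw [if_neg]
      · exact (h2.mpr h3).symm
      · rintro ⟨st, hst, hq⟩
        rw [Option.some_inj] at hst
        subst hst
        exact h3 hq
  rw [hval] at hY
  have hred : Red (J (join Z (HH r))) (join (join W (runCode f)) (leafCode r)) := by
    apply hY
    intro e
    obtain ⟨t₁, ht₁⟩ := hn (2 * e + 2)
    refine ⟨4 * t₁ + 3, fun Y' hY' => ?_⟩
    rw [← hval]
    refine jval_agree (t₀ := t₁) ?_ ?_ ?_
    · unfold leafCode
      rw [Encodable.encodek]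
      exact ht₁
    · intro t ht
      have h1 := hY' (2 * (2 * t + 1)) (by omega)
      change Y' (2 * (2 * t + 1)) = _
      rw [h1]
      have h2 : rgt (lft (join (join W (runCode f)) (leafCode r))) t = runCode f t := by
        rw [lft_join, rgt_join]
      exact h2
    · intro t ht
      have h1 := hY' (2 * t + 1) (by omega)
      change Y' (2 * t + 1) = _
      rw [h1]
      have h2 : rgt (join (join W (runCode f)) (leafCode r)) t = leafCode r t := by
        rw [rgt_join]
      exact h2
  refine hred.trans (join_red (join_red (red_join_left _ _) (hf.trans (red_join_left _ _)))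
    (red_join_right _ _))

end Pool.Agent.RR
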