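import Pool.Agent.Helper55.RR.B12
import Pool.Agent.Helper55.RR.C5
import Pool.Agent.Helper55.RR.C7

/-!
# C8. Theorem T: rainbow sets with low third jump
-/

set_option autoImplicit false

namespace Pool.Agent.RR

open Classical

theorem low3 (k : ℕ) : Cone fun Z => KBdd k (cc Z) → ∃ H : ℕ → ℕ, {x | H x = 1}.Infinite ∧
    Rainbow (cc Z) H ∧ Red (J (J (J (join Z H)))) (J (J (J Z))) := by
  obtain ⟨F1, h1⟩ := low_g k
  obtain ⟨F2, h2⟩ := run_exists k
  obtain ⟨F3, h3⟩ := exists_random k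
  obtain ⟨F4, h4⟩ := HH_jump_red k
  obtain ⟨F5, h5⟩ := J_mono
  refine ⟨join F1 (join F2 (join F3 (join F4 F5))), fun Z hZ hc => ?_⟩
  have z1 : Red F1 Z := (red_join_left _ _).trans hZ
  have z' : Red (join F2 (join F3 (join F4 F5))) Z := (red_join_right _ _).trans hZ
  have z2 : Red F2 Z := (red_join_left _ _).trans z'
  have z'' : Red (join F3 (join F4 F5)) Z := (red_join_right _ _).trans z'
  have z3 : Red F3 Z := (red_join_left _ _).trans z''
  have z''' : Red (join F4 F5) Z := (red_join_right _ _).trans z''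
  have z4 : Red F4 Z := (red_join_left _ _).trans z'''
  have z5 : Red F5 Z := (red_join_right _ _).trans z'''
  obtain ⟨g, hg1, hg2⟩ := h1 Z z1
  obtain ⟨f, hf, W, hW1, hW2, hW3⟩ := h2 Z z2 hc g hg1 hg2
  have hZW : Red Z W := (red_J Z).trans hW1
  have hV : Red (J W) (J (J Z)) := hW3
  obtain ⟨r, hr1, hr2, hr3, hr4⟩ := h3 W (z3.trans hZW) f hf.chain hW2 (J (J Z)) hV
  refine ⟨HH r, HH_infinite hf hr1 hr2, HH_rainbow hf hr1, ?_⟩
  have a1 : Red (J (join Z (HH r))) (join W (leafCode r)) :=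
    h4 W (z4.trans hZW) Z g f hf hW2 r hr1 hr2
  have a2 : Red (J (J (join Z (HH r)))) (J (join W (leafCode r))) :=
    h5 _ ((z5.trans hZW).trans (red_join_left _ _)) _ a1
  have a3 : Red (J (J (join Z (HH r)))) (join (J (J Z)) (leafCode r)) := by
    refine a2.trans (hr3.trans ?_)
    exact join_red (red_join_right _ _) (hV.trans (red_join_left _ _))
  have hZJ : Red Z (J (J Z)) := (red_J Z).trans (red_J _)
  have a4 : Red (J (J (J (join Z (HH r))))) (J (join (J (J Z)) (leafCode r))) :=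
    h5 _ ((z5.trans hZJ).trans (red_join_left _ _)) _ a3
  exact a4.trans hr4

end Pool.Agent.RR
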