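import Pool.Agent.Helper55.RR.C8

/-!
# D1. The Turing ideal

Let `F` be above `F0`, the base of `J_mono` and the bases of `low3 k` for all `k` (`exists_upper`).
`Z 0 = F`.  Given `Z n`, let `n = ⟨i, ⟨e, k⟩⟩`.  If there is a total `c` with
`∀ x v, c x = v ↔ ∃ m, U e x (cd (Z i) m) = v + 1` (here one may take `Z i` for `i ≤ n`, note
`i ≤ ⟨i, _⟩`), `c ≤ Z n`, and `KBdd k (col c)`, take `H` from `low3 k` for `join (Z n) c`
(`cc (join (Z n) c) = col c`) and `Z (n+1) = join (join (Z n) c) H`; otherwise `Z (n+1) = Z n`.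
Then `J (J (J (Z (n+1)))) ≤ J (J (J (Z n)))` (`J_mono` for `join (Z n) c ≤ Z n`).
`M = {X | ∃ n, Red X (Z n)}`.
-/

set_option autoImplicit false

namespace Pool.Agent.RR

open Classical

/-- the colouring of triples coded by a function -/
def col (c : ℕ → ℕ) : Col := fun a b w => c (Nat.pair a (Nat.pair b w))

/-- Turing ideals: nonempty, closed under join and Turing reducibility -/
structure Ideal (M : Set (ℕ → ℕ)) : Prop where
  nonempty : M.Nonempty
  join_mem : ∀ X ∈ M, ∀ Y ∈ M, join X Y ∈ M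
  down : ∀ X ∈ M, ∀ Y, Red Y X → Y ∈ M

theorem cc_join (Z c : ℕ → ℕ) : cc (join Z c) = col c := by
  funext a b w
  unfold cc col
  rw [rgt_join]

/-- only countably many functions are reducible to `Z` -/
theorem exists_enum (Z : ℕ → ℕ) : ∃ en : ℕ → (ℕ → ℕ), ∀ c, Red c Z → ∃ e, en e = c := by
  have h1 : ∀ c, Red c Z → ∃ e, ∀ n v, v ∈ Part.some (c n) ↔ ∃ m, U e n (cd Z m) = v + 1 :=
    fun c hc => (U_universal.1 Z _).1 hc
  refine ⟨fun e => if h : ∃ c : ℕ → ℕ, ∀ n v, v ∈ Part.some (c n) ↔ ∃ m, U e n (cd Z m) = v + 1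
    then h.choose else fun _ => 0, fun c hc => ?_⟩
  obtain ⟨e, he⟩ := h1 c hc
  refine ⟨e, ?_⟩
  have hex : ∃ c : ℕ → ℕ, ∀ n v, v ∈ Part.some (c n) ↔ ∃ m, U e n (cd Z m) = v + 1 := ⟨c, he⟩
  show (if h : _ then _ else _) = c
  rw [dif_pos hex]
  funext n
  have h2 := (hex.choose_spec n (c n)).2 ((he n (c n)).1 (Part.mem_some _))
  exact (Part.mem_some_iff.1 h2).symm

/-- one step of the iteration -/
theorem exists_next : ∃ F : ℕ → ℕ, ∀ (Z c : ℕ → ℕ) (k : ℕ), ∃ Z' : ℕ → ℕ, Red F Z →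
    Red Z Z' ∧ Red (J (J (J Z'))) (J (J (J Z))) ∧
    (Red c Z → KBdd k (col c) → ∃ H, Red H Z' ∧ {x | H x = 1}.Infinite ∧ Rainbow (col c) H) := by
  obtain ⟨F1, h1⟩ := cone_forall low3
  obtain ⟨F5, h5⟩ := J_mono
  refine ⟨join F1 F5, fun Z c k => ?_⟩
  by_cases hyp : Red (join F1 F5) Z ∧ Red c Z ∧ KBdd k (col c)
  · obtain ⟨hF, hc, hk⟩ := hyp
    have z1 : Red F1 Z := (red_join_left _ _).trans hF
    have z5 : Red F5 Z := (red_join_right _ _).trans hF
    have hY : Red (join Z c) Z := join_red (Red.refl Z) hc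
    have hk' : KBdd k (cc (join Z c)) := by rw [cc_join]; exact hk
    obtain ⟨H, hH1, hH2, hH3⟩ := h1 (join Z c) (z1.trans (red_join_left _ _)) k hk'
    rw [cc_join] at hH2
    have j1 : Red (J (join Z c)) (J Z) := h5 Z z5 _ hY
    have j2 : Red (J (J (join Z c))) (J (J Z)) := h5 _ (z5.trans (red_J Z)) _ j1
    have j3 : Red (J (J (J (join Z c)))) (J (J (J Z))) :=
      h5 _ ((z5.trans (red_J Z)).trans (red_J _)) _ j2
    refine ⟨join (join Z c) H, fun _ => ⟨(red_join_left _ _).trans (red_join_left _ _),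
      hH3.trans j3, fun _ _ => ⟨H, red_join_right _ _, hH1, hH2⟩⟩⟩
  · refine ⟨Z, fun hF => ⟨Red.refl Z, Red.refl _, fun hc hk => ?_⟩⟩
    exact absurd ⟨hF, hc, hk⟩ hyp

theorem exists_ideal (F0 : ℕ → ℕ) : ∃ (F : ℕ → ℕ) (M : Set (ℕ → ℕ)), Red F0 F ∧ Ideal M ∧ F ∈ M ∧
    (∀ X ∈ M, Red X (J (J (J F)))) ∧
    ∀ k, ∀ c ∈ M, KBdd k (col c) → ∃ H ∈ M, {x | H x = 1}.Infinite ∧ Rainbow (col c) H := by
  obtain ⟨F1, h1⟩ := exists_next
  choose nx hnx using h1
  choose en hen using exists_enum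
  let F : ℕ → ℕ := join F0 F1
  let Zs : ℕ → ℕ → (ℕ → ℕ) := fun n => Nat.rec (motive := fun _ => ℕ → (ℕ → ℕ)) (fun _ => F)
    (fun n prev i => if i ≤ n then prev i else
      nx (prev n) (en (prev n.unpair.1) n.unpair.2.unpair.1) n.unpair.2.unpair.2) n
  have hZs0 : ∀ i, Zs 0 i = F := fun i => rfl
  have hZsS : ∀ n i, Zs (n + 1) i = if i ≤ n then Zs n i else
      nx (Zs n n) (en (Zs n n.unpair.1) n.unpair.2.unpair.1) n.unpair.2.unpair.2 :=
    fun n i => rfl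
  let Z : ℕ → (ℕ → ℕ) := fun n => Zs n n
  have hZs : ∀ n i, i ≤ n → Zs n i = Z i := by
    intro n
    induction n with
    | zero =>
      intro i hi
      have : i = 0 := by omega
      rw [this]
    | succ n ih =>
      intro i hi
      by_cases hin : i ≤ n
      · rw [hZsS, if_pos hin]
        exact ih i hin
      · have : i = n + 1 := by omega
        rw [this]
  have hZS : ∀ n, Z (n + 1) =
      nx (Z n) (en (Z n.unpair.1) n.unpair.2.unpair.1) n.unpair.2.unpair.2 := by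
    intro n
    show Zs (n + 1) (n + 1) = _
    rw [hZsS, if_neg (by omega), hZs n _ (Nat.unpair_left_le n)]
  have hF1 : ∀ n, Red F1 (Z n) ∧ Red (J (J (J (Z n)))) (J (J (J F))) := by
    intro n
    induction n with
    | zero => exact ⟨red_join_right F0 F1, Red.refl _⟩
    | succ n ih =>
      rw [hZS]
      obtain ⟨a1, a2, -⟩ := hnx (Z n) (en (Z n.unpair.1) n.unpair.2.unpair.1)
        n.unpair.2.unpair.2 ih.1
      exact ⟨ih.1.trans a1, a2.trans ih.2⟩
  have hstep : ∀ n, Red (Z n) (Z (n + 1)) := by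
    intro n
    rw [hZS]
    exact (hnx (Z n) (en (Z n.unpair.1) n.unpair.2.unpair.1)
        n.unpair.2.unpair.2 (hF1 n).1).1
  have hmono : ∀ m n, m ≤ n → Red (Z m) (Z n) := by
    intro m n hmn
    induction hmn with
    | refl => exact Red.refl _
    | step _ ih => exact ih.trans (hstep _)
  refine ⟨F, {X | ∃ n, Red X (Z n)}, red_join_left F0 F1, ⟨⟨Z 0, 0, Red.refl _⟩, ?_, ?_⟩,
    ⟨0, Red.refl _⟩, ?_, ?_⟩
  · rintro X ⟨m, hm⟩ Y ⟨n, hn⟩
    exact ⟨max m n, join_red (hm.trans (hmono _ _ (le_max_left _ _)))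
      (hn.trans (hmono _ _ (le_max_right _ _)))⟩
  · rintro X ⟨m, hm⟩ Y hY
    exact ⟨m, hY.trans hm⟩
  · rintro X ⟨n, hn⟩
    exact hn.trans ((((red_J _).trans (red_J _)).trans (red_J _)).trans (hF1 n).2)
  · rintro k c ⟨i, hi⟩ hk
    obtain ⟨e, he⟩ := hen (Z i) c hi
    let n := Nat.pair i (Nat.pair e k)
    have hn1 : n.unpair.1 = i := by simp [n]
    have hn2 : n.unpair.2.unpair.1 = e := by simp [n]
    have hn3 : n.unpair.2.unpair.2 = k := by simp [n]
    have hin : i ≤ n := Nat.left_le_pair i _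
    have h2 := (hnx (Z n) (en (Z n.unpair.1) n.unpair.2.unpair.1)
        n.unpair.2.unpair.2 (hF1 n).1).2.2
    rw [← hZS, hn1, hn2, hn3, he] at h2
    obtain ⟨H, hH1, hH2, hH3⟩ := h2 (hi.trans (hmono _ _ hin)) hk
    exact ⟨H, ⟨n + 1, hH1⟩, hH2, hH3⟩

end Pool.Agent.RR
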