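import Mathlib

/-!
# Rainbow Ramsey for triples versus the Rado graph: definitions
-/

set_option autoImplicit false

namespace Pool.Agent.RR

open Classical

/-! ## Part A: reducibility, join, codes of initial segments, jump, cones -/

/-- Turing reducibility between total functions (Mathlib's notion). -/
def Red (f g : ℕ → ℕ) : Prop :=
  Nat.RecursiveIn {fun n => Part.some (g n)} (fun n => Part.some (f n))

/-- The join of two functions. -/
def join (X Y : ℕ → ℕ) : ℕ → ℕ := fun n => if n % 2 = 0 then X (n / 2) else Y (n / 2)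

/-- left half of a join -/
def lft (X : ℕ → ℕ) : ℕ → ℕ := fun n => X (2 * n)

/-- right half of a join -/
def rgt (X : ℕ → ℕ) : ℕ → ℕ := fun n => X (2 * n + 1)

/-- The code of the initial segment `(X 0, …, X (m-1))` of `X`. -/
def cd (X : ℕ → ℕ) : ℕ → ℕ
  | 0 => 0
  | m + 1 => Nat.succ (Nat.pair (X m) (cd X m))

/-- `U` is a universal function for oracle computations: `U e n s = v + 1` if the `e`-th functional
with oracle string coded by `s` outputs `v` at `n`. -/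
def Universal (U : ℕ → ℕ → ℕ → ℕ) : Prop :=
  (∀ (X : ℕ → ℕ) (f : ℕ →. ℕ), Nat.RecursiveIn {fun n => Part.some (X n)} f ↔
    ∃ e, ∀ n v, v ∈ f n ↔ ∃ m, U e n (cd X m) = v + 1) ∧
  (∀ e n X m m', m ≤ m' → U e n (cd X m) ≠ 0 → U e n (cd X m') = U e n (cd X m))

/-- A fixed universal function. -/
noncomputable def U : ℕ → ℕ → ℕ → ℕ :=
  if h : ∃ U, Universal U then h.choose else fun _ _ _ => 0

/-- The jump: answers to all `Σ₁` questions about `X`. -/
noncomputable def J (X : ℕ → ℕ) : ℕ → ℕ := fun k =>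
  if ∃ m, U k.unpair.1 k.unpair.2 (cd X m) ≠ 0 then 1 else 0

/-- A property of reals holds on a cone of Turing degrees. -/
def Cone (P : (ℕ → ℕ) → Prop) : Prop := ∃ F : ℕ → ℕ, ∀ Y : ℕ → ℕ, Red F Y → P Y

/-! ## Part B: combinatorial definitions -/

/-- Colourings of triples: `c a b w` is the colour of `{a < b < w}`. -/
abbrev Col := ℕ → ℕ → ℕ → ℕ

/-- the colouring coded in (the right half of) `Z` -/
def cc (Z : ℕ → ℕ) : Col := fun a b w => rgt Z (Nat.pair a (Nat.pair b w))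

/-- each colour is used at most `k` times -/
def KBdd (k : ℕ) (c : Col) : Prop :=
  ∀ v : ℕ, {t : ℕ × ℕ × ℕ | t.1 < t.2.1 ∧ t.2.1 < t.2.2 ∧ c t.1 t.2.1 t.2.2 = v}.encard ≤ k

/-- finite patterns: relations between pairs of numbers -/
abbrev Pat := Finset ((ℕ × ℕ) × (ℕ × ℕ))

/-- increasing pairs below `n` -/
def prs (n : ℕ) : Finset (ℕ × ℕ) := ((Finset.range n) ×ˢ (Finset.range n)).filter (fun p => p.1 < p.2)

/-- the pattern of `x` below `n`: the pairs of pairs which get the same colour with `x` -/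
noncomputable def patOf (c : Col) (x n : ℕ) : Pat :=
  ((prs n) ×ˢ (prs n)).filter (fun q => q.1 ≠ q.2 ∧ c q.1.1 q.1.2 x = c q.2.1 q.2.2 x)

/-- restriction of a pattern to numbers below `n` -/
noncomputable def restr (E : Pat) (n : ℕ) : Pat := E.filter (fun q => q.1 ∈ prs n ∧ q.2 ∈ prs n)

/-- the relation between pairs coded in `g` at index `h`, restricted to numbers below `n` -/
noncomputable def relOf (g : ℕ → ℕ) (h n : ℕ) : Pat :=
  ((prs n) ×ˢ (prs n)).filter (fun q => g (Nat.pair h (Encodable.encode q)) ≠ 0)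

/-- `E` is a `k`-bounded pattern on numbers below `n` -/
def IsPat (k n : ℕ) (E : Pat) : Prop :=
  E ⊆ (prs n) ×ˢ (prs n) ∧ (∀ q ∈ E, (q.2, q.1) ∈ E) ∧ (∀ q ∈ E, q.1 ≠ q.2) ∧
    ∀ s : ℕ × ℕ, (E.filter (fun q => q.1 = s)).card ≤ k

/-- no conflict of `E` inside `G` -/
def Free (E : Pat) (G : List ℕ) : Prop :=
  ∀ q ∈ E, ¬ (q.1.1 ∈ G ∧ q.1.2 ∈ G ∧ q.2.1 ∈ G ∧ q.2.2 ∈ G)

/-- no conflict of the relation coded in `g` at `h` inside `G` -/
def FreeR (g : ℕ → ℕ) (h : ℕ) (G : List ℕ) : Prop := ∀ n, Free (relOf g h n) G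

/-- `G` is rainbow for `c` -/
def Good (c : Col) (G : List ℕ) : Prop :=
  ∀ a ∈ G, ∀ b ∈ G, ∀ w ∈ G, ∀ a' ∈ G, ∀ b' ∈ G, ∀ w' ∈ G, a < b → b < w → a' < b' → b' < w' →
    c a b w = c a' b' w' → a = a' ∧ b = b' ∧ w = w'

/-- strict upper bound of the elements of `G` -/
def bd (G : List ℕ) : ℕ := G.foldr (fun a b => max (a + 1) b) 0

/-- characteristic function of a list -/
noncomputable def chi (G : List ℕ) : ℕ → ℕ := fun n => if n ∈ G then 1 else 0

/-- the jump question `e` about `Z ⊕ H` is answered positively for all `H` which agree with `G` below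
`bd G` (by a computation using only the oracle below `2 * bd G`) -/
def Force (Z : ℕ → ℕ) (e : ℕ) (G : List ℕ) : Prop :=
  ∀ Y : ℕ → ℕ, (∀ i < 2 * bd G, Y i = join Z (chi G) i) → J Y e = 1

/-- the target of requirement `j`: for `j = 2 n` it is `n + 1 ≤ |G|`, for `j = 2 e + 1` it is
`Force Z e G`. -/
def T (Z : ℕ → ℕ) (j : ℕ) (G : List ℕ) : Prop :=
  if j % 2 = 0 then j / 2 + 1 ≤ G.length else Force Z (j / 2) G

/-- branching numbers -/
def K0 (k l : ℕ) : ℕ := 8 * 2 ^ l * (l + 1) ^ 2 * (k + 1)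

/-- branching numbers for requirement `j` -/
def KK (k j l : ℕ) : ℕ := 2 ^ j * K0 k l

/-- the measure of a node of length `l` -/
def wt (k l : ℕ) : ℚ := ∏ i ∈ Finset.range l, (1 / (K0 k i : ℚ))

/-- the measure of a set of labelled leaves -/
def mu (k : ℕ) (L : Finset (List ℕ × ℕ)) : ℚ := ∑ p ∈ L, wt k p.1.length

/-- `Cut k ν L`: `L` is the set of (labelled) leaves of a finite tree with root `ν` in which every
inner node `ν'` has exactly `K0 k |ν'|` children -/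
inductive Cut (k : ℕ) : List ℕ → Finset (List ℕ × ℕ) → Prop
  | single (ν : List ℕ) (j : ℕ) : Cut k ν {(ν, j)}
  | node (ν : List ℕ) (S : Finset ℕ) (L : ℕ → Finset (List ℕ × ℕ)) (hS : S.card = K0 k ν.length)
      (hL : ∀ y ∈ S, Cut k (ν ++ [y]) (L y)) : Cut k ν (S.biUnion L)

/-- `Big K A X T G`: there is a finite tree above `G` with elements in `X`, with at least `K |G'|`
children for each inner node `G'`, all new nodes in `A`, all tips in `T` -/
inductive Big (K : ℕ → ℕ) (A : List ℕ → Prop) (X : Set ℕ) (T : List ℕ → Prop) : List ℕ → Prop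
  | base (G : List ℕ) (h : T G) : Big K A X T G
  | step (G : List ℕ) (S : Finset ℕ) (hS : K G.length ≤ S.card) (hX : ∀ x ∈ S, x ∈ X)
      (hb : ∀ x ∈ S, bd G ≤ x) (hA : ∀ x ∈ S, A (G ++ [x])) (h : ∀ x ∈ S, Big K A X T (G ++ [x])) :
      Big K A X T G

/-- states of the construction -/
structure St where
  /-- bound: everything used so far is below `b` -/
  b : ℕ
  /-- pattern of the reservoir below `b` -/
  E : Pat
  /-- negative decisions: (index of relation, node, question) -/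
  rho : Finset (ℕ × List ℕ × ℕ)
  /-- labelled leaves: (stem, number of the next requirement) -/
  lv : Finset (List ℕ × ℕ)

/-- states are finite data -/
def St.equiv : St ≃ ℕ × Pat × Finset (ℕ × List ℕ × ℕ) × Finset (List ℕ × ℕ) where
  toFun s := (s.b, s.E, s.rho, s.lv)
  invFun q := ⟨q.1, q.2.1, q.2.2.1, q.2.2.2⟩
  left_inv _ := rfl
  right_inv _ := rfl

noncomputable instance : Encodable St := Encodable.ofEquiv _ St.equiv

/-- the index at which `g` codes the relation chosen for the state `s` -/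
noncomputable def sid (s : St) : ℕ :=
  Nat.pair (∑ q ∈ s.rho, (q.1 + 1)) (Encodable.encode s)

/-- allowed nodes above the leaf `xs` -/
def Al0 (Z g : ℕ → ℕ) (s : St) (xs G : List ℕ) : Prop :=
  Good (cc Z) G ∧ ∀ q ∈ s.rho, q.2.1 <+: xs → FreeR g q.1 G

/-- allowed nodes above the leaf `xs`, with the pattern `E` -/
def AlE (Z g : ℕ → ℕ) (s : St) (xs : List ℕ) (E : Pat) (G : List ℕ) : Prop :=
  Al0 Z g s xs G ∧ Free E G

/-- `x` is fresh for `n` : no triple with maximum `x` and other elements below `n` has the colour of a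
triple below `n` -/
def Fresh (c : Col) (x n : ℕ) : Prop :=
  ∀ a b, a < b → b < n → ∀ a' b' w', a' < b' → b' < w' → w' < n → c a b x ≠ c a' b' w'

/-- the reservoir of a state -/
def Res (Z g : ℕ → ℕ) (s : St) : Set ℕ :=
  {x | s.b ≤ x ∧ patOf (cc Z) x s.b = s.E ∧ Fresh (cc Z) x s.b ∧
    ∀ q ∈ s.rho, FreeR g q.1 (q.2.1 ++ [x])}

/-- the level at which the state `s` works: the least `n` such that the leaves with label `< n` have
measure more than `1/4` -/
noncomputable def ns (k : ℕ) (s : St) : ℕ :=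
  sInf {n | 1 / 4 < mu k (s.lv.filter (fun p => p.2 < n))}

/-- with the pattern `E` no leaf with label `< ns` can be extended by a bushy tree below `n` -/
def NB (k : ℕ) (Z g : ℕ → ℕ) (s : St) (n : ℕ) (E : Pat) : Prop :=
  ∀ p ∈ s.lv, p.2 < ns k s →
    ¬ Big (KK k p.2) (AlE Z g s p.1 E) (Res Z g s ∩ Set.Iio n) (T Z p.2) p.1

/-- the answer to the question of `s` is YES, with witness below `n` -/
def Star (k : ℕ) (Z g : ℕ → ℕ) (s : St) (n : ℕ) : Prop :=
  s.b ≤ n ∧ ∀ E, IsPat k n E → restr E s.b = s.E → ¬ NB k Z g s n E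

/-- the requirement on `g` -/
def Req (k : ℕ) (Z g : ℕ → ℕ) : Prop :=
  ∀ (s : St) (n : ℕ), s.b ≤ n → (∀ p ∈ s.lv, ∀ x ∈ p.1, x < s.b) → ¬ Star k Z g s n →
    IsPat k n (relOf g (sid s) n) ∧ restr (relOf g (sid s) n) s.b = s.E ∧
      NB k Z g s n (relOf g (sid s) n)

/-- invariants of states -/
structure Inv (k : ℕ) (Z g : ℕ → ℕ) (s : St) : Prop where
  cut : Cut k [] s.lv
  inc : ∀ p ∈ s.lv, p.1.Pairwise (· < ·)
  lt : ∀ p ∈ s.lv, ∀ x ∈ p.1, x < s.b
  pat : IsPat k s.b s.E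
  good : ∀ p ∈ s.lv, Good (cc Z) p.1
  free : ∀ p ∈ s.lv, Free s.E p.1
  freeR : ∀ p ∈ s.lv, ∀ q ∈ s.rho, q.2.1 <+: p.1 → FreeR g q.1 p.1
  patR : ∀ q ∈ s.rho, ∀ n, IsPat k n (relOf g q.1 n)
  size : ∀ p ∈ s.lv, p.2 ≤ 2 * p.1.length
  neg : ∀ q ∈ s.rho, ∀ p ∈ s.lv, q.2.1 <+: p.1 → 2 * q.2.2 + 1 < p.2
  inj : ∀ p ∈ s.lv, ∀ q ∈ s.rho, ∀ q' ∈ s.rho, q.2.1 <+: p.1 → q'.2.1 <+: p.1 →
    q.2.2 = q'.2.2 → q = q'
  below : ∀ q ∈ s.rho, ∀ p ∈ s.lv, p.1 <+: q.2.1 → p.1 = q.2.1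
  len : ∀ q ∈ s.rho, q.2.2 + 1 ≤ q.2.1.length
  dec : ∀ p ∈ s.lv, ∀ e, 2 * e + 1 < p.2 →
    (∃ q ∈ s.rho, q.2.1 <+: p.1 ∧ q.2.2 = e) ∨ Force Z e p.1
  losing : ∀ q ∈ s.rho, ∀ p ∈ s.lv, q.2.1 <+: p.1 →
    ¬ Big (KK k (2 * q.2.2 + 1)) (Al0 Z g s p.1) (Res Z g s) (T Z (2 * q.2.2 + 1)) p.1

/-- valid states -/
def Valid (k : ℕ) (Z g : ℕ → ℕ) (s : St) : Prop := Inv k Z g s ∧ (Res Z g s).Infinite

/-- the evolution of the set of leaves -/
def LvStep (k : ℕ) (s s' : St) : Prop :=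
  ∃ p ∈ s.lv, p.2 < ns k s ∧ ∃ L : Finset (List ℕ × ℕ), Cut k p.1 L ∧ (∀ q ∈ L, q.2 = p.2 + 1) ∧
    s'.lv = s.lv.erase p ∪ L

/-- finitary part of the step relation; `n` is the new bound -/
def Nx (k : ℕ) (s : St) (n : ℕ) (s' : St) : Prop :=
  LvStep k s s' ∧ s'.b = n ∧ s.b ≤ n ∧ s'.E ⊆ (prs n) ×ˢ (prs n) ∧
    (s'.rho = s.rho ∨ ∃ p ∈ s.lv, ∃ e, p.2 = 2 * e + 1 ∧ s'.rho = insert (sid s, p.1, e) s.rho) ∧
    ∀ p ∈ s'.lv, p.1.Pairwise (· < ·) ∧ ∀ x ∈ p.1, x < n

/-- the new bound: least witness of `Star`, or the old bound -/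
noncomputable def Nf (k : ℕ) (Z g : ℕ → ℕ) (s : St) : ℕ :=
  if h : ∃ n, Star k Z g s n then Nat.find h else s.b

/-- initial state -/
def St.init : St := ⟨0, ∅, ∅, {([], 0)}⟩

/-- runs of the construction -/
structure Run (k : ℕ) (Z g : ℕ → ℕ) (f : ℕ → St) : Prop where
  zero : f 0 = St.init
  valid : ∀ t, Valid k Z g (f t)
  step : ∀ t, Nx k (f t) (Nf k Z g (f t)) (f (t + 1))

/-- the code of a run -/
noncomputable def runCode (f : ℕ → St) : ℕ → ℕ := fun t => Encodable.encode (f t)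

/-- the code of a sequence of leaves -/
def leafCode (r : ℕ → List ℕ × ℕ) : ℕ → ℕ := fun t => Encodable.encode (r t)

/-- the set built along a sequence of leaves -/
noncomputable def HH (r : ℕ → List ℕ × ℕ) : ℕ → ℕ := fun x => if ∃ t, x ∈ (r t).1 then 1 else 0

/-- `H` (as a characteristic function) is rainbow for `c` -/
def Rainbow (c : Col) (H : ℕ → ℕ) : Prop :=
  ∀ a b w a' b' w', a < b → b < w → a' < b' → b' < w' →
    H a = 1 → H b = 1 → H w = 1 → H a' = 1 → H b' = 1 → H w' = 1 →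
    c a b w = c a' b' w' → a = a' ∧ b = b' ∧ w = w'

end Pool.Agent.RR
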