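import Pool.Agent.Helper55.RR.Defs

/-!
# Further definitions: coded functions, histories of leaves
-/

set_option autoImplicit false

namespace Pool.Agent.RR

open Classical

/-- `Nf` as a function on codes; `Y` codes the pair `(Z, g)` -/
noncomputable def nfc (k : ℕ) (Y : ℕ → ℕ) : ℕ → ℕ := fun i =>
  match (Encodable.decode i : Option St) with
  | some s => Nf k (lft Y) (rgt Y) s
  | none => 0

/-- `resc Y ⟨s, m⟩ = 1` iff the reservoir of `s` has an element `≥ m` -/
noncomputable def resc (Y : ℕ → ℕ) : ℕ → ℕ := fun i =>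
  match (Encodable.decode i.unpair.1 : Option St) with
  | some s => if ∃ x, i.unpair.2 ≤ x ∧ x ∈ Res (lft Y) (rgt Y) s then 1 else 0
  | none => 0

/-- a chain of states: the leaf sets form cuts and evolve by `LvStep`, with progress -/
structure Chain (k : ℕ) (f : ℕ → St) : Prop where
  cut : Cut k [] (f 0).lv
  step : ∀ t, LvStep k (f t) (f (t + 1))

/-- a sequence of leaves along a chain of states -/
def LeafSeq (f : ℕ → St) (r : ℕ → List ℕ × ℕ) : Prop :=
  (∀ t, r t ∈ (f t).lv) ∧ ∀ t, (r t).1 <+: (r (t + 1)).1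

/-- the leaf of `f i` below the node `xs` -/
noncomputable def proj (f : ℕ → St) (i : ℕ) (xs : List ℕ) : List ℕ × ℕ :=
  if h : ∃ q ∈ (f i).lv, q.1 <+: xs then h.choose else ([], 0)

/-- the history of a leaf `p` of `f t`, as a function -/
noncomputable def hist (f : ℕ → St) (t : ℕ) (p : List ℕ × ℕ) : ℕ → ℕ := fun i =>
  if i ≤ t then Encodable.encode (proj f i p.1) else 0

/-- the leaves of `f t` whose history forces (by stage `t`) a positive answer to the jump question `e`
about `W ⊕ r` -/
noncomputable def PP (W : ℕ → ℕ) (f : ℕ → St) (e t : ℕ) : Finset (List ℕ × ℕ) :=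
  (f t).lv.filter (fun p => ∃ m ≤ t + 1,
    U e.unpair.1 e.unpair.2 (cd (join W (hist f t p)) m) ≠ 0)

/-- the leaves of `f t` with label at least `n` -/
noncomputable def OO (f : ℕ → St) (n t : ℕ) : Finset (List ℕ × ℕ) :=
  (f t).lv.filter (fun p => n ≤ p.2)

/-- a stage after which the measure of `PP e` grows by at most `2^{-e-5}` -/
noncomputable def tE (k : ℕ) (W : ℕ → ℕ) (f : ℕ → St) (e : ℕ) : ℕ :=
  sInf {t | ∀ t', t ≤ t' → mu k (PP W f e t') ≤ mu k (PP W f e t) + 1 / 2 ^ (e + 5)}

/-- a stage after which the measure of `OO n` grows by at most `2^{-n-5}` -/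
noncomputable def tO (k : ℕ) (f : ℕ → St) (n : ℕ) : ℕ :=
  sInf {t | ∀ t', t ≤ t' → mu k (OO f n t') ≤ mu k (OO f n t) + 1 / 2 ^ (n + 5)}

end Pool.Agent.RR
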