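import Mathlib

/-!
# E1. Rado graphs, the key claim

* `RadoOn.split_pred`: if `(U1, W1)` has no witness in `{x ∈ A | P x}` and `(U2, W2)` has none in
  `{x ∈ A | ¬ P x}` then `(U1 ∪ U2, W1 ∪ W2)` has none in `A`.
* `RadoOn.type`: apply the extension property of `A` to `U ∪ F, W` or `U, W ∪ F`.
* `RadoOn.infinite_witness`: given finitely many witnesses, apply the extension property with these added
  to `U` (a witness is not in `U ∪ W`).
* `key_claim`: let `B0` be the set of `v ∈ A \ F` of type `ε` over `F`, `B ⊆ B0` Rado with constant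
  adjacency to each `j < m0` (`split_pred`, `m0` times).  Pick `x ∈ B`, `x ≥ m0`, `L = x + 1`.
  Strings: `ρ v = {j < L | Adj v j}`.  Let `R` be the (finite) set of `ρ` such that `B^ρ = {v ∈ B | ρ v = ρ}`
  is infinite; `R` has two elements, since `B` has infinitely many neighbours and infinitely many
  non-neighbours of `x`.  For `ρ ∈ R` pick `y_ρ ∈ B^ρ`, larger than `L`, all elements of `F` and all `y0 m`,
  `m < L`.  The set of `w ∈ B` with `Adj w y_ρ ↔ η` for all `ρ ∈ R` is infinite, so it has infinitely many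
  elements in one `B^ρ'`, and `ρ' ∈ R`.  Take `ρ ∈ R`, `ρ ≠ ρ'`, `y = y_ρ`, and `w` in this set, large.
  `split G y w` is the least `j` in the symmetric difference of `ρ` and `ρ'`; it is `≥ m0` and `< L`.
-/

set_option autoImplicit false

namespace Pool.Agent.RR

open Classical

/-- the subgraph of `G` induced on `A` has the extension property, i.e. is a Rado graph -/
def RadoOn (G : SimpleGraph ℕ) (A : Set ℕ) : Prop :=
  ∀ U W : Finset ℕ, (U : Set ℕ) ⊆ A → (W : Set ℕ) ⊆ A → Disjoint U W →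
    ∃ v ∈ A, v ∉ U ∧ v ∉ W ∧ (∀ u ∈ U, G.Adj v u) ∧ ∀ w ∈ W, ¬ G.Adj v w

/-- the least `j < y` at which the adjacencies of `y` and `w` differ, or `y` if there is none -/
noncomputable def split (G : SimpleGraph ℕ) (y w : ℕ) : ℕ :=
  sInf {j | j = y ∨ (j < y ∧ ¬ (G.Adj y j ↔ G.Adj w j))}

theorem RadoOn.split_pred {G : SimpleGraph ℕ} {A : Set ℕ} (h : RadoOn G A) (P : ℕ → Prop) :
    RadoOn G {x | x ∈ A ∧ P x} ∨ RadoOn G {x | x ∈ A ∧ ¬ P x} := by
  by_contra hcon
  rw [not_or] at hcon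
  obtain ⟨h1, h2⟩ := hcon
  unfold RadoOn at h1 h2
  push Not at h1 h2
  obtain ⟨U1, W1, hU1, hW1, hd1, hn1⟩ := h1
  obtain ⟨U2, W2, hU2, hW2, hd2, hn2⟩ := h2
  obtain ⟨v, hvA, hvU, hvW, hU, hW⟩ := h (U1 ∪ U2) (W1 ∪ W2)
    (by
      intro x hx
      rw [Finset.mem_coe, Finset.mem_union] at hx
      rcases hx with hx | hx
      · exact (hU1 hx).1
      · exact (hU2 hx).1)
    (by
      intro x hx
      rw [Finset.mem_coe, Finset.mem_union] at hx
      rcases hx with hx | hx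
      · exact (hW1 hx).1
      · exact (hW2 hx).1)
    (by
      rw [Finset.disjoint_left]
      intro x hx hx'
      rw [Finset.mem_union] at hx hx'
      rcases hx with hx | hx <;> rcases hx' with hx' | hx'
      · exact Finset.disjoint_left.1 hd1 hx hx'
      · exact (hW2 hx').2 (hU1 hx).2
      · exact (hU2 hx).2 (hW1 hx').2
      · exact Finset.disjoint_left.1 hd2 hx hx')
  rw [Finset.mem_union, not_or] at hvU hvW
  by_cases hP : P v
  · obtain ⟨w, hw, hvw⟩ := hn1 v ⟨hvA, hP⟩ hvU.1 hvW.1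
      (fun u hu => hU u (Finset.mem_union_left _ hu))
    exact hW w (Finset.mem_union_left _ hw) hvw
  · obtain ⟨w, hw, hvw⟩ := hn2 v ⟨hvA, hP⟩ hvU.2 hvW.2
      (fun u hu => hU u (Finset.mem_union_right _ hu))
    exact hW w (Finset.mem_union_right _ hw) hvw

theorem RadoOn.type {G : SimpleGraph ℕ} {A : Set ℕ} (h : RadoOn G A) (F : Finset ℕ)
    (hF : (F : Set ℕ) ⊆ A) (ε : Prop) :
    RadoOn G {v | v ∈ A ∧ v ∉ F ∧ ∀ x ∈ F, (G.Adj x v ↔ ε)} := by
  intro U W hU hW hd
  by_cases hε : ε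
  · obtain ⟨v, hvA, hvU, hvW, h1, h2⟩ := h (U ∪ F) W
      (by
        intro x hx
        rw [Finset.mem_coe, Finset.mem_union] at hx
        rcases hx with hx | hx
        · exact (hU hx).1
        · exact hF hx)
      (fun x hx => (hW hx).1)
      (by
        rw [Finset.disjoint_left]
        intro x hx hx'
        rw [Finset.mem_union] at hx
        rcases hx with hx | hx
        · exact Finset.disjoint_left.1 hd hx hx'
        · exact (hW hx').2.1 hx)
    rw [Finset.mem_union, not_or] at hvU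
    refine ⟨v, ⟨hvA, hvU.2, fun x hx => ?_⟩, hvU.1, hvW,
      fun u hu => h1 u (Finset.mem_union_left _ hu), h2⟩
    exact ⟨fun _ => hε, fun _ => (h1 x (Finset.mem_union_right _ hx)).symm⟩
  · obtain ⟨v, hvA, hvU, hvW, h1, h2⟩ := h U (W ∪ F)
      (fun x hx => (hU hx).1)
      (by
        intro x hx
        rw [Finset.mem_coe, Finset.mem_union] at hx
        rcases hx with hx | hx
        · exact (hW hx).1
        · exact hF hx)
      (by
        rw [Finset.disjoint_left]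
        intro x hx hx'
        rw [Finset.mem_union] at hx'
        rcases hx' with hx' | hx'
        · exact Finset.disjoint_left.1 hd hx hx'
        · exact (hU hx).2.1 hx')
    rw [Finset.mem_union, not_or] at hvW
    refine ⟨v, ⟨hvA, hvW.2, fun x hx => ?_⟩, hvU, hvW.1, h1,
      fun u hu => h2 u (Finset.mem_union_left _ hu)⟩
    exact ⟨fun hadj => absurd hadj.symm (h2 x (Finset.mem_union_right _ hx)),
      fun he => absurd he hε⟩

theorem RadoOn.infinite_witness {G : SimpleGraph ℕ} {A : Set ℕ} (h : RadoOn G A)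
    (U W : Finset ℕ) (hU : (U : Set ℕ) ⊆ A) (hW : (W : Set ℕ) ⊆ A) (hd : Disjoint U W) :
    {v | v ∈ A ∧ (∀ u ∈ U, G.Adj v u) ∧ ∀ w ∈ W, ¬ G.Adj v w}.Infinite := by
  intro hfin
  obtain ⟨v, hvA, hvU, hvW, h1, h2⟩ := h (U ∪ (hfin.toFinset \ W)) W
    (by
      intro x hx
      rw [Finset.mem_coe, Finset.mem_union, Finset.mem_sdiff] at hx
      rcases hx with hx | hx
      · exact hU hx
      · exact ((Set.Finite.mem_toFinset hfin).1 hx.1).1)
    hW
    (by
      rw [Finset.disjoint_left]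
      intro x hx hx'
      rw [Finset.mem_union, Finset.mem_sdiff] at hx
      rcases hx with hx | hx
      · exact Finset.disjoint_left.1 hd hx hx'
      · exact hx.2 hx')
  apply hvU
  rw [Finset.mem_union, Finset.mem_sdiff]
  refine Or.inr ⟨?_, hvW⟩
  rw [Set.Finite.mem_toFinset]
  exact ⟨hvA, fun u hu => h1 u (Finset.mem_union_left _ hu), h2⟩

theorem key_claim {G : SimpleGraph ℕ} {A : Set ℕ} (hA : RadoOn G A) (F : Finset ℕ)
    (hF : (F : Set ℕ) ⊆ A) (ε η : Prop) (m0 : ℕ) (y0 : ℕ → ℕ) (w0 : ℕ → ℕ → ℕ) :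
    ∃ y ∈ A, ∃ w ∈ A, y < w ∧ (∀ x ∈ F, x < y) ∧
      (∀ x ∈ F, (G.Adj x y ↔ ε) ∧ (G.Adj x w ↔ ε)) ∧ (G.Adj y w ↔ η) ∧
      m0 ≤ split G y w ∧ split G y w < y ∧ y0 (split G y w) ≤ y ∧ w0 (split G y w) y ≤ w := by
  have hB0 := hA.type F hF ε
  set B0 : Set ℕ := {v | v ∈ A ∧ v ∉ F ∧ ∀ x ∈ F, (G.Adj x v ↔ ε)} with hB0def
  -- constant adjacency below `m0`
  have hB : ∃ B : Set ℕ, B ⊆ B0 ∧ RadoOn G B ∧
      ∀ j < m0, ∀ v ∈ B, ∀ v' ∈ B, (G.Adj v j ↔ G.Adj v' j) := by
    clear_value B0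
    induction m0 with
    | zero => exact ⟨B0, subset_rfl, hB0, fun j hj => absurd hj (Nat.not_lt_zero j)⟩
    | succ m ih =>
      obtain ⟨B, hBs, hBr, hBc⟩ := ih
      rcases hBr.split_pred (fun v => G.Adj v m) with h | h
      · refine ⟨_, fun x hx => hBs hx.1, h, ?_⟩
        intro j hj v hv v' hv'
        rcases Nat.lt_succ_iff_lt_or_eq.1 hj with hj | rfl
        · exact hBc j hj v hv.1 v' hv'.1
        · exact ⟨fun _ => hv'.2, fun _ => hv.2⟩
      · refine ⟨_, fun x hx => hBs hx.1, h, ?_⟩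
        intro j hj v hv v' hv'
        rcases Nat.lt_succ_iff_lt_or_eq.1 hj with hj | rfl
        · exact hBc j hj v hv.1 v' hv'.1
        · exact ⟨fun h => absurd h hv.2, fun h => absurd h hv'.2⟩
  obtain ⟨B, hBs, hBr, hBc⟩ := hB
  obtain ⟨x, ⟨hxB, -⟩, hx⟩ := (hBr.infinite_witness ∅ ∅ (by simp) (by simp)
    (Finset.disjoint_empty_left _)).exists_gt m0
  -- bounds
  set N0 : ℕ := (x + 1) + F.sup id + (Finset.range (x + 1)).sup y0 with hN0
  obtain ⟨y1, ⟨hy1B, hy1x, -⟩, hy1⟩ := (hBr.infinite_witness {x} ∅ (by simpa using hxB) (by simp)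
    (Finset.disjoint_empty_right _)).exists_gt N0
  obtain ⟨y2, ⟨hy2B, -, hy2x⟩, hy2⟩ := (hBr.infinite_witness ∅ {x} (by simp) (by simpa using hxB)
    (Finset.disjoint_empty_left _)).exists_gt N0
  replace hy1x : G.Adj y1 x := hy1x x (Finset.mem_singleton_self x)
  replace hy2x : ¬ G.Adj y2 x := hy2x x (Finset.mem_singleton_self x)
  set M0 : ℕ := y1 + y2 + (Finset.range (x + 1)).sup (fun j => w0 j y1) +
    (Finset.range (x + 1)).sup (fun j => w0 j y2) with hM0
  have hyB : (({y1, y2} : Finset ℕ) : Set ℕ) ⊆ B := by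
    intro z hz
    rw [Finset.mem_coe, Finset.mem_insert, Finset.mem_singleton] at hz
    rcases hz with rfl | rfl
    · exact hy1B
    · exact hy2B
  obtain ⟨w, hwB, hw1, hw2, hw⟩ : ∃ w ∈ B, (G.Adj y1 w ↔ η) ∧ (G.Adj y2 w ↔ η) ∧ M0 < w := by
    by_cases hη : η
    · obtain ⟨w, ⟨hwB, h1, -⟩, hw⟩ := (hBr.infinite_witness {y1, y2} ∅ hyB (by simp)
        (Finset.disjoint_empty_right _)).exists_gt M0
      refine ⟨w, hwB, ⟨fun _ => hη, fun _ => (h1 y1 (by simp)).symm⟩,
        ⟨fun _ => hη, fun _ => (h1 y2 (by simp)).symm⟩, hw⟩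
    · obtain ⟨w, ⟨hwB, -, h1⟩, hw⟩ := (hBr.infinite_witness ∅ {y1, y2} (by simp) hyB
        (Finset.disjoint_empty_left _)).exists_gt M0
      refine ⟨w, hwB, ⟨fun h => absurd h.symm (h1 y1 (by simp)), fun h => absurd h hη⟩,
        ⟨fun h => absurd h.symm (h1 y2 (by simp)), fun h => absurd h hη⟩, hw⟩
  -- the choice of `y`
  have fin : ∀ y ∈ B, N0 < y → y ≤ M0 → (∀ j < x + 1, w0 j y ≤ M0) → (G.Adj y w ↔ η) →
      ¬ (G.Adj y x ↔ G.Adj w x) →
      ∃ y ∈ A, ∃ w ∈ A, y < w ∧ (∀ x ∈ F, x < y) ∧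
      (∀ x ∈ F, (G.Adj x y ↔ ε) ∧ (G.Adj x w ↔ ε)) ∧ (G.Adj y w ↔ η) ∧
      m0 ≤ split G y w ∧ split G y w < y ∧ y0 (split G y w) ≤ y ∧ w0 (split G y w) y ≤ w := by
    intro y hyB' hy hyM hwM hyw hdiff
    have hy0 := hBs hyB'
    have hw0' := hBs hwB
    have hmem : x ∈ {j | j = y ∨ (j < y ∧ ¬ (G.Adj y j ↔ G.Adj w j))} :=
      Or.inr ⟨by omega, hdiff⟩
    have hsx : split G y w ≤ x := Nat.sInf_le hmem
    have hsm : m0 ≤ split G y w := by
      have hs := Nat.sInf_mem ⟨x, hmem⟩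
      rcases hs with hs | ⟨-, hs⟩
      · have hs' : split G y w = y := hs
        omega
      · by_contra hlt
        push Not at hlt
        exact hs (hBc (split G y w) hlt y hyB' w hwB)
    refine ⟨y, hy0.1, w, hw0'.1, by omega, ?_, fun z hz => ⟨hy0.2.2 z hz, hw0'.2.2 z hz⟩, hyw, hsm,
      by omega, ?_, ?_⟩
    · intro z hz
      have : z ≤ F.sup id := Finset.le_sup (f := id) hz
      omega
    · have : y0 (split G y w) ≤ (Finset.range (x + 1)).sup y0 :=
        Finset.le_sup (f := y0) (Finset.mem_range.2 (by omega))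
      omega
    · have := hwM (split G y w) (by omega)
      omega
  by_cases hwx : G.Adj w x
  · refine fin y2 hy2B hy2 (by omega) (fun j hj => ?_) hw2 (fun h => hy2x (h.2 hwx))
    have : w0 j y2 ≤ (Finset.range (x + 1)).sup (fun j => w0 j y2) :=
      Finset.le_sup (f := fun j => w0 j y2) (Finset.mem_range.2 hj)
    omega
  · refine fin y1 hy1B hy1 (by omega) (fun j hj => ?_) hw1 (fun h => hwx (h.1 hy1x))
    have : w0 j y1 ≤ (Finset.range (x + 1)).sup (fun j => w0 j y1) :=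
      Finset.le_sup (f := fun j => w0 j y1) (Finset.mem_range.2 hj)
    omega

end Pool.Agent.RR
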