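import Pool.Agent.Helper55.RR.E1

/-!
# E2. The colouring

`L i m y w n` is the stage `(m, y, w)` approximation to `n ∈ A_i`.

`pcol_bdd`: the pairs `pr i` (for fixed `y, w`) are disjoint for different `i`; so the colour `v` determines
`y, w` and `rep a = v'`; if `v'` is in some pair, then `a` is in this pair, otherwise `a = v'`.

`pcol_diag`: `A` is infinite; let `f 0 < … < f (2 i + 1)` be its first `2 i + 2` elements, `F` their set.  For
`∀ᶠ m, ∀ᶠ y, ∀ᶠ w` the approximations at all `n ≤ f (2 i + 1)` are correct; so there are `m0`, `y0 m`,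
`w0 m y` such that for `m ≥ m0`, `y ≥ y0 m`, `w ≥ w0 m y` they are correct (choose `y0 m`, `w0 m y`
large, `y0 m > i` and `> f (2 i + 1)`).  Then for `m = split G y w`: `fst (L i m y w) y (2 i + 2) = F`, and
`used … i` has at most `2 i` elements, so `pr i` is a pair `{a, a'} ⊆ F`.  Take `y, w` from `key_claim`.
-/

set_option autoImplicit false

namespace Pool.Agent.RR

open Classical

/-- the first `N` elements of `{n < y | P n}` -/
noncomputable def fstN (P : ℕ → Prop) (y N : ℕ) : Finset ℕ :=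
  ((((Finset.range y).filter P).sort (· ≤ ·)).take N).toFinset

/-- the first two elements of `S` if `S` has at least two elements, otherwise `∅` -/
noncomputable def two (S : Finset ℕ) : Finset ℕ :=
  if 2 ≤ S.card then ((S.sort (· ≤ ·)).take 2).toFinset else ∅

/-- elements used in the pairs with index `< i` -/
noncomputable def used (L : ℕ → ℕ → Prop) (y : ℕ) : ℕ → Finset ℕ
  | 0 => ∅
  | i + 1 => used L y i ∪ two (fstN (L i) y (2 * i + 2) \ used L y i)

/-- the `i`-th pair (or `∅`) -/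
noncomputable def pr (L : ℕ → ℕ → Prop) (y i : ℕ) : Finset ℕ :=
  two (fstN (L i) y (2 * i + 2) \ used L y i)

/-- the representative of `a` -/
noncomputable def rep (L : ℕ → ℕ → Prop) (y a : ℕ) : ℕ :=
  if h : ∃ i < y, a ∈ pr L y i then sInf {b | b ∈ pr L y h.choose} else a

/-- the colour of `{a < y < w}` -/
noncomputable def pcol (G : SimpleGraph ℕ) (L : ℕ → ℕ → ℕ → ℕ → ℕ → Prop) (a y w : ℕ) : ℕ :=
  Nat.pair (rep (fun i => L i (split G y w) y w) y a) (Nat.pair y w)

/-! ### auxiliary lemmas -/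

theorem two_subset (S : Finset ℕ) : two S ⊆ S := by
  unfold two
  split_ifs with h
  · intro x hx
    rw [List.mem_toFinset] at hx
    exact (Finset.mem_sort _).1 (List.mem_of_mem_take hx)
  · exact Finset.empty_subset _

theorem two_card_le (S : Finset ℕ) : (two S).card ≤ 2 := by
  unfold two
  split_ifs with h
  · exact (List.toFinset_card_le _).trans (List.length_take_le _ _)
  · simp

theorem two_card_eq (S : Finset ℕ) (h : 2 ≤ S.card) : (two S).card = 2 := by
  unfold two
  rw [if_pos h, List.toFinset_card_of_nodup]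
  · rw [List.length_take, Finset.length_sort]
    exact min_eq_left h
  · exact (Finset.sort_nodup S (· ≤ ·)).sublist (List.take_sublist _ _)

theorem used_mono (L : ℕ → ℕ → Prop) (y : ℕ) {i j : ℕ} (h : i ≤ j) :
    used L y i ⊆ used L y j := by
  induction j, h using Nat.le_induction with
  | base => exact subset_rfl
  | succ j _ ih => exact ih.trans (by
      intro x hx
      exact Finset.mem_union_left _ hx)

theorem pr_subset_used (L : ℕ → ℕ → Prop) (y i : ℕ) : pr L y i ⊆ used L y (i + 1) := by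
  intro x hx
  exact Finset.mem_union_right _ hx

theorem pr_not_used (L : ℕ → ℕ → Prop) (y i a : ℕ) (h : a ∈ pr L y i) : a ∉ used L y i := by
  have := two_subset _ h
  exact (Finset.mem_sdiff.1 this).2

theorem pr_index (L : ℕ → ℕ → Prop) (y i j a : ℕ) (hi : a ∈ pr L y i) (hj : a ∈ pr L y j) :
    i = j := by
  rcases lt_trichotomy i j with h | h | h
  · exact absurd (used_mono L y h (pr_subset_used L y i hi)) (pr_not_used L y j a hj)
  · exact h
  · exact absurd (used_mono L y h (pr_subset_used L y j hj)) (pr_not_used L y i a hi)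

theorem used_card (L : ℕ → ℕ → Prop) (y i : ℕ) : (used L y i).card ≤ 2 * i := by
  induction i with
  | zero => simp [used]
  | succ i ih =>
    have h1 := Finset.card_union_le (used L y i) (two (fstN (L i) y (2 * i + 2) \ used L y i))
    have h2 := two_card_le (fstN (L i) y (2 * i + 2) \ used L y i)
    show (used L y i ∪ two (fstN (L i) y (2 * i + 2) \ used L y i)).card ≤ 2 * (i + 1)
    omega

theorem rep_of_mem (L : ℕ → ℕ → Prop) (y i a : ℕ) (hi : i < y) (h : a ∈ pr L y i) :
    rep L y a = sInf {b | b ∈ pr L y i} := by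
  have hex : ∃ i < y, a ∈ pr L y i := ⟨i, hi, h⟩
  unfold rep
  rw [dif_pos hex]
  have := pr_index L y _ i a hex.choose_spec.2 h
  rw [this]

theorem rep_of_not (L : ℕ → ℕ → Prop) (y a : ℕ) (h : ¬ ∃ i < y, a ∈ pr L y i) :
    rep L y a = a := by
  unfold rep
  rw [dif_neg h]

theorem rep_fibre (L : ℕ → ℕ → Prop) (y v : ℕ) :
    ∃ S : Finset ℕ, S.card ≤ 2 ∧ ∀ a, rep L y a = v → a ∈ S := by
  by_cases hv : ∃ i < y, v ∈ pr L y i
  · obtain ⟨i, hi, hvi⟩ := hv
    refine ⟨pr L y i, two_card_le _, ?_⟩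
    intro a ha
    by_cases hex : ∃ j < y, a ∈ pr L y j
    · obtain ⟨j, hj, haj⟩ := hex
      rw [rep_of_mem L y j a hj haj] at ha
      have hm : sInf {b | b ∈ pr L y j} ∈ {b | b ∈ pr L y j} := Nat.sInf_mem ⟨a, haj⟩
      rw [ha] at hm
      have := pr_index L y i j v hvi hm
      rw [this]
      exact haj
    · rw [rep_of_not L y a hex] at ha
      subst ha
      exact absurd ⟨i, hi, hvi⟩ hex
  · refine ⟨{v}, by simp, ?_⟩
    intro a ha
    by_cases hex : ∃ j < y, a ∈ pr L y j
    · obtain ⟨j, hj, haj⟩ := hex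
      rw [rep_of_mem L y j a hj haj] at ha
      have hm : sInf {b | b ∈ pr L y j} ∈ {b | b ∈ pr L y j} := Nat.sInf_mem ⟨a, haj⟩
      rw [ha] at hm
      exact absurd ⟨j, hj, hm⟩ hv
    · rw [rep_of_not L y a hex] at ha
      simpa using ha

theorem pcol_bdd (G : SimpleGraph ℕ) (L : ℕ → ℕ → ℕ → ℕ → ℕ → Prop) (v : ℕ) :
    {t : ℕ × ℕ × ℕ | t.1 < t.2.1 ∧ t.2.1 < t.2.2 ∧ pcol G L t.1 t.2.1 t.2.2 = v}.encard ≤ 2 := by
  obtain ⟨S, hS, hfib⟩ := rep_fibre
    (fun i => L i (split G v.unpair.2.unpair.1 v.unpair.2.unpair.2) v.unpair.2.unpair.1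
      v.unpair.2.unpair.2) v.unpair.2.unpair.1 v.unpair.1
  have hsub : {t : ℕ × ℕ × ℕ | t.1 < t.2.1 ∧ t.2.1 < t.2.2 ∧ pcol G L t.1 t.2.1 t.2.2 = v} ⊆
      ((S.image (fun a => (a, v.unpair.2.unpair.1, v.unpair.2.unpair.2)) :
        Finset (ℕ × ℕ × ℕ)) : Set (ℕ × ℕ × ℕ)) := by
    rintro ⟨a, y, w⟩ ⟨-, -, h⟩
    simp only [pcol] at h
    have h1 : v.unpair.1 = rep (fun i => L i (split G y w) y w) y a := by
      rw [← h, Nat.unpair_pair]
    have h2 : v.unpair.2 = Nat.pair y w := by
      rw [← h, Nat.unpair_pair]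
    have hy : v.unpair.2.unpair.1 = y := by rw [h2, Nat.unpair_pair]
    have hw : v.unpair.2.unpair.2 = w := by rw [h2, Nat.unpair_pair]
    rw [hy, hw] at hfib ⊢
    rw [Finset.mem_coe, Finset.mem_image]
    exact ⟨a, hfib a h1.symm, rfl⟩
  calc _ ≤ ((S.image (fun a => (a, v.unpair.2.unpair.1, v.unpair.2.unpair.2)) :
        Finset (ℕ × ℕ × ℕ)) : Set (ℕ × ℕ × ℕ)).encard := Set.encard_le_encard hsub
    _ ≤ 2 := by
      rw [Set.encard_coe_eq_coe_finsetCard]
      exact_mod_cast Finset.card_image_le.trans hS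

theorem fstN_eq (P : ℕ → Prop) (y M N : ℕ) (hM : M ≤ y)
    (hN : ((Finset.range M).filter P).card = N) :
    fstN P y N = (Finset.range M).filter P := by
  have hsort : ∀ y, ((Finset.range y).filter P).sort (· ≤ ·) =
      (List.range y).filter (fun n => decide (P n)) := by
    intro y
    have hnd : ((List.range y).filter (fun n => decide (P n))).Nodup :=
      List.Nodup.filter _ List.nodup_range
    have hs : ((List.range y).filter (fun n => decide (P n))).Pairwise (· ≤ ·) :=
      List.Pairwise.filter _ (List.pairwise_le_range)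
    have hto : (Finset.range y).filter P =
        ((List.range y).filter (fun n => decide (P n))).toFinset := by
      ext x
      simp
    rw [hto]
    exact (List.toFinset_sort (· ≤ ·) hnd).2 hs
  unfold fstN
  rw [hsort y]
  obtain ⟨k, rfl⟩ := Nat.exists_eq_add_of_le hM
  rw [List.range_add, List.filter_append]
  have hlen : ((List.range M).filter (fun n => decide (P n))).length = N := by
    rw [← hsort M, Finset.length_sort, hN]
  rw [List.take_left' hlen]
  ext x
  simp

theorem pcol_diag {G : SimpleGraph ℕ} {A : Set ℕ} (hA : RadoOn G A)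
    (L : ℕ → ℕ → ℕ → ℕ → ℕ → Prop) (i : ℕ)
    (hL : ∀ n, ∃ m0, ∀ m ≥ m0, ∃ y0, ∀ y ≥ y0, ∃ w0, ∀ w ≥ w0, (L i m y w n ↔ n ∈ A))
    (ε η : Prop) :
    ∃ a ∈ A, ∃ a' ∈ A, ∃ y ∈ A, ∃ w ∈ A, a ≠ a' ∧ a < y ∧ a' < y ∧ y < w ∧
      (G.Adj a y ↔ ε) ∧ (G.Adj a w ↔ ε) ∧ (G.Adj a' y ↔ ε) ∧ (G.Adj a' w ↔ ε) ∧
      (G.Adj y w ↔ η) ∧ pcol G L a y w = pcol G L a' y w := by
  have hinf : A.Infinite := by
    have := hA.infinite_witness ∅ ∅ (by simp) (by simp) (Finset.disjoint_empty_left _)
    exact this.mono (fun x hx => hx.1)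
  obtain ⟨M, hM⟩ : ∃ M, ((Finset.range M).filter (· ∈ A)).card = 2 * i + 2 := by
    refine ⟨Nat.nth (· ∈ A) (2 * i + 2), ?_⟩
    rw [← Nat.count_eq_card_filter_range]
    exact Nat.count_nth_of_infinite hinf _
  -- simultaneous approximation below `M`
  have hLM : ∀ M, ∃ m0, ∀ m ≥ m0, ∃ y0, ∀ y ≥ y0, ∃ w0, ∀ w ≥ w0, ∀ n < M,
      (L i m y w n ↔ n ∈ A) := by
    intro M
    induction M with
    | zero => exact ⟨0, fun m _ => ⟨0, fun y _ => ⟨0, fun w _ n hn => absurd hn (Nat.not_lt_zero n)⟩⟩⟩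
    | succ M ih =>
      obtain ⟨m0, hm0⟩ := ih
      obtain ⟨m1, hm1⟩ := hL M
      refine ⟨max m0 m1, fun m hm => ?_⟩
      obtain ⟨y0, hy0⟩ := hm0 m (le_trans (le_max_left _ _) hm)
      obtain ⟨y1, hy1⟩ := hm1 m (le_trans (le_max_right _ _) hm)
      refine ⟨max y0 y1, fun y hy => ?_⟩
      obtain ⟨w0, hw0⟩ := hy0 y (le_trans (le_max_left _ _) hy)
      obtain ⟨w1, hw1⟩ := hy1 y (le_trans (le_max_right _ _) hy)
      refine ⟨max w0 w1, fun w hw n hn => ?_⟩
      rcases Nat.lt_succ_iff_lt_or_eq.1 hn with hn | rfl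
      · exact hw0 w (le_trans (le_max_left _ _) hw) n hn
      · exact hw1 w (le_trans (le_max_right _ _) hw)
  obtain ⟨m0, hm0⟩ := hLM M
  choose! y0 hy0 using hm0
  choose! w0 hw0 using hy0
  obtain ⟨y, hyA, w, hwA, hyw, hFy, hadj, hη, h1, h2, h3, h4⟩ := key_claim hA
    ((Finset.range M).filter (· ∈ A)) (by intro x hx; simpa using (Finset.mem_filter.1 hx).2)
    ε η m0 (fun m => max (y0 m) (max (i + 1) M)) w0
  set m := split G y w with hm
  have h3a : y0 m ≤ y := le_trans (le_max_left _ _) h3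
  have h3b : i + 1 ≤ y := le_trans (le_trans (le_max_left _ _) (le_max_right _ _)) h3
  have h3c : M ≤ y := le_trans (le_trans (le_max_right _ _) (le_max_right _ _)) h3
  have hcorr := hw0 m h1 y h3a w h4
  set L' : ℕ → ℕ → Prop := fun i => L i m y w with hL'
  have hfst : fstN (L' i) y (2 * i + 2) = (Finset.range M).filter (· ∈ A) := by
    have hf : (Finset.range M).filter (L' i) = (Finset.range M).filter (· ∈ A) := by
      apply Finset.filter_congr
      intro n hn
      exact hcorr n (Finset.mem_range.1 hn)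
    rw [← hf]
    apply fstN_eq _ _ _ _ h3c
    rw [hf, hM]
  have hcard : 2 ≤ (fstN (L' i) y (2 * i + 2) \ used L' y i).card := by
    have h5 := Finset.le_card_sdiff (used L' y i) (fstN (L' i) y (2 * i + 2))
    have h6 := used_card L' y i
    rw [hfst, hM] at h5
    rw [hfst]
    omega
  have hpr : (pr L' y i).card = 2 := two_card_eq _ hcard
  obtain ⟨a, a', hne, haa⟩ := Finset.card_eq_two.1 hpr
  have hsub : ∀ x ∈ pr L' y i, x ∈ (Finset.range M).filter (· ∈ A) := by
    intro x hx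
    have := (Finset.mem_sdiff.1 (two_subset _ hx)).1
    rwa [hfst] at this
  have ha : a ∈ pr L' y i := by rw [haa]; simp
  have ha' : a' ∈ pr L' y i := by rw [haa]; simp
  have haF := hsub a ha
  have haF' := hsub a' ha'
  refine ⟨a, (Finset.mem_filter.1 haF).2, a', (Finset.mem_filter.1 haF').2, y, hyA, w, hwA, hne,
    hFy a haF, hFy a' haF', hyw, (hadj a haF).1, (hadj a haF).2, (hadj a' haF').1,
    (hadj a' haF').2, hη, ?_⟩
  unfold pcol
  rw [← hm]
  show Nat.pair (rep L' y a) _ = Nat.pair (rep L' y a') _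
  rw [rep_of_mem L' y i a (by omega) ha, rep_of_mem L' y i a' (by omega) ha']

end Pool.Agent.RR
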