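import Pool.Agent.Helper55.RR.A3
import Pool.Agent.Helper55.RR.E2

/-!
# E3. A colouring without rainbow Rado sets below the third jump

Approximations: for a real `Z`
`A1 Z w k = 1` iff `∃ m < w, U k.1 k.2 (cd Z m) ≠ 0` (else 0),
`A2 Z y w k = 1` iff `∃ m < y, U k.1 k.2 (cd (A1 Z w) m) ≠ 0`,
`A3 Z m y w k = 1` iff `∃ j < m, U k.1 k.2 (cd (A2 Z y w) j) ≠ 0`,
`L Z i m y w n` iff `∃ j < m, U i n (cd (A3 Z m y w) j) = 2`.
For fixed `j0`: for all large `m`, all large `y` (dep. on `m`), all large `w` (dep. on `m, y`)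
`A3 Z m y w k = J (J (J Z)) k` for all `k < j0`: for fixed `y` and all large `w` `A1 Z w` agrees with `J Z`
below `y`, so `A2 Z y w k = [∃ m < y, U k (cd (J Z) m) ≠ 0]` for the finitely many `k` needed; etc.
If `A ≤ J (J (J Z))`, `A` the characteristic function of a set, `U_universal` gives `i` with
`A n = v ↔ ∃ j, U i n (cd (J (J (J Z))) j) = v + 1`; by the monotonicity clause of `Universal` (applied to
`A3 Z m y w`), `L Z i m y w n ↔ A n = 1` for large `m`, large `y`, large `w`.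
The colouring `c ⟨a, ⟨y, w⟩⟩ = pcol G (L Z) a y w` is the value of a continuous operator of
`join Z (gcode G)` (finitely many values of `Z` and of the adjacency are used; `G` is decoded from
`gcode G`), so `c ≤ join Z (gcode G) ≤ Z` by `cont`.
-/

set_option autoImplicit false

namespace Pool.Agent.RR

open Classical

/-- the characteristic function of the adjacency relation -/
noncomputable def gcode (G : SimpleGraph ℕ) : ℕ → ℕ := fun n =>
  if G.Adj n.unpair.1 n.unpair.2 then 1 else 0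

/-- stage `t` of the jump -/
noncomputable def Ap (X : ℕ → ℕ) (t : ℕ) : ℕ → ℕ := fun k =>
  if ∃ m < t, U k.unpair.1 k.unpair.2 (cd X m) ≠ 0 then 1 else 0

theorem ap_congr {X Y : ℕ → ℕ} {t : ℕ} (h : ∀ i < t, X i = Y i) : Ap X t = Ap Y t := by
  funext k
  have h1 : (∃ m < t, U k.unpair.1 k.unpair.2 (cd X m) ≠ 0) ↔
      ∃ m < t, U k.unpair.1 k.unpair.2 (cd Y m) ≠ 0 := by
    constructor
    · rintro ⟨m, hm, h0⟩
      exact ⟨m, hm, by rwa [← cd_congr fun i hi => h i (hi.trans hm)]⟩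
    · rintro ⟨m, hm, h0⟩
      exact ⟨m, hm, by rwa [cd_congr fun i hi => h i (hi.trans hm)]⟩
  simp only [Ap, h1]

theorem ap_lim (X : ℕ → ℕ) (j0 : ℕ) : ∃ t0, ∀ t ≥ t0, ∀ k < j0, Ap X t k = J X k := by
  induction j0 with
  | zero => exact ⟨0, fun t _ k hk => absurd hk (Nat.not_lt_zero k)⟩
  | succ j ih =>
    obtain ⟨t0, h0⟩ := ih
    by_cases h : ∃ m, U j.unpair.1 j.unpair.2 (cd X m) ≠ 0
    · obtain ⟨m, hm⟩ := h
      refine ⟨max t0 (m + 1), fun t ht k hk => ?_⟩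
      rcases Nat.lt_succ_iff_lt_or_eq.1 hk with hk | rfl
      · exact h0 t (le_trans (le_max_left _ _) ht) k hk
      · have hmt : m < t := lt_of_lt_of_le (Nat.lt_succ_self m) (le_trans (le_max_right _ _) ht)
        rw [Ap, J, if_pos ⟨m, hmt, hm⟩, if_pos ⟨m, hm⟩]
    · refine ⟨t0, fun t ht k hk => ?_⟩
      rcases Nat.lt_succ_iff_lt_or_eq.1 hk with hk | rfl
      · exact h0 t ht k hk
      · rw [Ap, J, if_neg (fun ⟨m, _, hm⟩ => h ⟨m, hm⟩), if_neg h]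

theorem ap3_lim (Z : ℕ → ℕ) (j0 : ℕ) : ∃ m0, ∀ m ≥ m0, ∃ y0, ∀ y ≥ y0, ∃ w0, ∀ w ≥ w0,
    ∀ k < j0, Ap (Ap (Ap Z w) y) m k = J (J (J Z)) k := by
  obtain ⟨m0, h0⟩ := ap_lim (J (J Z)) j0
  refine ⟨m0, fun m hm => ?_⟩
  obtain ⟨y0, h1⟩ := ap_lim (J Z) m
  refine ⟨y0, fun y hy => ?_⟩
  obtain ⟨w0, h2⟩ := ap_lim Z y
  refine ⟨w0, fun w hw k hk => ?_⟩
  rw [ap_congr (h2 w hw), ap_congr (h1 y hy)]
  exact h0 m hm k hk

/-- the stage `(m, y, w)` approximation to the `i`-th set below the third jump -/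
def LL (Z : ℕ → ℕ) (i m y w n : ℕ) : Prop :=
  ∃ j < m, U i n (cd (Ap (Ap (Ap Z w) y) m) j) = 2

theorem LL_spec {Z A : ℕ → ℕ} (hA : Red A (J (J (J Z)))) : ∃ i, ∀ n, ∃ m0, ∀ m ≥ m0, ∃ y0,
    ∀ y ≥ y0, ∃ w0, ∀ w ≥ w0, (LL Z i m y w n ↔ n ∈ {x | A x = 1}) := by
  obtain ⟨hU1, hU2⟩ := U_universal
  obtain ⟨i, hi⟩ := (hU1 (J (J (J Z))) (fun n => Part.some (A n))).1 hA
  refine ⟨i, fun n => ?_⟩
  obtain ⟨j1, hj1⟩ := (hi n (A n)).1 (Part.mem_some _)
  obtain ⟨m0, h0⟩ := ap3_lim Z j1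
  refine ⟨max m0 (j1 + 1), fun m hm => ?_⟩
  obtain ⟨y0, h1⟩ := h0 m (le_trans (le_max_left _ _) hm)
  have hjm : j1 < m := lt_of_lt_of_le (Nat.lt_succ_self j1) (le_trans (le_max_right _ _) hm)
  refine ⟨y0, fun y hy => ?_⟩
  obtain ⟨w0, h2⟩ := h1 y hy
  refine ⟨w0, fun w hw => ?_⟩
  have h3 := cd_congr (h2 w hw)
  rw [← h3] at hj1
  simp only [Set.mem_ofPred_eq]
  constructor
  · rintro ⟨j, hj, hUj⟩
    have e1 : U i n (cd (Ap (Ap (Ap Z w) y) m) (max j j1)) = 2 := by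
      rw [hU2 i n _ j (max j j1) (le_max_left _ _) (by rw [hUj]; norm_num), hUj]
    have e2 : U i n (cd (Ap (Ap (Ap Z w) y) m) (max j j1)) = A n + 1 := by
      rw [hU2 i n _ j1 (max j j1) (le_max_right _ _) (by rw [hj1]; exact Nat.succ_ne_zero _), hj1]
    omega
  · intro hA1
    exact ⟨j1, hjm, by rw [hj1, hA1]⟩

theorem LL_congr {Z Z' : ℕ → ℕ} {w : ℕ} (h : ∀ i < w, Z i = Z' i) (i m y n : ℕ) :
    LL Z i m y w n ↔ LL Z' i m y w n := by
  unfold LL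
  rw [ap_congr h]

/-- the graph coded by a real -/
def dec (X : ℕ → ℕ) : SimpleGraph ℕ where
  Adj a b := a ≠ b ∧ X (Nat.pair a b) = 1 ∧ X (Nat.pair b a) = 1
  symm := ⟨fun _ _ h => ⟨h.1.symm, h.2.2, h.2.1⟩⟩
  loopless := ⟨fun _ h => h.1 rfl⟩

theorem dec_gcode (G : SimpleGraph ℕ) : dec (gcode G) = G := by
  ext a b
  simp only [dec, gcode, Nat.unpair_pair]
  by_cases h : G.Adj a b
  · simp [h, h.symm, h.ne]
  · simp [h]

theorem split_congr {G G' : SimpleGraph ℕ} {y w : ℕ}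
    (h : ∀ j < y, (G.Adj y j ↔ G'.Adj y j) ∧ (G.Adj w j ↔ G'.Adj w j)) :
    split G y w = split G' y w := by
  unfold split
  congr 1
  ext j
  simp only [Set.mem_ofPred_eq]
  constructor
  · rintro (h1 | ⟨h1, h2⟩)
    · exact Or.inl h1
    · refine Or.inr ⟨h1, ?_⟩
      rwa [← (h j h1).1, ← (h j h1).2]
  · rintro (h1 | ⟨h1, h2⟩)
    · exact Or.inl h1
    · refine Or.inr ⟨h1, ?_⟩
      rwa [(h j h1).1, (h j h1).2]

/-- the colouring as an operator -/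
noncomputable def Phi (Y : ℕ → ℕ) (n : ℕ) : ℕ :=
  pcol (dec (rgt Y)) (LL (lft Y)) n.unpair.1 n.unpair.2.unpair.1 n.unpair.2.unpair.2

theorem Phi_cont (Y : ℕ → ℕ) (n : ℕ) :
    ∃ m, ∀ Y' : ℕ → ℕ, (∀ i < m, Y' i = Y i) → Phi Y' n = Phi Y n := by
  set a := n.unpair.1 with ha
  set y := n.unpair.2.unpair.1 with hy
  set w := n.unpair.2.unpair.2 with hw
  obtain ⟨m, hm⟩ := (((Finset.range w).image fun i => 2 * i) ∪
    (Finset.range y).biUnion fun j => {2 * Nat.pair y j + 1, 2 * Nat.pair j y + 1,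
      2 * Nat.pair w j + 1, 2 * Nat.pair j w + 1}).exists_nat_subset_range
  refine ⟨m, fun Y' hY => ?_⟩
  have h1 : ∀ i < w, lft Y' i = lft Y i := by
    intro i hi
    apply hY
    have : 2 * i ∈ Finset.range m := hm (Finset.mem_union_left _
      (Finset.mem_image_of_mem _ (Finset.mem_range.2 hi)))
    exact Finset.mem_range.1 this
  have h2 : ∀ j < y, ∀ x ∈ ({2 * Nat.pair y j + 1, 2 * Nat.pair j y + 1,
      2 * Nat.pair w j + 1, 2 * Nat.pair j w + 1} : Finset ℕ), Y' x = Y x := by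
    intro j hj x hx
    apply hY
    have : x ∈ Finset.range m := hm (Finset.mem_union_right _
      (Finset.mem_biUnion.2 ⟨j, Finset.mem_range.2 hj, hx⟩))
    exact Finset.mem_range.1 this
  have h3 : split (dec (rgt Y')) y w = split (dec (rgt Y)) y w := by
    apply split_congr
    intro j hj
    have e1 := h2 j hj (2 * Nat.pair y j + 1) (by simp)
    have e2 := h2 j hj (2 * Nat.pair j y + 1) (by simp)
    have e3 := h2 j hj (2 * Nat.pair w j + 1) (by simp)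
    have e4 := h2 j hj (2 * Nat.pair j w + 1) (by simp)
    simp only [dec, rgt, e1, e2, e3, e4, and_self]
  have h4 : (fun i => LL (lft Y') i (split (dec (rgt Y)) y w) y w) =
      fun i => LL (lft Y) i (split (dec (rgt Y)) y w) y w := by
    funext i n
    exact propext (LL_congr h1 i _ y n)
  unfold Phi pcol
  rw [← ha, ← hy, ← hw, h3, h4]

theorem hard : Cone fun Z => ∀ G : SimpleGraph ℕ, Red (gcode G) Z → ∃ c : ℕ → ℕ, Red c Z ∧
    (∀ v : ℕ, {t : ℕ × ℕ × ℕ | t.1 < t.2.1 ∧ t.2.1 < t.2.2 ∧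
      c (Nat.pair t.1 (Nat.pair t.2.1 t.2.2)) = v}.encard ≤ 2) ∧
    ∀ A : ℕ → ℕ, Red A (J (J (J Z))) → RadoOn G {x | A x = 1} → ∀ ε η : Prop,
      ∃ a a' y w : ℕ, A a = 1 ∧ A a' = 1 ∧ A y = 1 ∧ A w = 1 ∧ a ≠ a' ∧ a < y ∧ a' < y ∧ y < w ∧
        (G.Adj a y ↔ ε) ∧ (G.Adj a w ↔ ε) ∧ (G.Adj a' y ↔ ε) ∧ (G.Adj a' w ↔ ε) ∧
        (G.Adj y w ↔ η) ∧ c (Nat.pair a (Nat.pair y w)) = c (Nat.pair a' (Nat.pair y w)) := by
  obtain ⟨F, hF⟩ := cont Phi
  refine ⟨F, fun Z hZ G hG => ?_⟩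
  have hY : Red (join Z (gcode G)) Z := join_red (Red.refl Z) hG
  have h1 := hF (join Z (gcode G)) (hZ.trans (red_join_left _ _)) (fun n => Phi_cont _ n)
  have hPhi : ∀ n, Phi (join Z (gcode G)) n =
      pcol G (LL Z) n.unpair.1 n.unpair.2.unpair.1 n.unpair.2.unpair.2 := by
    intro n
    unfold Phi
    rw [lft_join, rgt_join, dec_gcode]
  refine ⟨Phi (join Z (gcode G)), h1.trans hY, fun v => ?_, fun A hA hR ε η => ?_⟩
  · simp only [hPhi, Nat.unpair_pair]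
    exact pcol_bdd G (LL Z) v
  · obtain ⟨i, hi⟩ := LL_spec hA
    obtain ⟨a, ha, a', ha', y, hy, w, hw, b⟩ := pcol_diag hR (LL Z) i hi ε η
    simp only [hPhi, Nat.unpair_pair]
    exact ⟨a, a', y, w, ha, ha', hy, hw, b⟩

end Pool.Agent.RR
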