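import Pool.Agent.Helper55.RR.G1

/-!
# F1. Graphs on three vertices
-/

set_option autoImplicit false

namespace Pool.Agent.RR

open Classical

private theorem exists_type_aux (D : SimpleGraph (Fin 3)) (v u1 u2 : Fin 3) (h1 : v ≠ u1)
    (h2 : v ≠ u2) (h3 : u1 ≠ u2) (hex : ∀ i, i = v ∨ i = u1 ∨ i = u2)
    (hs : D.Adj v u1 ↔ D.Adj v u2) : ∃ ε η : Prop, ∀ (G : SimpleGraph ℕ) (a y w : ℕ),
    a ≠ y → a ≠ w → y ≠ w → (G.Adj a y ↔ ε) → (G.Adj a w ↔ ε) → (G.Adj y w ↔ η) →
      IsCopy D G {a, y, w} := by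
  refine ⟨D.Adj v u1, D.Adj u1 u2, fun G a y w hay haw hyw e1 e2 e3 => ?_⟩
  let f : Fin 3 → ℕ := fun i => if i = v then a else if i = u1 then y else w
  have fv : f v = a := if_pos rfl
  have fu1 : f u1 = y := by
    show (if u1 = v then a else if u1 = u1 then y else w) = y
    rw [if_neg h1.symm, if_pos rfl]
  have fu2 : f u2 = w := by
    show (if u2 = v then a else if u2 = u1 then y else w) = w
    rw [if_neg h2.symm, if_neg h3.symm]
  have fmem : ∀ i, f i ∈ (({a, y, w} : Finset ℕ) : Set ℕ) := by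
    intro i
    rw [Finset.mem_coe, Finset.mem_insert, Finset.mem_insert, Finset.mem_singleton]
    rcases hex i with rfl | rfl | rfl
    · exact Or.inl fv
    · exact Or.inr (Or.inl fu1)
    · exact Or.inr (Or.inr fu2)
  have hbij : Function.Bijective
      (fun i => (⟨f i, fmem i⟩ : (({a, y, w} : Finset ℕ) : Set ℕ))) := by
    constructor
    · intro i j hij
      have hij' : f i = f j := congrArg Subtype.val hij
      rcases hex i with rfl | rfl | rfl <;> rcases hex j with rfl | rfl | rfl <;>
        first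
          | rfl
          | (exfalso; simp only [fv, fu1, fu2] at hij'; omega)
    · rintro ⟨x, hx⟩
      rw [Finset.mem_coe, Finset.mem_insert, Finset.mem_insert, Finset.mem_singleton] at hx
      rcases hx with rfl | rfl | rfl
      · exact ⟨v, Subtype.ext fv⟩
      · exact ⟨u1, Subtype.ext fu1⟩
      · exact ⟨u2, Subtype.ext fu2⟩
  refine ⟨{ toEquiv := Equiv.ofBijective _ hbij, map_rel_iff' := ?_ }⟩
  intro i j
  show G.Adj (f i) (f j) ↔ D.Adj i j
  rcases hex i with rfl | rfl | rfl <;> rcases hex j with rfl | rfl | rfl <;>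
    simp only [fv, fu1, fu2, SimpleGraph.irrefl]
  · exact e1
  · exact e2.trans hs
  · rw [G.adj_comm, D.adj_comm]; exact e1
  · exact e3
  · rw [G.adj_comm, D.adj_comm]; exact e2.trans hs
  · rw [G.adj_comm, D.adj_comm]; exact e3

/-- every graph on three vertices is given by a pair `(ε, η)`: a vertex with adjacency `ε` to the two
others, which have adjacency `η`.  (Two of the three edges of a triangle have the same status and share a
vertex.) -/
theorem exists_type (D : SimpleGraph (Fin 3)) : ∃ ε η : Prop, ∀ (G : SimpleGraph ℕ) (a y w : ℕ),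
    a ≠ y → a ≠ w → y ≠ w → (G.Adj a y ↔ ε) → (G.Adj a w ↔ ε) → (G.Adj y w ↔ η) →
      IsCopy D G {a, y, w} := by
  by_cases h1 : D.Adj 0 1 ↔ D.Adj 0 2
  · exact exists_type_aux D 0 1 2 (by decide) (by decide) (by decide) (by decide) h1
  · by_cases h2 : D.Adj 1 0 ↔ D.Adj 1 2
    · exact exists_type_aux D 1 0 2 (by decide) (by decide) (by decide) (by decide) h2
    · refine exists_type_aux D 2 0 1 (by decide) (by decide) (by decide) (by decide) ?_
      rw [D.adj_comm 1 0] at h2
      rw [D.adj_comm 2 0, D.adj_comm 2 1]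
      tauto

end Pool.Agent.RR
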