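import Pool.Agent.Helper55.RR.G2

/-!
# G3. Between colourings as sets and colourings as functions

* `graph_to_fun`: if `X` is the graph of a colouring of triples, the function
  `c ⟨a, ⟨b, w⟩⟩ = v` with `tup a b w v ∈ X` for `a < b < w`, and `0` otherwise, is reducible to
  `chr X` on a cone (`cont`: search for `v`).
* `fun_to_graph`: the characteristic function of `{tup a b w v | c ⟨a, ⟨b, w⟩⟩ = v}` is reducible to `c`
  on a cone (`cont`).
* `exists_rado`: there is a Rado graph on `ℕ`, e.g. the graph with `a ~ b` (`a < b`) iff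
  `Nat.testBit b a`.
-/

set_option autoImplicit false

namespace Pool.Agent.RR

open Classical

theorem chr_ne_zero {A : Set ℕ} {n : ℕ} : chr A n ≠ 0 ↔ n ∈ A := by
  unfold chr
  by_cases h : n ∈ A
  · rw [if_pos h]; simp [h]
  · rw [if_neg h]; simp [h]

theorem sInf_eq_of_least {P : Set ℕ} {v0 : ℕ} (h0 : v0 ∈ P) (h1 : ∀ v < v0, v ∉ P) :
    sInf P = v0 := by
  refine le_antisymm (Nat.sInf_le h0) ?_
  by_contra hlt
  push Not at hlt
  exact h1 _ hlt (Nat.sInf_mem ⟨v0, h0⟩)

theorem graph_to_fun : Cone fun Y => ∀ X : Set ℕ, Red (chr X) Y →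
    (∀ a b w, a < b → b < w → ∃! v, tup a b w v ∈ X) →
    ∃ c : ℕ → ℕ, Red c Y ∧ ∀ a b w v, a < b → b < w → (tup a b w v ∈ X ↔ col c a b w = v) := by
  let Φ : (ℕ → ℕ) → ℕ → ℕ := fun Z n =>
    if n.unpair.1 < n.unpair.2.unpair.1 ∧ n.unpair.2.unpair.1 < n.unpair.2.unpair.2 then
      sInf {v | rgt Z (tup n.unpair.1 n.unpair.2.unpair.1 n.unpair.2.unpair.2 v) ≠ 0} else 0
  obtain ⟨F, hF⟩ := cont Φ
  refine ⟨F, fun Y hY X hX huniq => ?_⟩
  have hFZ : Red F (join Y (chr X)) := hY.trans (red_join_left _ _)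
  have key : ∀ (Z : ℕ → ℕ) (a b w v0 : ℕ), a < b → b < w → tup a b w v0 ∈ X →
      (∀ v ≤ v0, rgt Z (tup a b w v) = chr X (tup a b w v)) →
      Φ Z (Nat.pair a (Nat.pair b w)) = v0 := by
    intro Z a b w v0 hab hbw hv0 hag
    show (if _ then _ else _) = v0
    simp only [Nat.unpair_pair]
    rw [if_pos ⟨hab, hbw⟩]
    apply sInf_eq_of_least
    · show rgt Z (tup a b w v0) ≠ 0
      rw [hag v0 le_rfl]
      exact chr_ne_zero.2 hv0
    · intro v hv hmem
      have h1 : rgt Z (tup a b w v) ≠ 0 := hmem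
      rw [hag v hv.le] at h1
      have h2 : tup a b w v ∈ X := chr_ne_zero.1 h1
      have h3 := (huniq a b w hab hbw).unique h2 hv0
      omega
  have hcont : ∀ n, ∃ m, ∀ Y' : ℕ → ℕ, (∀ i < m, Y' i = join Y (chr X) i) →
      Φ Y' n = Φ (join Y (chr X)) n := by
    intro n
    by_cases hn : n.unpair.1 < n.unpair.2.unpair.1 ∧ n.unpair.2.unpair.1 < n.unpair.2.unpair.2
    · obtain ⟨v0, hv0, -⟩ := huniq _ _ _ hn.1 hn.2
      refine ⟨(Finset.range (v0 + 1)).sup (fun v => 2 * tup n.unpair.1 n.unpair.2.unpair.1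
        n.unpair.2.unpair.2 v + 1) + 1, fun Y' hY' => ?_⟩
      have hnn : n = Nat.pair n.unpair.1 (Nat.pair n.unpair.2.unpair.1 n.unpair.2.unpair.2) := by
        simp
      have e1 : Φ Y' n = v0 := by
        rw [hnn]
        apply key _ _ _ _ _ hn.1 hn.2 hv0
        intro v hv
        have h1 : 2 * tup n.unpair.1 n.unpair.2.unpair.1 n.unpair.2.unpair.2 v + 1 ≤
            (Finset.range (v0 + 1)).sup (fun v => 2 * tup n.unpair.1 n.unpair.2.unpair.1
              n.unpair.2.unpair.2 v + 1) :=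
          Finset.le_sup (f := fun v => 2 * tup n.unpair.1 n.unpair.2.unpair.1
              n.unpair.2.unpair.2 v + 1) (Finset.mem_range.2 (Nat.lt_succ_of_le hv))
        have h2 := hY' _ (Nat.lt_succ_of_le h1)
        have h3 : rgt Y' (tup n.unpair.1 n.unpair.2.unpair.1 n.unpair.2.unpair.2 v) =
            rgt (join Y (chr X)) (tup n.unpair.1 n.unpair.2.unpair.1 n.unpair.2.unpair.2 v) := h2
        rw [h3, rgt_join]
      have e2 : Φ (join Y (chr X)) n = v0 := by
        rw [hnn]
        apply key _ _ _ _ _ hn.1 hn.2 hv0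
        intro v _
        rw [rgt_join]
      rw [e1, e2]
    · refine ⟨0, fun Y' _ => ?_⟩
      show (if _ then _ else _) = (if _ then _ else _)
      rw [if_neg hn, if_neg hn]
  have hred := hF _ hFZ hcont
  refine ⟨Φ (join Y (chr X)), hred.trans (join_red (Red.refl Y) hX), ?_⟩
  intro a b w v hab hbw
  obtain ⟨v0, hv0, -⟩ := huniq a b w hab hbw
  have h1 : col (Φ (join Y (chr X))) a b w = v0 :=
    key _ a b w v0 hab hbw hv0 (fun v _ => by rw [rgt_join])
  rw [h1]
  constructor
  · intro h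
    exact (huniq a b w hab hbw).unique hv0 h
  · intro h
    rw [← h]
    exact hv0

theorem fun_to_graph : Cone fun Y => ∀ c : ℕ → ℕ, Red c Y →
    Red (chr {n | ∃ a b w, n = tup a b w (col c a b w)}) Y := by
  apply Cone.of_forall
  intro Y c hc
  have hF : Primrec (fun k : ℕ => if k.unpair.1 = k.unpair.2 then 1 else 0) :=
    Primrec.ite (Primrec.eq.comp (Primrec.fst.comp Primrec.unpair)
      (Primrec.snd.comp Primrec.unpair)) (Primrec.const 1) (Primrec.const 0)
  have r1 := red_left Y
  have r2 := red_right Y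
  have ra : Red (fun n => n.unpair.1) Y := r1
  have rb : Red (fun n => n.unpair.2.unpair.1) Y := red_comp r1 r2
  have rcd : Red (fun n => n.unpair.2.unpair.2) Y := red_comp r2 r2
  have rw1 : Red (fun n => n.unpair.2.unpair.2.unpair.1) Y := red_comp r1 rcd
  have rv : Red (fun n => n.unpair.2.unpair.2.unpair.2) Y := red_comp r2 rcd
  have h2 : Red (fun n => c (Nat.pair n.unpair.1 (Nat.pair n.unpair.2.unpair.1
      n.unpair.2.unpair.2.unpair.1))) Y := red_comp hc (red_pair ra (red_pair rb rw1))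
  have h3 := red_comp (red_of_primrec hF Y) (red_pair rv h2)
  have h4 : chr {n | ∃ a b w, n = tup a b w (col c a b w)} = fun n =>
      (if (Nat.pair (n.unpair.2.unpair.2.unpair.2) (c (Nat.pair n.unpair.1
        (Nat.pair n.unpair.2.unpair.1 n.unpair.2.unpair.2.unpair.1)))).unpair.1 =
        (Nat.pair (n.unpair.2.unpair.2.unpair.2) (c (Nat.pair n.unpair.1
        (Nat.pair n.unpair.2.unpair.1 n.unpair.2.unpair.2.unpair.1)))).unpair.2 then 1 else 0) := by
    funext n
    unfold chr
    rw [Nat.unpair_pair]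
    apply if_congr _ rfl rfl
    constructor
    · rintro ⟨a, b, w, rfl⟩
      simp only [tup, Nat.unpair_pair, col]
    · intro h
      refine ⟨n.unpair.1, n.unpair.2.unpair.1, n.unpair.2.unpair.2.unpair.1, ?_⟩
      have h' : n.unpair.2.unpair.2.unpair.2 = c (Nat.pair n.unpair.1 (Nat.pair n.unpair.2.unpair.1
        n.unpair.2.unpair.2.unpair.1)) := h
      unfold tup col
      rw [← h', Nat.pair_unpair, Nat.pair_unpair, Nat.pair_unpair]
  rw [h4]
  exact h3

theorem chr_of_fun : Cone fun Y => ∀ H : ℕ → ℕ, Red H Y → Red (chr {x | H x = 1}) Y := by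
  apply Cone.of_forall
  intro Y H hH
  have hF : Primrec (fun k : ℕ => if k = 1 then 1 else 0) :=
    Primrec.ite (Primrec.eq.comp Primrec.id (Primrec.const 1)) (Primrec.const 1) (Primrec.const 0)
  have h3 := red_comp (red_of_primrec hF Y) hH
  have h4 : chr {x | H x = 1} = fun n => if H n = 1 then 1 else 0 := by
    funext n
    unfold chr
    by_cases h : H n = 1
    · rw [if_pos h, if_pos (show n ∈ {x | H x = 1} from h)]
    · rw [if_neg h, if_neg (show n ∉ {x | H x = 1} from h)]
  rw [h4]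
  exact h3

theorem exists_rado : ∃ G : SimpleGraph ℕ, RadoOn G Set.univ := by
  let D : ℕ → Finset ℕ := fun b =>
    match (Encodable.decode b : Option (Finset ℕ × ℕ)) with
    | some p => p.1
    | none => ∅
  have hD : ∀ p : Finset ℕ × ℕ, D (Encodable.encode p) = p.1 := by
    intro p
    show (match (Encodable.decode (Encodable.encode p) : Option (Finset ℕ × ℕ)) with
      | some p => p.1
      | none => ∅) = p.1
    rw [Encodable.encodek]
  let G : SimpleGraph ℕ :=
    { Adj := fun a b => (a < b ∧ a ∈ D b) ∨ (b < a ∧ b ∈ D a)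
      symm := ⟨fun a b h => Or.symm h⟩
      loopless := ⟨fun a h => by
        rcases h with h | h
        · exact lt_irrefl _ h.1
        · exact lt_irrefl _ h.1⟩ }
  refine ⟨G, ?_⟩
  intro U W _ _ hd
  have hinj : Function.Injective (fun n : ℕ => Encodable.encode ((U, n) : Finset ℕ × ℕ)) := by
    intro n n' h
    have := Encodable.encode_injective h
    exact (Prod.mk.inj this).2
  obtain ⟨v, ⟨n, hn⟩, hv⟩ := (Set.infinite_range_of_injective hinj).exists_gt ((U ∪ W).sup id)
  have hlt : ∀ x ∈ U ∪ W, x < v := fun x hx => lt_of_le_of_lt (Finset.le_sup (f := id) hx) hv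
  have hDv : D v = U := by
    rw [← hn]
    exact hD (U, n)
  refine ⟨v, trivial, ?_, ?_, ?_, ?_⟩
  · intro h
    exact lt_irrefl _ (hlt v (Finset.mem_union_left _ h))
  · intro h
    exact lt_irrefl _ (hlt v (Finset.mem_union_right _ h))
  · intro u hu
    right
    exact ⟨hlt u (Finset.mem_union_left _ hu), by rw [hDv]; exact hu⟩
  · intro w hw h
    have hwv := hlt w (Finset.mem_union_right _ hw)
    rcases h with h | h
    · exact lt_asymm h.1 hwv
    · have h2 := h.2
      rw [hDv] at h2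
      exact Finset.disjoint_left.1 hd h2 hw

end Pool.Agent.RR
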