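import Pool.Agent.Helper55.RR.D1
import Pool.Agent.Helper55.RR.E3
import Pool.Agent.Helper55.RR.G3
import Pool.Agent.Helper55.RR.F1

/-!
# F2. The separation
-/

set_option autoImplicit false

namespace Pool.Agent.RR

open Classical

theorem separation (F0 : ℕ → ℕ) : ∃ M : Set (ℕ → ℕ), Ideal M ∧ F0 ∈ M ∧
    (∀ k, ∀ c ∈ M, KBdd k (col c) → ∃ H ∈ M, {x | H x = 1}.Infinite ∧ Rainbow (col c) H) ∧
    ∀ G : SimpleGraph ℕ, gcode G ∈ M → ∃ c ∈ M, KBdd 2 (col c) ∧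
      ∀ A ∈ M, RadoOn G {x | A x = 1} → ∀ D : SimpleGraph (Fin 3), ∃ a a' y w : ℕ,
        A a = 1 ∧ A a' = 1 ∧ A y = 1 ∧ A w = 1 ∧ a ≠ a' ∧ a < y ∧ a' < y ∧ y < w ∧
        IsCopy D G {a, y, w} ∧ IsCopy D G {a', y, w} ∧ col c a y w = col c a' y w := by
  obtain ⟨F1, h1⟩ := hard
  obtain ⟨F2, h2⟩ := J_mono
  obtain ⟨F, M, hF, hM, hFM, hlow, hR⟩ := exists_ideal (join F0 (join F1 F2))
  have hF0 : Red F0 F := (red_join_left _ _).trans hF
  have hF1 : Red F1 F := ((red_join_left _ _).trans (red_join_right _ _)).trans hF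
  have hF2 : Red F2 F := ((red_join_right _ _).trans (red_join_right _ _)).trans hF
  refine ⟨M, hM, hM.down _ hFM _ hF0, hR, fun G hG => ?_⟩
  have hZM : join F (gcode G) ∈ M := hM.join_mem _ hFM _ hG
  have hFZ : Red F (join F (gcode G)) := red_join_left _ _
  obtain ⟨c, hc, hb, hd⟩ := h1 (join F (gcode G)) (hF1.trans hFZ) G (red_join_right _ _)
  refine ⟨c, hM.down _ hZM _ hc, hb, fun A hA hr D => ?_⟩
  have e1 : Red (J F) (J (join F (gcode G))) := h2 _ (hF2.trans hFZ) _ hFZ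
  have e2 : Red (J (J F)) (J (J (join F (gcode G)))) :=
    h2 _ ((hF2.trans hFZ).trans (red_J _)) _ e1
  have e3 : Red (J (J (J F))) (J (J (J (join F (gcode G))))) :=
    h2 _ (((hF2.trans hFZ).trans (red_J _)).trans (red_J _)) _ e2
  obtain ⟨ε, η, ht⟩ := exists_type D
  obtain ⟨a, a', y, w, ha, ha', hy, hw, hne, hay, hay', hyw, c1, c2, c3, c4, c5, c6⟩ :=
    hd A ((hlow A hA).trans e3) hr ε η
  exact ⟨a, a', y, w, ha, ha', hy, hw, hne, hay, hay', hyw,
    ht G a y w hay.ne (hay.trans hyw).ne hyw.ne c1 c2 c5,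
    ht G a' y w hay'.ne (hay'.trans hyw).ne hyw.ne c3 c4 c5, c6⟩

theorem chr_gset (G : SimpleGraph ℕ) : chr (gset G) = gcode G := by
  funext n; simp [chr, gset, gcode]

theorem chr_eq_one (A : Set ℕ) : {x | chr A x = 1} = A := by
  ext x; simp [chr]

theorem final : ∃ S : Set (Set ℕ), ModelsRCA0 S ∧ (∀ k, RRT3 k S) ∧
    (∃ G : SimpleGraph ℕ, gset G ∈ S ∧ RadoOn G Set.univ) ∧
    ∀ G : SimpleGraph ℕ, gset G ∈ S → RadoOn G Set.univ → ∀ k, 2 ≤ k →
      ∀ D : SimpleGraph (Fin 3), ¬ RRTR k D G S := by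
  obtain ⟨G0, hG0⟩ := exists_rado
  obtain ⟨F1, h1⟩ := modelsRCA0_of_ideal
  obtain ⟨F2, h2⟩ := graph_to_fun
  obtain ⟨F3, h3⟩ := fun_to_graph
  obtain ⟨F4, h4⟩ := chr_of_fun
  obtain ⟨M, hM, hF, hR, hN⟩ :=
    separation (join (gcode G0) (join F1 (join F2 (join F3 F4))))
  have m0 : gcode G0 ∈ M := hM.down _ hF _ (red_join_left _ _)
  have m' : join F1 (join F2 (join F3 F4)) ∈ M := hM.down _ hF _ (red_join_right _ _)
  have m1 : F1 ∈ M := hM.down _ m' _ (red_join_left _ _)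
  have m'' : join F2 (join F3 F4) ∈ M := hM.down _ m' _ (red_join_right _ _)
  have m2 : F2 ∈ M := hM.down _ m'' _ (red_join_left _ _)
  have m''' : join F3 F4 ∈ M := hM.down _ m'' _ (red_join_right _ _)
  have m3 : F3 ∈ M := hM.down _ m''' _ (red_join_left _ _)
  have m4 : F4 ∈ M := hM.down _ m''' _ (red_join_right _ _)
  refine ⟨{A | chr A ∈ M}, h1 M hM m1, ?_, ⟨G0, ?_, hG0⟩, ?_⟩
  · intro k X hX hcol hk
    have hY : join F2 (chr X) ∈ M := hM.join_mem _ m2 _ hX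
    obtain ⟨c, hc, hcX⟩ := h2 _ (red_join_left _ _) X (red_join_right F2 _) hcol
    have hcM : c ∈ M := hM.down _ hY _ hc
    have hkc : KBdd k (col c) := by
      intro v
      refine le_trans (le_of_eq ?_) (hk v)
      congr 1
      ext t
      simp only [Set.mem_ofPred_eq]
      constructor
      · rintro ⟨a, b, e⟩; exact ⟨a, b, (hcX _ _ _ _ a b).2 e⟩
      · rintro ⟨a, b, e⟩; exact ⟨a, b, (hcX _ _ _ _ a b).1 e⟩
    obtain ⟨H, hH, hinf, hrb⟩ := hR k c hcM hkc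
    refine ⟨{x | H x = 1}, ?_, hinf, ?_⟩
    · have hY4 : join F4 H ∈ M := hM.join_mem _ m4 _ hH
      exact hM.down _ hY4 _ (h4 _ (red_join_left _ _) H (red_join_right _ _))
    · intro a ha b hb w hw a' ha' b' hb' w' hw' v l1 l2 l3 l4 e1 e2
      refine hrb a b w a' b' w' l1 l2 l3 l4 ha hb hw ha' hb' hw' ?_
      rw [(hcX _ _ _ _ l1 l2).1 e1, (hcX _ _ _ _ l3 l4).1 e2]
  · show chr (gset G0) ∈ M
    rw [chr_gset]; exact m0
  · intro G hG hGr k hk D hRRT
    have hG' : gcode G ∈ M := by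
      rw [← chr_gset]; exact hG
    obtain ⟨c, hcM, hc2, hd⟩ := hN G hG'
    have hX : chr {n | ∃ a b w, n = tup a b w (col c a b w)} ∈ M := by
      have hY : join F3 c ∈ M := hM.join_mem _ m3 _ hcM
      exact hM.down _ hY _ (h3 _ (red_join_left _ _) c (red_join_right _ _))
    have tup_mem : ∀ a b w v, tup a b w v ∈ {n | ∃ a b w, n = tup a b w (col c a b w)} ↔
        col c a b w = v := by
      intro a b w v
      constructor
      · rintro ⟨a1, b1, w1, h⟩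
        simp only [tup, Nat.pair_eq_pair] at h
        obtain ⟨rfl, rfl, rfl, rfl⟩ := h
        rfl
      · rintro rfl
        exact ⟨a, b, w, rfl⟩
    obtain ⟨A, hA, hAr, hrb⟩ := hRRT _ hX
      (fun a b w _ _ _ => ⟨col c a b w, (tup_mem _ _ _ _).2 rfl,
        fun v hv => ((tup_mem _ _ _ _).1 hv).symm⟩)
      (fun v => by
        refine le_trans (Set.encard_le_encard ?_) (le_trans (hc2 v) (by exact_mod_cast hk))
        rintro t ⟨h1, h2, -, h4⟩
        exact ⟨h1, h2, (tup_mem _ _ _ _).1 h4⟩)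
    have hAr' : RadoOn G {x | chr A x = 1} := by rw [chr_eq_one]; exact hAr
    obtain ⟨a, a', y, w, ha, ha', hy, hw, hne, hay, hay', hyw, k1, k2, hcc⟩ :=
      hd (chr A) hA hAr' D
    have hmem : ∀ x, chr A x = 1 → x ∈ A := fun x hx => by
      have : x ∈ {x | chr A x = 1} := hx
      rwa [chr_eq_one] at this
    exact hne (hrb a (hmem _ ha) y (hmem _ hy) w (hmem _ hw) a' (hmem _ ha') y (hmem _ hy) w
      (hmem _ hw) (col c a y w) hay hyw hay' hyw k1 k2 ((tup_mem _ _ _ _).2 rfl)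
      ((tup_mem _ _ _ _).2 hcc.symm)).1

end Pool.Agent.RR
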