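import Pool.Agent.Helper55.RR.Defs
import Pool.Agent.Helper55.RR.E1

/-!
# G1. Second-order arithmetic: formulas, omega-structures, the axioms of RCA₀, the principles

An omega-structure for the language of second-order arithmetic is given by a family `S` of subsets of
`ℕ`; number quantifiers range over `ℕ`, set quantifiers over `S`.
-/

set_option autoImplicit false

namespace Pool.Agent.RR

open Classical

/-- Number terms of second-order arithmetic. -/
inductive Tm : Type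
  | var : ℕ → Tm
  | zero : Tm
  | one : Tm
  | add : Tm → Tm → Tm
  | mul : Tm → Tm → Tm

/-- Value of a term. -/
def Tm.val (v : ℕ → ℕ) : Tm → ℕ
  | .var i => v i
  | .zero => 0
  | .one => 1
  | .add s t => s.val v + t.val v
  | .mul s t => s.val v * t.val v

/-- Number variables of a term. -/
def Tm.vars : Tm → Finset ℕ
  | .var i => {i}
  | .zero => ∅
  | .one => ∅
  | .add s t => s.vars ∪ t.vars
  | .mul s t => s.vars ∪ t.vars

/-- Formulas of second-order arithmetic; `mem t X` is `t ∈ X`, `all i φ` quantifies the number variable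
`i`, `allS X φ` quantifies the set variable `X`. -/
inductive Fm : Type
  | eq : Tm → Tm → Fm
  | lt : Tm → Tm → Fm
  | mem : Tm → ℕ → Fm
  | neg : Fm → Fm
  | and : Fm → Fm → Fm
  | all : ℕ → Fm → Fm
  | allS : ℕ → Fm → Fm

/-- Satisfaction in the omega-structure `S`, for assignments `v` (numbers), `V` (sets). -/
def Fm.Sat (S : Set (Set ℕ)) : (ℕ → ℕ) → (ℕ → Set ℕ) → Fm → Prop
  | v, _, .eq s t => s.val v = t.val v
  | v, _, .lt s t => s.val v < t.val v
  | v, V, .mem t X => t.val v ∈ V X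
  | v, V, .neg φ => ¬ Fm.Sat S v V φ
  | v, V, .and φ ψ => Fm.Sat S v V φ ∧ Fm.Sat S v V ψ
  | v, V, .all i φ => ∀ a : ℕ, Fm.Sat S (Function.update v i a) V φ
  | v, V, .allS X φ => ∀ A ∈ S, Fm.Sat S v (Function.update V X A) φ

/-- Implication. -/
def Fm.imp (φ ψ : Fm) : Fm := .neg (.and φ (.neg ψ))

/-- Biconditional. -/
def Fm.iff (φ ψ : Fm) : Fm := .and (φ.imp ψ) (ψ.imp φ)

/-- Existential number quantifier. -/
def Fm.ex (i : ℕ) (φ : Fm) : Fm := .neg (.all i (.neg φ))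

/-- Existential set quantifier. -/
def Fm.exS (X : ℕ) (φ : Fm) : Fm := .neg (.allS X (.neg φ))

/-- Disjunction. -/
def Fm.or (φ ψ : Fm) : Fm := .neg (.and (.neg φ) (.neg ψ))

/-- Bounded (Σ⁰₀) formulas: all quantifiers are bounded number quantifiers `∀ i < t`. -/
inductive Fm.Bdd : Fm → Prop
  | eq (s t : Tm) : Fm.Bdd (.eq s t)
  | lt (s t : Tm) : Fm.Bdd (.lt s t)
  | mem (t : Tm) (X : ℕ) : Fm.Bdd (.mem t X)
  | neg {φ : Fm} : Fm.Bdd φ → Fm.Bdd (.neg φ)
  | and {φ ψ : Fm} : Fm.Bdd φ → Fm.Bdd ψ → Fm.Bdd (.and φ ψ)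
  | ball {φ : Fm} (i : ℕ) (t : Tm) : i ∉ t.vars → Fm.Bdd φ →
      Fm.Bdd (.all i (Fm.imp (.lt (.var i) t) φ))

/-- The set variable `X` occurs free in the formula. -/
def Fm.freeS (X : ℕ) : Fm → Prop
  | .eq _ _ => False
  | .lt _ _ => False
  | .mem _ Y => Y = X
  | .neg φ => φ.freeS X
  | .and φ ψ => φ.freeS X ∨ ψ.freeS X
  | .all _ φ => φ.freeS X
  | .allS Y φ => Y ≠ X ∧ φ.freeS X

/-- All number variables (free or bound) of a formula. -/
def Fm.vars : Fm → Finset ℕ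
  | .eq s t => s.vars ∪ t.vars
  | .lt s t => s.vars ∪ t.vars
  | .mem t _ => t.vars
  | .neg φ => φ.vars
  | .and φ ψ => φ.vars ∪ ψ.vars
  | .all i φ => insert i φ.vars
  | .allS _ φ => φ.vars

/-- `φ(t)` for the number variable `j`, in the form `∀ j (j = t → φ)`; used for terms `t` which do not
contain `j`. -/
def Fm.at (φ : Fm) (j : ℕ) (t : Tm) : Fm := .all j (Fm.imp (.eq (.var j) t) φ)

/-- The axioms of RCA₀: basic axioms, `Σ⁰₁` induction, `Δ⁰₁` comprehension (their universal closures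
are asserted by evaluating them at all assignments). -/
inductive RCA0 : Fm → Prop
  | succ_ne : RCA0 (.neg (.eq (.add (.var 0) .one) .zero))
  | succ_inj : RCA0 (Fm.imp (.eq (.add (.var 0) .one) (.add (.var 1) .one)) (.eq (.var 0) (.var 1)))
  | add_zero : RCA0 (.eq (.add (.var 0) .zero) (.var 0))
  | add_succ : RCA0 (.eq (.add (.var 0) (.add (.var 1) .one)) (.add (.add (.var 0) (.var 1)) .one))
  | mul_zero : RCA0 (.eq (.mul (.var 0) .zero) .zero)
  | mul_succ : RCA0 (.eq (.mul (.var 0) (.add (.var 1) .one)) (.add (.mul (.var 0) (.var 1)) (.var 0)))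
  | not_lt_zero : RCA0 (.neg (.lt (.var 0) .zero))
  | lt_succ : RCA0 (Fm.iff (.lt (.var 0) (.add (.var 1) .one))
      (Fm.or (.lt (.var 0) (.var 1)) (.eq (.var 0) (.var 1))))
  | ind (θ : Fm) (i j z : ℕ) : θ.Bdd → z ≠ j → z ∉ (Fm.ex i θ).vars →
      RCA0 (Fm.imp (.and ((Fm.ex i θ).at j .zero)
        (.all z (Fm.imp ((Fm.ex i θ).at j (.var z)) ((Fm.ex i θ).at j (.add (.var z) .one)))))
        (.all j (Fm.ex i θ)))
  | comp (θ θ' : Fm) (i i' j X : ℕ) : θ.Bdd → θ'.Bdd → ¬ (Fm.ex i θ).freeS X →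
      RCA0 (Fm.imp (.all j (Fm.iff (Fm.ex i θ) (.all i' θ')))
        (Fm.exS X (.all j (Fm.iff (.mem (.var j) X) (Fm.ex i θ)))))

/-- The omega-structure with set part `S` is a model of RCA₀: all axioms are true for all assignments. -/
def ModelsRCA0 (S : Set (Set ℕ)) : Prop :=
  ∀ φ, RCA0 φ → ∀ (v : ℕ → ℕ) (V : ℕ → Set ℕ), (∀ X, V X ∈ S) → φ.Sat S v V

/-- The code of a quadruple. -/
def tup (a b w v : ℕ) : ℕ := Nat.pair a (Nat.pair b (Nat.pair w v))

/-- The principle `RRT³ₖ` in the omega-structure `S`: for every set `X` in `S` which is (the graph of) a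
colouring of the triples `a < b < w` of numbers, in which every colour is used at most `k` times, there
is an infinite `H` in `S` such that different triples from `H` have different colours. -/
def RRT3 (k : ℕ) (S : Set (Set ℕ)) : Prop :=
  ∀ X ∈ S, (∀ a b w, a < b → b < w → ∃! v, tup a b w v ∈ X) →
    (∀ v : ℕ, {t : ℕ × ℕ × ℕ | t.1 < t.2.1 ∧ t.2.1 < t.2.2 ∧ tup t.1 t.2.1 t.2.2 v ∈ X}.encard ≤ k) →
    ∃ H ∈ S, H.Infinite ∧ ∀ a ∈ H, ∀ b ∈ H, ∀ w ∈ H, ∀ a' ∈ H, ∀ b' ∈ H, ∀ w' ∈ H, ∀ v : ℕ,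
      a < b → b < w → a' < b' → b' < w' → tup a b w v ∈ X → tup a' b' w' v ∈ X →
        a = a' ∧ b = b' ∧ w = w'

/-- `s` is (the vertex set of) a copy of `D` in `G`: the subgraph of `G` induced on `s` is isomorphic
to `D`. -/
def IsCopy (D : SimpleGraph (Fin 3)) (G : SimpleGraph ℕ) (s : Finset ℕ) : Prop :=
  Nonempty (D ≃g G.induce (s : Set ℕ))

/-- The set of (codes of) edges of a graph on `ℕ`. -/
def gset (G : SimpleGraph ℕ) : Set ℕ := {n | G.Adj n.unpair.1 n.unpair.2}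

/-- The principle `RRTₖ(𝓡, D)` in the omega-structure `S`, for the Rado graph `G`: for every set `X` in
`S` which is (the graph of) a colouring of the copies `{a < b < w}` of `D` in `G` with every colour used
at most `k` times, there is `A` in `S` such that the subgraph of `G` induced on `A` is again a Rado
graph and different copies of `D` in `A` have different colours. -/
def RRTR (k : ℕ) (D : SimpleGraph (Fin 3)) (G : SimpleGraph ℕ) (S : Set (Set ℕ)) : Prop :=
  ∀ X ∈ S, (∀ a b w, a < b → b < w → IsCopy D G {a, b, w} → ∃! v, tup a b w v ∈ X) →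
    (∀ v : ℕ, {t : ℕ × ℕ × ℕ | t.1 < t.2.1 ∧ t.2.1 < t.2.2 ∧ IsCopy D G {t.1, t.2.1, t.2.2} ∧
      tup t.1 t.2.1 t.2.2 v ∈ X}.encard ≤ k) →
    ∃ A ∈ S, RadoOn G A ∧ ∀ a ∈ A, ∀ b ∈ A, ∀ w ∈ A, ∀ a' ∈ A, ∀ b' ∈ A, ∀ w' ∈ A, ∀ v : ℕ,
      a < b → b < w → a' < b' → b' < w' → IsCopy D G {a, b, w} → IsCopy D G {a', b', w'} →
        tup a b w v ∈ X → tup a' b' w' v ∈ X → a = a' ∧ b = b' ∧ w = w'

end Pool.Agent.RR
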