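import Pool.Agent.Helper55.RR.D1
import Pool.Agent.Helper55.RR.G1

/-!
# G2. Turing ideals (containing a suitable real) are models of RCA₀

Basic axioms and induction are true in every omega-structure (`Fm.Sat` of the axioms unfolds to
statements about `ℕ`; for induction: `z ∉ vars` so updating `z` does not change the truth value of
`Fm.ex i θ`, prove by induction on formulas that `Sat` does not depend on `v z` for `z ∉ φ.vars`).

`Δ⁰₁` comprehension.  Let `θ, θ'` be bounded.  (a) The truth value of a bounded formula is locally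
constant in the set parameters: for all `v V` there is `m` such that for all `V'` with
`∀ X < m, ∀ n < m, (n ∈ V X ↔ n ∈ V' X)` the truth values agree (induction on `Fm.Bdd`; bounded
quantifier: finitely many values `a < t.val v`).  `Sat` of a bounded formula does not depend on `S`.
(b) For fixed `θ, θ', i, i', j` and a fixed assignment `v` (only its values at `φ.vars` matter, so there
are countably many cases; or code `v` as `fun x => l.getD x 0` for a list `l`) and a bound `B` on the set
variables let `Φ Y n` be: decode `V X` (`X < B`) from the `X`-th component of `Y`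
(`comp X Y m = Y (Nat.pair X m)`), take the least `a` such that `θ` holds with `i := a, j := n` or
`θ'` fails with `i' := a, j := n`, and let `Φ Y n = 1` if `θ` holds for this `a`, else `0`.  By (a) and the
hypothesis of comprehension `Φ` is continuous at the right `Y`, so `cont` gives `Φ Y ≤ Y` for `Y` above a
base `F_{θ,θ',…}`.  Take `F` above all these countably many bases (`exists_upper`, `Countable Fm`).
The finite join of the sets `V X`, `X < B`, and `F` is in `M` (build `Y` as a real with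
`Y (Nat.pair X m) = [m ∈ V X]` for `X < B` and `Y (Nat.pair X m) = F m` for `X ≥ B`: it is reducible to an
iterated `join` of finitely many elements of `M`, and `F ≤ Y`).
-/

set_option autoImplicit false

namespace Pool.Agent.RR

open Classical

/-- characteristic function of a set -/
noncomputable def chr (A : Set ℕ) : ℕ → ℕ := fun n => if n ∈ A then 1 else 0

deriving instance Encodable for Tm
deriving instance Encodable for Fm

/-! ### satisfaction -/

theorem sat_imp {S : Set (Set ℕ)} {v : ℕ → ℕ} {V : ℕ → Set ℕ} {φ ψ : Fm} :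
    (Fm.imp φ ψ).Sat S v V ↔ (φ.Sat S v V → ψ.Sat S v V) := by
  show ¬ (φ.Sat S v V ∧ ¬ ψ.Sat S v V) ↔ _
  tauto

theorem sat_iff {S : Set (Set ℕ)} {v : ℕ → ℕ} {V : ℕ → Set ℕ} {φ ψ : Fm} :
    (Fm.iff φ ψ).Sat S v V ↔ (φ.Sat S v V ↔ ψ.Sat S v V) := by
  show (φ.imp ψ).Sat S v V ∧ (ψ.imp φ).Sat S v V ↔ _
  rw [sat_imp, sat_imp]
  tauto

theorem sat_or {S : Set (Set ℕ)} {v : ℕ → ℕ} {V : ℕ → Set ℕ} {φ ψ : Fm} :
    (Fm.or φ ψ).Sat S v V ↔ (φ.Sat S v V ∨ ψ.Sat S v V) := by
  show ¬ (¬ φ.Sat S v V ∧ ¬ ψ.Sat S v V) ↔ _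
  tauto

theorem sat_ex {S : Set (Set ℕ)} {v : ℕ → ℕ} {V : ℕ → Set ℕ} {i : ℕ} {φ : Fm} :
    (Fm.ex i φ).Sat S v V ↔ ∃ a, φ.Sat S (Function.update v i a) V := by
  show ¬ (∀ a, ¬ φ.Sat S (Function.update v i a) V) ↔ _
  push Not
  rfl

theorem sat_exS {S : Set (Set ℕ)} {v : ℕ → ℕ} {V : ℕ → Set ℕ} {X : ℕ} {φ : Fm} :
    (Fm.exS X φ).Sat S v V ↔ ∃ A ∈ S, φ.Sat S v (Function.update V X A) := by
  show ¬ (∀ A ∈ S, ¬ φ.Sat S v (Function.update V X A)) ↔ _
  push Not
  rfl

theorem sat_all {S : Set (Set ℕ)} {v : ℕ → ℕ} {V : ℕ → Set ℕ} {i : ℕ} {φ : Fm} :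
    (Fm.all i φ).Sat S v V ↔ ∀ a, φ.Sat S (Function.update v i a) V := Iff.rfl

theorem sat_at {S : Set (Set ℕ)} {v : ℕ → ℕ} {V : ℕ → Set ℕ} {φ : Fm} {j : ℕ} {t : Tm} {b : ℕ}
    (ht : ∀ a, t.val (Function.update v j a) = b) :
    (φ.at j t).Sat S v V ↔ φ.Sat S (Function.update v j b) V := by
  unfold Fm.at
  rw [sat_all]
  have h : ∀ a, (Fm.imp (.eq (.var j) t) φ).Sat S (Function.update v j a) V ↔
      (a = b → φ.Sat S (Function.update v j a) V) := by
    intro a
    rw [sat_imp]
    have : (Fm.eq (.var j) t).Sat S (Function.update v j a) V ↔ a = b := by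
      show (Function.update v j a) j = t.val (Function.update v j a) ↔ _
      rw [ht a, Function.update_self]
    rw [this]
  simp only [h]
  constructor
  · intro h'; exact h' b rfl
  · rintro h' a rfl; exact h'

theorem val_congr (t : Tm) {v v' : ℕ → ℕ} (h : ∀ x ∈ t.vars, v x = v' x) :
    t.val v = t.val v' := by
  induction t with
  | var i => exact h i (by simp [Tm.vars])
  | zero => rfl
  | one => rfl
  | add s t ihs iht =>
    simp only [Tm.val]
    rw [ihs fun x hx => h x (by simp [Tm.vars, hx]), iht fun x hx => h x (by simp [Tm.vars, hx])]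
  | mul s t ihs iht =>
    simp only [Tm.val]
    rw [ihs fun x hx => h x (by simp [Tm.vars, hx]), iht fun x hx => h x (by simp [Tm.vars, hx])]

theorem sat_congr (S : Set (Set ℕ)) (φ : Fm) : ∀ (v v' : ℕ → ℕ) (V : ℕ → Set ℕ),
    (∀ x ∈ φ.vars, v x = v' x) → (φ.Sat S v V ↔ φ.Sat S v' V) := by
  induction φ with
  | eq s t =>
    intro v v' V h
    simp only [Fm.Sat]
    rw [val_congr s fun x hx => h x (by simp [Fm.vars, hx]),
      val_congr t fun x hx => h x (by simp [Fm.vars, hx])]
  | lt s t =>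
    intro v v' V h
    simp only [Fm.Sat]
    rw [val_congr s fun x hx => h x (by simp [Fm.vars, hx]),
      val_congr t fun x hx => h x (by simp [Fm.vars, hx])]
  | mem t X =>
    intro v v' V h
    simp only [Fm.Sat]
    rw [val_congr t fun x hx => h x (by simpa [Fm.vars] using hx)]
  | neg φ ih =>
    intro v v' V h
    simp only [Fm.Sat]
    rw [ih v v' V h]
  | and φ ψ ih ih' =>
    intro v v' V h
    simp only [Fm.Sat]
    rw [ih v v' V fun x hx => h x (by simp [Fm.vars, hx]),
      ih' v v' V fun x hx => h x (by simp [Fm.vars, hx])]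
  | all i φ ih =>
    intro v v' V h
    simp only [Fm.Sat]
    refine forall_congr' fun a => ih _ _ V fun x hx => ?_
    by_cases hxi : x = i
    · subst hxi; simp
    · rw [Function.update_of_ne hxi, Function.update_of_ne hxi]
      exact h x (by simp [Fm.vars, hx])
  | allS X φ ih =>
    intro v v' V h
    simp only [Fm.Sat]
    exact forall₂_congr fun A _ => ih v v' _ h

theorem satS_congr (S : Set (Set ℕ)) (φ : Fm) : ∀ (v : ℕ → ℕ) (V V' : ℕ → Set ℕ),
    (∀ X, φ.freeS X → V X = V' X) → (φ.Sat S v V ↔ φ.Sat S v V') := by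
  induction φ with
  | eq s t => intro v V V' _; exact Iff.rfl
  | lt s t => intro v V V' _; exact Iff.rfl
  | mem t X =>
    intro v V V' h
    simp only [Fm.Sat]
    rw [h X rfl]
  | neg φ ih =>
    intro v V V' h
    simp only [Fm.Sat]
    rw [ih v V V' h]
  | and φ ψ ih ih' =>
    intro v V V' h
    simp only [Fm.Sat]
    rw [ih v V V' fun X hX => h X (Or.inl hX), ih' v V V' fun X hX => h X (Or.inr hX)]
  | all i φ ih =>
    intro v V V' h
    simp only [Fm.Sat]
    exact forall_congr' fun a => ih _ V V' h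
  | allS Y φ ih =>
    intro v V V' h
    simp only [Fm.Sat]
    refine forall₂_congr fun A _ => ih v _ _ fun X hX => ?_
    by_cases hXY : X = Y
    · subst hXY; simp
    · rw [Function.update_of_ne hXY, Function.update_of_ne hXY]
      exact h X ⟨fun e => hXY e.symm, hX⟩

theorem freeS_bound (φ : Fm) : ∃ B, ∀ X, φ.freeS X → X < B := by
  induction φ with
  | eq s t => exact ⟨0, fun X h => h.elim⟩
  | lt s t => exact ⟨0, fun X h => h.elim⟩
  | mem t Y => exact ⟨Y + 1, fun X h => by
      have : Y = X := h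
      omega⟩
  | neg φ ih => exact ih
  | and φ ψ ih ih' =>
    obtain ⟨B, hB⟩ := ih
    obtain ⟨B', hB'⟩ := ih'
    refine ⟨max B B', fun X h => ?_⟩
    rcases h with h | h
    · exact (hB X h).trans_le (le_max_left _ _)
    · exact (hB' X h).trans_le (le_max_right _ _)
  | all i φ ih => exact ih
  | allS Y φ ih =>
    obtain ⟨B, hB⟩ := ih
    exact ⟨B, fun X h => hB X h.2⟩

/-- the bounded quantifier -/
theorem sat_ball {S : Set (Set ℕ)} {v : ℕ → ℕ} {V : ℕ → Set ℕ} {φ : Fm} {i : ℕ} {t : Tm}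
    (hi : i ∉ t.vars) : (Fm.all i (Fm.imp (.lt (.var i) t) φ)).Sat S v V ↔
      ∀ a < t.val v, φ.Sat S (Function.update v i a) V := by
  rw [sat_all]
  refine forall_congr' fun a => ?_
  rw [sat_imp]
  have h1 : t.val (Function.update v i a) = t.val v := val_congr t fun x hx => by
    have hne : x ≠ i := by
      intro e
      subst e
      exact hi hx
    rw [Function.update_of_ne hne]
  have : (Fm.lt (.var i) t).Sat S (Function.update v i a) V ↔ a < t.val v := by
    show (Function.update v i a) i < t.val (Function.update v i a) ↔ _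
    rw [h1, Function.update_self]
  rw [this]

theorem sat_bdd {φ : Fm} (h : φ.Bdd) (S S' : Set (Set ℕ)) : ∀ (v : ℕ → ℕ) (V : ℕ → Set ℕ),
    (φ.Sat S v V ↔ φ.Sat S' v V) := by
  induction h with
  | eq s t => intro v V; exact Iff.rfl
  | lt s t => intro v V; exact Iff.rfl
  | mem t X => intro v V; exact Iff.rfl
  | neg _ ih => intro v V; exact not_congr (ih v V)
  | and _ _ ih ih' => intro v V; exact and_congr (ih v V) (ih' v V)
  | ball i t hi _ ih =>
    intro v V
    rw [sat_ball hi, sat_ball hi]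
    exact forall₂_congr fun a _ => ih _ V

/-! ### coding finitely many sets into a real -/

/-- the components of a real -/
def cmp : ℕ → (ℕ → ℕ) → ℕ → ℕ
  | 0, Y => lft Y
  | X + 1, Y => cmp X (rgt Y)

theorem cmp_idx (X m : ℕ) : ∃ k, ∀ Y : ℕ → ℕ, cmp X Y m = Y k := by
  induction X with
  | zero => exact ⟨2 * m, fun Y => rfl⟩
  | succ X ih =>
    obtain ⟨k, hk⟩ := ih
    exact ⟨2 * k + 1, fun Y => hk (rgt Y)⟩

/-- the real coding `V 0, …, V (B - 1)` and `F` -/
noncomputable def bld (F : ℕ → ℕ) : ℕ → (ℕ → Set ℕ) → ℕ → ℕ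
  | 0, _ => F
  | B + 1, V => join (chr (V 0)) (bld F B (fun X => V (X + 1)))

theorem cmp_bld (F : ℕ → ℕ) (B : ℕ) : ∀ (V : ℕ → Set ℕ) (X : ℕ), X < B →
    cmp X (bld F B V) = chr (V X) := by
  induction B with
  | zero => intro V X h; exact absurd h (Nat.not_lt_zero X)
  | succ B ih =>
    intro V X h
    cases X with
    | zero => simp only [cmp, bld, lft_join]
    | succ X =>
      simp only [cmp, bld, rgt_join]
      exact ih (fun X => V (X + 1)) X (Nat.lt_of_succ_lt_succ h)

theorem bld_mem {M : Set (ℕ → ℕ)} (hM : Ideal M) {F : ℕ → ℕ} (hF : F ∈ M) (B : ℕ) :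
    ∀ V : ℕ → Set ℕ, (∀ X, chr (V X) ∈ M) → bld F B V ∈ M := by
  induction B with
  | zero => intro V _; exact hF
  | succ B ih =>
    intro V hV
    exact hM.join_mem _ (hV 0) _ (ih _ fun X => hV (X + 1))

theorem red_bld (F : ℕ → ℕ) (B : ℕ) : ∀ V : ℕ → Set ℕ, Red F (bld F B V) := by
  induction B with
  | zero => intro V; exact Red.refl F
  | succ B ih => intro V; exact (ih _).trans (red_join_right _ _)

/-- the sets coded in a real -/
def VV (Y : ℕ → ℕ) (X : ℕ) : Set ℕ := {m | cmp X Y m = 1}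

theorem VV_bld (F : ℕ → ℕ) (B : ℕ) (V : ℕ → Set ℕ) {X : ℕ} (hX : X < B) :
    VV (bld F B V) X = V X := by
  ext m
  simp only [VV, Set.mem_ofPred_eq]
  rw [cmp_bld F B V X hX]
  simp [chr]

/-! ### local constancy -/

/-- the property `p` is constant near `Y` -/
def Loc (p : (ℕ → ℕ) → Prop) (Y : ℕ → ℕ) : Prop :=
  ∃ m, ∀ Y' : ℕ → ℕ, (∀ i < m, Y' i = Y i) → (p Y' ↔ p Y)

theorem Loc.not {p : (ℕ → ℕ) → Prop} {Y : ℕ → ℕ} (h : Loc p Y) : Loc (fun Y => ¬ p Y) Y := by
  obtain ⟨m, hm⟩ := h
  exact ⟨m, fun Y' hY => not_congr (hm Y' hY)⟩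

theorem Loc.and {p q : (ℕ → ℕ) → Prop} {Y : ℕ → ℕ} (h : Loc p Y) (h' : Loc q Y) :
    Loc (fun Y => p Y ∧ q Y) Y := by
  obtain ⟨m, hm⟩ := h
  obtain ⟨m', hm'⟩ := h'
  exact ⟨max m m', fun Y' hY => and_congr
    (hm Y' fun i hi => hY i (hi.trans_le (le_max_left _ _)))
    (hm' Y' fun i hi => hY i (hi.trans_le (le_max_right _ _)))⟩

theorem Loc.ball {p : ℕ → (ℕ → ℕ) → Prop} {Y : ℕ → ℕ} (h : ∀ a, Loc (p a) Y) (N : ℕ) :
    ∃ m, ∀ Y' : ℕ → ℕ, (∀ i < m, Y' i = Y i) → ∀ a < N, (p a Y' ↔ p a Y) := by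
  induction N with
  | zero => exact ⟨0, fun Y' _ a ha => absurd ha (Nat.not_lt_zero a)⟩
  | succ N ih =>
    obtain ⟨m, hm⟩ := ih
    obtain ⟨m', hm'⟩ := h N
    refine ⟨max m m', fun Y' hY a ha => ?_⟩
    rcases Nat.lt_succ_iff_lt_or_eq.1 ha with ha | rfl
    · exact hm Y' (fun i hi => hY i (hi.trans_le (le_max_left _ _))) a ha
    · exact hm' Y' (fun i hi => hY i (hi.trans_le (le_max_right _ _)))

theorem sat_loc {φ : Fm} (h : φ.Bdd) (Y : ℕ → ℕ) : ∀ v : ℕ → ℕ,
    Loc (fun Y => φ.Sat ∅ v (VV Y)) Y := by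
  induction h with
  | eq s t => intro v; exact ⟨0, fun Y' _ => Iff.rfl⟩
  | lt s t => intro v; exact ⟨0, fun Y' _ => Iff.rfl⟩
  | mem t X =>
    intro v
    obtain ⟨k, hk⟩ := cmp_idx X (t.val v)
    refine ⟨k + 1, fun Y' hY => ?_⟩
    show cmp X Y' (t.val v) = 1 ↔ cmp X Y (t.val v) = 1
    rw [hk, hk, hY k (Nat.lt_succ_self k)]
  | neg _ ih => intro v; exact (ih v).not
  | and _ _ ih ih' => intro v; exact (ih v).and (ih' v)
  | ball i t hi _ ih =>
    intro v
    obtain ⟨m, hm⟩ := Loc.ball (fun a => ih (Function.update v i a)) (t.val v)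
    refine ⟨m, fun Y' hY => ?_⟩
    beta_reduce
    rw [sat_ball hi, sat_ball hi]
    exact forall₂_congr fun a ha => hm Y' hY a ha

/-- the assignment coded by a list -/
def asg (l : List ℕ) : ℕ → ℕ := fun x => l.getD x 0

/-- the operator of `Δ⁰₁` comprehension -/
noncomputable def Psi (θ θ' : Fm) (i i' j : ℕ) (l : List ℕ) (Y : ℕ → ℕ) (n : ℕ) : ℕ :=
  if h : ∃ a, θ.Sat ∅ (Function.update (Function.update (asg l) j n) i a) (VV Y) ∨
      ¬ θ'.Sat ∅ (Function.update (Function.update (asg l) j n) i' a) (VV Y) then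
    if θ.Sat ∅ (Function.update (Function.update (asg l) j n) i (Nat.find h)) (VV Y) then 1 else 0
  else 0

theorem Psi_cont {θ θ' : Fm} (hθ : θ.Bdd) (hθ' : θ'.Bdd) (i i' j : ℕ) (l : List ℕ) (Y : ℕ → ℕ)
    (n : ℕ) (h : ∃ a, θ.Sat ∅ (Function.update (Function.update (asg l) j n) i a) (VV Y) ∨
      ¬ θ'.Sat ∅ (Function.update (Function.update (asg l) j n) i' a) (VV Y)) :
    ∃ m, ∀ Y' : ℕ → ℕ, (∀ i < m, Y' i = Y i) →
      Psi θ θ' i i' j l Y' n = Psi θ θ' i i' j l Y n := by
  obtain ⟨m, hm⟩ := Loc.ball (fun a => (sat_loc hθ Y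
    (Function.update (Function.update (asg l) j n) i a))) (Nat.find h + 1)
  obtain ⟨m', hm'⟩ := Loc.ball (fun a => (sat_loc hθ' Y
    (Function.update (Function.update (asg l) j n) i' a))) (Nat.find h + 1)
  refine ⟨max m m', fun Y' hY => ?_⟩
  have e1 := hm Y' fun i hi => hY i (hi.trans_le (le_max_left _ _))
  have e2 := hm' Y' fun i hi => hY i (hi.trans_le (le_max_right _ _))
  have h' : ∃ a, θ.Sat ∅ (Function.update (Function.update (asg l) j n) i a) (VV Y') ∨
      ¬ θ'.Sat ∅ (Function.update (Function.update (asg l) j n) i' a) (VV Y') := by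
    refine ⟨Nat.find h, ?_⟩
    rw [e1 _ (Nat.lt_succ_self _), e2 _ (Nat.lt_succ_self _)]
    exact Nat.find_spec h
  have hf : Nat.find h' = Nat.find h := by
    rw [Nat.find_eq_iff]
    refine ⟨?_, fun a ha => ?_⟩
    · rw [e1 _ (Nat.lt_succ_self _), e2 _ (Nat.lt_succ_self _)]
      exact Nat.find_spec h
    · rw [e1 _ (ha.trans (Nat.lt_succ_self _)), e2 _ (ha.trans (Nat.lt_succ_self _))]
      exact Nat.find_min h ha
  unfold Psi
  rw [dif_pos h', dif_pos h, hf]
  simp only [e1 _ (Nat.lt_succ_self _)]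

/-- the countably many instances of comprehension -/
abbrev Idx : Type := Fm × Fm × ℕ × ℕ × ℕ × List ℕ

/-- the base of the cone for an instance -/
noncomputable def base (q : Idx) : ℕ → ℕ :=
  (cont (Psi q.1 q.2.1 q.2.2.1 q.2.2.2.1 q.2.2.2.2.1 q.2.2.2.2.2)).choose

theorem base_spec (q : Idx) (Y : ℕ → ℕ) (hY : Red (base q) Y)
    (hc : ∀ n, ∃ m, ∀ Y' : ℕ → ℕ, (∀ i < m, Y' i = Y i) →
      Psi q.1 q.2.1 q.2.2.1 q.2.2.2.1 q.2.2.2.2.1 q.2.2.2.2.2 Y' n =
        Psi q.1 q.2.1 q.2.2.1 q.2.2.2.1 q.2.2.2.2.1 q.2.2.2.2.2 Y n) :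
    Red (Psi q.1 q.2.1 q.2.2.1 q.2.2.2.1 q.2.2.2.2.1 q.2.2.2.2.2 Y) Y :=
  (cont (Psi q.1 q.2.1 q.2.2.1 q.2.2.2.1 q.2.2.2.2.1 q.2.2.2.2.2)).choose_spec Y hY hc

theorem exists_base : ∃ F : ℕ → ℕ, ∀ q : Idx, Red (base q) F := by
  obtain ⟨F, hF⟩ := exists_upper (fun n => match (Encodable.decode n : Option Idx) with
    | some q => base q
    | none => fun _ => 0)
  refine ⟨F, fun q => ?_⟩
  have := hF (Encodable.encode q)
  simpa [Encodable.encodek] using this

theorem asg_range (v : ℕ → ℕ) (N x : ℕ) (hx : x < N) :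
    asg ((List.range N).map v) x = v x := by
  simp [asg, hx]

theorem comp_mem {F : ℕ → ℕ} (hF : ∀ q : Idx, Red (base q) F) {M : Set (ℕ → ℕ)} (hM : Ideal M)
    (hFM : F ∈ M) {θ θ' : Fm} (hθ : θ.Bdd) (hθ' : θ'.Bdd) (i i' j : ℕ) (v : ℕ → ℕ)
    (V : ℕ → Set ℕ) (hV : ∀ X, chr (V X) ∈ M)
    (H : ∀ n, (∃ a, θ.Sat {A | chr A ∈ M} (Function.update (Function.update v j n) i a) V) ↔
      ∀ a, θ'.Sat {A | chr A ∈ M} (Function.update (Function.update v j n) i' a) V) :
    chr {n | ∃ a, θ.Sat {A | chr A ∈ M} (Function.update (Function.update v j n) i a) V} ∈ M := by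
  obtain ⟨B, hB⟩ := freeS_bound θ
  obtain ⟨B', hB'⟩ := freeS_bound θ'
  obtain ⟨N, hN⟩ := (θ.vars ∪ θ'.vars).exists_nat_subset_range
  set l := (List.range N).map v with hl
  set Y := bld F (max B B') V with hY
  have hYM : Y ∈ M := bld_mem hM hFM _ V hV
  have key : ∀ (n a x : ℕ), x < N → ∀ i, Function.update (Function.update v j n) i a x =
      Function.update (Function.update (asg l) j n) i a x := by
    intro n a x hx i
    by_cases h1 : x = i
    · subst h1; simp
    · rw [Function.update_of_ne h1, Function.update_of_ne h1]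
      by_cases h2 : x = j
      · subst h2; simp
      · rw [Function.update_of_ne h2, Function.update_of_ne h2, hl, asg_range v N x hx]
  have s1 : ∀ n a, θ.Sat {A | chr A ∈ M} (Function.update (Function.update v j n) i a) V ↔
      θ.Sat ∅ (Function.update (Function.update (asg l) j n) i a) (VV Y) := by
    intro n a
    rw [sat_bdd hθ _ ∅]
    rw [sat_congr ∅ θ _ (Function.update (Function.update (asg l) j n) i a) V fun x hx =>
      key n a x (Finset.mem_range.1 (hN (Finset.mem_union_left _ hx))) i]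
    exact satS_congr ∅ θ _ _ _ fun X hX => (VV_bld F _ V ((hB X hX).trans_le (le_max_left _ _))).symm
  have s2 : ∀ n a, θ'.Sat {A | chr A ∈ M} (Function.update (Function.update v j n) i' a) V ↔
      θ'.Sat ∅ (Function.update (Function.update (asg l) j n) i' a) (VV Y) := by
    intro n a
    rw [sat_bdd hθ' _ ∅]
    rw [sat_congr ∅ θ' _ (Function.update (Function.update (asg l) j n) i' a) V fun x hx =>
      key n a x (Finset.mem_range.1 (hN (Finset.mem_union_right _ hx))) i']
    exact satS_congr ∅ θ' _ _ _ fun X hX =>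
      (VV_bld F _ V ((hB' X hX).trans_le (le_max_right _ _))).symm
  have hex : ∀ n, ∃ a, θ.Sat ∅ (Function.update (Function.update (asg l) j n) i a) (VV Y) ∨
      ¬ θ'.Sat ∅ (Function.update (Function.update (asg l) j n) i' a) (VV Y) := by
    intro n
    by_cases h : ∃ a, θ.Sat {A | chr A ∈ M} (Function.update (Function.update v j n) i a) V
    · obtain ⟨a, ha⟩ := h
      exact ⟨a, Or.inl ((s1 n a).1 ha)⟩
    · rw [H n] at h
      push Not at h
      obtain ⟨a, ha⟩ := h
      exact ⟨a, Or.inr fun h' => ha ((s2 n a).2 h')⟩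
  have hred := base_spec (θ, θ', i, i', j, l) Y ((hF _).trans (red_bld F _ V))
    (fun n => Psi_cont hθ hθ' i i' j l Y n (hex n))
  have heq : chr {n | ∃ a, θ.Sat {A | chr A ∈ M}
      (Function.update (Function.update v j n) i a) V} = Psi θ θ' i i' j l Y := by
    funext n
    unfold Psi
    rw [dif_pos (hex n)]
    by_cases h : ∃ a, θ.Sat {A | chr A ∈ M} (Function.update (Function.update v j n) i a) V
    · rw [show chr {n | ∃ a, θ.Sat {A | chr A ∈ M} (Function.update (Function.update v j n) i a) V} n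
        = 1 from if_pos h]
      have h2 := (H n).1 h
      rcases Nat.find_spec (hex n) with h3 | h3
      · rw [if_pos h3]
      · exact absurd ((s2 n _).1 (h2 _)) h3
    · rw [show chr {n | ∃ a, θ.Sat {A | chr A ∈ M} (Function.update (Function.update v j n) i a) V} n
        = 0 from if_neg h]
      have h3 : ¬ θ.Sat ∅ (Function.update (Function.update (asg l) j n) i (Nat.find (hex n)))
          (VV Y) := fun h' => h ⟨_, (s1 n _).2 h'⟩
      rw [if_neg h3]
  rw [heq]
  exact hM.down _ hYM _ hred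

theorem modelsRCA0_of_ideal : ∃ F : ℕ → ℕ, ∀ M : Set (ℕ → ℕ), Ideal M → F ∈ M →
    ModelsRCA0 {A | chr A ∈ M} := by
  obtain ⟨F, hF⟩ := exists_base
  refine ⟨F, fun M hM hFM φ hφ v V hV => ?_⟩
  cases hφ with
  | succ_ne => simp [Fm.Sat, Tm.val]
  | succ_inj => rw [sat_imp]; simp [Fm.Sat, Tm.val]
  | add_zero => simp [Fm.Sat, Tm.val]
  | add_succ => simp [Fm.Sat, Tm.val]; ring
  | mul_zero => simp [Fm.Sat, Tm.val]
  | mul_succ => simp [Fm.Sat, Tm.val]; ring
  | not_lt_zero => simp [Fm.Sat, Tm.val]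
  | lt_succ =>
    rw [sat_iff, sat_or]
    simp only [Fm.Sat, Tm.val]
    omega
  | ind θ i j z hθ hzj hz =>
    rw [sat_imp]
    rintro ⟨h0, hs⟩
    rw [sat_all]
    rw [sat_at (b := 0) (fun a => rfl)] at h0
    rw [sat_all] at hs
    intro n
    induction n with
    | zero => exact h0
    | succ n ih =>
      have h1 := hs n
      rw [sat_imp, sat_at (b := n) (fun a => by
          show Function.update (Function.update v z n) j a z = n
          rw [Function.update_of_ne hzj, Function.update_self]),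
        sat_at (b := n + 1) (fun a => by
          show Function.update (Function.update v z n) j a z + 1 = n + 1
          rw [Function.update_of_ne hzj, Function.update_self])] at h1
      have h2 : ∀ b, (Fm.ex i θ).Sat {A | chr A ∈ M}
          (Function.update (Function.update v z n) j b) V ↔
          (Fm.ex i θ).Sat {A | chr A ∈ M} (Function.update v j b) V := by
        intro b
        apply sat_congr
        intro x hx
        by_cases h3 : x = j
        · subst h3; simp
        · have hxz : x ≠ z := by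
            intro e
            subst e
            exact hz hx
          rw [Function.update_of_ne h3, Function.update_of_ne h3, Function.update_of_ne hxz]
      rw [h2, h2] at h1
      exact h1 ih
  | comp θ θ' i i' j X hθ hθ' hX =>
    rw [sat_imp]
    intro H
    rw [sat_all] at H
    have H' : ∀ n, (∃ a, θ.Sat {A | chr A ∈ M} (Function.update (Function.update v j n) i a) V) ↔
        ∀ a, θ'.Sat {A | chr A ∈ M} (Function.update (Function.update v j n) i' a) V := by
      intro n
      have := H n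
      rw [sat_iff, sat_ex, sat_all] at this
      exact this
    have hmem := comp_mem hF hM hFM hθ hθ' i i' j v V hV H'
    rw [sat_exS]
    refine ⟨_, hmem, ?_⟩
    rw [sat_all]
    intro n
    rw [sat_iff]
    rw [satS_congr _ (Fm.ex i θ) _ (Function.update V X _) V fun Y hY => by
      have hYX : Y ≠ X := by
        intro e
        subst e
        exact hX hY
      rw [Function.update_of_ne hYX]]
    rw [sat_ex]
    show (Function.update v j n) j ∈ (Function.update V X _) X ↔ _
    rw [Function.update_self, Function.update_self]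
    exact Iff.rfl

end Pool.Agent.RR
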